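import Pool.Agent.P7.Targets

/-!
# Relative basis, case `ab ≡ 3`, `c` even
-/

namespace P7

namespace BA

lemma sq_eq (m n : ℕ) : sq m n = √(m : ℝ) * √(n : ℝ) := by
  unfold sq
  push_cast
  exact Real.sqrt_mul (Nat.cast_nonneg _) _

lemma prod_eq (a b c : ℕ) : sq a b * sq a c = a * sq b c := by
  rw [sq_eq, sq_eq, sq_eq]
  have h : √(a : ℝ) * √(a : ℝ) = a := Real.mul_self_sqrt (Nat.cast_nonneg _)
  linear_combination (√(b : ℝ) * √(c : ℝ)) * h

/-- the vector with relative coordinates `w` -/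
def vv (a : ℕ) (u : ℤ) (w : Fin 4 → ℤ) : Fin 4 → ℤ :=
  vec (4 * w 0 + 4 * a * u * w 2 + 2 * a * u * w 3) (4 * w 1 + 2 * u * w 3) (4 * w 2 + 2 * w 3)
    (2 * w 3)

lemma val_vv (a b c : ℕ) (ha : a ≠ 0) (u : ℤ) (w : Fin 4 → ℤ) (j : Fin 4) :
    val a b c j (vv a u w) = bv (pm 0 (sq a b)) (pm (1 / 2) (sq a b / (2 * a)))
      (a * u + sq a c) (a * u - sq a c) w j := by
  have h := prod_eq a b c
  have ha' : (a : ℝ) ≠ 0 := Nat.cast_ne_zero.2 ha
  have h2 : sq b c = sq a b * sq a c / a := by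
    rw [h]
    field_simp
  fin_cases j <;>
  · simp only [val, bv, ev, vv, vec, pm, h2, Fin.mk_zero, Fin.mk_one, Fin.reduceFinMk,
      Matrix.cons_val_zero, Matrix.cons_val_one, Matrix.cons_val]
    push_cast
    field_simp
    ring

end BA

open BA in
theorem tBA (hLAM : T_LAM) (hLA : T_LA) : T_BA := by
  intro a b c hA hab hc u hu
  obtain ⟨hadd, hsmul, h4, h04, h004, -, -⟩ := hLAM a b c hA
  obtain ⟨hdiv, hgen⟩ := hLA a b c hA hab hc
  have ha : a ≠ 0 := by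
    rintro rfl
    simp at hab
  obtain ⟨u', rfl⟩ := hu
  refine ⟨fun v hv => ?_, fun w => ?_⟩
  · obtain ⟨⟨v0, h0⟩, ⟨v1, h1⟩, ⟨v2, h2⟩, ⟨t, h3⟩⟩ := hdiv v hv
    refine ⟨vec (v0 - a * u' * v2) (v1 - u' * (v2 - 2 * t)) t (v2 - 2 * t), fun j => ?_⟩
    rw [← val_vv a b c ha]
    congr 1
    funext i
    fin_cases i
    · simp [vv, vec]
      linear_combination h0
    · simp [vv, vec]
      linear_combination h1
    · simp [vv, vec]
      linear_combination h2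
    · simp [vv, vec]
      linear_combination h2 - h3
  · refine ⟨vv a (2 * u') w, ?_, val_vv a b c ha _ w⟩
    have e : vv a (2 * u') w = (w 0 + 2 * a * u' * w 2 + a * u' * w 3) • vec 4 0 0 0 +
        ((w 1 + u' * w 3) • vec 0 4 0 0 + (w 2 • vec 0 0 4 0 + w 3 • vec 0 0 2 2)) := by
      funext i
      fin_cases i <;> simp [vv, vec] <;> ring
    rw [e]
    exact hadd _ (hsmul _ h4 _) _ (hadd _ (hsmul _ h04 _) _
      (hadd _ (hsmul _ h004 _) _ (hsmul _ hgen _)))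

end P7
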