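import Pool.Agent.P7.LI

/-!
# P7-BB: relative basis, `a` odd, `b` even, `ac ≡ 3`
-/

namespace P7

namespace BB

lemma vec_ext (v : Fin 4 → ℤ) (x y z w : ℤ) (h0 : v 0 = x) (h1 : v 1 = y) (h2 : v 2 = z)
    (h3 : v 3 = w) : v = vec x y z w := by
  funext i
  fin_cases i
  · exact h0
  · exact h1
  · exact h2
  · exact h3

/-- the values of the vector with relative coordinates `w` -/
lemma val_eq (a b c : ℕ) (ha : (a : ℝ) ≠ 0) (u : ℤ) (w : Fin 4 → ℤ) (j : Fin 4) :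
    val a b c j (vec (4 * w 0 + 4 * a * u * w 2) (4 * w 1 + 2 * u * w 3) (4 * w 2) (2 * w 3)) =
      bv (pm 0 (sq a b)) (pm 0 (sq a b / (2 * a))) (a * u + sq a c) (a * u - sq a c) w j := by
  have e := LI.sq_mul a b c
  set P : ℝ := sq a b with hP
  set Q : ℝ := sq a c with hQ
  set R : ℝ := sq b c with hR
  have eR : R = P * Q / a := by
    rw [eq_div_iff ha, e]
    ring
  rw [val, bv, ← hP, ← hQ, ← hR, eR]
  fin_cases j
  · simp [ev, vec, pm]
    field_simp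
    ring
  · simp [ev, vec, pm]
    field_simp
    ring
  · simp [ev, vec, pm]
    field_simp
    ring
  · simp [ev, vec, pm]
    field_simp
    ring

end BB

open BB in
/-- BB -/
theorem tBB (hLAM : T_LAM) (hLB : T_LB) : T_BB := by
  intro a b c hA ha hb hac u hu
  obtain ⟨l1, l2, l3, l4, l5, l6, -⟩ := hLAM a b c hA
  obtain ⟨m1, m2⟩ := hLB a b c hA ha hb hac
  have ha0 : (a : ℝ) ≠ 0 := by
    have : a ≠ 0 := by
      rintro rfl
      omega
    exact_mod_cast this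
  constructor
  · intro v hv
    obtain ⟨h0, h2, h1, h3⟩ := m1 v hv
    obtain ⟨k0, hk0⟩ := h0
    obtain ⟨k2, hk2⟩ := h2
    obtain ⟨k1, hk1⟩ := h1
    obtain ⟨k3, hk3⟩ := h3
    obtain ⟨s, hs⟩ : ∃ s, u = 2 * s + 1 := ⟨u / 2, by omega⟩
    -- v3 = v1 - 4 k3 = 2 (k1 - 2 k3)
    have hv3 : v 3 = 2 * (k1 - 2 * k3) := by omega
    refine ⟨![k0 - a * u * k2, k3 - s * (k1 - 2 * k3), k2, k1 - 2 * k3], fun j => ?_⟩
    rw [← val_eq a b c ha0 u]
    congr 1
    refine vec_ext v _ _ _ _ ?_ ?_ ?_ ?_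
    · rw [hk0]
      simp
      ring
    · rw [hk1]
      simp
      rw [hs]
      ring
    · rw [hk2]
      simp
    · rw [hv3]
      simp
  · intro w
    refine ⟨_, ?_, val_eq a b c ha0 u w⟩
    obtain ⟨s, hs⟩ : ∃ s, u = 2 * s + 1 := ⟨u / 2, by omega⟩
    have e : vec (4 * w 0 + 4 * a * u * w 2) (4 * w 1 + 2 * u * w 3) (4 * w 2) (2 * w 3) =
        (w 0 + a * u * w 2) • vec 4 0 0 0 + ((w 1 + s * w 3) • vec 0 4 0 0 +
          (w 2 • vec 0 0 4 0 + w 3 • vec 0 2 0 2)) := by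
      symm
      refine vec_ext _ _ _ _ _ ?_ ?_ ?_ ?_
      · simp [vec]
        ring
      · simp [vec]
        rw [hs]
        ring
      · simp [vec]
        ring
      · simp [vec]
        ring
    rw [e]
    exact l1 _ (l2 _ l3 _) _ (l1 _ (l2 _ l4 _) _ (l1 _ (l2 _ l5 _) _ (l2 _ m2 _)))

end P7
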