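import Pool.Agent.P7.Targets

/-!
# P7-BC: the relative basis in the case `ac ≡ 1`, `ab ≢ 1`
-/

namespace P7

namespace BC

lemma sq_mul (a b c : ℕ) : sq a b * sq a c = a * sq b c := by
  unfold sq
  rw [← Real.sqrt_mul (by positivity)]
  have h : (((a * b : ℕ) : ℝ)) * ((a * c : ℕ) : ℝ) = (a : ℝ) ^ 2 * ((b * c : ℕ) : ℝ) := by
    push_cast
    ring
  rw [h, Real.sqrt_mul (by positivity), Real.sqrt_sq (by positivity)]

lemma div_mul_sq {a : ℕ} (ha : a ≠ 0) (b c : ℕ) : sq a b / a * sq a c = sq b c := by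
  have h := sq_mul a b c
  have ha' : (a : ℝ) ≠ 0 := by exact_mod_cast ha
  field_simp
  linarith

lemma value {a : ℕ} (ha : a ≠ 0) (b c : ℕ) (u : ℤ) (w : Fin 4 → ℤ) (j : Fin 4) :
    val a b c j (vec (4 * w 0 + 2 * a * u * w 2) (4 * w 1 + 2 * u * w 3) (2 * w 2) (2 * w 3)) =
      bv (pm 0 (sq a b)) (pm 0 (sq a b / a)) ((a * u + sq a c) / 2) ((a * u - sq a c) / 2) w j := by
  have h := div_mul_sq ha b c
  have ha' : (a : ℝ) ≠ 0 := by exact_mod_cast ha
  have h2 : sq a b / a * a = sq a b := by field_simp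
  fin_cases j
  · simp only [val, bv, pm, vec, ev, Fin.zero_eta, Matrix.cons_val_zero, Matrix.cons_val_one,
      Matrix.cons_val]
    push_cast
    linear_combination (-(w 3 : ℝ) / 2) * h - (w 3 : ℝ) * u / 2 * h2
  · simp only [val, bv, pm, vec, ev, Fin.mk_one, Matrix.cons_val_zero, Matrix.cons_val_one,
      Matrix.cons_val]
    push_cast
    linear_combination ((w 3 : ℝ) / 2) * h - (w 3 : ℝ) * u / 2 * h2
  · simp only [val, bv, pm, vec, ev, Fin.reduceFinMk, Matrix.cons_val_zero, Matrix.cons_val_one,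
      Matrix.cons_val]
    push_cast
    linear_combination ((w 3 : ℝ) / 2) * h + (w 3 : ℝ) * u / 2 * h2
  · simp only [val, bv, pm, vec, ev, Fin.reduceFinMk, Matrix.cons_val_zero, Matrix.cons_val_one,
      Matrix.cons_val]
    push_cast
    linear_combination (-(w 3 : ℝ) / 2) * h + (w 3 : ℝ) * u / 2 * h2

end BC

theorem tBC (hLAM : T_LAM) (hLC : T_LC) : T_BC := by
  intro a b c hadm hac hab u hu
  obtain ⟨hadd, hsmul, h4000, h0400, -, -, -⟩ := hLAM a b c hadm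
  obtain ⟨hcong, h2020, h0202⟩ := hLC a b c hadm hac hab
  have ha0 : a ≠ 0 := by
    rintro rfl
    simp at hac
  have haodd : a % 2 = 1 := by
    rcases Nat.mod_two_eq_zero_or_one a with h | h
    · exfalso
      obtain ⟨k, rfl⟩ : 2 ∣ a := Nat.dvd_of_mod_eq_zero h
      have : 2 * k * c = 2 * (k * c) := by ring
      rw [this] at hac
      omega
    · exact h
  have huodd : u % 2 = 1 := by omega
  have hau : ((a : ℤ) * u) % 2 = 1 := by
    rw [Int.mul_emod, huodd]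
    have : (a : ℤ) % 2 = 1 := by omega
    rw [this]
    rfl
  constructor
  · intro v hv
    obtain ⟨c1, c2, c3, c4⟩ := hcong v hv
    have e1 : ∃ w0 : ℤ, v 0 = 4 * w0 + a * u * v 2 := by
      obtain ⟨s, hs⟩ : ∃ s, (a : ℤ) * u = 2 * s + 1 := ⟨(a * u) / 2, by omega⟩
      obtain ⟨r, hr⟩ : ∃ r, v 2 = 2 * r := ⟨v 2 / 2, by omega⟩
      rw [hs, hr]
      obtain ⟨q, hq⟩ := c3
      refine ⟨q - s * r, ?_⟩
      rw [hr] at hq
      linear_combination hq
    have e2 : ∃ w1 : ℤ, v 1 = 4 * w1 + u * v 3 := by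
      obtain ⟨s, hs⟩ : ∃ s, u = 2 * s + 1 := ⟨u / 2, by omega⟩
      obtain ⟨r, hr⟩ : ∃ r, v 3 = 2 * r := ⟨v 3 / 2, by omega⟩
      rw [hs, hr]
      obtain ⟨q, hq⟩ := c4
      refine ⟨q - s * r, ?_⟩
      rw [hr] at hq
      linear_combination hq
    obtain ⟨w0, hw0⟩ := e1
    obtain ⟨w1, hw1⟩ := e2
    obtain ⟨r2, hr2⟩ : ∃ r, v 2 = 2 * r := ⟨v 2 / 2, by omega⟩
    obtain ⟨r3, hr3⟩ : ∃ r, v 3 = 2 * r := ⟨v 3 / 2, by omega⟩
    refine ⟨![w0, w1, r2, r3], fun j => ?_⟩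
    rw [← BC.value ha0 b c u ![w0, w1, r2, r3] j]
    congr 1
    ext i
    fin_cases i
    · simp only [vec, Fin.zero_eta, Matrix.cons_val_zero, Matrix.cons_val]
      rw [hw0, hr2]; ring
    · simp only [vec, Fin.mk_one, Matrix.cons_val_zero, Matrix.cons_val_one, Matrix.cons_val]
      rw [hw1, hr3]; ring
    · simp only [vec, Fin.reduceFinMk, Matrix.cons_val]
      rw [hr2]
    · simp only [vec, Fin.reduceFinMk, Matrix.cons_val]
      rw [hr3]
  · intro w
    refine ⟨_, ?_, fun j => BC.value ha0 b c u w j⟩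
    obtain ⟨s, hs⟩ : ∃ s, (a : ℤ) * u = 2 * s + 1 := ⟨(a * u) / 2, by omega⟩
    obtain ⟨t, ht⟩ : ∃ t, u = 2 * t + 1 := ⟨u / 2, by omega⟩
    have h1 : vec (4 * w 0 + 2 * a * u * w 2) (4 * w 1 + 2 * u * w 3) (2 * w 2) (2 * w 3) =
        (w 0 + w 2 * s) • vec 4 0 0 0 + ((w 1 + w 3 * t) • vec 0 4 0 0 +
          (w 2 • vec 2 0 2 0 + w 3 • vec 0 2 0 2)) := by
      ext i
      fin_cases i
      · simp [vec]
        linear_combination 2 * w 2 * hs
      · simp [vec]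
        linear_combination 2 * w 3 * ht
      · simp [vec]; ring
      · simp [vec]; ring
    rw [h1]
    exact hadd _ (hsmul _ h4000 _) _ (hadd _ (hsmul _ h0400 _) _
      (hadd _ (hsmul _ h2020 _) _ (hsmul _ h0202 _)))

end P7
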