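import Pool.Agent.P7.Targets

/-!
# Relative bases, `ab ≡ 1`, `ac ≢ 1`
-/

open Filter Topology
open scoped NumberField

namespace P7

namespace BD

theorem sq_mul (a b c : ℕ) : sq a b * sq a c = a * sq b c := by
  unfold sq
  rw [← Real.sqrt_mul (Nat.cast_nonneg _)]
  have h : (((a * b : ℕ) : ℝ) * ((a * c : ℕ) : ℝ)) = (a : ℝ) ^ 2 * ((b * c : ℕ) : ℝ) := by
    push_cast
    ring
  rw [h, Real.sqrt_mul (by positivity), Real.sqrt_sq (Nat.cast_nonneg _)]

/-- the vector with relative coordinates `w` -/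
def comb (a : ℕ) (u : ℤ) (w : Fin 4 → ℤ) : Fin 4 → ℤ :=
  vec (4 * w 0 + 2 * w 1 + 4 * (a * u) * w 2 + 2 * (a * u) * w 3) (2 * w 1 + 2 * u * w 3)
    (4 * w 2 + 2 * w 3) (2 * w 3)

theorem val_comb (a b c : ℕ) (ha : a ≠ 0) (u : ℤ) (w : Fin 4 → ℤ) (j : Fin 4) :
    val a b c j (comb a u w) = bv (pm (1 / 2) (sq a b / 2)) (pm (1 / 2) (sq a b / (2 * a)))
      (a * u + sq a c) (a * u - sq a c) w j := by
  have ha' : (a : ℝ) ≠ 0 := Nat.cast_ne_zero.2 ha
  have h := sq_mul a b c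
  have h' : sq b c = sq a b * sq a c / a := by
    rw [h]
    field_simp
  fin_cases j <;>
  · simp only [val, bv, pm, ev, comb, vec, Matrix.cons_val_zero, Matrix.cons_val_one,
      Matrix.cons_val, Fin.zero_eta, Fin.mk_one, Fin.reduceFinMk]
    rw [h']
    push_cast
    field_simp
    ring

end BD

open BD in
theorem tBD (hLAM : T_LAM) (hLD : T_LD) : T_BD := by
  intro a b c hA h1 h2 u
  obtain ⟨l1, l2, l3, l4, l5, l6, -⟩ := hLAM a b c hA
  obtain ⟨d1, d2, d3⟩ := hLD a b c hA h1 h2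
  have ha : a % 2 = 1 := by
    rcases Nat.mod_two_eq_zero_or_one a with h | h
    · exfalso
      have : (a * b) % 2 = 0 := by rw [Nat.mul_mod, h]; simp
      omega
    · exact h
  have ha0 : a ≠ 0 := by
    rintro rfl
    simp at ha
  obtain ⟨a', ha'⟩ : ∃ a' : ℤ, (a : ℤ) = 2 * a' + 1 := ⟨(a : ℤ) / 2, by omega⟩
  refine ⟨fun v hv => ?_, fun w => ⟨comb a u w, ?_, fun j => val_comb a b c ha0 u w j⟩⟩
  · obtain ⟨e1, e2, e3, e4⟩ := d1 v hv
    obtain ⟨p, hp⟩ := e1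
    obtain ⟨q, hq⟩ := e2
    obtain ⟨r, hr⟩ := e3
    obtain ⟨s, hs⟩ := e4
    refine ⟨vec (r - a' * u * (q - 2 * s) - a * u * s) (p - 2 * r - u * (q - 2 * s)) s (q - 2 * s),
      fun j => ?_⟩
    rw [← val_comb a b c ha0 u _ j]
    congr 1
    funext i
    fin_cases i <;> simp only [comb, vec, Matrix.cons_val_zero, Matrix.cons_val_one,
      Matrix.cons_val, Fin.zero_eta, Fin.mk_one, Fin.reduceFinMk]
    · rw [hp, ha']
      ring
    · linarith
    · linarith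
    · linarith
  · have hcomb : comb a u w = (w 0 + a * u * w 2 + a' * u * w 3) • vec 4 0 0 0 +
        (w 1 + u * w 3) • vec 2 2 0 0 + w 2 • vec 0 0 4 0 + w 3 • vec 0 0 2 2 := by
      funext i
      fin_cases i <;> simp only [comb, vec, Pi.add_apply, Pi.smul_apply, smul_eq_mul,
        Matrix.cons_val_zero, Matrix.cons_val_one,
        Matrix.cons_val, Fin.zero_eta, Fin.mk_one, Fin.reduceFinMk]
      · rw [ha']
        ring
      · ring
      · ring
      · ring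
    rw [hcomb]
    exact l1 _ (l1 _ (l1 _ (l2 _ l3 _) _ (l2 _ d2 _)) _ (l2 _ l5 _)) _ (l2 _ d3 _)

end P7
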