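import Pool.Agent.P7.Targets

/-!
# Relative basis in the case `ab ≡ ac ≡ 1` modulo `4`
-/

namespace P7

namespace BE

theorem odd_mul (x y : ℤ) (hx : ¬ 2 ∣ x) (hy : ¬ 2 ∣ y) : (4 : ℤ) ∣ x * y - x - y + 1 := by
  obtain ⟨k, hk⟩ : ∃ k, x = 2 * k + 1 := ⟨x / 2, by omega⟩
  obtain ⟨l, hl⟩ : ∃ l, y = 2 * l + 1 := ⟨y / 2, by omega⟩
  refine ⟨k * l, ?_⟩
  subst hk hl
  ring

theorem odd_mul' (x y : ℤ) (hx : ¬ 2 ∣ x) (hy : ¬ 2 ∣ y) : ¬ (2 : ℤ) ∣ x * y := by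
  have := odd_mul x y hx hy
  omega

/-- The vector with coordinates `w` in the basis. -/
def cmb (a : ℕ) (u : ℤ) (w : Fin 4 → ℤ) : Fin 4 → ℤ :=
  vec (4 * w 0 + 2 * w 1 + 2 * (a * u) * w 2 + a * u * w 3) (2 * w 1 + u * w 3) (2 * w 2 + w 3) (w 3)

theorem sq_mul (a b c : ℕ) : sq a b * sq a c = a * sq b c := by
  unfold sq
  rw [← Real.sqrt_mul (by positivity)]
  have h : (((a * b : ℕ) : ℝ) * ((a * c : ℕ) : ℝ)) = (a : ℝ) ^ 2 * ((b * c : ℕ) : ℝ) := by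
    push_cast
    ring
  rw [h, Real.sqrt_mul (by positivity), Real.sqrt_sq (by positivity)]

theorem val_cmb (a b c : ℕ) (ha : a ≠ 0) (u : ℤ) (w : Fin 4 → ℤ) (j : Fin 4) :
    val a b c j (cmb a u w) = bv (pm (1 / 2) (sq a b / 2)) (pm (1 / 2) (sq a b / (2 * a)))
      ((a * u + sq a c) / 2) ((a * u - sq a c) / 2) w j := by
  have ha' : (a : ℝ) ≠ 0 := by exact_mod_cast ha
  have h := sq_mul a b c
  have hR : sq b c = sq a b * sq a c / a := by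
    rw [h]
    field_simp
  fin_cases j <;>
    · simp [val, ev, cmb, vec, bv, pm, hR]
      field_simp
      ring

end BE

open BE in
theorem tBE (hLAM : T_LAM) (hLE : T_LE) : T_BE := by
  intro a b c hadm hab hac u hu
  obtain ⟨hadd, hsmul, h4, -, -, -, -⟩ := hLAM a b c hadm
  obtain ⟨hcong, h22, h202, hau⟩ := hLE a b c hadm hab hac
  have ha0 : a ≠ 0 := by
    rintro rfl
    simp at hab
  have haodd : ¬ (2 : ℤ) ∣ (a : ℤ) := by
    intro h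
    have h2 : 2 ∣ a := by exact_mod_cast h
    have : 2 ∣ a * b := Dvd.dvd.mul_right h2 b
    omega
  have hcodd : ¬ (2 : ℤ) ∣ (c : ℤ) := by
    intro h
    have h2 : 2 ∣ c := by exact_mod_cast h
    have : 2 ∣ a * c := Dvd.dvd.mul_left h2 a
    omega
  have hauodd : ¬ (2 : ℤ) ∣ (a : ℤ) * u := odd_mul' _ _ haodd hu
  have hmem : ∀ w : Fin 4 → ℤ, cmb a u w ∈ Lam a b c := by
    intro w
    have e : cmb a u w = (w 0 + (a * u - 1) / 2 * w 2) • vec 4 0 0 0 + w 1 • vec 2 2 0 0 +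
        w 2 • vec 2 0 2 0 + w 3 • vec (a * u) u 1 1 := by
      have hd : 2 * (((a : ℤ) * u - 1) / 2) = a * u - 1 := by omega
      funext i
      fin_cases i
      · simp [cmb, vec]
        linear_combination (-2 * w 2) * hd
      · simp [cmb, vec]
        ring
      · simp [cmb, vec]
        ring
      · simp [cmb, vec]
    rw [e]
    exact hadd _ (hadd _ (hadd _ (hsmul _ h4 _) _ (hsmul _ h22 _)) _ (hsmul _ h202 _)) _
      (hsmul _ (hau u hu) _)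
  refine ⟨fun v hv => ?_, fun w => ⟨cmb a u w, hmem w, val_cmb a b c ha0 u w⟩⟩
  have key : (2 : ℤ) ∣ v 2 - v 3 ∧ (2 : ℤ) ∣ v 1 - u * v 3 ∧ (4 : ℤ) ∣ v 0 - v 1 + u * v 3 - a * u * v 2 := by
    rcases hcong v hv with ⟨h0, h1, h2, h3, h4⟩ | ⟨h0, h1, h2, h3, h4⟩
    · obtain ⟨t0, ht0⟩ := h0
      obtain ⟨t1, ht1⟩ := h1
      obtain ⟨t2, ht2⟩ := h2
      obtain ⟨t3, ht3⟩ := h3
      obtain ⟨k, hk⟩ : ∃ k, u = 2 * k + 1 := ⟨u / 2, by omega⟩
      obtain ⟨l, hl⟩ : ∃ l, (a : ℤ) * u = 2 * l + 1 := ⟨(a : ℤ) * u / 2, by omega⟩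
      rw [ht0, ht1, ht2, ht3] at h4
      refine ⟨⟨t2 - t3, by rw [ht2, ht3]; ring⟩, ⟨t1 - u * t3, by rw [ht1, ht3]; ring⟩, ?_⟩
      have e : v 0 - v 1 + u * v 3 - a * u * v 2 =
          (2 * t0 + 2 * t1 + 2 * t2 + 2 * t3) + 4 * (k * t3 - l * t2 - t1 - t2) := by
        rw [hl, hk, ht0, ht1, ht2, ht3]
        ring
      rw [e]
      exact dvd_add h4 (Dvd.intro _ rfl)
    · have e1 := odd_mul _ _ h2 h3
      have e2 := odd_mul _ _ hcodd h0
      have e3 := odd_mul _ _ (odd_mul' _ _ hcodd h0) h1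
      have e4 := odd_mul _ _ hu h3
      have e5 := odd_mul _ _ haodd hu
      have e6 := odd_mul _ _ hauodd h2
      have e7 := odd_mul _ _ haodd hcodd
      have e8 : ((a : ℤ) * c) % 4 = 1 := by exact_mod_cast hac
      refine ⟨by omega, by omega, by omega⟩
  obtain ⟨⟨p, hp⟩, ⟨q, hq⟩, ⟨r, hr⟩⟩ := key
  refine ⟨vec r q p (v 3), fun j => ?_⟩
  rw [← val_cmb a b c ha0 u (vec r q p (v 3)) j]
  congr 1
  funext i
  fin_cases i
  · simp [cmb, vec]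
    linear_combination hr + hq + (a * u) * hp
  · simp [cmb, vec]
    linear_combination hq
  · simp [cmb, vec]
    linear_combination hp
  · simp [cmb, vec]

end P7
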