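import Pool.Agent.P7.Targets

/-!
# Target BRIDGE: from the ring of integers to coordinates
-/

open scoped NumberField

namespace P7

namespace BRIDGE

theorem mono {R : Type*} [CommRing R] {n : ℕ} {α : R} (h : SumSq R n α) : SumSq R (n + 1) α := by
  obtain ⟨f, hf⟩ := h
  refine ⟨Fin.cons 0 f, ?_⟩
  rw [Fin.sum_univ_succ]
  simp [hf]

theorem mono' {R : Type*} [CommRing R] {n m : ℕ} {α : R} (h : SumSq R n α) (hnm : n ≤ m) :
    SumSq R m α := by
  induction m, hnm using Nat.le_induction with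
  | base => exact h
  | succ k _ ih => exact mono ih

theorem six {R : Type*} [CommRing R] {α : R} (hR : ¬ 7 ≤ pythagorasNumber R) (h : SumSq R 7 α) :
    SumSq R 6 α := by
  by_contra h6
  apply hR
  have hmem : SumSq R (len R α) α := Nat.sInf_mem (s := {n | SumSq R n α}) ⟨7, h⟩
  have h7 : 7 ≤ len R α := by
    by_contra hlt
    exact h6 (mono' hmem (by omega))
  have h7' : (7 : ℕ∞) ≤ (len R α : ℕ∞) := by exact_mod_cast h7
  exact le_iSup_of_le (f := fun α : {α : R // ∃ n, SumSq R n α} => (len R α.1 : ℕ∞)) ⟨α, 7, h⟩ h7'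

theorem sq_mul (a b c : ℕ) : sq a b * sq a c = a * sq b c := by
  unfold sq
  rw [← Real.sqrt_mul (Nat.cast_nonneg _)]
  have h1 : (((a * b : ℕ) : ℝ) * ((a * c : ℕ) : ℝ)) = (a : ℝ) ^ 2 * ((b * c : ℕ) : ℝ) := by
    push_cast; ring
  rw [h1, Real.sqrt_mul (by positivity), Real.sqrt_sq (Nat.cast_nonneg _)]

theorem val_mem (a b c : ℕ) (ha : a ≠ 0) (v : Fin 4 → ℤ) :
    val a b c 0 v ∈ biquad (a * b) (a * c) := by
  have h1 : sq a b ∈ biquad (a * b) (a * c) :=
    IntermediateField.subset_adjoin ℚ _ (by simp [sq])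
  have h2 : sq a c ∈ biquad (a * b) (a * c) :=
    IntermediateField.subset_adjoin ℚ _ (by simp [sq])
  have hn : ∀ n : ℕ, (n : ℝ) ∈ biquad (a * b) (a * c) := fun n => natCast_mem _ n
  have hz : ∀ n : ℤ, (n : ℝ) ∈ biquad (a * b) (a * c) := fun n => intCast_mem _ n
  have ha' : (a : ℝ) ≠ 0 := by exact_mod_cast ha
  have h3 : sq b c ∈ biquad (a * b) (a * c) := by
    have : sq b c = sq a b * sq a c / a := by
      rw [sq_mul]; field_simp
    rw [this]
    exact div_mem (mul_mem h1 h2) (hn a)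
  have h4 : (4 : ℝ) ∈ biquad (a * b) (a * c) := by exact_mod_cast hn 4
  have hv : val a b c 0 v =
      ((v 0 : ℝ) + v 1 * sq a b + v 2 * sq a c + v 3 * sq b c) / 4 := by
    simp [val, ev]
  rw [hv]
  exact div_mem (add_mem (add_mem (add_mem (hz _) (mul_mem (hz _) h1)) (mul_mem (hz _) h2))
    (mul_mem (hz _) h3)) h4

end BRIDGE

open BRIDGE in
theorem tBRIDGE (hCOORD : T_COORD) (hFOUR : T_FOUR) (hPLACES : T_PLACES) : T_BRIDGE := by
  intro a b c hadm hK f hf
  have ha : a ≠ 0 := by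
    rintro rfl
    have := hadm.1
    simp at this
  -- the ring elements
  have hint : ∀ ν, IsIntegral ℤ (⟨val a b c 0 (f ν), val_mem a b c ha (f ν)⟩ : biquad (a * b) (a * c)) := by
    intro ν
    have h : IsIntegral ℤ (val a b c 0 (f ν)) := hf ν
    have hinj : Function.Injective (algebraMap (biquad (a * b) (a * c)) ℝ) :=
      (algebraMap (biquad (a * b) (a * c)) ℝ).injective
    exact (isIntegral_algebraMap_iff hinj).1 h
  obtain ⟨G, hG⟩ := six hK (α := ∑ ν, (⟨_, hint ν⟩ : 𝓞 (biquad (a * b) (a * c))) ^ 2) ⟨_, rfl⟩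
  -- coordinates of the new elements
  have hGi : ∀ ν, IsIntegral ℤ (((G ν : biquad (a * b) (a * c)) : ℝ)) := by
    intro ν
    have h := (G ν).2
    exact IsIntegral.map (algebraMap (biquad (a * b) (a * c)) ℝ).toIntAlgHom h
  have hco : ∀ ν, ∃ v : Fin 4 → ℤ, val a b c 0 v = ((G ν : biquad (a * b) (a * c)) : ℝ) := by
    intro ν
    obtain ⟨x, y, z, t, hx⟩ := hCOORD a b c hadm _ (G ν : biquad (a * b) (a * c)).2
    have h1 := hGi ν
    rw [hx] at h1
    obtain ⟨v, h0, h1', h2, h3⟩ := hFOUR a b c hadm x y z t h1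
    refine ⟨v, ?_⟩
    rw [hx]
    have e0 : (4 : ℝ) * x = v 0 := by exact_mod_cast h0
    have e1 : (4 : ℝ) * y = v 1 := by exact_mod_cast h1'
    have e2 : (4 : ℝ) * z = v 2 := by exact_mod_cast h2
    have e3 : (4 : ℝ) * t = v 3 := by exact_mod_cast h3
    simp only [val, ev, Matrix.cons_val_zero]
    rw [← e0, ← e1, ← e2, ← e3]
    ring
  choose g hg using hco
  refine ⟨g, fun ν => ?_, ?_⟩
  · show IsIntegral ℤ (val a b c 0 (g ν))
    rw [hg]
    exact hGi ν
  · apply hPLACES a b c hadm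
    let φ : 𝓞 (biquad (a * b) (a * c)) →+* ℝ :=
      (algebraMap (biquad (a * b) (a * c)) ℝ).comp
        (algebraMap (𝓞 (biquad (a * b) (a * c))) (biquad (a * b) (a * c)))
    have h := congrArg φ hG
    have e1 := map_sum φ (fun ν => (⟨_, hint ν⟩ : 𝓞 (biquad (a * b) (a * c))) ^ 2) Finset.univ
    have e2 := map_sum φ (fun ν => G ν ^ 2) Finset.univ
    have h3 := e1.symm.trans (h.trans e2)
    simp only [map_pow] at h3
    simp only [hg]
    exact h3.symm

end P7
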