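import Pool.Agent.P7.Targets

/-!
# Relative bases and long forms give good `c` (job P7-BT)
-/

open Filter Topology

namespace P7

theorem pBT (hRR : T_RR) : T_BT := by
  intro a b x θ hx hθ hL S D hS
  by_contra hcon
  push Not at hcon
  choose c hcS hcB hbad using hcon
  choose yp ym hyp hym hrel using fun n => hS (c n) (hcS n)
  obtain ⟨W', hW'⟩ := hL
  have hY : Tendsto yp atTop atTop := by
    refine tendsto_atTop_mono hyp ?_
    refine Tendsto.atTop_div_const (by norm_num) ?_
    refine Real.tendsto_sqrt_atTop.comp ?_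
    refine tendsto_natCast_atTop_atTop.comp ?_
    exact tendsto_atTop_mono hcB tendsto_id
  obtain ⟨W, hW⟩ := hRR x θ hx hθ yp ym hY D hym W' (fun n => by
    choose f hfL hf using fun ν => (hrel n).2 (W' ν)
    obtain ⟨g, hgL, hg⟩ := hbad n f hfL
    choose W hW using fun ν => (hrel n).1 (g ν) (hgL ν)
    refine ⟨W, fun j => ?_⟩
    have := hg j
    simp only [hW, hf] at this
    exact this)
  exact hW' W hW

end P7
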