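import Pool.Agent.P7.Targets

open Filter Topology

namespace P7

namespace CASEA

lemma ev_add (P Q R : ℝ) (u v : Fin 4 → ℤ) : ev P Q R (u + v) = ev P Q R u + ev P Q R v := by
  simp only [ev, Pi.add_apply, Int.cast_add]; ring

lemma ev_smul (P Q R : ℝ) (t : ℤ) (v : Fin 4 → ℤ) : ev P Q R (t • v) = t * ev P Q R v := by
  simp only [ev, Pi.smul_apply, smul_eq_mul, Int.cast_mul]; ring

lemma val_add (a b c : ℕ) (j : Fin 4) (u v : Fin 4 → ℤ) :
    val a b c j (u + v) = val a b c j u + val a b c j v := by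
  fin_cases j <;> exact ev_add _ _ _ u v

lemma val_smul (a b c : ℕ) (j : Fin 4) (t : ℤ) (v : Fin 4 → ℤ) :
    val a b c j (t • v) = t * val a b c j v := by
  fin_cases j <;> exact ev_smul _ _ _ t v

lemma val_const (a b c : ℕ) (j : Fin 4) (t : ℤ) : val a b c j (vec t 0 0 0) = t / 4 := by
  fin_cases j <;> simp [val, ev, vec]

lemma sq_mono {m n m' n' : ℕ} (h : m * n ≤ m' * n') : sq m n ≤ sq m' n' := by
  unfold sq
  exact Real.sqrt_le_sqrt (by exact_mod_cast h)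

lemma basisA (hHNF : T_HNF) (hRED : T_RED) (hDET : T_DET) (hLAM : T_LAM) (a b c : ℕ) (h1 : 1 ≤ a)
    (hab : a < b) (hbc : b < c) (hadm : Adm a b c) :
    ∃ e : Fin 3 → Fin 4 → ℤ, (∀ μ, e μ ∈ Lam a b c) ∧
      (∀ v ∈ Lam a b c, ∃ w : Fin 4 → ℤ, v = w 0 • vec 4 0 0 0 + ∑ μ : Fin 3, w μ.succ • e μ) ∧
      (∀ μ, |val a b c 0 (e μ)| ≤ 100 * sq b c ∧ |val a b c 1 (e μ)| ≤ 100 * sq a b ∧
        |val a b c 2 (e μ)| ≤ 100 * sq a c ∧ |val a b c 3 (e μ)| ≤ 100) ∧
      1 / 4 * (sq b c * sq a b * sq a c) ≤ |(mat4 (fun j μ => val a b c j (e μ))).det| := by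
  obtain ⟨hadd, hsmul, m0, m1, m2, m3, hrat⟩ := hLAM a b c hadm
  obtain ⟨x0, x1, y0, y1, y2, z0, z1, z2, z3, hx, hy, hz, hx1, hx1', hy2, hy2', hz3, hz3', hspan⟩ :=
    hHNF (Lam a b c) hadd hsmul m0 m1 m2 m3 hrat
  have hP1 : 1 ≤ sq a b := by
    unfold sq
    rw [Real.one_le_sqrt]
    have : 1 ≤ a * b := Nat.mul_pos (by omega) (by omega)
    exact_mod_cast this
  have hPQ : sq a b ≤ sq a c := sq_mono (Nat.mul_le_mul_left a hbc.le)
  have hQR : sq a c ≤ sq b c := sq_mono (Nat.mul_le_mul_right c hab.le)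
  obtain ⟨x0', y0', y1', z0', z1', z2', ⟨t1, ht1⟩, ⟨t2, u2, ht2⟩, ⟨t3, u3, w3, ht3⟩, hbd⟩ :=
    hRED (sq a b) (sq a c) (sq b c) hP1 hPQ hQR x0 x1 y0 y1 y2 z0 z1 z2 z3 hx1 hx1' hy2 hy2' hz3 hz3'
  have hx' : vec x0' x1 0 0 ∈ Lam a b c := by
    rw [ht1]; exact hadd _ hx _ (hsmul _ m0 _)
  have hy' : vec y0' y1' y2 0 ∈ Lam a b c := by
    rw [ht2]; exact hadd _ (hadd _ hy _ (hsmul _ hx _)) _ (hsmul _ m0 _)
  have hz' : vec z0' z1' z2' z3 ∈ Lam a b c := by
    rw [ht3]; exact hadd _ (hadd _ (hadd _ hz _ (hsmul _ hy _)) _ (hsmul _ hx _)) _ (hsmul _ m0 _)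
  refine ⟨![vec x0' x1 0 0, vec y0' y1' y2 0, vec z0' z1' z2' z3], ?_, ?_, ?_, ?_⟩
  · intro μ
    fin_cases μ
    · exact hx'
    · exact hy'
    · exact hz'
  · intro v hv
    obtain ⟨s0, s1, s2, s3, hs⟩ := hspan v hv
    -- x = x' - t1, y = y' - u2 x - t2, z = z' - w3 y - u3 x - t3
    refine ⟨![s0 - s1 * t1 + s2 * (u2 * t1 - t2) + s3 * (-t3 + u3 * t1 - w3 * (u2 * t1 - t2)),
      s1 - s2 * u2 + s3 * (-u3 + w3 * u2), s2 - s3 * w3, s3], ?_⟩
    rw [hs]
    funext k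
    have e1 := congrFun ht1 k
    have e2 := congrFun ht2 k
    have e3 := congrFun ht3 k
    simp only [Pi.add_apply, Pi.smul_apply, smul_eq_mul] at e1 e2 e3
    simp only [Fin.sum_univ_three, Pi.add_apply, Pi.smul_apply, smul_eq_mul, Matrix.cons_val_zero,
      Matrix.cons_val_one, Fin.succ_zero_eq_one, Fin.succ_one_eq_two, Matrix.cons_val]
    have e4 : (Fin.succ 2 : Fin 4) = 3 := rfl
    rw [e4]
    simp only [Matrix.cons_val]
    rw [e1, e2, e3]
    ring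
  · intro μ
    have hmem : (![vec x0' x1 0 0, vec y0' y1' y2 0, vec z0' z1' z2' z3] : Fin 3 → Fin 4 → ℤ) μ ∈
        ({vec x0' x1 0 0, vec y0' y1' y2 0, vec z0' z1' z2' z3} : Set (Fin 4 → ℤ)) := by
      fin_cases μ <;> simp
    exact hbd _ hmem
  · have hd := hDET (sq a b) (sq a c) (sq b c) x0' x1 y0' y1' y2 z0' z1' z2' z3
    have hm : mat4 (fun j μ => val a b c j
        ((![vec x0' x1 0 0, vec y0' y1' y2 0, vec z0' z1' z2' z3] : Fin 3 → Fin 4 → ℤ) μ)) =
      !![1, ev (sq a b) (sq a c) (sq b c) (vec x0' x1 0 0), ev (sq a b) (sq a c) (sq b c) (vec y0' y1' y2 0), ev (sq a b) (sq a c) (sq b c) (vec z0' z1' z2' z3);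
    1, ev (sq a b) (-(sq a c)) (-(sq b c)) (vec x0' x1 0 0), ev (sq a b) (-(sq a c)) (-(sq b c)) (vec y0' y1' y2 0), ev (sq a b) (-(sq a c)) (-(sq b c)) (vec z0' z1' z2' z3);
    1, ev (-(sq a b)) (sq a c) (-(sq b c)) (vec x0' x1 0 0), ev (-(sq a b)) (sq a c) (-(sq b c)) (vec y0' y1' y2 0), ev (-(sq a b)) (sq a c) (-(sq b c)) (vec z0' z1' z2' z3);
    1, ev (-(sq a b)) (-(sq a c)) (sq b c) (vec x0' x1 0 0), ev (-(sq a b)) (-(sq a c)) (sq b c) (vec y0' y1' y2 0), ev (-(sq a b)) (-(sq a c)) (sq b c) (vec z0' z1' z2' z3)] := by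
      ext i j
      fin_cases i <;> fin_cases j <;> rfl
    rw [hm]
    rw [← sq_abs] at hd
    have hpos : 0 ≤ sq a b * sq a c * sq b c * x1 * y2 * z3 / 4 := by
      have hx1r : (0 : ℝ) ≤ x1 := by exact_mod_cast (by omega : (0 : ℤ) ≤ x1)
      have hy2r : (0 : ℝ) ≤ y2 := by exact_mod_cast (by omega : (0 : ℤ) ≤ y2)
      have hz3r : (0 : ℝ) ≤ z3 := by exact_mod_cast (by omega : (0 : ℤ) ≤ z3)
      have : 0 ≤ sq a b := by linarith
      have : 0 ≤ sq a c := by linarith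
      have : 0 ≤ sq b c := by linarith
      positivity
    have he := (sq_eq_sq₀ (abs_nonneg _) hpos).1 hd
    rw [he]
    have hx1r : (1 : ℝ) ≤ x1 := by exact_mod_cast hx1
    have hy2r : (1 : ℝ) ≤ y2 := by exact_mod_cast hy2
    have hz3r : (1 : ℝ) ≤ z3 := by exact_mod_cast hz3
    have hPQR : 0 ≤ sq a b * sq a c * sq b c := by
      have : 0 ≤ sq a b := by linarith
      have : 0 ≤ sq a c := by linarith
      have : 0 ≤ sq b c := by linarith
      positivity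
    have h2 : (1 : ℝ) ≤ x1 * y2 * z3 := by
      have := one_le_mul_of_one_le_of_one_le (one_le_mul_of_one_le_of_one_le hx1r hy2r) hz3r
      exact this
    nlinarith [mul_le_mul_of_nonneg_left h2 hPQR]

end CASEA

open CASEA in
theorem tCASEA (hML : T_ML) (hHNF : T_HNF) (hRED : T_RED) (hDET : T_DET) (hLAM : T_LAM) : T_CASEA := by
  by_contra hcon
  unfold T_CASEA at hcon
  push Not at hcon
  choose a b c h1 hab hbc hadm hM hbad using hcon
  have hB : ∀ n, _ := fun n => basisA hHNF hRED hDET hLAM (a n) (b n) (c n) (h1 n) (hab n) (hbc n) (hadm n)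
  choose e hmem hspan hbd hdet using hB
  have hsqn : ∀ n : ℕ, √(n : ℝ) ≤ sq (a n) (b n) := by
    intro n
    unfold sq
    exact Real.sqrt_le_sqrt (by exact_mod_cast hM n)
  have hPt : Tendsto (fun n => sq (a n) (b n)) atTop atTop := by
    refine tendsto_atTop_mono hsqn ?_
    exact Real.tendsto_sqrt_atTop.comp tendsto_natCast_atTop_atTop
  have hPQ : ∀ n, sq (a n) (b n) ≤ sq (a n) (c n) := fun n => sq_mono (Nat.mul_le_mul_left _ (hbc n).le)
  have hQR : ∀ n, sq (a n) (c n) ≤ sq (b n) (c n) := fun n => sq_mono (Nat.mul_le_mul_right _ (hab n).le)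
  have hPpos : ∀ n, 0 < sq (a n) (b n) := by
    intro n
    unfold sq
    apply Real.sqrt_pos.2
    have h := h1 n
    have h' := hab n
    have : 0 < a n * b n := Nat.mul_pos (by omega) (by omega)
    exact_mod_cast this
  obtain ⟨n, i, hW⟩ := hML (fun n j μ => val (a n) (b n) (c n) j (e n μ))
    (fun n => ![sq (b n) (c n), sq (a n) (b n), sq (a n) (c n)]) 100 (1 / 4) (by norm_num)
    (by
      intro n j
      have := hPpos n
      have := hPQ n
      have := hQR n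
      fin_cases j
      · change 0 < sq (b n) (c n); linarith
      · change 0 < sq (a n) (b n); linarith
      · change 0 < sq (a n) (c n); linarith)
    (by
      intro j
      fin_cases j
      · exact tendsto_atTop_mono (fun n => le_trans (hPQ n) (hQR n)) hPt
      · exact hPt
      · exact tendsto_atTop_mono (fun n => hPQ n) hPt)
    (by
      intro n j μ
      fin_cases j
      · exact (hbd n μ).1
      · exact (hbd n μ).2.1
      · exact (hbd n μ).2.2.1)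
    (by
      intro n μ
      exact (hbd n μ).2.2.2)
    (by
      intro n
      exact hdet n)
  -- the seven squares
  have hL := hLAM (a n) (b n) (c n) (hadm n)
  obtain ⟨hadd, hsmul, m0, -, -, -, -⟩ := hL
  obtain ⟨g, hg, hsum⟩ := hbad n
    ![(2 : ℤ) • vec 4 0 0 0, vec 4 0 0 0, vec 4 0 0 0, vec 4 0 0 0, e n 0 + i 0 • vec 4 0 0 0,
      e n 1 + i 1 • vec 4 0 0 0, e n 2 + i 2 • vec 4 0 0 0] (by
      intro ν
      fin_cases ν
      · exact hsmul _ m0 _
      · exact m0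
      · exact m0
      · exact m0
      · exact hadd _ (hmem n 0) _ (hsmul _ m0 _)
      · exact hadd _ (hmem n 1) _ (hsmul _ m0 _)
      · exact hadd _ (hmem n 2) _ (hsmul _ m0 _))
  choose w hw using fun ν => hspan n (g ν) (hg ν)
  obtain ⟨j, hj⟩ := hW w
  apply hj
  have h2 := hsum j
  have hgv : ∀ ν, val (a n) (b n) (c n) j (g ν) =
      (w ν 0 : ℝ) + ∑ μ : Fin 3, (w ν μ.succ : ℝ) * val (a n) (b n) (c n) j (e n μ) := by
    intro ν
    conv_lhs => rw [hw ν]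
    simp only [Fin.sum_univ_three, val_add, val_smul, val_const]
    push_cast
    ring
  simp only [hgv] at h2
  rw [h2, Fin.sum_univ_seven, Fin.sum_univ_three]
  change val (a n) (b n) (c n) j ((2 : ℤ) • vec 4 0 0 0) ^ 2 + val (a n) (b n) (c n) j (vec 4 0 0 0) ^ 2 +
    val (a n) (b n) (c n) j (vec 4 0 0 0) ^ 2 + val (a n) (b n) (c n) j (vec 4 0 0 0) ^ 2 +
    val (a n) (b n) (c n) j (e n 0 + i 0 • vec 4 0 0 0) ^ 2 +
    val (a n) (b n) (c n) j (e n 1 + i 1 • vec 4 0 0 0) ^ 2 +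
    val (a n) (b n) (c n) j (e n 2 + i 2 • vec 4 0 0 0) ^ 2 = _
  simp only [val_add, val_smul, val_const]
  push_cast
  ring

end P7
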