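import Pool.Agent.P7.Targets

open Filter Topology

namespace P7

namespace CASEB

lemma exists_u (a : ℕ) (ha : 1 ≤ a) (r : ℤ) (hr0 : 0 ≤ r) (hr1 : r ≤ 1) (c : ℕ) :
    ∃ u : ℤ, (∃ t : ℤ, u = 2 * t + r) ∧ (0 : ℝ) ≤ u ∧ |(a : ℝ) * u - sq a c| ≤ 2 * a := by
  have hapos : (0 : ℝ) < a := by exact_mod_cast ha
  set t : ℤ := ⌊sq a c / (2 * a)⌋ with ht
  have hsq : 0 ≤ sq a c := Real.sqrt_nonneg _
  have h1 : (t : ℝ) ≤ sq a c / (2 * a) := Int.floor_le _
  have h2 : sq a c / (2 * a) < t + 1 := Int.lt_floor_add_one _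
  have ht0 : 0 ≤ t := Int.floor_nonneg.2 (by positivity)
  have ht0r : (0 : ℝ) ≤ t := by exact_mod_cast ht0
  have hr0r : (0 : ℝ) ≤ r := by exact_mod_cast hr0
  have hr1r : (r : ℝ) ≤ 1 := by exact_mod_cast hr1
  rw [le_div_iff₀ (by positivity)] at h1
  rw [div_lt_iff₀ (by positivity)] at h2
  refine ⟨2 * t + r, ⟨t, rfl⟩, ?_, ?_⟩
  · push_cast; positivity
  · push_cast
    rw [abs_le]
    constructor
    · nlinarith [mul_nonneg hapos.le hr0r]
    · nlinarith [mul_nonneg hapos.le hr0r, mul_le_mul_of_nonneg_left hr1r hapos.le]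

lemma sqrt_le_sq (a : ℕ) (ha : 1 ≤ a) (c : ℕ) : √(c : ℝ) ≤ sq a c := by
  unfold sq
  apply Real.sqrt_le_sqrt
  exact_mod_cast Nat.le_mul_of_pos_left c ha

lemma pm_ne (r s : ℝ) (hs : 0 < s) : pm r s 0 ≠ pm r s 1 := by
  simp only [pm, Matrix.cons_val_zero, Matrix.cons_val_one]
  intro h
  linarith

lemma sq_pos (a b : ℕ) (ha : 1 ≤ a) (hb : 1 ≤ b) : 0 < sq a b := by
  unfold sq
  apply Real.sqrt_pos.2
  have : 0 < a * b := Nat.mul_pos ha hb
  exact_mod_cast this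

variable (hBT : T_BT)

include hBT

lemma goodA (hBA : T_BA) (a b : ℕ) (ha : 1 ≤ a) (hb : 1 ≤ b)
    (hl : LongForm (pm 0 (sq a b)) (pm (1 / 2) (sq a b / (2 * a)))) :
    ∃ B : ℕ, ∀ c, B ≤ c → Adm a b c → a * b % 4 = 3 → c % 2 = 0 → ¬ Bad a b c := by
  have hapos : (0 : ℝ) < a := by exact_mod_cast ha
  have hs := sq_pos a b ha hb
  obtain ⟨B, hB⟩ := hBT a b _ _ (pm_ne 0 _ hs) (pm_ne (1 / 2) _ (by positivity : 0 < sq a b / (2 * a))) hl
    {c | Adm a b c ∧ a * b % 4 = 3 ∧ c % 2 = 0} (2 * a) (by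
      rintro c ⟨h1, h2, h3⟩
      obtain ⟨u, ⟨t, hu⟩, hu0, hu1⟩ := exists_u a ha 0 (by norm_num) (by norm_num) c
      refine ⟨_, _, ?_, ?_, hBA a b c h1 h2 h3 u ⟨t, by omega⟩⟩
      · have := sqrt_le_sq a ha c
        have h5 : 0 ≤ (a : ℝ) * u := by positivity
        have h6 := Real.sqrt_nonneg (c : ℝ)
        linarith
      · exact hu1)
  exact ⟨B, fun c hc h1 h2 h3 => hB c ⟨h1, h2, h3⟩ hc⟩

lemma goodB (hBB : T_BB) (a b : ℕ) (ha : 1 ≤ a) (hb : 1 ≤ b)
    (hl : LongForm (pm 0 (sq a b)) (pm 0 (sq a b / (2 * a)))) :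
    ∃ B : ℕ, ∀ c, B ≤ c → Adm a b c → a % 2 = 1 → b % 2 = 0 → a * c % 4 = 3 → ¬ Bad a b c := by
  have hapos : (0 : ℝ) < a := by exact_mod_cast ha
  have hs := sq_pos a b ha hb
  obtain ⟨B, hB⟩ := hBT a b _ _ (pm_ne 0 _ hs) (pm_ne 0 _ (by positivity : 0 < sq a b / (2 * a))) hl
    {c | Adm a b c ∧ a % 2 = 1 ∧ b % 2 = 0 ∧ a * c % 4 = 3} (2 * a) (by
      rintro c ⟨h1, h2, h3, h4⟩
      obtain ⟨u, ⟨t, hu⟩, hu0, hu1⟩ := exists_u a ha 1 (by norm_num) (by norm_num) c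
      refine ⟨_, _, ?_, ?_, hBB a b c h1 h2 h3 h4 u (by omega)⟩
      · have := sqrt_le_sq a ha c
        have h5 : 0 ≤ (a : ℝ) * u := by positivity
        have h6 := Real.sqrt_nonneg (c : ℝ)
        linarith
      · exact hu1)
  exact ⟨B, fun c hc h1 h2 h3 h4 => hB c ⟨h1, h2, h3, h4⟩ hc⟩

lemma goodC (hBC : T_BC) (a b : ℕ) (ha : 1 ≤ a) (hb : 1 ≤ b)
    (hl : LongForm (pm 0 (sq a b)) (pm 0 (sq a b / a))) :
    ∃ B : ℕ, ∀ c, B ≤ c → Adm a b c → a * c % 4 = 1 → a * b % 4 ≠ 1 → ¬ Bad a b c := by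
  have hapos : (0 : ℝ) < a := by exact_mod_cast ha
  have hs := sq_pos a b ha hb
  obtain ⟨B, hB⟩ := hBT a b _ _ (pm_ne 0 _ hs) (pm_ne 0 _ (by positivity : 0 < sq a b / a)) hl
    {c | Adm a b c ∧ a * c % 4 = 1 ∧ a * b % 4 ≠ 1} (2 * a) (by
      rintro c ⟨h1, h2, h3⟩
      obtain ⟨u, ⟨t, hu⟩, hu0, hu1⟩ := exists_u a ha 1 (by norm_num) (by norm_num) c
      refine ⟨_, _, ?_, ?_, hBC a b c h1 h2 h3 u (by omega)⟩
      · have := sqrt_le_sq a ha c
        have h5 : 0 ≤ (a : ℝ) * u := by positivity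
        have h6 := Real.sqrt_nonneg (c : ℝ)
        linarith
      · rw [abs_div, abs_two]
        have := abs_nonneg ((a : ℝ) * u - sq a c)
        linarith)
  exact ⟨B, fun c hc h1 h2 h3 => hB c ⟨h1, h2, h3⟩ hc⟩

lemma goodD (hBD : T_BD) (a b : ℕ) (ha : 1 ≤ a) (hb : 1 ≤ b)
    (hl : LongForm (pm (1 / 2) (sq a b / 2)) (pm (1 / 2) (sq a b / (2 * a)))) :
    ∃ B : ℕ, ∀ c, B ≤ c → Adm a b c → a * b % 4 = 1 → a * c % 4 ≠ 1 → ¬ Bad a b c := by
  have hapos : (0 : ℝ) < a := by exact_mod_cast ha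
  have hs := sq_pos a b ha hb
  obtain ⟨B, hB⟩ := hBT a b _ _ (pm_ne (1 / 2) _ (by positivity : 0 < sq a b / 2))
    (pm_ne (1 / 2) _ (by positivity : 0 < sq a b / (2 * a))) hl
    {c | Adm a b c ∧ a * b % 4 = 1 ∧ a * c % 4 ≠ 1} (2 * a) (by
      rintro c ⟨h1, h2, h3⟩
      obtain ⟨u, ⟨t, hu⟩, hu0, hu1⟩ := exists_u a ha 1 (by norm_num) (by norm_num) c
      refine ⟨_, _, ?_, ?_, hBD a b c h1 h2 h3 u⟩
      · have := sqrt_le_sq a ha c
        have h5 : 0 ≤ (a : ℝ) * u := by positivity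
        have h6 := Real.sqrt_nonneg (c : ℝ)
        linarith
      · exact hu1)
  exact ⟨B, fun c hc h1 h2 h3 => hB c ⟨h1, h2, h3⟩ hc⟩

lemma goodE (hBE : T_BE) (a b : ℕ) (ha : 1 ≤ a) (hb : 1 ≤ b)
    (hl : LongForm (pm (1 / 2) (sq a b / 2)) (pm (1 / 2) (sq a b / (2 * a)))) :
    ∃ B : ℕ, ∀ c, B ≤ c → Adm a b c → a * b % 4 = 1 → a * c % 4 = 1 → ¬ Bad a b c := by
  have hapos : (0 : ℝ) < a := by exact_mod_cast ha
  have hs := sq_pos a b ha hb
  obtain ⟨B, hB⟩ := hBT a b _ _ (pm_ne (1 / 2) _ (by positivity : 0 < sq a b / 2))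
    (pm_ne (1 / 2) _ (by positivity : 0 < sq a b / (2 * a))) hl
    {c | Adm a b c ∧ a * b % 4 = 1 ∧ a * c % 4 = 1} (2 * a) (by
      rintro c ⟨h1, h2, h3⟩
      obtain ⟨u, ⟨t, hu⟩, hu0, hu1⟩ := exists_u a ha 1 (by norm_num) (by norm_num) c
      refine ⟨_, _, ?_, ?_, hBE a b c h1 h2 h3 u (by omega)⟩
      · have := sqrt_le_sq a ha c
        have h5 : 0 ≤ (a : ℝ) * u := by positivity
        have h6 := Real.sqrt_nonneg (c : ℝ)
        linarith
      · rw [abs_div, abs_two]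
        have := abs_nonneg ((a : ℝ) * u - sq a c)
        linarith)
  exact ⟨B, fun c hc h1 h2 h3 => hB c ⟨h1, h2, h3⟩ hc⟩

end CASEB

lemma CASEB.adm_swap {a b c : ℕ} (h : Adm a b c) : Adm b a c := by
  obtain ⟨h1, h2, h3, h4⟩ := h
  exact ⟨by rwa [Nat.mul_comm b a], by rwa [Nat.mul_comm b a], h4, h3⟩

lemma CASEB.mod4_cases {a b : ℕ} (h : a * b % 4 = 3) (c : ℕ) (hc : c % 2 = 1) :
    a * c % 4 = 1 ∨ b * c % 4 = 1 := by
  have ha : a % 4 = 1 ∧ b % 4 = 3 ∨ a % 4 = 3 ∧ b % 4 = 1 := by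
    have h1 : (a % 4) * (b % 4) % 4 = 3 := by rw [← Nat.mul_mod]; exact h
    have h2 := Nat.mod_lt a (by norm_num : 4 > 0)
    have h3 := Nat.mod_lt b (by norm_num : 4 > 0)
    interval_cases (a % 4) <;> interval_cases (b % 4) <;> simp_all
  have hc4 : c % 4 = 1 ∨ c % 4 = 3 := by omega
  rw [Nat.mul_mod a c, Nat.mul_mod b c]
  rcases ha with ⟨h1, h2⟩ | ⟨h1, h2⟩ <;> rcases hc4 with h3 | h3 <;> rw [h1, h2, h3] <;> norm_num

open CASEB in
theorem tCASEB (hBT : T_BT) (hBA : T_BA) (hBB : T_BB) (hBC : T_BC) (hBD : T_BD) (hBE : T_BE)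
    (hF1 : T_FORM1) (hF2 : T_FORM2) (hF3 : T_FORM3) (hSW : T_SWAP) : T_CASEB := by
  intro a b ha hab h2 h3 h5
  by_cases hex : ∃ c, Adm a b c
  swap
  · exact ⟨0, fun c _ hc => absurd ⟨c, hc⟩ hex⟩
  have hb : 1 ≤ b := by omega
  obtain ⟨hsq, hcop⟩ : Squarefree (a * b) ∧ Nat.Coprime a b := by
    obtain ⟨c, hc⟩ := hex
    have h1 : Squarefree (a * b) := hc.1.of_mul_left
    exact ⟨h1, Nat.coprime_of_squarefree_mul h1⟩
  have hab6 : 6 ≤ a * b := by
    have h1 : a * b ≠ 4 := by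
      intro h
      rw [h] at hsq
      have := hsq 2 ⟨1, by norm_num⟩
      simp at this
    have h2' : 2 ≤ a * b := by nlinarith
    omega
  have hform1 : LongForm (pm 0 (sq a b)) (pm 0 (sq a b / a)) := hF1 a b ha hb hcop hab6
  have hform1' : LongForm (pm 0 (sq b a)) (pm 0 (sq b a / b)) :=
    hF1 b a hb ha hcop.symm (by rw [Nat.mul_comm]; exact hab6)
  have hdbl : ∀ a b : ℕ, 1 ≤ a → 1 ≤ b → Nat.Coprime a b → a % 2 = 1 → b % 2 = 0 → Squarefree (a * b) → 6 ≤ a * b →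
      LongForm (pm 0 (sq a b)) (pm 0 (sq a b / (2 * a))) := by
    intro a b ha hb hcop ha2 hb2 hsq h6
    obtain ⟨b', rfl⟩ : ∃ b', b = 2 * b' := ⟨b / 2, by omega⟩
    have hb'odd : b' % 2 = 1 := by
      by_contra hne
      obtain ⟨k, rfl⟩ : ∃ k, b' = 2 * k := ⟨b' / 2, by omega⟩
      have := hsq 2 ⟨a * k, by ring⟩
      simp at this
    have hc2 : Nat.Coprime (2 * a) b' := by
      have h1 : Nat.Coprime 2 b' := (Nat.coprime_two_left.2 (Nat.odd_iff.2 hb'odd))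
      have h2 : Nat.Coprime a b' := Nat.Coprime.coprime_mul_left_right hcop
      exact Nat.Coprime.mul_left h1 h2
    have h := hF1 (2 * a) b' (by omega) (by omega) hc2 (by
      have : 2 * a * b' = a * (2 * b') := by ring
      rw [this]; exact h6)
    have e1 : sq (2 * a) b' = sq a (2 * b') := by
      unfold sq
      have : 2 * a * b' = a * (2 * b') := by ring
      rw [this]
    rw [e1] at h
    have e2 : ((2 * a : ℕ) : ℝ) = 2 * (a : ℝ) := by push_cast; ring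
    rw [e2] at h
    exact h
  -- residues
  have h4 := Nat.mod_lt (a * b) (by norm_num : 4 > 0)
  rcases Nat.even_or_odd (a * b) with heven | hodd
  · -- exactly one of a, b is even
    have hcases : (a % 2 = 1 ∧ b % 2 = 0) ∨ (a % 2 = 0 ∧ b % 2 = 1) := by
      rcases Nat.even_mul.1 heven with h | h
      · right
        refine ⟨Nat.even_iff.1 h, ?_⟩
        by_contra hne
        have hb2 : b % 2 = 0 := by omega
        have ha2 := Nat.even_iff.1 h
        have := Nat.dvd_gcd (Nat.dvd_of_mod_eq_zero ha2) (Nat.dvd_of_mod_eq_zero hb2)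
        rw [hcop] at this
        omega
      · left
        refine ⟨?_, Nat.even_iff.1 h⟩
        by_contra hne
        have ha2 : a % 2 = 0 := by omega
        have hb2 := Nat.even_iff.1 h
        have := Nat.dvd_gcd (Nat.dvd_of_mod_eq_zero ha2) (Nat.dvd_of_mod_eq_zero hb2)
        rw [hcop] at this
        omega
    rcases hcases with ⟨ha2, hb2⟩ | ⟨ha2, hb2⟩
    · obtain ⟨B1, hB1⟩ := goodB hBT hBB a b ha hb (hdbl a b ha hb hcop ha2 hb2 hsq hab6)
      obtain ⟨B2, hB2⟩ := goodC hBT hBC a b ha hb hform1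
      refine ⟨max B1 B2, fun c hc hadm => ?_⟩
      have hc1 : B1 ≤ c := le_trans (le_max_left _ _) hc
      have hc2 : B2 ≤ c := le_trans (le_max_right _ _) hc
      -- c is odd
      have hcodd : c % 2 = 1 := by
        by_contra hne
        have hce : c % 2 = 0 := by omega
        obtain ⟨b', rfl⟩ : ∃ b', b = 2 * b' := ⟨b / 2, by omega⟩
        obtain ⟨c', rfl⟩ : ∃ c', c = 2 * c' := ⟨c / 2, by omega⟩
        have := hadm.1 2 ⟨a * b' * c', by ring⟩
        simp at this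
      have hac : a * c % 4 = 3 ∨ a * c % 4 = 1 := by
        have h1 : a * c % 2 = 1 := by rw [Nat.mul_mod, ha2, hcodd]
        omega
      rcases hac with h | h
      · exact hB1 c hc1 hadm ha2 hb2 h
      · refine hB2 c hc2 hadm h ?_
        have := Nat.even_iff.1 heven
        omega
    · obtain ⟨B1, hB1⟩ := goodB hBT hBB b a hb ha (hdbl b a hb ha hcop.symm hb2 ha2
        (by rw [Nat.mul_comm]; exact hsq) (by rw [Nat.mul_comm]; exact hab6))
      obtain ⟨B2, hB2⟩ := goodC hBT hBC b a hb ha hform1'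
      refine ⟨max B1 B2, fun c hc hadm hbad => ?_⟩
      have hc1 : B1 ≤ c := le_trans (le_max_left _ _) hc
      have hc2 : B2 ≤ c := le_trans (le_max_right _ _) hc
      have hbad' := hSW a b c hbad
      have hcodd : c % 2 = 1 := by
        by_contra hne
        have hce : c % 2 = 0 := by omega
        obtain ⟨a', rfl⟩ : ∃ a', a = 2 * a' := ⟨a / 2, by omega⟩
        obtain ⟨c', rfl⟩ : ∃ c', c = 2 * c' := ⟨c / 2, by omega⟩
        have := hadm.1 2 ⟨a' * b * c', by ring⟩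
        simp at this
      have hbc : b * c % 4 = 3 ∨ b * c % 4 = 1 := by
        have h1 : b * c % 2 = 1 := by rw [Nat.mul_mod, hb2, hcodd]
        omega
      rcases hbc with h | h
      · exact hB1 c hc1 (adm_swap hadm) hb2 ha2 h hbad'
      · refine hB2 c hc2 (adm_swap hadm) h ?_ hbad'
        have := Nat.even_iff.1 heven
        rw [Nat.mul_comm]
        omega
  · have hodd2 := Nat.odd_iff.1 hodd
    have haodd : a % 2 = 1 := Nat.odd_iff.1 (Nat.odd_mul.1 hodd).1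
    have hbodd : b % 2 = 1 := Nat.odd_iff.1 (Nat.odd_mul.1 hodd).2
    have h13 : a * b % 4 = 1 ∨ a * b % 4 = 3 := by omega
    rcases h13 with h1 | h1
    · -- ab = 1 mod 4
      have h9 : a * b ≠ 9 := by
        intro h
        rw [h] at hsq
        have := hsq 3 ⟨1, by norm_num⟩
        simp at this
      have h13' : 13 ≤ a * b := by omega
      have hl := hF3 a b ha hab hcop haodd hbodd h13'
      obtain ⟨B1, hB1⟩ := goodD hBT hBD a b ha hb hl
      obtain ⟨B2, hB2⟩ := goodE hBT hBE a b ha hb hl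
      refine ⟨max B1 B2, fun c hc hadm => ?_⟩
      have hc1 : B1 ≤ c := le_trans (le_max_left _ _) hc
      have hc2 : B2 ≤ c := le_trans (le_max_right _ _) hc
      by_cases h : a * c % 4 = 1
      · exact hB2 c hc2 hadm h1 h
      · exact hB1 c hc1 hadm h1 h
    · -- ab = 3 mod 4
      have hl := hF2 a b ha hab hcop haodd hbodd (by omega)
      obtain ⟨B1, hB1⟩ := goodA hBT hBA a b ha hb hl
      obtain ⟨B2, hB2⟩ := goodC hBT hBC a b ha hb hform1
      obtain ⟨B3, hB3⟩ := goodC hBT hBC b a hb ha hform1'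
      refine ⟨max B1 (max B2 B3), fun c hc hadm hbad => ?_⟩
      have hc1 : B1 ≤ c := le_trans (le_max_left _ _) hc
      have hc2 : B2 ≤ c := le_trans (le_trans (le_max_left _ _) (le_max_right _ _)) hc
      have hc3 : B3 ≤ c := le_trans (le_trans (le_max_right _ _) (le_max_right _ _)) hc
      rcases Nat.mod_two_eq_zero_or_one c with hc0 | hc0
      · exact hB1 c hc1 hadm h1 hc0 hbad
      · rcases CASEB.mod4_cases h1 c hc0 with h | h
        · exact hB2 c hc2 hadm h (by omega) hbad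
        · refine hB3 c hc3 (adm_swap hadm) h ?_ (hSW a b c hbad)
          rw [Nat.mul_comm]
          omega

end P7
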