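import Pool.Agent.P7.Targets

/-!
# Congruences satisfied by the coordinates of integral elements
-/

namespace P7

namespace CONG

theorem dvd_of_isIntegral {n m : ℤ} (hm : m ≠ 0) {r : ℝ} (hr : r = (n : ℝ) / m)
    (h : IsIntegral ℤ r) : m ∣ n := by
  have h1 : IsIntegral ℤ ((n : ℚ) / m) := by
    have h2 : r = algebraMap ℚ ℝ ((n : ℚ) / m) := by
      rw [hr]; simp
    rw [h2] at h
    exact (isIntegral_algebraMap_iff (algebraMap ℚ ℝ).injective).1 h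
  obtain ⟨y, hy⟩ := IsIntegrallyClosed.isIntegral_iff.1 h1
  refine ⟨y, ?_⟩
  have hm' : (m : ℚ) ≠ 0 := by exact_mod_cast hm
  have h3 : (y : ℚ) = (n : ℚ) / m := by simpa using hy
  rw [eq_div_iff hm'] at h3
  have h4 : (n : ℚ) = ((m * y : ℤ) : ℚ) := by
    push_cast; rw [← h3]; ring
  exact_mod_cast h4

theorem sq_mul_self (m n : ℕ) : sq m n * sq m n = (m : ℝ) * n := by
  unfold sq
  rw [Real.mul_self_sqrt (by positivity)]
  push_cast; ring

theorem sq_pq (a b c : ℕ) : sq a b * sq a c = (a : ℝ) * sq b c := by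
  unfold sq
  rw [← Real.sqrt_mul (by positivity)]
  have h : ((a * b : ℕ) : ℝ) * ((a * c : ℕ) : ℝ) = (a : ℝ) ^ 2 * ((b * c : ℕ) : ℝ) := by
    push_cast; ring
  rw [h, Real.sqrt_mul (by positivity), Real.sqrt_sq (by positivity)]

theorem sq_comm (a b : ℕ) : sq a b = sq b a := by
  unfold sq
  rw [Nat.mul_comm]

theorem sq_pr (a b c : ℕ) : sq a b * sq b c = (b : ℝ) * sq a c := by
  rw [sq_comm a b]
  exact sq_pq b a c

theorem sq_qr (a b c : ℕ) : sq a c * sq b c = (c : ℝ) * sq a b := by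
  rw [sq_comm a c, sq_comm b c]
  exact sq_pq c a b

end CONG

open CONG

/-- CONG -/
theorem tCONG (hCONJ : T_CONJ) : T_CONG := by
  intro a b c hadm v hv
  set P := sq a b with hP
  set Q := sq a c with hQ
  set R := sq b c with hR
  have hPP : P * P = (a : ℝ) * b := sq_mul_self a b
  have hQQ : Q * Q = (a : ℝ) * c := sq_mul_self a c
  have hRR : R * R = (b : ℝ) * c := sq_mul_self b c
  have hPQ : P * Q = (a : ℝ) * R := sq_pq a b c
  have hPR : P * R = (b : ℝ) * Q := sq_pr a b c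
  have hQR : Q * R = (c : ℝ) * P := sq_qr a b c
  have h0 : IsIntegral ℤ (((v 0 : ℝ) + v 1 * P + v 2 * Q + v 3 * R) / 4) := hv
  have hcj := hCONJ a b c hadm ((v 0 : ℚ) / 4) ((v 1 : ℚ) / 4) ((v 2 : ℚ) / 4) ((v 3 : ℚ) / 4)
    (by
      convert h0 using 1
      push_cast
      ring)
  obtain ⟨h1, h2, h3⟩ := hcj
  set w0 : ℝ := ((v 0 : ℝ) + v 1 * P + v 2 * Q + v 3 * R) / 4 with hw0
  set w1 : ℝ := ((v 0 : ℝ) + v 1 * P - v 2 * Q - v 3 * R) / 4 with hw1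
  set w2 : ℝ := ((v 0 : ℝ) - v 1 * P + v 2 * Q - v 3 * R) / 4 with hw2
  set w3 : ℝ := ((v 0 : ℝ) - v 1 * P - v 2 * Q + v 3 * R) / 4 with hw3
  have h1' : IsIntegral ℤ w1 := by
    convert h1 using 1
    rw [hw1]; push_cast; ring
  have h2' : IsIntegral ℤ w2 := by
    convert h2 using 1
    rw [hw2]; push_cast; ring
  have h3' : IsIntegral ℤ w3 := by
    convert h3 using 1
    rw [hw3]; push_cast; ring
  refine ⟨?_, ?_, ?_, ?_, ?_, ?_, ?_⟩
  · refine dvd_of_isIntegral (by norm_num) ?_ ((h0.add h1').mul (h2'.add h3'))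
    rw [hw1, hw2, hw3]; push_cast
    linear_combination (-(v 1 : ℝ) ^ 2 / 4) * hPP
  · refine dvd_of_isIntegral (by norm_num) ?_ ((h0.add h2').mul (h1'.add h3'))
    rw [hw1, hw2, hw3]; push_cast
    linear_combination (-(v 2 : ℝ) ^ 2 / 4) * hQQ
  · refine dvd_of_isIntegral (by norm_num) ?_ ((h0.add h3').mul (h1'.add h2'))
    rw [hw1, hw2, hw3]; push_cast
    linear_combination (-(v 3 : ℝ) ^ 2 / 4) * hRR
  · refine dvd_of_isIntegral (by norm_num) ?_ ((h0.mul h1').add (h2'.mul h3'))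
    rw [hw1, hw2, hw3]; push_cast
    linear_combination ((v 1 : ℝ) ^ 2 / 8) * hPP - ((v 2 : ℝ) ^ 2 / 8) * hQQ -
      ((v 3 : ℝ) ^ 2 / 8) * hRR
  · refine dvd_of_isIntegral (by norm_num) ?_ ((h0.mul h2').add (h1'.mul h3'))
    rw [hw1, hw2, hw3]; push_cast
    linear_combination -((v 1 : ℝ) ^ 2 / 8) * hPP + ((v 2 : ℝ) ^ 2 / 8) * hQQ -
      ((v 3 : ℝ) ^ 2 / 8) * hRR
  · refine dvd_of_isIntegral (by norm_num) ?_ ((h0.mul h3').add (h1'.mul h2'))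
    rw [hw1, hw2, hw3]; push_cast
    linear_combination -((v 1 : ℝ) ^ 2 / 8) * hPP - ((v 2 : ℝ) ^ 2 / 8) * hQQ +
      ((v 3 : ℝ) ^ 2 / 8) * hRR
  · refine dvd_of_isIntegral (by norm_num) ?_ ((h0.mul h1').mul (h2'.mul h3'))
    have e1 : w0 * w1 = (((v 0 : ℝ) ^ 2 + a * b * v 1 ^ 2 - a * c * v 2 ^ 2 - b * c * v 3 ^ 2) +
        2 * (v 0 * v 1 - c * v 2 * v 3) * P) / 16 := by
      rw [hw0, hw1]
      linear_combination ((v 1 : ℝ) ^ 2 / 16) * hPP - ((v 2 : ℝ) ^ 2 / 16) * hQQ -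
        ((v 3 : ℝ) ^ 2 / 16) * hRR - ((v 2 : ℝ) * v 3 / 8) * hQR
    have e2 : w2 * w3 = (((v 0 : ℝ) ^ 2 + a * b * v 1 ^ 2 - a * c * v 2 ^ 2 - b * c * v 3 ^ 2) -
        2 * (v 0 * v 1 - c * v 2 * v 3) * P) / 16 := by
      rw [hw2, hw3]
      linear_combination ((v 1 : ℝ) ^ 2 / 16) * hPP - ((v 2 : ℝ) ^ 2 / 16) * hQQ -
        ((v 3 : ℝ) ^ 2 / 16) * hRR + ((v 2 : ℝ) * v 3 / 8) * hQR
    rw [← hw0] at *
    rw [e1, e2]; push_cast
    linear_combination (-(4 * ((v 0 : ℝ) * v 1 - c * v 2 * v 3) ^ 2) / 256) * hPP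

end P7
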