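import Pool.Agent.P7.LI

/-!
# P7-CONJ: conjugates of integral elements are integral
-/

namespace P7

namespace CONJ

open Polynomial

/-- the coordinates of the value of a polynomial, the same for all places -/
lemma coords (a b c : ℕ) (x y z t : ℚ) (f : ℤ[X]) : ∃ A B C D : ℚ, ∀ p q r : ℝ,
    p ^ 2 = (a : ℝ) * b → q ^ 2 = (a : ℝ) * c → r ^ 2 = (b : ℝ) * c → p * q = a * r →
    p * r = b * q → q * r = c * p →
    eval₂ (algebraMap ℤ ℝ) ((x : ℝ) + y * p + z * q + t * r) f = A + B * p + C * q + D * r := by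
  induction f using Polynomial.induction_on with
  | C n =>
    refine ⟨n, 0, 0, 0, fun p q r _ _ _ _ _ _ => ?_⟩
    rw [eval₂_C]
    simp
  | add f g hf hg =>
    obtain ⟨A, B, C, D, h1⟩ := hf
    obtain ⟨A', B', C', D', h2⟩ := hg
    refine ⟨A + A', B + B', C + C', D + D', fun p q r e1 e2 e3 e4 e5 e6 => ?_⟩
    rw [eval₂_add, h1 p q r e1 e2 e3 e4 e5 e6, h2 p q r e1 e2 e3 e4 e5 e6]
    push_cast
    ring
  | monomial n m h =>
    obtain ⟨A, B, C, D, h1⟩ := h
    refine ⟨A * x + B * y * (a * b) + C * z * (a * c) + D * t * (b * c),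
      A * y + B * x + c * (C * t + D * z), A * z + C * x + b * (B * t + D * y),
      A * t + D * x + a * (B * z + C * y), fun p q r e1 e2 e3 e4 e5 e6 => ?_⟩
    rw [pow_succ, ← mul_assoc, eval₂_mul, h1 p q r e1 e2 e3 e4 e5 e6, eval₂_X]
    push_cast
    linear_combination (B * y : ℝ) * e1 + (C * z : ℝ) * e2 + (D * t : ℝ) * e3 +
      (B * z + C * y : ℝ) * e4 + (B * t + D * y : ℝ) * e5 + (C * t + D * z : ℝ) * e6

end CONJ

open CONJ LI in
/-- CONJ -/
theorem tCONJ (hLI : T_LI) : T_CONJ := by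
  intro a b c hA x y z t hw
  obtain ⟨f, hf, hf0⟩ := hw
  obtain ⟨A, B, C, D, h1⟩ := coords a b c x y z t f
  have eP := sq_sq a b
  have eQ := sq_sq a c
  have eR := sq_sq b c
  have e4 : sq a b * sq a c = a * sq b c := sq_mul a b c
  have comm : ∀ m n : ℕ, sq m n = sq n m := fun m n => by rw [sq, sq, mul_comm]
  have e5 : sq a b * sq b c = b * sq a c := by
    rw [comm a b]
    exact sq_mul b a c
  have e6 : sq a c * sq b c = c * sq a b := by
    rw [comm a c, comm b c]
    exact sq_mul c a b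
  set P : ℝ := sq a b with hP
  set Q : ℝ := sq a c with hQ
  set R : ℝ := sq b c with hR
  have h0 := h1 P Q R eP eQ eR e4 e5 e6
  rw [hf0] at h0
  obtain ⟨z1, z2, z3, z4⟩ := hLI a b c hA A B C D h0.symm
  have hz : ∀ p q r : ℝ, p ^ 2 = (a : ℝ) * b → q ^ 2 = (a : ℝ) * c → r ^ 2 = (b : ℝ) * c →
      p * q = a * r → p * r = b * q → q * r = c * p →
      IsIntegral ℤ ((x : ℝ) + y * p + z * q + t * r) := by
    intro p q r g1 g2 g3 g4 g5 g6
    refine ⟨f, hf, ?_⟩
    rw [h1 p q r g1 g2 g3 g4 g5 g6, z1, z2, z3, z4]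
    simp
  refine ⟨?_, ?_, ?_⟩
  · have := hz P (-Q) (-R) eP (by rw [neg_sq]; exact eQ) (by rw [neg_sq]; exact eR)
      (by linear_combination -e4) (by linear_combination -e5) (by linear_combination e6)
    have e : (x : ℝ) + y * P - z * Q - t * R = x + y * P + z * -Q + t * -R := by ring
    rw [e]
    exact this
  · have := hz (-P) Q (-R) (by rw [neg_sq]; exact eP) eQ (by rw [neg_sq]; exact eR)
      (by linear_combination -e4) (by linear_combination e5) (by linear_combination -e6)
    have e : (x : ℝ) - y * P + z * Q - t * R = x + y * -P + z * Q + t * -R := by ring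
    rw [e]
    exact this
  · have := hz (-P) (-Q) R (by rw [neg_sq]; exact eP) (by rw [neg_sq]; exact eQ) eR
      (by linear_combination e4) (by linear_combination -e5) (by linear_combination -e6)
    have e : (x : ℝ) - y * P - z * Q + t * R = x + y * -P + z * -Q + t * R := by ring
    rw [e]
    exact this

end P7
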