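import Pool.Agent.P7.Targets

/-!
# Coordinates of the elements of a biquadratic field
-/

namespace P7

namespace COORD

theorem sq_comm' (m n : ℕ) : sq m n = √(m : ℝ) * √(n : ℝ) := by
  unfold sq
  rw [Nat.cast_mul, Real.sqrt_mul (Nat.cast_nonneg m)]

theorem mul_self (n : ℕ) : √(n : ℝ) * √(n : ℝ) = n := Real.mul_self_sqrt (Nat.cast_nonneg n)

/-- elements with rational coordinates -/
def Co (a b c : ℕ) (w : ℝ) : Prop :=
  ∃ x y z t : ℚ, w = x + y * sq a b + z * sq a c + t * sq b c

theorem co_rat (a b c : ℕ) (r : ℚ) : Co a b c (algebraMap ℚ ℝ r) :=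
  ⟨r, 0, 0, 0, by simp⟩

theorem co_add {a b c : ℕ} {w w' : ℝ} (h : Co a b c w) (h' : Co a b c w') :
    Co a b c (w + w') := by
  obtain ⟨x, y, z, t, rfl⟩ := h
  obtain ⟨x', y', z', t', rfl⟩ := h'
  refine ⟨x + x', y + y', z + z', t + t', ?_⟩
  push_cast
  ring

theorem co_mul {a b c : ℕ} {w w' : ℝ} (h : Co a b c w) (h' : Co a b c w') :
    Co a b c (w * w') := by
  obtain ⟨x, y, z, t, rfl⟩ := h
  obtain ⟨x', y', z', t', rfl⟩ := h'
  refine ⟨x * x' + a * b * (y * y') + a * c * (z * z') + b * c * (t * t'),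
    x * y' + y * x' + c * (z * t' + t * z'),
    x * z' + z * x' + b * (y * t' + t * y'),
    x * t' + t * x' + a * (y * z' + z * y'), ?_⟩
  have ha := mul_self a
  have hb := mul_self b
  have hc := mul_self c
  rw [sq_comm' a b, sq_comm' a c, sq_comm' b c]
  push_cast
  set p := √(a : ℝ)
  set q := √(b : ℝ)
  set r := √(c : ℝ)
  rw [← ha, ← hb, ← hc]
  ring

end COORD

open COORD in
theorem tCOORD : T_COORD := by
  intro a b c _ w hw
  unfold biquad at hw
  have halg : ∀ x ∈ ({√((a * b : ℕ) : ℝ), √((a * c : ℕ) : ℝ)} : Set ℝ), IsAlgebraic ℚ x := by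
    intro x hx
    have h : ∀ n : ℕ, IsAlgebraic ℚ (√(n : ℝ)) := by
      intro n
      have h1 : IsIntegral ℚ (√(n : ℝ)) := by
        refine IsIntegral.of_pow (n := 2) (by norm_num) ?_
        rw [Real.sq_sqrt (Nat.cast_nonneg n)]
        have := isIntegral_algebraMap (R := ℚ) (A := ℝ) (x := (n : ℚ))
        simpa using this
      exact h1.isAlgebraic
    rcases hx with rfl | hx
    · exact h _
    · rw [Set.mem_singleton_iff] at hx
      rw [hx]
      exact h _
  have hw' : w ∈ Algebra.adjoin ℚ ({√((a * b : ℕ) : ℝ), √((a * c : ℕ) : ℝ)} : Set ℝ) := by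
    rw [← IntermediateField.adjoin_toSubalgebra_of_isAlgebraic halg]
    exact hw
  clear hw
  have key : Co a b c w := by
    induction hw' using Algebra.adjoin_induction with
    | mem x hx =>
      rcases hx with rfl | hx
      · exact ⟨0, 1, 0, 0, by simp [sq]⟩
      · rw [Set.mem_singleton_iff] at hx
        rw [hx]
        exact ⟨0, 0, 1, 0, by simp [sq]⟩
    | algebraMap r => exact co_rat a b c r
    | add x y _ _ hx hy => exact co_add hx hy
    | mul x y _ _ hx hy => exact co_mul hx hy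
  exact key

end P7
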