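import Pool.Agent.P7.Targets

open scoped NumberField

namespace P7

theorem tCORE (hA : T_CASEA) (hB : T_CASEB) : T_CORE := by
  obtain ⟨M, hM⟩ := hA
  have hB' : ∀ a b : ℕ, ∃ B : ℕ, 1 ≤ a → a < b → a * b ≠ 2 → a * b ≠ 3 → a * b ≠ 5 →
      ∀ c, B ≤ c → Adm a b c → ¬ Bad a b c := by
    intro a b
    by_cases h : 1 ≤ a ∧ a < b ∧ a * b ≠ 2 ∧ a * b ≠ 3 ∧ a * b ≠ 5
    · obtain ⟨B, hB⟩ := hB a b h.1 h.2.1 h.2.2.1 h.2.2.2.1 h.2.2.2.2
      exact ⟨B, fun _ _ _ _ _ => hB⟩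
    · refine ⟨0, fun h1 h2 h3 h4 h5 => absurd ⟨h1, h2, h3, h4, h5⟩ h⟩
  choose B hBB using hB'
  refine ⟨((Finset.range M ×ˢ Finset.range M).sup fun t => B t.1 t.2) + 1, ?_⟩
  intro a b c h1 hab hbc hadm h2 h3 h5 hbad
  by_contra hc
  push Not at hc
  by_cases hMab : M ≤ a * b
  · exact hM a b c h1 hab hbc hadm hMab hbad
  · push Not at hMab
    have ha : a < M := by nlinarith
    have hb : b < M := by nlinarith
    have hle : B a b ≤ (Finset.range M ×ˢ Finset.range M).sup fun t => B t.1 t.2 := by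
      exact Finset.le_sup (f := fun t : ℕ × ℕ => B t.1 t.2)
        (Finset.mk_mem_product (Finset.mem_range.2 ha) (Finset.mem_range.2 hb))
    exact hBB a b h1 hab h2 h3 h5 c (by omega) hadm hbad

theorem tFINAL (hC : T_CORE) (hBr : T_BRIDGE) (hT : T_TRIPLE) : T_FINAL := by
  obtain ⟨B, hB⟩ := hC
  refine ((Set.finite_Iio B).prod ((Set.finite_Iio B).prod (Set.finite_Iio B))).image
    (fun t : ℕ × ℕ × ℕ => biquad (t.1 * t.2.1) (t.1 * t.2.2)) |>.subset ?_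
  rintro K ⟨hbi, h2, h3, h5, hP⟩
  obtain ⟨a, b, c, h1, hab, hbc, hadm, rfl⟩ := hT K hbi
  have hbad := hBr a b c hadm hP
  have hmem : √((a * b : ℕ) : ℝ) ∈ biquad (a * b) (a * c) :=
    IntermediateField.subset_adjoin ℚ _ (by simp)
  have hc := hB a b c h1 hab hbc hadm
    (by
      intro h
      have e : √((a * b : ℕ) : ℝ) = √(2 : ℝ) := by rw [h]; norm_num
      exact h2 (e ▸ hmem))
    (by
      intro h
      have e : √((a * b : ℕ) : ℝ) = √(3 : ℝ) := by rw [h]; norm_num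
      exact h3 (e ▸ hmem))
    (by
      intro h
      have e : √((a * b : ℕ) : ℝ) = √(5 : ℝ) := by rw [h]; norm_num
      exact h5 (e ▸ hmem)) hbad
  refine ⟨(a, b, c), ⟨?_, ?_, ?_⟩, rfl⟩
  · show a < B
    omega
  · show b < B
    omega
  · show c < B
    omega

end P7
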