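import Pool.Agent.P7.Targets

/-!
# The determinant of the conjugates of a triangular basis
-/

namespace P7

theorem tDET : T_DET := by
  intro P Q R x0 x1 y0 y1 y2 z0 z1 z2 z3
  simp only [Matrix.det_succ_row_zero, Fin.sum_univ_succ, ev, vec]
  simp [Fin.succAbove, Matrix.submatrix]
  ring

end P7
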