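import Mathlib

/-!
# Pythagoras numbers of biquadratic rings of integers: definitions

`pythagorasNumber R` is the Pythagoras number of the commutative ring `R`, `biquad p q` is the subfield
`ℚ(√p, √q)` of `ℝ`.  The remaining definitions are auxiliary: integral elements of `ℚ(√(ab), √(ac))` are described
by integer vectors `v`, the real number of `v` being `(v₀ + v₁ √(ab) + v₂ √(ac) + v₃ √(bc)) / 4`.
-/

open scoped NumberField

namespace P7

/-- `α` is a sum of `n` squares in `R`. -/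
def SumSq (R : Type*) [CommRing R] (n : ℕ) (α : R) : Prop :=
  ∃ f : Fin n → R, α = ∑ i, f i ^ 2

/-- The length of `α`: the least number of squares in a representation of `α` as a sum of squares
(`0` if there is none). -/
noncomputable def len (R : Type*) [CommRing R] (α : R) : ℕ :=
  sInf {n | SumSq R n α}

/-- The Pythagoras number of `R`: the supremum of the lengths of all sums of squares. -/
noncomputable def pythagorasNumber (R : Type*) [CommRing R] : ℕ∞ :=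
  ⨆ α : {α : R // ∃ n, SumSq R n α}, (len R α.1 : ℕ∞)

/-- The field `ℚ(√p, √q)`, as a subfield of `ℝ`. -/
noncomputable def biquad (p q : ℕ) : IntermediateField ℚ ℝ :=
  IntermediateField.adjoin ℚ {√(p : ℝ), √(q : ℝ)}

/-- `K` is a (totally real) biquadratic field: `K = ℚ(√p, √q)` with `p ≠ q` squarefree and `> 1`. -/
def IsBiquadratic (K : IntermediateField ℚ ℝ) : Prop :=
  ∃ p q : ℕ, 1 < p ∧ 1 < q ∧ p ≠ q ∧ Squarefree p ∧ Squarefree q ∧ K = biquad p q

/-! ## Coordinates -/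

/-- The real number `(v₀ + v₁ P + v₂ Q + v₃ R) / 4`. -/
noncomputable def ev (P Q R : ℝ) (v : Fin 4 → ℤ) : ℝ :=
  ((v 0 : ℝ) + v 1 * P + v 2 * Q + v 3 * R) / 4

/-- `√(m n)` for natural numbers `m`, `n`. -/
noncomputable def sq (m n : ℕ) : ℝ := √((m * n : ℕ) : ℝ)

/-- The four conjugates of `(v₀ + v₁ √(ab) + v₂ √(ac) + v₃ √(bc)) / 4`. -/
noncomputable def val (a b c : ℕ) (j : Fin 4) (v : Fin 4 → ℤ) : ℝ :=
  ![ev (sq a b) (sq a c) (sq b c) v, ev (sq a b) (-sq a c) (-sq b c) v,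
    ev (-sq a b) (sq a c) (-sq b c) v, ev (-sq a b) (-sq a c) (sq b c) v] j

/-- The vectors `v` for which `(v₀ + v₁ √(ab) + v₂ √(ac) + v₃ √(bc)) / 4` is an algebraic integer. -/
def Lam (a b c : ℕ) : Set (Fin 4 → ℤ) := {v | IsIntegral ℤ (val a b c 0 v)}

/-- `(a, b, c)` is admissible: `abc` is squarefree and `ab`, `ac`, `bc` are all different from `1`. -/
def Adm (a b c : ℕ) : Prop := Squarefree (a * b * c) ∧ a * b ≠ 1 ∧ a * c ≠ 1 ∧ b * c ≠ 1

/-- Every sum of seven squares of elements of `Lam a b c` is a sum of six such squares. -/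
def Bad (a b c : ℕ) : Prop :=
  ∀ f : Fin 7 → Fin 4 → ℤ, (∀ ν, f ν ∈ Lam a b c) →
    ∃ g : Fin 6 → Fin 4 → ℤ, (∀ ν, g ν ∈ Lam a b c) ∧
      ∀ j, ∑ ν, val a b c j (g ν) ^ 2 = ∑ ν, val a b c j (f ν) ^ 2

/-- The vector `(x, y, z, w)`. -/
def vec (x y z w : ℤ) : Fin 4 → ℤ := ![x, y, z, w]

/-! ## Case B: relative coordinates -/

/-- The conjugates of `(w₀ + w₁ x) + (w₂ + w₃ θ) y`, where `x` and `θ` have the two conjugates `x 0`, `x 1` and
`θ 0`, `θ 1` and `y` has the two conjugates `yp`, `ym`. -/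
noncomputable def bv (x θ : Fin 2 → ℝ) (yp ym : ℝ) (w : Fin 4 → ℤ) (j : Fin 4) : ℝ :=
  ![(w 0 + w 1 * x 0) + (w 2 + w 3 * θ 0) * yp, (w 0 + w 1 * x 0) + (w 2 + w 3 * θ 0) * ym,
    (w 0 + w 1 * x 1) + (w 2 + w 3 * θ 1) * yp, (w 0 + w 1 * x 1) + (w 2 + w 3 * θ 1) * ym] j

/-- The two families of pairs of linear forms `W`, `W'` have the same sum of squares, as a binary quadratic form
over the quadratic field: equality of the three coefficients at both places. -/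
def SameForm {k l : ℕ} (x θ : Fin 2 → ℝ) (W : Fin k → Fin 4 → ℤ) (W' : Fin l → Fin 4 → ℤ) : Prop :=
  ∀ φ : Fin 2,
    ∑ ν, ((W ν 0 : ℝ) + W ν 1 * x φ) ^ 2 = ∑ ν, ((W' ν 0 : ℝ) + W' ν 1 * x φ) ^ 2 ∧
    ∑ ν, ((W ν 0 : ℝ) + W ν 1 * x φ) * (W ν 2 + W ν 3 * θ φ) =
      ∑ ν, ((W' ν 0 : ℝ) + W' ν 1 * x φ) * (W' ν 2 + W' ν 3 * θ φ) ∧
    ∑ ν, ((W ν 2 : ℝ) + W ν 3 * θ φ) ^ 2 = ∑ ν, ((W' ν 2 : ℝ) + W' ν 3 * θ φ) ^ 2

/-- The two numbers `r + s`, `r - s`. -/
noncomputable def pm (r s : ℝ) : Fin 2 → ℝ := ![r + s, r - s]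

end P7
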