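import Pool.Agent.P7.Defs

/-!
# Targets for the theorem on Pythagoras numbers of biquadratic rings of integers
-/

open Filter Topology
open scoped NumberField

namespace P7

/-! ## Arithmetic of biquadratic fields -/

/-- Linear independence of `1, √(ab), √(ac), √(bc)` over the rationals. -/
def T_LI : Prop := ∀ a b c : ℕ, Adm a b c → ∀ x y z w : ℚ,
  (x : ℝ) + y * sq a b + z * sq a c + w * sq b c = 0 → x = 0 ∧ y = 0 ∧ z = 0 ∧ w = 0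

/-- Elements of `ℚ(√(ab), √(ac))` have rational coordinates. -/
def T_COORD : Prop := ∀ a b c : ℕ, Adm a b c → ∀ w ∈ biquad (a * b) (a * c),
  ∃ x y z t : ℚ, w = x + y * sq a b + z * sq a c + t * sq b c

/-- If an element of the field is integral, so are its conjugates. -/
def T_CONJ : Prop := ∀ a b c : ℕ, Adm a b c → ∀ x y z t : ℚ,
  IsIntegral ℤ ((x : ℝ) + y * sq a b + z * sq a c + t * sq b c) →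
    IsIntegral ℤ ((x : ℝ) + y * sq a b - z * sq a c - t * sq b c) ∧
    IsIntegral ℤ ((x : ℝ) - y * sq a b + z * sq a c - t * sq b c) ∧
    IsIntegral ℤ ((x : ℝ) - y * sq a b - z * sq a c + t * sq b c)

/-- Four times the coordinates of an integral element are integers. -/
def T_FOUR : Prop := ∀ a b c : ℕ, Adm a b c → ∀ x y z t : ℚ,
  IsIntegral ℤ ((x : ℝ) + y * sq a b + z * sq a c + t * sq b c) →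
    ∃ v : Fin 4 → ℤ, 4 * x = v 0 ∧ 4 * y = v 1 ∧ 4 * z = v 2 ∧ 4 * t = v 3

/-- Congruences satisfied by the coordinates of integral elements. -/
def T_CONG : Prop := ∀ a b c : ℕ, Adm a b c → ∀ v ∈ Lam a b c,
  (4 : ℤ) ∣ v 0 ^ 2 - a * b * v 1 ^ 2 ∧ (4 : ℤ) ∣ v 0 ^ 2 - a * c * v 2 ^ 2 ∧
  (4 : ℤ) ∣ v 0 ^ 2 - b * c * v 3 ^ 2 ∧
  (8 : ℤ) ∣ v 0 ^ 2 + a * b * v 1 ^ 2 - a * c * v 2 ^ 2 - b * c * v 3 ^ 2 ∧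
  (8 : ℤ) ∣ v 0 ^ 2 - a * b * v 1 ^ 2 + a * c * v 2 ^ 2 - b * c * v 3 ^ 2 ∧
  (8 : ℤ) ∣ v 0 ^ 2 - a * b * v 1 ^ 2 - a * c * v 2 ^ 2 + b * c * v 3 ^ 2 ∧
  (256 : ℤ) ∣ (v 0 ^ 2 + a * b * v 1 ^ 2 - a * c * v 2 ^ 2 - b * c * v 3 ^ 2) ^ 2
    - 4 * (a * b) * (v 0 * v 1 - c * v 2 * v 3) ^ 2

/-- Elementary closure properties of `Lam`. -/
def T_LAM : Prop := ∀ a b c : ℕ, Adm a b c →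
  (∀ u ∈ Lam a b c, ∀ v ∈ Lam a b c, u + v ∈ Lam a b c) ∧
  (∀ u ∈ Lam a b c, ∀ t : ℤ, t • u ∈ Lam a b c) ∧
  vec 4 0 0 0 ∈ Lam a b c ∧ vec 0 4 0 0 ∈ Lam a b c ∧ vec 0 0 4 0 ∈ Lam a b c ∧ vec 0 0 0 4 ∈ Lam a b c ∧
  (∀ t : ℤ, vec t 0 0 0 ∈ Lam a b c → 4 ∣ t)

/-- An equality of sums of squares at the first place holds at all places. -/
def T_PLACES : Prop := ∀ a b c : ℕ, Adm a b c → ∀ (k l : ℕ) (f : Fin k → Fin 4 → ℤ) (g : Fin l → Fin 4 → ℤ),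
  ∑ ν, val a b c 0 (f ν) ^ 2 = ∑ ν, val a b c 0 (g ν) ^ 2 →
    ∀ j, ∑ ν, val a b c j (f ν) ^ 2 = ∑ ν, val a b c j (g ν) ^ 2

/-- The bridge from the ring of integers to coordinates. -/
def T_BRIDGE : Prop := ∀ a b c : ℕ, Adm a b c →
  ¬ 7 ≤ pythagorasNumber (𝓞 (biquad (a * b) (a * c))) → Bad a b c

/-- Symmetry in `a`, `b`. -/
def T_SWAP : Prop := ∀ a b c : ℕ, Bad a b c → Bad b a c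

/-! ## The lattices of integral elements in the different residue classes -/

/-- `ab ≡ 3`, `c` even. -/
def T_LA : Prop := ∀ a b c : ℕ, Adm a b c → a * b % 4 = 3 → c % 2 = 0 →
  (∀ v ∈ Lam a b c, 4 ∣ v 0 ∧ 4 ∣ v 1 ∧ 2 ∣ v 2 ∧ 4 ∣ v 2 - v 3) ∧ vec 0 0 2 2 ∈ Lam a b c

/-- `a` odd, `b` even, `ac ≡ 3`. -/
def T_LB : Prop := ∀ a b c : ℕ, Adm a b c → a % 2 = 1 → b % 2 = 0 → a * c % 4 = 3 →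
  (∀ v ∈ Lam a b c, 4 ∣ v 0 ∧ 4 ∣ v 2 ∧ 2 ∣ v 1 ∧ 4 ∣ v 1 - v 3) ∧ vec 0 2 0 2 ∈ Lam a b c

/-- `ac ≡ 1`, `ab ≢ 1`. -/
def T_LC : Prop := ∀ a b c : ℕ, Adm a b c → a * c % 4 = 1 → a * b % 4 ≠ 1 →
  (∀ v ∈ Lam a b c, 2 ∣ v 0 ∧ 2 ∣ v 1 ∧ 4 ∣ v 0 - v 2 ∧ 4 ∣ v 1 - v 3) ∧
  vec 2 0 2 0 ∈ Lam a b c ∧ vec 0 2 0 2 ∈ Lam a b c

/-- `ab ≡ 1`, `ac ≢ 1`. -/
def T_LD : Prop := ∀ a b c : ℕ, Adm a b c → a * b % 4 = 1 → a * c % 4 ≠ 1 →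
  (∀ v ∈ Lam a b c, 2 ∣ v 0 ∧ 2 ∣ v 2 ∧ 4 ∣ v 0 - v 1 ∧ 4 ∣ v 2 - v 3) ∧
  vec 2 2 0 0 ∈ Lam a b c ∧ vec 0 0 2 2 ∈ Lam a b c

/-- `ab ≡ ac ≡ 1`. -/
def T_LE : Prop := ∀ a b c : ℕ, Adm a b c → a * b % 4 = 1 → a * c % 4 = 1 →
  (∀ v ∈ Lam a b c, (2 ∣ v 0 ∧ 2 ∣ v 1 ∧ 2 ∣ v 2 ∧ 2 ∣ v 3 ∧ 4 ∣ v 0 + v 1 + v 2 + v 3) ∨
    (¬ 2 ∣ v 0 ∧ ¬ 2 ∣ v 1 ∧ ¬ 2 ∣ v 2 ∧ ¬ 2 ∣ v 3 ∧ 4 ∣ v 2 * v 3 - c * v 0 * v 1)) ∧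
  vec 2 2 0 0 ∈ Lam a b c ∧ vec 2 0 2 0 ∈ Lam a b c ∧
  (∀ u : ℤ, ¬ 2 ∣ u → vec (a * u) u 1 1 ∈ Lam a b c)

/-! ## Relative bases -/

/-- `Lam a b c` is the lattice with basis `1, x, y, θ y`. -/
def RelBasis (a b c : ℕ) (x θ : Fin 2 → ℝ) (yp ym : ℝ) : Prop :=
  (∀ v ∈ Lam a b c, ∃ w : Fin 4 → ℤ, ∀ j, val a b c j v = bv x θ yp ym w j) ∧
  (∀ w : Fin 4 → ℤ, ∃ v ∈ Lam a b c, ∀ j, val a b c j v = bv x θ yp ym w j)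

def T_BA : Prop := ∀ a b c : ℕ, Adm a b c → a * b % 4 = 3 → c % 2 = 0 → ∀ u : ℤ, 2 ∣ u →
  RelBasis a b c (pm 0 (sq a b)) (pm (1 / 2) (sq a b / (2 * a))) (a * u + sq a c) (a * u - sq a c)

def T_BB : Prop := ∀ a b c : ℕ, Adm a b c → a % 2 = 1 → b % 2 = 0 → a * c % 4 = 3 → ∀ u : ℤ, ¬ 2 ∣ u →
  RelBasis a b c (pm 0 (sq a b)) (pm 0 (sq a b / (2 * a))) (a * u + sq a c) (a * u - sq a c)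

def T_BC : Prop := ∀ a b c : ℕ, Adm a b c → a * c % 4 = 1 → a * b % 4 ≠ 1 → ∀ u : ℤ, ¬ 2 ∣ u →
  RelBasis a b c (pm 0 (sq a b)) (pm 0 (sq a b / a)) ((a * u + sq a c) / 2) ((a * u - sq a c) / 2)

def T_BD : Prop := ∀ a b c : ℕ, Adm a b c → a * b % 4 = 1 → a * c % 4 ≠ 1 → ∀ u : ℤ,
  RelBasis a b c (pm (1 / 2) (sq a b / 2)) (pm (1 / 2) (sq a b / (2 * a))) (a * u + sq a c) (a * u - sq a c)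

def T_BE : Prop := ∀ a b c : ℕ, Adm a b c → a * b % 4 = 1 → a * c % 4 = 1 → ∀ u : ℤ, ¬ 2 ∣ u →
  RelBasis a b c (pm (1 / 2) (sq a b / 2)) (pm (1 / 2) (sq a b / (2 * a)))
    ((a * u + sq a c) / 2) ((a * u - sq a c) / 2)

/-! ## Integer vector lemmas -/

/-- `7 ⊥ I₃` is not a sum of six squares. -/
def T_F0 : Prop := ∀ (i : Fin 3 → ℤ) (W : Fin 6 → Fin 4 → ℤ),
  ∑ ν, W ν 0 ^ 2 = 7 + ∑ μ, i μ ^ 2 → (∀ μ : Fin 3, ∑ ν, W ν 0 * W ν μ.succ = i μ) →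
  (∀ μ lam : Fin 3, ∑ ν, W ν μ.succ * W ν lam.succ = if μ = lam then 1 else 0) → False

def T_F1 : Prop := ∀ b : ℤ, 6 ≤ b → ∀ m n k l : Fin 6 → ℤ,
  ∑ ν, m ν ^ 2 + b * ∑ ν, n ν ^ 2 = 8 + b → ∑ ν, m ν * n ν = 2 →
  ∑ ν, m ν * k ν + b * ∑ ν, n ν * l ν = 1 → ∑ ν, m ν * l ν + ∑ ν, n ν * k ν = 0 →
  ∑ ν, k ν ^ 2 + b * ∑ ν, l ν ^ 2 = 3 + b → ∑ ν, k ν * l ν = -1 → False

def T_F2 : Prop := ∀ a b : ℤ, 2 ≤ a → a < b → IsCoprime a b → ∀ m n k l : Fin 6 → ℤ,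
  ∑ ν, m ν ^ 2 + a * b * ∑ ν, n ν ^ 2 = 5 + a * b → ∑ ν, m ν * n ν = 1 →
  ∑ ν, m ν * k ν + b * ∑ ν, n ν * l ν = 0 → ∑ ν, m ν * l ν + a * ∑ ν, n ν * k ν = 1 →
  a * ∑ ν, k ν ^ 2 + b * ∑ ν, l ν ^ 2 = a + 2 * b → ∑ ν, k ν * l ν = 0 → False

def T_F3 : Prop := ∀ a b : ℤ, 1 ≤ a → a < b → IsCoprime a b → ¬ 2 ∣ a → ¬ 2 ∣ b → 6 ≤ a * b →
  ∀ m n k l : Fin 6 → ℤ, (∀ ν, 2 ∣ k ν - l ν) →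
  ∑ ν, m ν ^ 2 + a * b * ∑ ν, n ν ^ 2 = 5 + a * b → ∑ ν, m ν * n ν = 1 →
  ∑ ν, m ν * k ν + b * ∑ ν, n ν * l ν = 2 → ∑ ν, m ν * l ν + a * ∑ ν, n ν * k ν = 0 →
  a * ∑ ν, k ν ^ 2 + b * ∑ ν, l ν ^ 2 = 9 * a + b → ∑ ν, k ν * l ν = 1 → False

def T_F4 : Prop := ∀ b : ℤ, 13 ≤ b → ∀ m n k l : Fin 6 → ℤ, (∀ ν, 2 ∣ m ν - n ν) → (∀ ν, 2 ∣ k ν - l ν) →
  ∑ ν, m ν ^ 2 + b * ∑ ν, n ν ^ 2 = 17 + b → ∑ ν, m ν * n ν = -1 →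
  ∑ ν, m ν * k ν + b * ∑ ν, n ν * l ν = 2 → ∑ ν, m ν * l ν + ∑ ν, n ν * k ν = 2 →
  ∑ ν, k ν ^ 2 + b * ∑ ν, l ν ^ 2 = 6 + 2 * b → ∑ ν, k ν * l ν = 2 → False

def T_F5 : Prop := ∀ a b : ℤ, 3 ≤ a → a < b → IsCoprime a b → ¬ 2 ∣ a → ¬ 2 ∣ b →
  ∀ m n k l : Fin 6 → ℤ, (∀ ν, 2 ∣ m ν - n ν) → (∀ ν, 2 ∣ k ν - l ν) →
  ∑ ν, m ν ^ 2 + a * b * ∑ ν, n ν ^ 2 = 17 + a * b → ∑ ν, m ν * n ν = 1 →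
  ∑ ν, m ν * k ν + b * ∑ ν, n ν * l ν = 4 → ∑ ν, m ν * l ν + a * ∑ ν, n ν * k ν = 0 →
  a * ∑ ν, k ν ^ 2 + b * ∑ ν, l ν ^ 2 = 9 * a + b → ∑ ν, k ν * l ν = 1 → False

/-! ## Binary forms of length seven -/

/-- Some sum of seven squares of linear forms is not a sum of six. -/
def LongForm (x θ : Fin 2 → ℝ) : Prop :=
  ∃ W' : Fin 7 → Fin 4 → ℤ, ∀ W : Fin 6 → Fin 4 → ℤ, ¬ SameForm x θ W W'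

def T_FORM1 : Prop := ∀ a b : ℕ, 1 ≤ a → 1 ≤ b → Nat.Coprime a b → 6 ≤ a * b →
  LongForm (pm 0 (sq a b)) (pm 0 (sq a b / a))

def T_FORM2 : Prop := ∀ a b : ℕ, 1 ≤ a → a < b → Nat.Coprime a b → a % 2 = 1 → b % 2 = 1 → 7 ≤ a * b →
  LongForm (pm 0 (sq a b)) (pm (1 / 2) (sq a b / (2 * a)))

def T_FORM3 : Prop := ∀ a b : ℕ, 1 ≤ a → a < b → Nat.Coprime a b → a % 2 = 1 → b % 2 = 1 → 13 ≤ a * b →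
  LongForm (pm (1 / 2) (sq a b / 2)) (pm (1 / 2) (sq a b / (2 * a)))

/-! ## Case B -/

/-- Relative rigidity. -/
def T_RR : Prop := ∀ x θ : Fin 2 → ℝ, x 0 ≠ x 1 → θ 0 ≠ θ 1 → ∀ Y η : ℕ → ℝ, Tendsto Y atTop atTop →
  ∀ D : ℝ, (∀ n, |η n| ≤ D) → ∀ W' : Fin 7 → Fin 4 → ℤ,
  (∀ n, ∃ W : Fin 6 → Fin 4 → ℤ, ∀ j,
    ∑ ν, bv x θ (Y n) (η n) (W ν) j ^ 2 = ∑ ν, bv x θ (Y n) (η n) (W' ν) j ^ 2) →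
  ∃ W : Fin 6 → Fin 4 → ℤ, SameForm x θ W W'

/-- Relative bases for infinitely many `c` and a long form give good `c`. -/
def T_BT : Prop := ∀ (a b : ℕ) (x θ : Fin 2 → ℝ), x 0 ≠ x 1 → θ 0 ≠ θ 1 → LongForm x θ →
  ∀ (S : Set ℕ) (D : ℝ), (∀ c ∈ S, ∃ yp ym : ℝ, √(c : ℝ) / 2 ≤ yp ∧ |ym| ≤ D ∧ RelBasis a b c x θ yp ym) →
  ∃ B : ℕ, ∀ c ∈ S, B ≤ c → ¬ Bad a b c

/-- For fixed `ab` not in `{2, 3, 5}` almost all `c` are good. -/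
def T_CASEB : Prop := ∀ a b : ℕ, 1 ≤ a → a < b → a * b ≠ 2 → a * b ≠ 3 → a * b ≠ 5 →
  ∃ B : ℕ, ∀ c, B ≤ c → Adm a b c → ¬ Bad a b c

/-! ## Case A -/

/-- Boundedness of preimages under matrices converging to an invertible one. -/
def T_MBND : Prop := ∀ (k : ℕ) (F : Filter ℕ) (A : ℕ → Matrix (Fin k) (Fin k) ℝ) (A0 : Matrix (Fin k) (Fin k) ℝ),
  Tendsto A F (𝓝 A0) → A0.det ≠ 0 → ∀ C : ℝ, ∃ D : ℝ, ∀ᶠ n in F, ∀ w : Fin k → ℝ,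
    (∀ j, |(A n).mulVec w j| ≤ C) → ∀ μ, |w μ| ≤ D

/-- The limit argument. -/
def T_MLIM : Prop := ∀ (D : Fin 3 → Fin 3 → ℝ) (δ : Fin 3 → ℝ) (κ : ℝ) (L : Fin 3 → Fin 3 → ℝ),
  (∀ μ lam, D μ lam = D lam μ) → (∀ j, ∑ μ, ∑ lam, D μ lam * L j μ * L j lam = 0) →
  ∀ F : Filter ℕ, F.NeBot → F ≤ atTop →
  (∀ᶠ N : ℕ in F, ∀ c : Fin 3 → ℝ,
    -(∑ μ, ∑ lam, D μ lam * c μ * c lam) + 2 * ∑ μ, δ μ * c μ ≤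
      ∑ μ, ((⌊(N : ℝ) ^ 5 * L 0 μ + (N : ℝ) ^ 4 * L 1 μ + (N : ℝ) ^ 3 * L 2 μ⌋ : ℝ) - c μ) ^ 2 + κ) →
  ∀ j μ, ∑ lam, D μ lam * L j lam = 0

/-- The matrix of conjugates of `1, e₁, e₂, e₃`. -/
def mat4 (R : Fin 4 → Fin 3 → ℝ) : Matrix (Fin 4) (Fin 4) ℝ := Matrix.of fun j => Fin.cons 1 (R j)

/-- The main lemma of case A. -/
def T_ML : Prop := ∀ (R : ℕ → Fin 4 → Fin 3 → ℝ) (s : ℕ → Fin 3 → ℝ) (C c0 : ℝ), 0 < c0 →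
  (∀ n j, 0 < s n j) → (∀ j, Tendsto (fun n => s n j) atTop atTop) →
  (∀ n (j : Fin 3) μ, |R n j.castSucc μ| ≤ C * s n j) → (∀ n μ, |R n 3 μ| ≤ C) →
  (∀ n, c0 * (s n 0 * s n 1 * s n 2) ≤ |(mat4 (R n)).det|) →
  ∃ n, ∃ i : Fin 3 → ℤ, ∀ W : Fin 6 → Fin 4 → ℤ, ∃ j : Fin 4,
    ∑ ν, ((W ν 0 : ℝ) + ∑ μ : Fin 3, W ν μ.succ * R n j μ) ^ 2 ≠ 7 + ∑ μ, (R n j μ + i μ) ^ 2

/-- A triangular basis of a lattice between `4ℤ⁴` and `ℤ⁴`. -/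
def T_HNF : Prop := ∀ L : Set (Fin 4 → ℤ), (∀ u ∈ L, ∀ v ∈ L, u + v ∈ L) → (∀ u ∈ L, ∀ t : ℤ, t • u ∈ L) →
  vec 4 0 0 0 ∈ L → vec 0 4 0 0 ∈ L → vec 0 0 4 0 ∈ L → vec 0 0 0 4 ∈ L → (∀ t : ℤ, vec t 0 0 0 ∈ L → 4 ∣ t) →
  ∃ x0 x1 y0 y1 y2 z0 z1 z2 z3 : ℤ, vec x0 x1 0 0 ∈ L ∧ vec y0 y1 y2 0 ∈ L ∧ vec z0 z1 z2 z3 ∈ L ∧
    1 ≤ x1 ∧ x1 ≤ 4 ∧ 1 ≤ y2 ∧ y2 ≤ 4 ∧ 1 ≤ z3 ∧ z3 ≤ 4 ∧
    ∀ v ∈ L, ∃ t0 t1 t2 t3 : ℤ,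
      v = t0 • vec 4 0 0 0 + t1 • vec x0 x1 0 0 + t2 • vec y0 y1 y2 0 + t3 • vec z0 z1 z2 z3

/-- Reduction of a triangular basis. -/
def T_RED : Prop := ∀ (P Q R : ℝ), 1 ≤ P → P ≤ Q → Q ≤ R → ∀ x0 x1 y0 y1 y2 z0 z1 z2 z3 : ℤ,
  1 ≤ x1 → x1 ≤ 4 → 1 ≤ y2 → y2 ≤ 4 → 1 ≤ z3 → z3 ≤ 4 →
  ∃ x0' y0' y1' z0' z1' z2' : ℤ,
    (∃ t : ℤ, vec x0' x1 0 0 = vec x0 x1 0 0 + t • vec 4 0 0 0) ∧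
    (∃ t u : ℤ, vec y0' y1' y2 0 = vec y0 y1 y2 0 + u • vec x0 x1 0 0 + t • vec 4 0 0 0) ∧
    (∃ t u w : ℤ, vec z0' z1' z2' z3 =
      vec z0 z1 z2 z3 + w • vec y0 y1 y2 0 + u • vec x0 x1 0 0 + t • vec 4 0 0 0) ∧
    ∀ e ∈ ({vec x0' x1 0 0, vec y0' y1' y2 0, vec z0' z1' z2' z3} : Set (Fin 4 → ℤ)),
      |ev P Q R e| ≤ 100 * R ∧ |ev P (-Q) (-R) e| ≤ 100 * P ∧ |ev (-P) Q (-R) e| ≤ 100 * Q ∧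
      |ev (-P) (-Q) R e| ≤ 100

/-- The determinant of the conjugates of a triangular basis. -/
def T_DET : Prop := ∀ (P Q R : ℝ) (x0 x1 y0 y1 y2 z0 z1 z2 z3 : ℤ),
  (Matrix.det !![1, ev P Q R (vec x0 x1 0 0), ev P Q R (vec y0 y1 y2 0), ev P Q R (vec z0 z1 z2 z3);
    1, ev P (-Q) (-R) (vec x0 x1 0 0), ev P (-Q) (-R) (vec y0 y1 y2 0), ev P (-Q) (-R) (vec z0 z1 z2 z3);
    1, ev (-P) Q (-R) (vec x0 x1 0 0), ev (-P) Q (-R) (vec y0 y1 y2 0), ev (-P) Q (-R) (vec z0 z1 z2 z3);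
    1, ev (-P) (-Q) R (vec x0 x1 0 0), ev (-P) (-Q) R (vec y0 y1 y2 0), ev (-P) (-Q) R (vec z0 z1 z2 z3)]) ^ 2
    = (P * Q * R * x1 * y2 * z3 / 4) ^ 2

/-- For `ab` large everything is good. -/
def T_CASEA : Prop := ∃ M : ℕ, ∀ a b c : ℕ, 1 ≤ a → a < b → b < c → Adm a b c → M ≤ a * b → ¬ Bad a b c

/-! ## Conclusion -/

def T_CORE : Prop := ∃ B : ℕ, ∀ a b c : ℕ, 1 ≤ a → a < b → b < c → Adm a b c →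
  a * b ≠ 2 → a * b ≠ 3 → a * b ≠ 5 → Bad a b c → c < B

/-- Every biquadratic field comes from an admissible triple. -/
def T_TRIPLE : Prop := ∀ K : IntermediateField ℚ ℝ, IsBiquadratic K →
  ∃ a b c : ℕ, 1 ≤ a ∧ a < b ∧ b < c ∧ Adm a b c ∧ K = biquad (a * b) (a * c)

def T_FINAL : Prop := {K : IntermediateField ℚ ℝ | IsBiquadratic K ∧ √(2 : ℝ) ∉ K ∧ √(3 : ℝ) ∉ K ∧
  √(5 : ℝ) ∉ K ∧ ¬ 7 ≤ pythagorasNumber (𝓞 K)}.Finite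

end P7
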