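import Mathlib
import Pool.Agent.P7.Targets

/-!
# `7 ⊥ I₃` is not a sum of six squares of integral linear forms
-/

namespace P7

namespace F0

/-- An integer vector of length one has exactly one nonzero entry. -/
theorem unit_vec {x : Fin 6 → ℤ} (h : ∑ ν, x ν * x ν = 1) :
    ∃ i, x i ^ 2 = 1 ∧ ∀ ν, ν ≠ i → x ν = 0 := by
  have hne : ∃ i, x i ≠ 0 := by
    by_contra hc
    push Not at hc
    simp [hc] at h
  obtain ⟨i, hi⟩ := hne
  have h1 : 1 ≤ x i * x i := by
    rcases lt_or_gt_of_ne hi with h | h <;> nlinarith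
  rw [← Finset.add_sum_erase _ _ (Finset.mem_univ i)] at h
  have h2 : 0 ≤ ∑ ν ∈ Finset.univ.erase i, x ν * x ν :=
    Finset.sum_nonneg fun ν _ => mul_self_nonneg _
  have h3 : ∑ ν ∈ Finset.univ.erase i, x ν * x ν = 0 := by linarith
  refine ⟨i, by rw [pow_two]; linarith, fun ν hν => ?_⟩
  have := (Finset.sum_eq_zero_iff_of_nonneg (fun ν _ => mul_self_nonneg (x ν))).mp h3 ν
    (Finset.mem_erase.mpr ⟨hν, Finset.mem_univ _⟩)
  exact mul_self_eq_zero.mp this

theorem not_seven (a b c : ℤ) : a ^ 2 + b ^ 2 + c ^ 2 ≠ 7 := by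
  intro h
  have h1 : ((a : ZMod 8)) ^ 2 + (b : ZMod 8) ^ 2 + (c : ZMod 8) ^ 2 = 7 := by
    have := congrArg (fun z : ℤ => (z : ZMod 8)) h
    push_cast at this
    exact this
  revert h1
  generalize (a : ZMod 8) = a
  generalize (b : ZMod 8) = b
  generalize (c : ZMod 8) = c
  revert a b c
  decide

end F0

open F0 in
theorem tF0 : T_F0 := by
  intro i W h0 h1 h2
  have hcol : ∀ μ : Fin 3, ∃ f, W f μ.succ ^ 2 = 1 ∧ ∀ ν, ν ≠ f → W ν μ.succ = 0 := fun μ =>
    unit_vec (by have := h2 μ μ; simpa using this)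
  choose f hf1 hf2 using hcol
  have hinj : Function.Injective f := by
    intro μ lam h
    by_contra hne
    have h3 := h2 μ lam
    rw [if_neg hne, Finset.sum_eq_single (f μ) (fun ν _ hν => by rw [hf2 μ ν hν, zero_mul])
      (fun h => absurd (Finset.mem_univ _) h)] at h3
    have h4 := hf1 μ
    have h5 := hf1 lam
    rw [← h] at h5
    rcases mul_eq_zero.mp h3 with h6 | h6
    · rw [h6] at h4; norm_num at h4
    · rw [h6] at h5; norm_num at h5
  have hi : ∀ μ, i μ ^ 2 = W (f μ) 0 ^ 2 := by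
    intro μ
    rw [← h1 μ, Finset.sum_eq_single (f μ) (fun ν _ hν => by rw [hf2 μ ν hν, mul_zero])
      (fun h => absurd (Finset.mem_univ _) h), mul_pow, hf1 μ, mul_one]
  have hcard : (Finset.univ \ Finset.univ.image f).card = 3 := by
    rw [Finset.card_sdiff_of_subset (Finset.subset_univ _), Finset.card_image_of_injective _ hinj]
    simp
  obtain ⟨x, y, z, hxy, hxz, hyz, hs⟩ := Finset.card_eq_three.mp hcard
  rw [← Finset.sum_sdiff (Finset.subset_univ (Finset.univ.image f)), hs,
    Finset.sum_image (fun a _ b _ hab => hinj hab), Finset.sum_insert (by simp [hxy, hxz]),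
    Finset.sum_insert (by simp [hyz]), Finset.sum_singleton,
    Finset.sum_congr rfl fun μ _ => (hi μ).symm] at h0
  exact not_seven (W x 0) (W y 0) (W z 0) (by linarith)

end P7
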