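import Pool.Agent.P7.Targets

/-!
# Integer vector lemma F1 (job P7-F1)
-/

namespace P7

namespace F1_

/-- Cauchy-Schwarz for integer vectors. -/
lemma cs (u v : Fin 6 → ℤ) : (∑ ν, u ν * v ν) ^ 2 ≤ (∑ ν, u ν ^ 2) * ∑ ν, v ν ^ 2 :=
  Finset.sum_mul_sq_le_sq_mul_sq _ _ _

lemma nn (u : Fin 6 → ℤ) : 0 ≤ ∑ ν, u ν ^ 2 := Finset.sum_nonneg fun _ _ => sq_nonneg _

/-- An integer vector of norm one is a unit vector. -/
lemma unit_vec (l : Fin 6 → ℤ) (h : ∑ ν, l ν ^ 2 = 1) :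
    ∃ p, l p ^ 2 = 1 ∧ ∀ i, i ≠ p → l i = 0 := by
  obtain ⟨p, hp⟩ : ∃ p, l p ≠ 0 := by
    by_contra hcon
    push Not at hcon
    simp [hcon] at h
  have hp1 : 1 ≤ l p ^ 2 := by
    have : 0 < l p ^ 2 := by positivity
    omega
  have hsum : ∑ ν, l ν ^ 2 = l p ^ 2 + ∑ ν ∈ Finset.univ.erase p, l ν ^ 2 :=
    (Finset.add_sum_erase _ _ (Finset.mem_univ p)).symm
  have hnn : 0 ≤ ∑ ν ∈ Finset.univ.erase p, l ν ^ 2 := Finset.sum_nonneg fun _ _ => sq_nonneg _
  have hzero : ∑ ν ∈ Finset.univ.erase p, l ν ^ 2 = 0 := by omega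
  refine ⟨p, by omega, fun i hi => ?_⟩
  have := (Finset.sum_eq_zero_iff_of_nonneg (fun _ _ => sq_nonneg _)).mp hzero i
    (Finset.mem_erase.mpr ⟨hi, Finset.mem_univ _⟩)
  exact pow_eq_zero_iff two_ne_zero |>.mp this

/-- A permutation moving `0`, `1` to given positions. -/
lemma perm_aux (p f : Fin 6) (h : p ≠ f) : ∃ σ : Equiv.Perm (Fin 6), σ 0 = p ∧ σ 1 = f := by
  refine ⟨(Equiv.swap 1 (Equiv.swap 0 p f)).trans (Equiv.swap 0 p), ?_, ?_⟩
  · have h1 : Equiv.swap 0 p f ≠ 0 := by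
      intro h2
      have : f = Equiv.swap 0 p 0 := by
        have h3 := congrArg (Equiv.swap 0 p) h2
        rwa [Equiv.swap_apply_self] at h3
      rw [Equiv.swap_apply_left] at this
      exact h this.symm
    rw [Equiv.trans_apply, Equiv.swap_apply_of_ne_of_ne (by decide) (Ne.symm h1),
      Equiv.swap_apply_left]
  · rw [Equiv.trans_apply, Equiv.swap_apply_left, Equiv.swap_apply_self]

lemma sq_cases (x : ℤ) : (x % 2 = 0 ∧ x ^ 2 % 4 = 0) ∨ (x % 2 = 1 ∧ x ^ 2 % 4 = 1) := by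
  rcases Int.even_or_odd' x with ⟨y, rfl | rfl⟩
  · left
    refine ⟨by omega, ?_⟩
    have : (2 * y) ^ 2 = 4 * y ^ 2 := by ring
    omega
  · right
    refine ⟨by omega, ?_⟩
    have : (2 * y + 1) ^ 2 = 4 * (y ^ 2 + y) + 1 := by ring
    omega

/-- The final four dimensional step. -/
lemma four_aux (a b c d x y z w : ℤ) (h1 : a ^ 2 + b ^ 2 + c ^ 2 + d ^ 2 = 4)
    (h2 : x ^ 2 + y ^ 2 + z ^ 2 + w ^ 2 = 2) (h3 : a * x + b * y + c * z + d * w = 1) : False := by
  have ev : ∀ s t : ℤ, s % 2 = 0 → (s * t) % 2 = 0 := by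
    intro s t hs
    rw [Int.mul_emod, hs]
    simp
  have od : ∀ s t : ℤ, s % 2 = 1 → (s * t) % 2 = t ^ 2 % 2 := by
    intro s t hs
    rw [Int.mul_emod, hs, pow_two, Int.mul_emod t t]
    rcases Int.emod_two_eq_zero_or_one t with h | h <;> simp [h]
  rcases sq_cases a with ⟨a1, a2⟩ | ⟨a1, a2⟩ <;> rcases sq_cases b with ⟨b1, b2⟩ | ⟨b1, b2⟩ <;>
    rcases sq_cases c with ⟨c1, c2⟩ | ⟨c1, c2⟩ <;> rcases sq_cases d with ⟨d1, d2⟩ | ⟨d1, d2⟩ <;>
    first
    | omega
    | (have e1 := ev a x a1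
       have e2 := ev b y b1
       have e3 := ev c z c1
       have e4 := ev d w d1
       omega)
    | (have e1 := od a x a1
       have e2 := od b y b1
       have e3 := od c z c1
       have e4 := od d w d1
       omega)

lemma cs4 (a b c d x y z w : ℤ) : (a * x + b * y + c * z + d * w) ^ 2 ≤
    (a ^ 2 + b ^ 2 + c ^ 2 + d ^ 2) * (x ^ 2 + y ^ 2 + z ^ 2 + w ^ 2) := by
  nlinarith [sq_nonneg (a * y - b * x), sq_nonneg (a * z - c * x), sq_nonneg (a * w - d * x),
    sq_nonneg (b * z - c * y), sq_nonneg (b * w - d * y), sq_nonneg (c * w - d * z)]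

end F1_

open F1_ in
theorem pF1 : T_F1 := by
  intro b hb m n k l hU hmn hB0 hB1 hV hkl
  -- norms of `k` and `l`
  have hK0 := nn k
  have hL0 := nn l
  have hM0 := nn m
  have hN0 := nn n
  have csK := cs k l
  have csM := cs m n
  have csmk := cs m k
  have csnl := cs n l
  rw [hkl] at csK
  rw [hmn] at csM
  obtain ⟨K, hK⟩ : ∃ K, ∑ ν, k ν ^ 2 = K := ⟨_, rfl⟩
  obtain ⟨L, hL⟩ : ∃ L, ∑ ν, l ν ^ 2 = L := ⟨_, rfl⟩
  obtain ⟨M, hM⟩ : ∃ M, ∑ ν, m ν ^ 2 = M := ⟨_, rfl⟩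
  obtain ⟨N, hN⟩ : ∃ N, ∑ ν, n ν ^ 2 = N := ⟨_, rfl⟩
  rw [hK] at hK0 hV csK csmk
  rw [hL] at hL0 hV csK csnl
  rw [hM] at hM0 hU csM csmk
  rw [hN] at hN0 hU csM csnl
  have hL1 : L = 1 := by
    have h1 : L ≤ 1 := by
      by_contra hcon
      have : 2 ≤ L := by omega
      nlinarith
    have h2 : L ≠ 0 := by
      rintro rfl
      norm_num at csK
    omega
  subst hL1
  have hK3 : K = 3 := by linarith
  subst hK3
  have hN2 : N ≤ 2 := by
    by_contra hcon
    have : 3 ≤ N := by omega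
    nlinarith
  have hN1 : N ≠ 0 := by
    rintro rfl
    norm_num at csM
  have hN' : N = 1 := by
    by_contra hcon
    have hN2 : N = 2 := by omega
    subst hN2
    have hMb : M = 8 - b := by linarith
    have hM2 : 2 ≤ M := by linarith
    have hb6 : b = 6 := by omega
    subst hb6
    have hM2 : M = 2 := by linarith
    subst hM2
    have hz : ∑ ν, (m ν - n ν) ^ 2 = 0 := by
      have : ∑ ν, (m ν - n ν) ^ 2 = ∑ ν, m ν ^ 2 - 2 * ∑ ν, m ν * n ν + ∑ ν, n ν ^ 2 := by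
        rw [Finset.mul_sum, ← Finset.sum_sub_distrib, ← Finset.sum_add_distrib]
        exact Finset.sum_congr rfl fun ν _ => by ring
      rw [this, hM, hmn, hN]
      norm_num
    have heq : ∀ ν, m ν = n ν := by
      intro ν
      have := (Finset.sum_eq_zero_iff_of_nonneg (fun _ _ => sq_nonneg _)).mp hz ν (Finset.mem_univ _)
      have := pow_eq_zero_iff two_ne_zero |>.mp this
      omega
    simp only [heq] at hB0 hB1
    omega
  subst hN'
  have hM8 : M = 8 := by linarith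
  subst hM8
  -- `n l = 0`, `m k = 1`
  have hnl : ∑ ν, n ν * l ν = 0 := by
    obtain ⟨X, hX⟩ : ∃ X, ∑ ν, n ν * l ν = X := ⟨_, rfl⟩
    obtain ⟨Y, hY⟩ : ∃ Y, ∑ ν, m ν * k ν = Y := ⟨_, rfl⟩
    rw [hX, hY] at hB0
    rw [hX] at csnl ⊢
    rw [hY] at csmk
    have h1 : X ≤ 1 := by nlinarith
    have h2 : -1 ≤ X := by nlinarith
    have h3 : X = -1 ∨ X = 0 ∨ X = 1 := by omega
    rcases h3 with h | h | h
    · subst h
      nlinarith
    · exact h
    · subst h
      nlinarith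
  rw [hnl] at hB0
  have hmk : ∑ ν, m ν * k ν = 1 := by linarith
  obtain ⟨p, hp1, hp⟩ := unit_vec l hL
  obtain ⟨f, hf1, hf⟩ := unit_vec n hN
  have hpf : p ≠ f := by
    rintro rfl
    have : ∑ ν, n ν * l ν = n p * l p := by
      refine Finset.sum_eq_single p (fun i _ hi => ?_) (fun h => absurd (Finset.mem_univ _) h)
      rw [hp i hi, mul_zero]
    rw [hnl] at this
    have h1 : (n p * l p) ^ 2 = 1 := by rw [mul_pow, hp1, hf1]; norm_num
    rw [← this] at h1
    norm_num at h1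
  obtain ⟨σ, hσ0, hσ1⟩ := perm_aux p f hpf
  -- move everything
  have hl : ∀ i, i ≠ 0 → l (σ i) = 0 := fun i hi => hp _ fun h => hi (σ.injective (by rw [h, hσ0]))
  have hn : ∀ i, i ≠ 1 → n (σ i) = 0 := fun i hi => hf _ fun h => hi (σ.injective (by rw [h, hσ1]))
  have e : ∀ g : Fin 6 → ℤ, ∑ ν, g ν = g (σ 0) + g (σ 1) + g (σ 2) + g (σ 3) + g (σ 4) + g (σ 5) := by
    intro g
    rw [← Equiv.sum_comp σ g, Fin.sum_univ_six]
  rw [e] at hM hmn hB1 hK hkl hmk
  rw [hl 1 (by decide), hl 2 (by decide), hl 3 (by decide), hl 4 (by decide), hl 5 (by decide)] at hkl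
  rw [hn 0 (by decide), hn 2 (by decide), hn 3 (by decide), hn 4 (by decide), hn 5 (by decide)] at hmn
  rw [e, hl 1 (by decide), hl 2 (by decide), hl 3 (by decide), hl 4 (by decide), hl 5 (by decide),
    hn 0 (by decide), hn 2 (by decide), hn 3 (by decide), hn 4 (by decide), hn 5 (by decide)] at hB1
  rw [← hσ0] at hp1
  rw [← hσ1] at hf1
  simp only [mul_zero, zero_mul, add_zero, zero_add] at hkl hmn hB1
  generalize m (σ 0) = m0 at *
  generalize m (σ 1) = m1 at *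
  generalize m (σ 2) = m2 at *
  generalize m (σ 3) = m3 at *
  generalize m (σ 4) = m4 at *
  generalize m (σ 5) = m5 at *
  generalize k (σ 0) = k0 at *
  generalize k (σ 1) = k1 at *
  generalize k (σ 2) = k2 at *
  generalize k (σ 3) = k3 at *
  generalize k (σ 4) = k4 at *
  generalize k (σ 5) = k5 at *
  generalize l (σ 0) = ε at *
  generalize n (σ 1) = δ at *
  have hsq : ∀ x : ℤ, x ^ 2 = 1 → x = 1 ∨ x = -1 := by
    intro x hx
    have h1 : (x - 1) * (x + 1) = 0 := by linear_combination hx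
    rcases mul_eq_zero.mp h1 with h | h
    · left; omega
    · right; omega
  have fin : ∀ t : ℤ, k0 ^ 2 = 1 → m1 ^ 2 = 4 → k1 ^ 2 = t ^ 2 → m0 ^ 2 = t ^ 2 →
      m0 * k0 + m1 * k1 = 3 * t → False := by
    intro t c1 c2 c3 c4 c5
    rw [c1, c3] at hK
    rw [c2, c4] at hM
    have q1 := sq_nonneg k2
    have q2 := sq_nonneg k3
    have q3 := sq_nonneg k4
    have q4 := sq_nonneg k5
    have t0 : t ^ 2 ≤ 2 := by linarith
    have t1 : t ≤ 1 := by
      by_contra hcon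
      exact absurd t0 (by nlinarith only [hcon])
    have t2 : -1 ≤ t := by
      by_contra hcon
      exact absurd t0 (by nlinarith only [hcon])
    have t3 : t = -1 ∨ t = 0 ∨ t = 1 := by omega
    have hcs := cs4 m2 m3 m4 m5 k2 k3 k4 k5
    rcases t3 with h | h | h
    · subst h
      have e1 : m2 * k2 + m3 * k3 + m4 * k4 + m5 * k5 = 4 := by linarith
      have e2 : m2 ^ 2 + m3 ^ 2 + m4 ^ 2 + m5 ^ 2 = 3 := by linarith
      have e3 : k2 ^ 2 + k3 ^ 2 + k4 ^ 2 + k5 ^ 2 = 1 := by linarith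
      rw [e1, e2, e3] at hcs
      norm_num at hcs
    · subst h
      exact four_aux m2 m3 m4 m5 k2 k3 k4 k5 (by linarith) (by linarith) (by linarith)
    · subst h
      have e1 : m2 * k2 + m3 * k3 + m4 * k4 + m5 * k5 = -2 := by linarith
      have e2 : m2 ^ 2 + m3 ^ 2 + m4 ^ 2 + m5 ^ 2 = 3 := by linarith
      have e3 : k2 ^ 2 + k3 ^ 2 + k4 ^ 2 + k5 ^ 2 = 1 := by linarith
      rw [e1, e2, e3] at hcs
      norm_num at hcs
  rcases hsq ε hp1 with rfl | rfl <;> rcases hsq δ hf1 with rfl | rfl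
  · obtain rfl : k0 = -1 := by linarith
    obtain rfl : m1 = 2 := by linarith
    obtain rfl : m0 = -k1 := by linarith
    exact fin k1 (by ring) (by ring) (by ring) (by ring) (by ring)
  · obtain rfl : k0 = -1 := by linarith
    obtain rfl : m1 = -2 := by linarith
    obtain rfl : m0 = k1 := by linarith
    exact fin (-m0) (by ring) (by ring) (by ring) (by ring) (by ring)
  · obtain rfl : k0 = 1 := by linarith
    obtain rfl : m1 = 2 := by linarith
    obtain rfl : m0 = k1 := by linarith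
    exact fin m0 (by ring) (by ring) (by ring) (by ring) (by ring)
  · obtain rfl : k0 = 1 := by linarith
    obtain rfl : m1 = -2 := by linarith
    obtain rfl : m0 = -k1 := by linarith
    exact fin (-k1) (by ring) (by ring) (by ring) (by ring) (by ring)

end P7
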