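import Pool.Agent.P7.Targets

/-!
# F2: an integral form that is not a sum of six squares
-/

namespace P7

namespace F2

lemma one_sq {s : Finset (Fin 6)} {n : Fin 6 → ℤ} (h : ∑ i ∈ s, n i ^ 2 = 1) :
    ∃ f ∈ s, n f ^ 2 = 1 ∧ ∀ i ∈ s, i ≠ f → n i = 0 := by
  have hne : ∃ f ∈ s, n f ≠ 0 := by
    by_contra hcon
    push Not at hcon
    have h0 : ∑ i ∈ s, n i ^ 2 = 0 := Finset.sum_eq_zero fun i hi => by rw [hcon i hi]; norm_num
    omega
  obtain ⟨f, hf, hnf⟩ := hne
  have hsum := Finset.add_sum_erase s (fun i => n i ^ 2) hf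
  have hpos : 0 < n f ^ 2 := by positivity
  have hnn : 0 ≤ ∑ i ∈ s.erase f, n i ^ 2 := Finset.sum_nonneg fun i _ => by positivity
  have h0 : ∑ i ∈ s.erase f, n i ^ 2 = 0 := by
    omega
  refine ⟨f, hf, ?_, fun i hi hif => ?_⟩
  · omega
  · have := (Finset.sum_eq_zero_iff_of_nonneg (fun i _ => by positivity)).mp h0 i
      (Finset.mem_erase.mpr ⟨hif, hi⟩)
    exact pow_eq_zero_iff (two_ne_zero) |>.mp this

lemma two_sq {l : Fin 6 → ℤ} (h : ∑ i, l i ^ 2 = 2) :
    ∃ g g', g ≠ g' ∧ l g ^ 2 = 1 ∧ l g' ^ 2 = 1 ∧ ∀ i, i ≠ g → i ≠ g' → l i = 0 := by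
  have hne : ∃ f, l f ≠ 0 := by
    by_contra hcon
    push Not at hcon
    have h0 : ∑ i, l i ^ 2 = 0 := Finset.sum_eq_zero fun i _ => by rw [hcon i]; norm_num
    omega
  obtain ⟨g, hg⟩ := hne
  have hsum := Finset.add_sum_erase Finset.univ (fun i => l i ^ 2) (Finset.mem_univ g)
  have hnn : 0 ≤ ∑ i ∈ Finset.univ.erase g, l i ^ 2 := Finset.sum_nonneg fun i _ => by positivity
  have hpos : 0 < l g ^ 2 := by positivity
  have hle : l g ^ 2 ≤ 2 := by omega
  have h1 : l g ^ 2 = 1 := by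
    have ha : -1 ≤ l g := by nlinarith
    have hb : l g ≤ 1 := by nlinarith
    interval_cases h' : l g <;> simp_all
  have h2 : ∑ i ∈ Finset.univ.erase g, l i ^ 2 = 1 := by omega
  obtain ⟨g', hg', h3, h4⟩ := one_sq h2
  refine ⟨g, g', (Finset.ne_of_mem_erase hg').symm, h1, h3, fun i hi hi' => ?_⟩
  exact h4 i (Finset.mem_erase.mpr ⟨hi, Finset.mem_univ i⟩) hi'

lemma dot_one {n x : Fin 6 → ℤ} {f : Fin 6} (h : ∀ i, i ≠ f → n i = 0) :
    ∑ i, n i * x i = n f * x f :=
  Finset.sum_eq_single f (fun i _ hi => by rw [h i hi, zero_mul])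
    (fun h => absurd (Finset.mem_univ f) h)

lemma dot_two {l x : Fin 6 → ℤ} {g g' : Fin 6} (hne : g ≠ g')
    (h : ∀ i, i ≠ g → i ≠ g' → l i = 0) : ∑ i, l i * x i = l g * x g + l g' * x g' := by
  rw [← Finset.sum_pair hne (f := fun i => l i * x i)]
  refine (Finset.sum_subset (Finset.subset_univ _) fun i _ hi => ?_).symm
  rw [Finset.mem_insert, Finset.mem_singleton, not_or] at hi
  rw [h i hi.1 hi.2, zero_mul]

lemma sq_eq_one_cases {u : ℤ} (h : u ^ 2 = 1) : u = 1 ∨ u = -1 := by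
  have h1 : (u - 1) * (u + 1) = 0 := by linarith [show (u - 1) * (u + 1) = u ^ 2 - 1 by ring]
  rcases mul_eq_zero.mp h1 with h | h
  · left; omega
  · right; omega

/-- The final contradiction. -/
lemma endgame {x y z w u v : ℤ} (hu : u ^ 2 = 1) (hv : v ^ 2 = 1) (h1 : u * x + v * y = 1)
    (h2 : x ^ 2 + y ^ 2 + z ^ 2 + w ^ 2 = 4) : False := by
  have hx : -2 ≤ x := by nlinarith [sq_nonneg y, sq_nonneg z, sq_nonneg w]
  have hx' : x ≤ 2 := by nlinarith [sq_nonneg y, sq_nonneg z, sq_nonneg w]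
  have hy : -2 ≤ y := by nlinarith [sq_nonneg x, sq_nonneg z, sq_nonneg w]
  have hy' : y ≤ 2 := by nlinarith [sq_nonneg x, sq_nonneg z, sq_nonneg w]
  have hz : -2 ≤ z := by nlinarith [sq_nonneg x, sq_nonneg y, sq_nonneg w]
  have hz' : z ≤ 2 := by nlinarith [sq_nonneg x, sq_nonneg y, sq_nonneg w]
  have hw : -2 ≤ w := by nlinarith [sq_nonneg x, sq_nonneg y, sq_nonneg z]
  have hw' : w ≤ 2 := by nlinarith [sq_nonneg x, sq_nonneg y, sq_nonneg z]
  have hu' : u = 1 ∨ u = -1 := sq_eq_one_cases hu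
  have hv' : v = 1 ∨ v = -1 := sq_eq_one_cases hv
  have hzw : z ^ 2 + w ^ 2 ≠ 3 := by
    interval_cases z <;> interval_cases w <;> norm_num
  have hxy : x ^ 2 + y ^ 2 = 1 := by
    rcases hu' with rfl | rfl <;> rcases hv' with rfl | rfl <;>
      interval_cases x <;> interval_cases y <;> first | omega | nlinarith [sq_nonneg z, sq_nonneg w]
  exact hzw (by omega)

end F2

open F2 in
theorem tF2 : T_F2 := by
  intro a b ha hab hcop m n k l hU hU' hB0 hB1 hV hV'
  have hLnn : 0 ≤ ∑ ν, l ν ^ 2 := Finset.sum_nonneg fun i _ => by positivity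
  have hKnn : 0 ≤ ∑ ν, k ν ^ 2 := Finset.sum_nonneg fun i _ => by positivity
  have hMnn : 0 ≤ ∑ ν, m ν ^ 2 := Finset.sum_nonneg fun i _ => by positivity
  have hNnn : 0 ≤ ∑ ν, n ν ^ 2 := Finset.sum_nonneg fun i _ => by positivity
  have hndvd : ¬ a ∣ 1 := fun h => by
    have := Int.le_of_dvd one_pos h
    omega
  have hndvdb : ¬ a ∣ b := fun h => by
    obtain ⟨c, hc⟩ := h
    obtain ⟨u, v, huv⟩ := hcop
    exact hndvd ⟨u + c * v, by rw [← huv, hc]; ring⟩
  -- the value of `L`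
  have hL : ∑ ν, l ν ^ 2 = 2 := by
    have hle : ∑ ν, l ν ^ 2 ≤ 2 := by
      by_contra hcon
      push Not at hcon
      nlinarith
    rcases (by omega : ∑ ν, l ν ^ 2 = 0 ∨ ∑ ν, l ν ^ 2 = 1 ∨ ∑ ν, l ν ^ 2 = 2) with h | h | h
    · exfalso
      have hl0 : ∀ i, l i = 0 := fun i =>
        pow_eq_zero_iff (two_ne_zero) |>.mp
          ((Finset.sum_eq_zero_iff_of_nonneg (fun i _ => by positivity)).mp h i (Finset.mem_univ i))
      have h1 : ∑ ν, m ν * l ν = 0 := Finset.sum_eq_zero fun i _ => by rw [hl0 i, mul_zero]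
      rw [h1, zero_add] at hB1
      exact hndvd ⟨_, hB1.symm⟩
    · exfalso
      rw [h] at hV
      apply hndvdb
      exact ⟨∑ ν, k ν ^ 2 - 1, by linear_combination -hV⟩
    · exact h
  have hK : ∑ ν, k ν ^ 2 = 1 := by
    rw [hL] at hV
    have : a * (∑ ν, k ν ^ 2 - 1) = 0 := by linear_combination hV
    rcases mul_eq_zero.mp this with h | h <;> omega
  have hab6 : 6 ≤ a * b := by nlinarith
  have hN : ∑ ν, n ν ^ 2 = 1 := by
    have hle : ∑ ν, n ν ^ 2 ≤ 1 := by
      by_contra hcon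
      push Not at hcon
      nlinarith
    rcases (by omega : ∑ ν, n ν ^ 2 = 0 ∨ ∑ ν, n ν ^ 2 = 1) with h | h
    · exfalso
      have hl0 : ∀ i, n i = 0 := fun i =>
        pow_eq_zero_iff (two_ne_zero) |>.mp
          ((Finset.sum_eq_zero_iff_of_nonneg (fun i _ => by positivity)).mp h i (Finset.mem_univ i))
      have h1 : ∑ ν, m ν * n ν = 0 := Finset.sum_eq_zero fun i _ => by rw [hl0 i, mul_zero]
      omega
    · exact h
  have hM : ∑ ν, m ν ^ 2 = 5 := by
    rw [hN] at hU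
    linear_combination hU
  obtain ⟨e, -, he1, he0⟩ := one_sq hK
  obtain ⟨f, -, hf1, hf0⟩ := one_sq hN
  obtain ⟨g, g', hgg, hg1, hg1', hg0⟩ := two_sq hL
  have hk0 : ∀ i, i ≠ e → k i = 0 := fun i hi => he0 i (Finset.mem_univ i) hi
  have hn0 : ∀ i, i ≠ f → n i = 0 := fun i hi => hf0 i (Finset.mem_univ i) hi
  have hke : k e ≠ 0 := fun h => by rw [h] at he1; norm_num at he1
  have hnf : n f ≠ 0 := fun h => by rw [h] at hf1; norm_num at hf1
  have hlg : l g ≠ 0 := fun h => by rw [h] at hg1; norm_num at hg1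
  have hlg' : l g' ≠ 0 := fun h => by rw [h] at hg1'; norm_num at hg1'
  -- `l e = 0`
  rw [dot_one hk0] at hV'
  have hle0 : l e = 0 := (mul_eq_zero.mp hV').resolve_left hke
  have heg : e ≠ g := fun h => hlg (h ▸ hle0)
  have heg' : e ≠ g' := fun h => hlg' (h ▸ hle0)
  have hmk : ∑ ν, m ν * k ν = k e * m e := by
    rw [← dot_one hk0 (x := m)]
    exact Finset.sum_congr rfl fun i _ => mul_comm _ _
  have hmn : ∑ ν, m ν * n ν = n f * m f := by
    rw [← dot_one hn0 (x := m)]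
    exact Finset.sum_congr rfl fun i _ => mul_comm _ _
  have hml : ∑ ν, m ν * l ν = l g * m g + l g' * m g' := by
    rw [← dot_two hgg hg0 (x := m)]
    exact Finset.sum_congr rfl fun i _ => mul_comm _ _
  rw [hmk, dot_one hn0] at hB0
  rw [hmn] at hU'
  rw [hml, dot_one hn0] at hB1
  have hme2 : m e ^ 2 ≤ 5 := by
    rw [← hM]
    exact Finset.single_le_sum (f := fun i => m i ^ 2) (fun i _ => by positivity) (Finset.mem_univ e)
  have hb3 : 3 ≤ b := by omega
  have hnl : n f * l f = 0 := by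
    by_contra hcon
    have h1 : 1 ≤ |n f * l f| := Int.one_le_abs hcon
    have h2 : |k e * m e| = b * |n f * l f| := by
      rw [show k e * m e = - (b * (n f * l f)) by linear_combination hB0, abs_neg, abs_mul,
        abs_of_pos (by omega : (0 : ℤ) < b)]
    have h3 : 3 ≤ |k e * m e| := by rw [h2]; nlinarith
    have h4 : 9 ≤ |k e * m e| ^ 2 := by nlinarith
    rw [sq_abs, mul_pow, he1, one_mul] at h4
    omega
  have hlf0 : l f = 0 := (mul_eq_zero.mp hnl).resolve_left hnf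
  have hfg : f ≠ g := fun h => hlg (h ▸ hlf0)
  have hfg' : f ≠ g' := fun h => hlg' (h ▸ hlf0)
  rw [hnl, mul_zero, add_zero] at hB0
  have hme : m e = 0 := (mul_eq_zero.mp hB0).resolve_left hke
  have hef : e ≠ f := by
    rintro rfl
    rw [hme, mul_zero] at hU'
    exact absurd hU' (by norm_num)
  rw [hk0 f hef.symm, mul_zero, mul_zero, add_zero] at hB1
  have hmf : m f ^ 2 = 1 := by
    have : (n f * m f) ^ 2 = 1 := by rw [hU']; norm_num
    rwa [mul_pow, hf1, one_mul] at this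
  -- the two remaining indices
  set s : Finset (Fin 6) := {e, f, g, g'} with hs
  have hcs : s.card = 4 := by
    rw [hs, Finset.card_insert_of_notMem, Finset.card_insert_of_notMem,
      Finset.card_pair hgg]
    · simp [hfg, hfg']
    · simp [hef, heg, heg']
  have hcc : sᶜ.card = 2 := by
    rw [Finset.card_compl, hcs]; rfl
  obtain ⟨p, q, hpq, hpq'⟩ := Finset.card_eq_two.mp hcc
  have hsum := Finset.sum_add_sum_compl s (fun i => m i ^ 2)
  rw [hpq', Finset.sum_pair hpq, hM, hs, Finset.sum_insert, Finset.sum_insert,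
    Finset.sum_pair hgg, hme, hmf] at hsum
  · refine endgame hg1 hg1' hB1 (z := m p) (w := m q) ?_
    omega
  · simp [hfg, hfg']
  · simp [hef, heg, heg']

end P7
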