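import Pool.Agent.P7.Targets

/-!
# Pythagoras numbers of biquadratic rings: the integer vector lemma F3
-/

namespace P7

namespace F3

open Finset

/-- An integer vector of square length one. -/
theorem one (v : Fin 6 → ℤ) (h : ∑ ν, v ν ^ 2 = 1) :
    ∃ i, v i ^ 2 = 1 ∧ ∀ j, j ≠ i → v j = 0 := by
  classical
  have hex : ∃ i, v i ≠ 0 := by
    by_contra hc
    push Not at hc
    simp [hc] at h
  obtain ⟨i, hi⟩ := hex
  have h1 : v i ^ 2 + ∑ ν ∈ univ.erase i, v ν ^ 2 = 1 := by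
    rw [← h]
    exact Finset.add_sum_erase univ (fun ν => v ν ^ 2) (mem_univ i)
  have h2 : 0 ≤ ∑ ν ∈ univ.erase i, v ν ^ 2 := sum_nonneg fun j _ => sq_nonneg _
  have h3 : 1 ≤ v i ^ 2 := by
    have : 0 < v i ^ 2 := by positivity
    omega
  have h4 : ∑ ν ∈ univ.erase i, v ν ^ 2 = 0 := by omega
  refine ⟨i, by omega, fun j hj => ?_⟩
  have h5 := (sum_eq_zero_iff_of_nonneg (fun j _ => sq_nonneg (v j))).1 h4 j
    (mem_erase.2 ⟨hj, mem_univ j⟩)
  exact pow_eq_zero_iff (two_ne_zero) |>.1 h5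

/-- An integer is a square with value at most one or at least four. -/
theorem sq_cases (x : ℤ) : x ^ 2 = 0 ∨ x ^ 2 = 1 ∨ 4 ≤ x ^ 2 := by
  by_cases h0 : x = 0
  · left; simp [h0]
  by_cases h1 : x = 1
  · right; left; simp [h1]
  by_cases h2 : x = -1
  · right; left; simp [h2]
  right; right
  have : 2 ≤ x ∨ x ≤ -2 := by omega
  rcases this with h | h <;> nlinarith

/-- An integer vector of square length two. -/
theorem two (v : Fin 6 → ℤ) (h : ∑ ν, v ν ^ 2 = 2) :
    ∃ p q, p ≠ q ∧ v p ^ 2 = 1 ∧ v q ^ 2 = 1 ∧ ∀ j, j ≠ p → j ≠ q → v j = 0 := by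
  classical
  have hex : ∃ i, v i ≠ 0 := by
    by_contra hc
    push Not at hc
    simp [hc] at h
  obtain ⟨p, hp⟩ := hex
  have h1 : v p ^ 2 + ∑ ν ∈ univ.erase p, v ν ^ 2 = 2 := by
    rw [← h]
    exact Finset.add_sum_erase univ (fun ν => v ν ^ 2) (mem_univ p)
  have h2 : 0 ≤ ∑ ν ∈ univ.erase p, v ν ^ 2 := sum_nonneg fun j _ => sq_nonneg _
  have h3 : v p ^ 2 = 1 := by
    have h4 : 0 < v p ^ 2 := by positivity
    rcases sq_cases (v p) with h5 | h5 | h5 <;> omega
  -- the vector with the entry at `p` removed has square length one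
  have h6 : ∑ ν, (fun ν => if ν = p then 0 else v ν) ν ^ 2 = 1 := by
    have h7 : ∑ ν, (fun ν => if ν = p then 0 else v ν) ν ^ 2 = ∑ ν ∈ univ.erase p, v ν ^ 2 := by
      rw [← Finset.add_sum_erase univ _ (mem_univ p)]
      simp only [if_true]
      have : ∑ x ∈ univ.erase p, (if x = p then (0 : ℤ) else v x) ^ 2
          = ∑ x ∈ univ.erase p, v x ^ 2 := by
        refine sum_congr rfl fun j hj => ?_
        rw [if_neg (mem_erase.1 hj).1]
      rw [this]; simp
    rw [h7]; omega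
  obtain ⟨q, hq1, hq2⟩ := one _ h6
  have hqp : q ≠ p := by
    intro hc
    simp [hc] at hq1
  refine ⟨p, q, hqp.symm, h3, by simpa [hqp] using hq1, fun j hj1 hj2 => ?_⟩
  simpa [hj1] using hq2 j hj2

/-- Four distinct indices and the two remaining ones. -/
theorem six (i p q f : Fin 6) (h1 : i ≠ p) (h2 : i ≠ q) (h3 : i ≠ f) (h4 : p ≠ q) (h5 : p ≠ f)
    (h6 : q ≠ f) : ∃ r s : Fin 6, ∀ g : Fin 6 → ℤ,
      ∑ ν, g ν = g i + g p + g q + g f + g r + g s := by
  classical
  have hc : (({i, p, q, f} : Finset (Fin 6))ᶜ).card = 2 := by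
    rw [card_compl]
    have : ({i, p, q, f} : Finset (Fin 6)).card = 4 := by
      rw [card_insert_of_notMem, card_insert_of_notMem, card_insert_of_notMem, card_singleton]
      · simpa using h6
      · simp [h4, h5]
      · simp [h1, h2, h3]
    rw [this]; rfl
  obtain ⟨r, s, hrs, hset⟩ := card_eq_two.1 hc
  refine ⟨r, s, fun g => ?_⟩
  rw [← sum_add_sum_compl ({i, p, q, f} : Finset (Fin 6)) g, hset, sum_pair hrs,
    sum_insert, sum_insert, sum_insert, sum_singleton]
  · ring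
  · simpa using h6
  · simp [h4, h5]
  · simp [h1, h2, h3]

/-- Sum with one vector supported at one index. -/
theorem sum_one (g l : Fin 6 → ℤ) (i : Fin 6) (hl : ∀ j, j ≠ i → l j = 0) :
    ∑ ν, g ν * l ν = g i * l i := by
  rw [Finset.sum_eq_single i]
  · intro j _ hj; rw [hl j hj, mul_zero]
  · intro h; exact absurd (mem_univ i) h

/-- Sum with one vector supported at two indices. -/
theorem sum_two (g w : Fin 6 → ℤ) (p q : Fin 6) (hpq : p ≠ q)
    (hw : ∀ j, j ≠ p → j ≠ q → w j = 0) :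
    ∑ ν, g ν * w ν = g p * w p + g q * w q := by
  classical
  have : ∑ ν ∈ ({p, q} : Finset (Fin 6)), g ν * w ν = ∑ ν, g ν * w ν := by
    refine sum_subset (subset_univ _) fun j _ hj => ?_
    have hj' : j ≠ p ∧ j ≠ q := by simpa using hj
    rw [hw j hj'.1 hj'.2, mul_zero]
  rw [← this, sum_pair hpq]

/-- An integer whose square is one. -/
theorem sq_one {x : ℤ} (h : x ^ 2 = 1) : x = 1 ∨ x = -1 := by
  rcases mul_eq_zero.1 (show (x - 1) * (x + 1) = 0 by linear_combination h) with h | h <;> omega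

/-- Three distinct entries of a vector of squares. -/
theorem three_le (g : Fin 6 → ℤ) (i p q : Fin 6) (h1 : i ≠ p) (h2 : i ≠ q) (h3 : p ≠ q) :
    g i ^ 2 + g p ^ 2 + g q ^ 2 ≤ ∑ ν, g ν ^ 2 := by
  classical
  have h := sum_le_sum_of_subset_of_nonneg (subset_univ ({i, p, q} : Finset (Fin 6)))
    (f := fun ν => g ν ^ 2) (fun j _ _ => sq_nonneg (g j))
  rw [sum_insert, sum_pair h3] at h
  · linarith
  · simp [h1, h2]

/-- The arithmetic part: the square sums of `l` and `(k - l) / 2`. -/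
theorem arith (a b L X W : ℤ) (ha : 1 ≤ a) (hab : a < b) (hco : IsCoprime a b) (ha2 : ¬ 2 ∣ a)
    (hb2 : ¬ 2 ∣ b) (hab6 : 6 ≤ a * b) (hL : 0 ≤ L) (hK0 : 0 ≤ L + 4 * X + 4 * W)
    (h1 : L + 2 * X = 1) (h2 : a * (L + 4 * X + 4 * W) + b * L = 9 * a + b) :
    L = 1 ∧ X = 0 ∧ W = 2 := by
  have hdvd : a ∣ (L - 1) * b := ⟨9 - (L + 4 * X + 4 * W), by linear_combination h2⟩
  obtain ⟨t, ht⟩ := hco.dvd_of_dvd_mul_right hdvd
  have hK : L + 4 * X + 4 * W = 9 - b * t := by
    have : a * (L + 4 * X + 4 * W) = a * (9 - b * t) := by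
      have hLt : L = 1 + a * t := by omega
      rw [hLt] at h2 ⊢
      linear_combination h2
    exact mul_left_cancel₀ (by omega) this
  have ht0 : 0 ≤ t := by
    by_contra hc
    have : a * t ≤ -1 := by nlinarith
    omega
  have htev : 2 ∣ t := by
    have h3 : (2 : ℤ) ∣ a * t := ⟨-X, by omega⟩
    rcases (Int.prime_two.dvd_mul).1 h3 with h | h
    · exact absurd h ha2
    · exact h
  have ht2 : t = 0 := by
    by_contra hc
    obtain ⟨u, hu⟩ := htev
    have hu1 : 1 ≤ u := by omega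
    have hbu : b ≤ b * u := by nlinarith
    have hb4 : b ≤ 4 := by
      have : b * t = 2 * (b * u) := by rw [hu]; ring
      omega
    have : b = 3 := by omega
    have : a = 1 := by omega
    subst_vars
    omega
  subst ht2
  refine ⟨by omega, by omega, by omega⟩

/-- The case where `n` is supported at one of the two positions of `w`. -/
theorem caseP (a : ℤ) (ha : 1 ≤ a) (m w : Fin 6 → ℤ) (li np : ℤ) (i p q : Fin 6)
    (hip : i ≠ p) (hiq : i ≠ q) (hpq : p ≠ q) (hM : ∑ ν, m ν ^ 2 = 5)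
    (hli : li ^ 2 = 1) (hnp : np ^ 2 = 1) (hwp : w p ^ 2 = 1) (hmp : m p = np)
    (h1 : m i * li + a * (np * (2 * w p)) = 0)
    (h0 : m i * li + 2 * (m p * w p + m q * w q) = 2) : False := by
  have h3 := three_le m i p q hip hiq hpq
  rw [hM] at h3
  have h4 : m i ^ 2 = 4 * a ^ 2 := by
    have h5 : m i * li = - (a * (np * (2 * w p))) := by linarith
    calc m i ^ 2 = (m i * li) ^ 2 := by rw [mul_pow, hli, mul_one]
      _ = 4 * a ^ 2 * (np ^ 2 * w p ^ 2) := by rw [h5]; ring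
      _ = 4 * a ^ 2 := by rw [hnp, hwp]; ring
  have h5 : m p ^ 2 = 1 := by rw [hmp, hnp]
  have ha1 : a = 1 := by nlinarith [sq_nonneg (m q)]
  subst ha1
  have hq0 : m q ^ 2 = 0 := by nlinarith [sq_nonneg (m q)]
  have hq : m q = 0 := pow_eq_zero_iff two_ne_zero |>.1 hq0
  rw [hq, hmp] at h0
  have : (2 : ℤ) = 0 := by linear_combination h1 - h0
  omega

end F3

open F3 Finset in
/-- The integer vector lemma F3. -/
theorem tF3 : T_F3 := by
  intro a b ha hab hco ha2 hb2 hab6 m n k l hkl hM hmn hB0 hB1 hK hkl1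
  choose w hw using hkl
  have hk : ∀ ν, k ν = l ν + 2 * w ν := fun ν => by have := hw ν; omega
  have e1 : ∑ ν, k ν * l ν = ∑ ν, l ν ^ 2 + 2 * ∑ ν, w ν * l ν := by
    rw [mul_sum, ← sum_add_distrib]
    exact sum_congr rfl fun ν _ => by rw [hk]; ring
  have e2 : ∑ ν, k ν ^ 2 = ∑ ν, l ν ^ 2 + 4 * ∑ ν, w ν * l ν + 4 * ∑ ν, w ν ^ 2 := by
    rw [mul_sum, mul_sum, ← sum_add_distrib, ← sum_add_distrib]
    exact sum_congr rfl fun ν _ => by rw [hk]; ring
  have hL0 : 0 ≤ ∑ ν, l ν ^ 2 := sum_nonneg fun j _ => sq_nonneg _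
  have hK0 : 0 ≤ ∑ ν, k ν ^ 2 := sum_nonneg fun j _ => sq_nonneg _
  rw [e2] at hK hK0
  rw [e1] at hkl1
  obtain ⟨hL, hX, hW⟩ := arith a b _ _ _ ha hab hco ha2 hb2 hab6 hL0 hK0 hkl1 hK
  -- the sums of `m` and `n`
  have hM0 : 0 ≤ ∑ ν, m ν ^ 2 := sum_nonneg fun j _ => sq_nonneg _
  have hN0 : 0 ≤ ∑ ν, n ν ^ 2 := sum_nonneg fun j _ => sq_nonneg _
  have hN : ∑ ν, n ν ^ 2 = 1 := by
    have h1 : ∑ ν, n ν ^ 2 ≠ 0 := by
      intro hc
      have h2 : ∀ ν, n ν = 0 := fun ν => by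
        have := (sum_eq_zero_iff_of_nonneg (fun j _ => sq_nonneg (n j))).1 hc ν (mem_univ ν)
        exact pow_eq_zero_iff two_ne_zero |>.1 this
      simp [h2] at hmn
    by_contra hc
    have h2 : 2 ≤ ∑ ν, n ν ^ 2 := by omega
    nlinarith
  have hM5 : ∑ ν, m ν ^ 2 = 5 := by rw [hN] at hM; linarith
  obtain ⟨i, hi1, hi2⟩ := one l hL
  obtain ⟨p, q, hpq, hp1, hq1, hpq2⟩ := two w hW
  obtain ⟨f, hf1, hf2⟩ := one n hN
  have hli : l i ≠ 0 := by intro hc; rw [hc] at hi1; norm_num at hi1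
  have hwi : w i = 0 := by
    rw [sum_one w l i hi2] at hX
    rcases mul_eq_zero.1 hX with h | h
    · exact h
    · exact absurd h hli
  have hip : i ≠ p := by intro hc; rw [← hc, hwi] at hp1; norm_num at hp1
  have hiq : i ≠ q := by intro hc; rw [← hc, hwi] at hq1; norm_num at hq1
  have hmf : m f = n f := by
    rw [sum_one m n f hf2] at hmn
    calc m f = m f * n f ^ 2 := by rw [hf1, mul_one]
      _ = (m f * n f) * n f := by ring
      _ = n f := by rw [hmn, one_mul]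
  have eml : ∑ ν, m ν * l ν = m i * l i := sum_one m l i hi2
  have enk : ∑ ν, n ν * k ν = n f * k f := by
    rw [show ∑ ν, n ν * k ν = ∑ ν, k ν * n ν from sum_congr rfl fun ν _ => mul_comm _ _,
      sum_one k n f hf2, mul_comm]
  have enl : ∑ ν, n ν * l ν = n i * l i := sum_one n l i hi2
  have emk : ∑ ν, m ν * k ν = m i * l i + 2 * (m p * w p + m q * w q) := by
    rw [← eml, ← sum_two m w p q hpq hpq2, mul_sum, ← sum_add_distrib]
    exact sum_congr rfl fun ν _ => by rw [hk]; ring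
  rw [eml, enk] at hB1
  rw [emk, enl] at hB0
  by_cases hfi : f = i
  · subst hfi
    rw [hk f, hwi] at hB1
    have h1 : (m f + a * n f) * l f = 0 := by linear_combination hB1
    rcases mul_eq_zero.1 h1 with h | h
    · rw [hmf] at h
      have : n f * (1 + a) = 0 := by linear_combination h
      rcases mul_eq_zero.1 this with h | h
      · rw [h] at hf1; norm_num at hf1
      · omega
    · exact hli h
  have hni : n i = 0 := hf2 i (Ne.symm hfi)
  rw [hni, zero_mul, mul_zero, add_zero] at hB0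
  by_cases hfp : f = p
  · subst hfp
    rw [hk f, hi2 f hfi, zero_add] at hB1
    exact caseP a ha m w (l i) (n f) i f q hip hiq hpq hM5 hi1 hf1 hp1 hmf hB1 hB0
  by_cases hfq : f = q
  · subst hfq
    rw [hk f, hi2 f hfi, zero_add] at hB1
    exact caseP a ha m w (l i) (n f) i f p hiq hip hpq.symm hM5 hi1 hf1 hq1 hmf hB1
      (by linear_combination hB0)
  -- the remaining case
  have hkf : k f = 0 := by rw [hk f, hi2 f hfi, hpq2 f hfp hfq]; ring
  rw [hkf, mul_zero, mul_zero, add_zero] at hB1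
  have hmi : m i = 0 := by
    rcases mul_eq_zero.1 hB1 with h | h
    · exact h
    · exact absurd h hli
  rw [hB1, zero_add] at hB0
  obtain ⟨r, s, hrs⟩ := six i p q f hip hiq (Ne.symm hfi) hpq (Ne.symm hfp) (Ne.symm hfq)
  have hsum := hrs (fun ν => m ν ^ 2)
  rw [hM5, hmi, hmf, hf1] at hsum
  have hc := sq_cases (m p)
  have hd := sq_cases (m q)
  have he := sq_cases (m r)
  have hg := sq_cases (m s)
  have hpar : ∃ c : ℤ, m p ^ 2 + m q ^ 2 = 1 + 2 * c := by
    have h1 : m p * w p + m q * w q = 1 := by omega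
    refine ⟨- (m p * w p * (m q * w q)), ?_⟩
    have h2 : (m p * w p + m q * w q) ^ 2 = 1 := by rw [h1]; norm_num
    have h3 : (m p * w p + m q * w q) ^ 2
        = m p ^ 2 * w p ^ 2 + m q ^ 2 * w q ^ 2 + 2 * (m p * w p * (m q * w q)) := by ring
    rw [h3, hp1, hq1] at h2
    linarith
  obtain ⟨c, hcc⟩ := hpar
  rcases hc with hc | hc | hc <;> rcases hd with hd | hd | hd <;> rcases he with he | he | he <;>
    rcases hg with hg | hg | hg <;> omega

end P7
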