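import Pool.Agent.P7.F3

/-!
# Pythagoras numbers of biquadratic rings: the integer vector lemma F4
-/

namespace P7

namespace F4

open Finset

/-- The case where `n` is supported at one of the two positions of `l`. -/
theorem caseP (b : ℤ) (hb : 13 ≤ b) (v : Fin 6 → ℤ) (hV : ∑ ν, v ν ^ 2 = 5) (np lp mp mlq wr : ℤ)
    (r : Fin 6) (hnp : np ^ 2 = 1) (hlp : lp ^ 2 = 1) (hwr : wr ^ 2 = 1) (hmp : mp = - np)
    (h1 : mp * lp + mlq + np * lp = 2)
    (h0 : mp * lp + mlq + 2 * (2 * v r * wr) + b * (np * lp) = 2) : False := by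
  have h2 : v r ^ 2 ≤ 5 := by
    rw [← hV]
    exact Finset.single_le_sum (f := fun ν => v ν ^ 2) (fun j _ => sq_nonneg (v j)) (mem_univ r)
  subst hmp
  have h3 : mlq = 2 := by linarith
  have h4 : 4 * (v r * wr) = (1 - b) * (np * lp) := by linarith
  have h5 : 16 * v r ^ 2 = (1 - b) ^ 2 := by
    calc 16 * v r ^ 2 = (4 * (v r * wr)) ^ 2 := by rw [mul_pow, mul_pow, hwr]; ring
      _ = (1 - b) ^ 2 * (np ^ 2 * lp ^ 2) := by rw [h4]; ring
      _ = (1 - b) ^ 2 := by rw [hnp, hlp]; ring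
  nlinarith

end F4

open F3 Finset in
/-- The integer vector lemma F4. -/
theorem tF4 : T_F4 := by
  intro b hb m n k l hmn2 hkl2 hM hmn hB0 hB1 hK hkl1
  choose v hv using hmn2
  choose w hw using hkl2
  have hk : ∀ ν, k ν = l ν + 2 * w ν := fun ν => by have := hw ν; omega
  have hm : ∀ ν, m ν = n ν + 2 * v ν := fun ν => by have := hv ν; omega
  have e1 : ∑ ν, k ν * l ν = ∑ ν, l ν ^ 2 + 2 * ∑ ν, w ν * l ν := by
    rw [mul_sum, ← sum_add_distrib]
    exact sum_congr rfl fun ν _ => by rw [hk]; ring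
  have e2 : ∑ ν, k ν ^ 2 = ∑ ν, l ν ^ 2 + 4 * ∑ ν, w ν * l ν + 4 * ∑ ν, w ν ^ 2 := by
    rw [mul_sum, mul_sum, ← sum_add_distrib, ← sum_add_distrib]
    exact sum_congr rfl fun ν _ => by rw [hk]; ring
  have e3 : ∑ ν, m ν * n ν = ∑ ν, n ν ^ 2 + 2 * ∑ ν, v ν * n ν := by
    rw [mul_sum, ← sum_add_distrib]
    exact sum_congr rfl fun ν _ => by rw [hm]; ring
  have e4 : ∑ ν, m ν ^ 2 = ∑ ν, n ν ^ 2 + 4 * ∑ ν, v ν * n ν + 4 * ∑ ν, v ν ^ 2 := by
    rw [mul_sum, mul_sum, ← sum_add_distrib, ← sum_add_distrib]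
    exact sum_congr rfl fun ν _ => by rw [hm]; ring
  have hL0 : 0 ≤ ∑ ν, l ν ^ 2 := sum_nonneg fun j _ => sq_nonneg _
  have hK0 : 0 ≤ ∑ ν, k ν ^ 2 := sum_nonneg fun j _ => sq_nonneg _
  have hM0 : 0 ≤ ∑ ν, m ν ^ 2 := sum_nonneg fun j _ => sq_nonneg _
  have hN0 : 0 ≤ ∑ ν, n ν ^ 2 := sum_nonneg fun j _ => sq_nonneg _
  have hLne : ∑ ν, l ν ^ 2 ≠ 0 := by
    intro hc
    have h2 : ∀ ν, l ν = 0 := fun ν => by
      have := (sum_eq_zero_iff_of_nonneg (fun j _ => sq_nonneg (l j))).1 hc ν (mem_univ ν)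
      exact pow_eq_zero_iff two_ne_zero |>.1 this
    simp [h2] at hkl1
  rw [e1] at hkl1
  rw [e3] at hmn
  have hL : ∑ ν, l ν ^ 2 = 2 := by
    by_contra hc
    have h2 : 4 ≤ ∑ ν, l ν ^ 2 := by omega
    nlinarith
  have hN : ∑ ν, n ν ^ 2 = 1 := by
    by_contra hc
    have h2 : 3 ≤ ∑ ν, n ν ^ 2 := by omega
    nlinarith
  have hX : ∑ ν, w ν * l ν = 0 := by omega
  have hY : ∑ ν, v ν * n ν = -1 := by omega
  have hW : ∑ ν, w ν ^ 2 = 1 := by rw [e2, hL, hX] at hK; linarith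
  have hV : ∑ ν, v ν ^ 2 = 5 := by rw [e4, hN, hY] at hM; linarith
  obtain ⟨r, hr1, hr2⟩ := one w hW
  obtain ⟨p, q, hpq, hp1, hq1, hpq2⟩ := two l hL
  obtain ⟨f, hf1, hf2⟩ := one n hN
  have hwr : w r ≠ 0 := by intro hc; rw [hc] at hr1; norm_num at hr1
  have hlr : l r = 0 := by
    rw [show ∑ ν, w ν * l ν = ∑ ν, l ν * w ν from sum_congr rfl fun ν _ => mul_comm _ _,
      sum_one l w r hr2] at hX
    rcases mul_eq_zero.1 hX with h | h
    · exact h
    · exact absurd h hwr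
  have hrp : r ≠ p := by intro hc; rw [← hc, hlr] at hp1; norm_num at hp1
  have hrq : r ≠ q := by intro hc; rw [← hc, hlr] at hq1; norm_num at hq1
  have hvf : v f = - n f := by
    rw [sum_one v n f hf2] at hY
    calc v f = v f * n f ^ 2 := by rw [hf1, mul_one]
      _ = (v f * n f) * n f := by ring
      _ = - n f := by rw [hY]; ring
  have hmf : m f = - n f := by rw [hm f, hvf]; ring
  have eml : ∑ ν, m ν * l ν = m p * l p + m q * l q := sum_two m l p q hpq hpq2
  have enk : ∑ ν, n ν * k ν = n f * k f := by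
    rw [show ∑ ν, n ν * k ν = ∑ ν, k ν * n ν from sum_congr rfl fun ν _ => mul_comm _ _,
      sum_one k n f hf2, mul_comm]
  have enl : ∑ ν, n ν * l ν = n f * l f := by
    rw [show ∑ ν, n ν * l ν = ∑ ν, l ν * n ν from sum_congr rfl fun ν _ => mul_comm _ _,
      sum_one l n f hf2, mul_comm]
  have emk : ∑ ν, m ν * k ν = m p * l p + m q * l q + 2 * (m r * w r) := by
    rw [← eml, ← sum_one m w r hr2, mul_sum, ← sum_add_distrib]
    exact sum_congr rfl fun ν _ => by rw [hk]; ring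
  rw [eml, enk] at hB1
  rw [emk, enl] at hB0
  by_cases hfp : f = p
  · subst hfp
    have hnr : n r = 0 := hf2 r hrp
    have hmr : m r = 2 * v r := by rw [hm r, hnr]; ring
    rw [hmr] at hB0
    rw [hk f, hr2 f (Ne.symm hrp)] at hB1
    exact F4.caseP b hb v hV (n f) (l f) (m f) (m q * l q) (w r) r hf1 hp1 hr1 hmf
      (by linear_combination hB1) hB0
  by_cases hfq : f = q
  · subst hfq
    have hnr : n r = 0 := hf2 r hrq
    have hmr : m r = 2 * v r := by rw [hm r, hnr]; ring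
    rw [hmr] at hB0
    rw [hk f, hr2 f (Ne.symm hrq)] at hB1
    exact F4.caseP b hb v hV (n f) (l f) (m f) (m p * l p) (w r) r hf1 hq1 hr1 hmf
      (by linear_combination hB1) (by linear_combination hB0)
  have hlf : l f = 0 := hpq2 f hfp hfq
  rw [hlf, mul_zero, mul_zero, add_zero] at hB0
  by_cases hfr : f = r
  · subst hfr
    rw [hk f, hlf, zero_add] at hB1
    rw [hmf] at hB0
    have h1 : 4 * (n f * w f) = 0 := by linear_combination hB1 - hB0
    have h2 : n f * w f = 0 := by omega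
    rcases mul_eq_zero.1 h2 with h | h
    · rw [h] at hf1; norm_num at hf1
    · exact hwr h
  -- the remaining case
  have hkf : k f = 0 := by rw [hk f, hlf, hr2 f hfr]; ring
  rw [hkf, mul_zero, add_zero] at hB1
  rw [hB1] at hB0
  have hmr : m r = 0 := by
    have h1 : m r * w r = 0 := by omega
    rcases mul_eq_zero.1 h1 with h | h
    · exact h
    · exact absurd h hwr
  have hvr : v r = 0 := by
    have h1 := hm r
    rw [hmr, hf2 r (Ne.symm hfr)] at h1
    omega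
  have hmp : m p = 2 * v p := by rw [hm p, hf2 p (Ne.symm hfp)]; ring
  have hmq : m q = 2 * v q := by rw [hm q, hf2 q (Ne.symm hfq)]; ring
  obtain ⟨s, t, hst⟩ := six r p q f hrp hrq (Ne.symm hfr) hpq (Ne.symm hfp) (Ne.symm hfq)
  have hsum := hst (fun ν => v ν ^ 2)
  have hvf2 : v f ^ 2 = 1 := by rw [hvf, neg_sq, hf1]
  rw [hV, hvr, hvf2] at hsum
  have hc := sq_cases (v p)
  have hd := sq_cases (v q)
  have he := sq_cases (v s)
  have hg := sq_cases (v t)
  have hpar : ∃ c : ℤ, v p ^ 2 + v q ^ 2 = 1 + 2 * c := by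
    have h1 : v p * l p + v q * l q = 1 := by
      rw [hmp, hmq] at hB1
      have : 2 * (v p * l p + v q * l q) = 2 := by linear_combination hB1
      omega
    refine ⟨- (v p * l p * (v q * l q)), ?_⟩
    have h2 : (v p * l p + v q * l q) ^ 2 = 1 := by rw [h1]; norm_num
    have h3 : (v p * l p + v q * l q) ^ 2
        = v p ^ 2 * l p ^ 2 + v q ^ 2 * l q ^ 2 + 2 * (v p * l p * (v q * l q)) := by ring
    rw [h3, hp1, hq1] at h2
    linarith
  obtain ⟨c, hcc⟩ := hpar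
  rcases hc with hc | hc | hc <;> rcases hd with hd | hd | hd <;> rcases he with he | he | he <;>
    rcases hg with hg | hg | hg <;> omega

end P7
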