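import Pool.Agent.P7.Defs
import Pool.Agent.P7.Targets

/-!
# `T_F5`
-/

namespace P7.F5

theorem perm2 (f g : Fin 6) (h : f ≠ g) : ∃ σ : Equiv.Perm (Fin 6), σ 0 = g ∧ σ 1 = f :=
  ⟨(Equiv.swap 1 (Equiv.swap 0 g f)).trans (Equiv.swap 0 g), by revert f g; decide, by revert f g; decide⟩

theorem unit_vec (n : Fin 6 → ℤ) (h : ∑ i, n i ^ 2 = 1) :
    ∃ f, n f ^ 2 = 1 ∧ ∀ i, i ≠ f → n i = 0 := by
  obtain ⟨f, hf⟩ : ∃ f, n f ≠ 0 := by
    by_contra hc
    push Not at hc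
    simp [hc] at h
  have h1 : 1 ≤ n f ^ 2 := by
    have := pow_pos (abs_pos.2 hf) 2
    rw [sq_abs] at this
    omega
  have h2 := Finset.add_sum_erase Finset.univ (fun i => n i ^ 2) (Finset.mem_univ f)
  rw [h] at h2
  have h3 : 0 ≤ ∑ x ∈ Finset.univ.erase f, n x ^ 2 := Finset.sum_nonneg fun i _ => sq_nonneg _
  refine ⟨f, by omega, fun i hi => ?_⟩
  have h4 : ∑ x ∈ Finset.univ.erase f, n x ^ 2 = 0 := by omega
  rw [Finset.sum_eq_zero_iff_of_nonneg fun i _ => sq_nonneg _] at h4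
  have := h4 i (by simp [hi])
  exact pow_eq_zero_iff (two_ne_zero) |>.1 this

/-- Integers congruent mod `2` have squares congruent mod `4`, and products congruent to squares mod `2`. -/
theorem sum_sq_mod (k l : Fin 6 → ℤ) (h : ∀ ν, 2 ∣ k ν - l ν) :
    ∃ t : ℤ, ∑ i, k i ^ 2 = ∑ i, l i ^ 2 + 4 * t := by
  have : ∀ i, ∃ t : ℤ, k i ^ 2 = l i ^ 2 + 4 * t := by
    intro i
    obtain ⟨c, hc⟩ := h i
    refine ⟨c ^ 2 + c * l i, ?_⟩
    have : k i = l i + 2 * c := by omega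
    rw [this]; ring
  choose t ht using this
  refine ⟨∑ i, t i, ?_⟩
  rw [Finset.mul_sum, ← Finset.sum_add_distrib]
  exact Finset.sum_congr rfl fun i _ => ht i

theorem sum_mul_mod (k l : Fin 6 → ℤ) (h : ∀ ν, 2 ∣ k ν - l ν) :
    ∃ t : ℤ, ∑ i, k i * l i = ∑ i, l i ^ 2 + 2 * t := by
  have : ∀ i, ∃ t : ℤ, k i * l i = l i ^ 2 + 2 * t := by
    intro i
    obtain ⟨c, hc⟩ := h i
    refine ⟨c * l i, ?_⟩
    have : k i = l i + 2 * c := by omega
    rw [this]; ring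
  choose t ht using this
  refine ⟨∑ i, t i, ?_⟩
  rw [Finset.mul_sum, ← Finset.sum_add_distrib]
  exact Finset.sum_congr rfl fun i _ => ht i

/-- Four integers with sum of squares `4` have even product with a vector of norm `2`. -/
theorem four {p q r s x y z w : ℤ} (h : p ^ 2 + q ^ 2 + r ^ 2 + s ^ 2 = 4)
    (h2 : x ^ 2 + y ^ 2 + z ^ 2 + w ^ 2 = 2) (h3 : p * x + q * y + r * z + s * w = 1) : False := by
  have e : ∀ t : ℤ, ∃ c : ℤ, t ^ 2 = t + 2 * c := by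
    intro t
    obtain ⟨c, hc⟩ := (Int.even_mul_pred_self t)
    exact ⟨c, by nlinarith⟩
  obtain ⟨cx, hx⟩ := e x
  obtain ⟨cy, hy⟩ := e y
  obtain ⟨cz, hz⟩ := e z
  obtain ⟨cw, hw⟩ := e w
  have o : ∀ t : ℤ, ∃ c d : ℤ, (d = 0 ∨ d = 1) ∧ t = 2 * c + d ∧ t ^ 2 = 4 * (c ^ 2 + c * d) + d := by
    intro t
    refine ⟨t / 2, t % 2, by omega, by omega, ?_⟩
    rcases Int.emod_two_eq_zero_or_one t with h | h
    · rw [h]
      have : t = 2 * (t / 2) := by omega
      nth_rw 1 [this]; ring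
    · rw [h]
      have : t = 2 * (t / 2) + 1 := by omega
      nth_rw 1 [this]; ring
  obtain ⟨c1, d1, hd1, e1, f1⟩ := o p
  obtain ⟨c2, d2, hd2, e2, f2⟩ := o q
  obtain ⟨c3, d3, hd3, e3, f3⟩ := o r
  obtain ⟨c4, d4, hd4, e4, f4⟩ := o s
  rw [f1, f2, f3, f4] at h
  have hd : (d1 = 0 ∧ d2 = 0 ∧ d3 = 0 ∧ d4 = 0) ∨ (d1 = 1 ∧ d2 = 1 ∧ d3 = 1 ∧ d4 = 1) := by
    generalize c1 ^ 2 + c1 * d1 = g1 at h
    generalize c2 ^ 2 + c2 * d2 = g2 at h
    generalize c3 ^ 2 + c3 * d3 = g3 at h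
    generalize c4 ^ 2 + c4 * d4 = g4 at h
    omega
  rw [e1, e2, e3, e4] at h3
  rcases hd with ⟨a1, a2, a3, a4⟩ | ⟨a1, a2, a3, a4⟩
  · rw [a1, a2, a3, a4] at h3
    have : 2 * (c1 * x + c2 * y + c3 * z + c4 * w) = 1 := by linarith
    omega
  · rw [a1, a2, a3, a4] at h3
    have h5 : 2 * (c1 * x + c2 * y + c3 * z + c4 * w) + (x + y + z + w) = 1 := by linarith
    generalize c1 * x + c2 * y + c3 * z + c4 * w = g at h5
    omega

/-- The situation in normal position. -/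
theorem norm_case (a : ℤ) (ha : 3 ≤ a) (m n k l : Fin 6 → ℤ)
    (pm : ∀ ν, 2 ∣ m ν - n ν) (pk : ∀ ν, 2 ∣ k ν - l ν)
    (hn : n 1 ^ 2 = 1) (hn' : ∀ i, i ≠ 1 → n i = 0) (hl : l 0 ^ 2 = 1) (hl' : ∀ i, i ≠ 0 → l i = 0)
    (M : ∑ i, m i ^ 2 = 17) (K : ∑ i, k i ^ 2 = 9) (mn : ∑ i, m i * n i = 1) (kl : ∑ i, k i * l i = 1)
    (B0 : ∑ i, m i * k i = 4) (B1 : ∑ i, m i * l i + a * ∑ i, n i * k i = 0) : False := by
  simp only [Fin.sum_univ_six] at *
  have n0 := hn' 0 (by decide)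
  have n2 := hn' 2 (by decide)
  have n3 := hn' 3 (by decide)
  have n4 := hn' 4 (by decide)
  have n5 := hn' 5 (by decide)
  have l1 := hl' 1 (by decide)
  have l2 := hl' 2 (by decide)
  have l3 := hl' 3 (by decide)
  have l4 := hl' 4 (by decide)
  have l5 := hl' 5 (by decide)
  rw [n0, n2, n3, n4, n5] at mn
  rw [l1, l2, l3, l4, l5] at kl
  rw [n0, n2, n3, n4, n5, l1, l2, l3, l4, l5] at B1
  have m1 : m 1 ^ 2 = 1 := by
    have : m 1 * n 1 = 1 := by linarith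
    have h2 : (m 1 * n 1) ^ 2 = 1 := by rw [this]; norm_num
    rw [mul_pow, hn, mul_one] at h2
    exact h2
  have k0 : k 0 ^ 2 = 1 := by
    have : k 0 * l 0 = 1 := by linarith
    have h2 : (k 0 * l 0) ^ 2 = 1 := by rw [this]; norm_num
    rw [mul_pow, hl, mul_one] at h2
    exact h2
  have b1 : m 0 * l 0 = -(a * (n 1 * k 1)) := by linarith
  have b2 : m 0 ^ 2 = a ^ 2 * k 1 ^ 2 := by
    have : (m 0 * l 0) ^ 2 = (a * (n 1 * k 1)) ^ 2 := by rw [b1]; ring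
    rw [mul_pow, mul_pow, mul_pow, hn, hl] at this
    linarith
  obtain ⟨q1, hq1⟩ := pk 1
  rw [l1, sub_zero] at hq1
  have q1z : q1 = 0 := by
    by_contra hq
    have h1 : 1 ≤ q1 ^ 2 := by
      have := pow_pos (abs_pos.2 hq) 2
      rw [sq_abs] at this
      omega
    have h2 : m 0 ^ 2 ≤ 17 := by
      linarith [sq_nonneg (m 1), sq_nonneg (m 2), sq_nonneg (m 3), sq_nonneg (m 4), sq_nonneg (m 5)]
    rw [hq1] at b2
    have h3 : 9 ≤ a ^ 2 := by
      have := mul_le_mul ha ha (by norm_num) (by omega)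
      rw [← pow_two] at this; linarith
    have h4 : 9 * 1 ≤ a ^ 2 * q1 ^ 2 := mul_le_mul h3 h1 (by norm_num) (by positivity)
    have h5 : a ^ 2 * (2 * q1) ^ 2 = 4 * (a ^ 2 * q1 ^ 2) := by ring
    rw [h5] at b2
    linarith
  rw [q1z, mul_zero] at hq1
  rw [hq1] at b2
  have m0 : m 0 = 0 := by
    have : m 0 ^ 2 = 0 := by rw [b2]; ring
    exact pow_eq_zero_iff (two_ne_zero) |>.1 this
  obtain ⟨p2, hp2⟩ := pm 2
  obtain ⟨p3, hp3⟩ := pm 3
  obtain ⟨p4, hp4⟩ := pm 4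
  obtain ⟨p5, hp5⟩ := pm 5
  obtain ⟨q2, hq2⟩ := pk 2
  obtain ⟨q3, hq3⟩ := pk 3
  obtain ⟨q4, hq4⟩ := pk 4
  obtain ⟨q5, hq5⟩ := pk 5
  rw [n2, sub_zero] at hp2
  rw [n3, sub_zero] at hp3
  rw [n4, sub_zero] at hp4
  rw [n5, sub_zero] at hp5
  rw [l2, sub_zero] at hq2
  rw [l3, sub_zero] at hq3
  rw [l4, sub_zero] at hq4
  rw [l5, sub_zero] at hq5
  rw [m0, m1, hp2, hp3, hp4, hp5] at M
  rw [hq1, k0, hq2, hq3, hq4, hq5] at K
  rw [m0, hq1, hp2, hp3, hp4, hp5, hq2, hq3, hq4, hq5] at B0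
  exact four (p := p2) (q := p3) (r := p4) (s := p5) (x := q2) (y := q3) (z := q4) (w := q5)
    (by linarith) (by linarith) (by linarith)

end P7.F5

namespace P7

open P7.F5 in
theorem tF5 : T_F5 := by
  intro a b ha hab hco ha2 hb2 m n k l pm pk U1 U2 B0 B1 V1 V2
  -- the sizes
  have hb5 : 5 ≤ b := by omega
  obtain ⟨t1, ht1⟩ := sum_sq_mod k l pk
  obtain ⟨t2, ht2⟩ := sum_mul_mod k l pk
  obtain ⟨t3, ht3⟩ := sum_sq_mod m n pm
  obtain ⟨t4, ht4⟩ := sum_mul_mod m n pm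
  have Lnn : 0 ≤ ∑ i, l i ^ 2 := Finset.sum_nonneg fun i _ => sq_nonneg _
  have Knn : 0 ≤ ∑ i, k i ^ 2 := Finset.sum_nonneg fun i _ => sq_nonneg _
  have Nnn : 0 ≤ ∑ i, n i ^ 2 := Finset.sum_nonneg fun i _ => sq_nonneg _
  have Mnn : 0 ≤ ∑ i, m i ^ 2 := Finset.sum_nonneg fun i _ => sq_nonneg _
  have hLK : ∑ i, l i ^ 2 = 1 ∧ ∑ i, k i ^ 2 = 9 := by
    generalize ∑ i, l i ^ 2 = L at *
    generalize ∑ i, k i ^ 2 = K at *
    rw [V2] at ht2
    have h1 : a ∣ b * (L - 1) := ⟨9 - K, by linarith⟩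
    have h2 : a ∣ L - 1 := hco.dvd_of_dvd_mul_left h1
    obtain ⟨t, ht⟩ := h2
    have hL : L = 1 + a * t := by linarith
    have hK : a * K = a * (9 - b * t) := by
      rw [hL] at V1; linarith
    have hK' : K = 9 - b * t := mul_left_cancel₀ (by omega) hK
    have ht0 : 0 ≤ t := by
      by_contra hc
      push Not at hc
      have : a * t ≤ a * (-1) := mul_le_mul_of_nonneg_left (by omega) (by omega)
      omega
    have hte : 2 ∣ a * t := by
      rw [show a * t = L - 1 by linarith]; omega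
    have hte' : 2 ∣ t := by
      rcases Int.prime_two.dvd_or_dvd hte with h | h
      · exact absurd h ha2
      · exact h
    obtain ⟨s, hs⟩ := hte'
    have hs0 : s = 0 := by
      by_contra hc
      have h1 : 1 ≤ s := by omega
      have : 5 * 2 ≤ b * t := mul_le_mul hb5 (by omega) (by norm_num) (by omega)
      omega
    have ht0' : t = 0 := by omega
    rw [ht0', mul_zero] at hL hK'
    omega
  have hNM : ∑ i, n i ^ 2 = 1 ∧ ∑ i, m i ^ 2 = 17 := by
    generalize ∑ i, n i ^ 2 = N at *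
    generalize ∑ i, m i ^ 2 = M at *
    rw [U2] at ht4
    have hab15 : 15 ≤ a * b := by nlinarith
    have : N ≤ 2 := by
      by_contra hc
      push Not at hc
      have : a * b * 3 ≤ a * b * N := mul_le_mul_of_nonneg_left (by omega) (by omega)
      omega
    have hN : N = 1 := by omega
    rw [hN] at U1 ⊢
    exact ⟨rfl, by linarith⟩
  obtain ⟨f, hf, hf'⟩ := unit_vec n hNM.1
  obtain ⟨g, hg, hg'⟩ := unit_vec l hLK.1
  have mn : m f * n f = 1 := by
    rw [← U2, Finset.sum_eq_single f (fun i _ hi => by rw [hf' i hi, mul_zero]) (by simp)]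
  have kl : k g * l g = 1 := by
    rw [← V2, Finset.sum_eq_single g (fun i _ hi => by rw [hg' i hi, mul_zero]) (by simp)]
  have ml : ∑ i, m i * l i = m g * l g :=
    Finset.sum_eq_single g (fun i _ hi => by rw [hg' i hi, mul_zero]) (by simp)
  have nk : ∑ i, n i * k i = n f * k f :=
    Finset.sum_eq_single f (fun i _ hi => by rw [hf' i hi, zero_mul]) (by simp)
  by_cases hfg : f = g
  · subst hfg
    rw [ml, nk] at B1
    have h2 : n f * n f = 1 := by rw [← hf]; ring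
    have h3 : l f * l f = 1 := by rw [← hg]; ring
    have : n f * l f * (m f * l f + a * (n f * k f)) = 0 := by rw [B1, mul_zero]
    have h5 : m f * n f * (l f * l f) + a * ((n f * n f) * (k f * l f)) = 0 := by
      rw [← this]; ring
    rw [h2, h3, mn, kl] at h5
    omega
  · obtain ⟨σ, hσ0, hσ1⟩ := perm2 f g hfg
    have nl : ∑ i, n i * l i = 0 := by
      refine Finset.sum_eq_zero fun i _ => ?_
      by_cases h : i = f
      · rw [hg' i (by rw [h]; exact hfg), mul_zero]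
      · rw [hf' i h, zero_mul]
    rw [nl, mul_zero, add_zero] at B0
    have cs : ∀ F : Fin 6 → ℤ, ∑ i, F (σ i) = ∑ i, F i := fun F => Equiv.sum_comp σ F
    refine norm_case a ha (m ∘ σ) (n ∘ σ) (k ∘ σ) (l ∘ σ) (fun ν => pm _) (fun ν => pk _) ?_ ?_ ?_ ?_ ?_ ?_ ?_ ?_ ?_ ?_
    · simp only [Function.comp, hσ1]; exact hf
    · intro i hi
      exact hf' _ (fun h => hi (σ.injective (h.trans hσ1.symm)))
    · simp only [Function.comp, hσ0]; exact hg
    · intro i hi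
      exact hg' _ (fun h => hi (σ.injective (h.trans hσ0.symm)))
    · simp only [Function.comp]; rw [cs fun i => m i ^ 2]; exact hNM.2
    · simp only [Function.comp]; rw [cs fun i => k i ^ 2]; exact hLK.2
    · simp only [Function.comp]; rw [cs fun i => m i * n i]; exact U2
    · simp only [Function.comp]; rw [cs fun i => k i * l i]; exact V2
    · simp only [Function.comp]; rw [cs fun i => m i * k i]; exact B0
    · simp only [Function.comp]; rw [cs fun i => m i * l i, cs fun i => n i * k i]; exact B1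

end P7
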