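import Pool.Agent.P7.Targets

/-!
# FORM1: long binary forms over `ℤ[√(ab)]`
-/

namespace P7

namespace FORM1

lemma expand1 {k : ℕ} (W : Fin k → Fin 4 → ℤ) (x : ℝ) :
    ∑ ν, ((W ν 0 : ℝ) + W ν 1 * x) ^ 2 = ((∑ ν, W ν 0 ^ 2 : ℤ) : ℝ)
      + 2 * x * ((∑ ν, W ν 0 * W ν 1 : ℤ) : ℝ) + x ^ 2 * ((∑ ν, W ν 1 ^ 2 : ℤ) : ℝ) := by
  push_cast
  simp only [Finset.mul_sum, ← Finset.sum_add_distrib]
  exact Finset.sum_congr rfl fun ν _ => by ring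

lemma expand2 {k : ℕ} (W : Fin k → Fin 4 → ℤ) (x θ : ℝ) :
    ∑ ν, ((W ν 0 : ℝ) + W ν 1 * x) * (W ν 2 + W ν 3 * θ) = ((∑ ν, W ν 0 * W ν 2 : ℤ) : ℝ)
      + θ * ((∑ ν, W ν 0 * W ν 3 : ℤ) : ℝ) + x * ((∑ ν, W ν 1 * W ν 2 : ℤ) : ℝ)
      + x * θ * ((∑ ν, W ν 1 * W ν 3 : ℤ) : ℝ) := by
  push_cast
  simp only [Finset.mul_sum, ← Finset.sum_add_distrib]
  exact Finset.sum_congr rfl fun ν _ => by ring

lemma expand3 {k : ℕ} (W : Fin k → Fin 4 → ℤ) (θ : ℝ) :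
    ∑ ν, ((W ν 2 : ℝ) + W ν 3 * θ) ^ 2 = ((∑ ν, W ν 2 ^ 2 : ℤ) : ℝ)
      + 2 * θ * ((∑ ν, W ν 2 * W ν 3 : ℤ) : ℝ) + θ ^ 2 * ((∑ ν, W ν 3 ^ 2 : ℤ) : ℝ) := by
  push_cast
  simp only [Finset.mul_sum, ← Finset.sum_add_distrib]
  exact Finset.sum_congr rfl fun ν _ => by ring

/-- The integer equations behind `SameForm`. -/
lemma eqs {a b : ℕ} (ha : 1 ≤ a) (hb : 1 ≤ b) {k l : ℕ} {W : Fin k → Fin 4 → ℤ} {W' : Fin l → Fin 4 → ℤ}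
    (h : SameForm (pm 0 (sq a b)) (pm 0 (sq a b / a)) W W') :
    ∑ ν, W ν 0 ^ 2 + a * b * ∑ ν, W ν 1 ^ 2 = ∑ ν, W' ν 0 ^ 2 + a * b * ∑ ν, W' ν 1 ^ 2 ∧
    ∑ ν, W ν 0 * W ν 1 = ∑ ν, W' ν 0 * W' ν 1 ∧
    ∑ ν, W ν 0 * W ν 2 + b * ∑ ν, W ν 1 * W ν 3 = ∑ ν, W' ν 0 * W' ν 2 + b * ∑ ν, W' ν 1 * W' ν 3 ∧
    ∑ ν, W ν 0 * W ν 3 + a * ∑ ν, W ν 1 * W ν 2 = ∑ ν, W' ν 0 * W' ν 3 + a * ∑ ν, W' ν 1 * W' ν 2 ∧
    a * ∑ ν, W ν 2 ^ 2 + b * ∑ ν, W ν 3 ^ 2 = a * ∑ ν, W' ν 2 ^ 2 + b * ∑ ν, W' ν 3 ^ 2 ∧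
    ∑ ν, W ν 2 * W ν 3 = ∑ ν, W' ν 2 * W' ν 3 := by
  have ha' : (0 : ℝ) < a := by exact_mod_cast ha
  have hb' : (0 : ℝ) < b := by exact_mod_cast hb
  obtain ⟨s, hs⟩ : ∃ s, s = sq a b := ⟨_, rfl⟩
  have hs0 : 0 < s := by
    rw [hs, sq, Real.sqrt_pos]
    exact_mod_cast Nat.mul_pos ha hb
  have hs2 : s ^ 2 = a * b := by
    rw [hs, sq, Real.sq_sqrt (by positivity)]
    push_cast
    ring
  obtain ⟨t, ht⟩ : ∃ t, t = s / a := ⟨_, rfl⟩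
  have hst : s = a * t := by rw [ht]; field_simp
  have ht0 : 0 < t := by rw [ht]; positivity
  have hst2 : s * t = b := by
    have : s * (a * t) = a * b := by rw [← hst, ← hs2]; ring
    have h2 : (a : ℝ) * (s * t) = a * b := by linarith
    exact mul_left_cancel₀ ha'.ne' h2
  have ht2 : a * t ^ 2 = b := by rw [← hst2, hst]; ring
  obtain ⟨h1, h2, h3⟩ := h 0
  obtain ⟨h1', h2', h3'⟩ := h 1
  rw [expand1, expand1] at h1 h1'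
  rw [expand2, expand2] at h2 h2'
  rw [expand3, expand3] at h3 h3'
  simp only [pm, Matrix.cons_val_zero, Matrix.cons_val_one, Matrix.cons_val_fin_one, zero_add, zero_sub,
    ← hs, ← ht] at h1 h2 h3 h1' h2' h3'
  generalize (∑ ν, W ν 0 ^ 2) = p1 at *
  generalize (∑ ν, W ν 0 * W ν 1) = p2 at *
  generalize (∑ ν, W ν 1 ^ 2) = p3 at *
  generalize (∑ ν, W ν 0 * W ν 2) = p4 at *
  generalize (∑ ν, W ν 0 * W ν 3) = p5 at *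
  generalize (∑ ν, W ν 1 * W ν 2) = p6 at *
  generalize (∑ ν, W ν 1 * W ν 3) = p7 at *
  generalize (∑ ν, W ν 2 ^ 2) = p8 at *
  generalize (∑ ν, W ν 2 * W ν 3) = p9 at *
  generalize (∑ ν, W ν 3 ^ 2) = p10 at *
  generalize (∑ ν, W' ν 0 ^ 2) = q1 at *
  generalize (∑ ν, W' ν 0 * W' ν 1) = q2 at *
  generalize (∑ ν, W' ν 1 ^ 2) = q3 at *
  generalize (∑ ν, W' ν 0 * W' ν 2) = q4 at *
  generalize (∑ ν, W' ν 0 * W' ν 3) = q5 at *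
  generalize (∑ ν, W' ν 1 * W' ν 2) = q6 at *
  generalize (∑ ν, W' ν 1 * W' ν 3) = q7 at *
  generalize (∑ ν, W' ν 2 ^ 2) = q8 at *
  generalize (∑ ν, W' ν 2 * W' ν 3) = q9 at *
  generalize (∑ ν, W' ν 3 ^ 2) = q10 at *
  have r1 : (p1 : ℝ) + a * b * p3 = q1 + a * b * q3 := by
    rw [neg_sq, hs2] at h1'
    rw [hs2] at h1
    linarith
  have r2 : (p2 : ℝ) = q2 := by
    have : s * (p2 : ℝ) = s * q2 := by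
      rw [neg_sq] at h1'
      linarith
    exact mul_left_cancel₀ hs0.ne' this
  have r3 : (p4 : ℝ) + b * p7 = q4 + b * q7 := by
    rw [neg_mul_neg, hst2] at h2'
    rw [hst2] at h2
    linarith
  have r4 : (p5 : ℝ) + a * p6 = q5 + a * q6 := by
    have : t * ((p5 : ℝ) + a * p6) = t * (q5 + a * q6) := by
      rw [neg_mul_neg, hst2] at h2'
      rw [hst2] at h2
      rw [hst] at h2 h2'
      linarith
    exact mul_left_cancel₀ ht0.ne' this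
  have r5 : (a : ℝ) * p8 + b * p10 = a * q8 + b * q10 := by
    rw [neg_sq] at h3'
    have : (p8 : ℝ) + t ^ 2 * p10 = q8 + t ^ 2 * q10 := by linarith
    have h4 : (a : ℝ) * p8 + (a * t ^ 2) * p10 = a * q8 + (a * t ^ 2) * q10 := by
      linear_combination (a : ℝ) * this
    rwa [ht2] at h4
  have r6 : (p9 : ℝ) = q9 := by
    have : t * (p9 : ℝ) = t * q9 := by
      rw [neg_sq] at h3'
      linarith
    exact mul_left_cancel₀ ht0.ne' this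
  refine ⟨by exact_mod_cast r1, by exact_mod_cast r2, by exact_mod_cast r3, by exact_mod_cast r4,
    by exact_mod_cast r5, by exact_mod_cast r6⟩

/-- The form for `a = 1`. -/
def W1 : Fin 7 → Fin 4 → ℤ :=
  ![![1,0,0,0], ![1,0,0,0], ![1,0,0,0], ![0,0,-1,1], ![2,1,0,0], ![-1,0,-1,0], ![0,0,-1,0]]

/-- The form for `2 ≤ a < b`. -/
def W2 : Fin 7 → Fin 4 → ℤ :=
  ![![1,0,0,0], ![1,0,0,0], ![1,0,0,0], ![1,1,0,0], ![0,0,1,0], ![0,0,0,1], ![1,0,0,1]]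

/-- The form for `b = 1`. -/
def W3 : Fin 7 → Fin 4 → ℤ :=
  ![![1,0,0,0], ![1,0,0,0], ![1,0,0,0], ![0,0,1,-1], ![2,1,0,0], ![-1,0,0,-1], ![0,0,0,-1]]

/-- The form for `2 ≤ b < a`. -/
def W4 : Fin 7 → Fin 4 → ℤ :=
  ![![1,0,0,0], ![1,0,0,0], ![1,0,0,0], ![1,1,0,0], ![0,0,0,1], ![0,0,1,0], ![1,0,1,0]]

lemma vals1 : ∑ ν, W1 ν 0 ^ 2 = 8 ∧ ∑ ν, W1 ν 1 ^ 2 = 1 ∧ ∑ ν, W1 ν 0 * W1 ν 1 = 2 ∧
    ∑ ν, W1 ν 0 * W1 ν 2 = 1 ∧ ∑ ν, W1 ν 1 * W1 ν 3 = 0 ∧ ∑ ν, W1 ν 0 * W1 ν 3 = 0 ∧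
    ∑ ν, W1 ν 1 * W1 ν 2 = 0 ∧ ∑ ν, W1 ν 2 ^ 2 = 3 ∧ ∑ ν, W1 ν 3 ^ 2 = 1 ∧ ∑ ν, W1 ν 2 * W1 ν 3 = -1 := by
  decide

lemma vals2 : ∑ ν, W2 ν 0 ^ 2 = 5 ∧ ∑ ν, W2 ν 1 ^ 2 = 1 ∧ ∑ ν, W2 ν 0 * W2 ν 1 = 1 ∧
    ∑ ν, W2 ν 0 * W2 ν 2 = 0 ∧ ∑ ν, W2 ν 1 * W2 ν 3 = 0 ∧ ∑ ν, W2 ν 0 * W2 ν 3 = 1 ∧
    ∑ ν, W2 ν 1 * W2 ν 2 = 0 ∧ ∑ ν, W2 ν 2 ^ 2 = 1 ∧ ∑ ν, W2 ν 3 ^ 2 = 2 ∧ ∑ ν, W2 ν 2 * W2 ν 3 = 0 := by
  decide

lemma vals3 : ∑ ν, W3 ν 0 ^ 2 = 8 ∧ ∑ ν, W3 ν 1 ^ 2 = 1 ∧ ∑ ν, W3 ν 0 * W3 ν 1 = 2 ∧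
    ∑ ν, W3 ν 0 * W3 ν 3 = 1 ∧ ∑ ν, W3 ν 1 * W3 ν 2 = 0 ∧ ∑ ν, W3 ν 0 * W3 ν 2 = 0 ∧
    ∑ ν, W3 ν 1 * W3 ν 3 = 0 ∧ ∑ ν, W3 ν 3 ^ 2 = 3 ∧ ∑ ν, W3 ν 2 ^ 2 = 1 ∧ ∑ ν, W3 ν 2 * W3 ν 3 = -1 := by
  decide

lemma vals4 : ∑ ν, W4 ν 0 ^ 2 = 5 ∧ ∑ ν, W4 ν 1 ^ 2 = 1 ∧ ∑ ν, W4 ν 0 * W4 ν 1 = 1 ∧
    ∑ ν, W4 ν 0 * W4 ν 3 = 0 ∧ ∑ ν, W4 ν 1 * W4 ν 2 = 0 ∧ ∑ ν, W4 ν 0 * W4 ν 2 = 1 ∧
    ∑ ν, W4 ν 1 * W4 ν 3 = 0 ∧ ∑ ν, W4 ν 3 ^ 2 = 1 ∧ ∑ ν, W4 ν 2 ^ 2 = 2 ∧ ∑ ν, W4 ν 2 * W4 ν 3 = 0 := by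
  decide

end FORM1

open FORM1 in
theorem tFORM1 (hF1 : T_F1) (hF2 : T_F2) : T_FORM1 := by
  intro a b ha hb hco hab
  have hne : a ≠ b := by
    rintro rfl
    rw [Nat.coprime_self] at hco
    subst hco
    omega
  rcases lt_or_gt_of_ne hne with hlt | hgt
  · rcases eq_or_lt_of_le ha with h1 | h1
    · -- `a = 1`
      subst h1
      refine ⟨W1, ?_⟩
      intro W hW
      obtain ⟨e1, e2, e3, e4, e5, e6⟩ := eqs (le_refl 1) hb hW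
      obtain ⟨v1, v2, v3, v4, v5, v6, v7, v8, v9, v10⟩ := vals1
      rw [v1, v2] at e1
      rw [v3] at e2
      rw [v4, v5] at e3
      rw [v6, v7] at e4
      rw [v8, v9] at e5
      rw [v10] at e6
      push_cast at e1 e4 e5
      exact hF1 b (by exact_mod_cast (by omega : 6 ≤ b)) (fun ν => W ν 0) (fun ν => W ν 1)
        (fun ν => W ν 2) (fun ν => W ν 3) (by linarith) e2 (by linarith) (by linarith) (by linarith) e6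
    · -- `2 ≤ a < b`
      refine ⟨W2, ?_⟩
      intro W hW
      obtain ⟨e1, e2, e3, e4, e5, e6⟩ := eqs ha hb hW
      obtain ⟨v1, v2, v3, v4, v5, v6, v7, v8, v9, v10⟩ := vals2
      rw [v1, v2] at e1
      rw [v3] at e2
      rw [v4, v5] at e3
      rw [v6, v7] at e4
      rw [v8, v9] at e5
      rw [v10] at e6
      exact hF2 a b (by exact_mod_cast h1) (by exact_mod_cast hlt) (Nat.isCoprime_iff_coprime.mpr hco)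
        (fun ν => W ν 0) (fun ν => W ν 1) (fun ν => W ν 2) (fun ν => W ν 3) (by linarith) e2 (by linarith)
        (by linarith) (by linarith) e6
  · rcases eq_or_lt_of_le hb with h1 | h1
    · -- `b = 1`
      subst h1
      refine ⟨W3, ?_⟩
      intro W hW
      obtain ⟨e1, e2, e3, e4, e5, e6⟩ := eqs ha (le_refl 1) hW
      obtain ⟨v1, v2, v3, v4, v5, v6, v7, v8, v9, v10⟩ := vals3
      rw [v1, v2] at e1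
      rw [v3] at e2
      rw [v6, v7] at e3
      rw [v4, v5] at e4
      rw [v8, v9] at e5
      rw [v10] at e6
      push_cast at e1 e3 e5
      refine hF1 a (by exact_mod_cast (by omega : 6 ≤ a)) (fun ν => W ν 0) (fun ν => W ν 1)
        (fun ν => W ν 3) (fun ν => W ν 2) (by linarith) e2 (by linarith) (by linarith) (by linarith) ?_
      rw [← e6]
      exact Finset.sum_congr rfl fun ν _ => mul_comm _ _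
    · -- `2 ≤ b < a`
      refine ⟨W4, ?_⟩
      intro W hW
      obtain ⟨e1, e2, e3, e4, e5, e6⟩ := eqs ha hb hW
      obtain ⟨v1, v2, v3, v4, v5, v6, v7, v8, v9, v10⟩ := vals4
      rw [v1, v2] at e1
      rw [v3] at e2
      rw [v6, v7] at e3
      rw [v4, v5] at e4
      rw [v8, v9] at e5
      rw [v10] at e6
      have hco' : IsCoprime (b : ℤ) a := (Nat.isCoprime_iff_coprime.mpr hco).symm
      have e1' : ∑ ν, W ν 0 ^ 2 + (b : ℤ) * a * ∑ ν, W ν 1 ^ 2 = 5 + b * a := by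
        rw [mul_comm (b : ℤ) a]
        linarith
      refine hF2 b a (by exact_mod_cast h1) (by exact_mod_cast hgt) hco'
        (fun ν => W ν 0) (fun ν => W ν 1) (fun ν => W ν 3) (fun ν => W ν 2) e1' e2 (by linarith)
        (by linarith) (by linarith) ?_
      rw [← e6]
      exact Finset.sum_congr rfl fun ν _ => mul_comm _ _

end P7
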