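import Pool.Agent.P7.Targets

/-!
# Binary forms of length seven, second family
-/

namespace P7

namespace FORM2

/-- Expansion of a sum of products of linear forms. -/
theorem sum_prod {K : ℕ} (m n k l : Fin K → ℤ) (x y : ℝ) :
    ∑ ν, ((m ν : ℝ) + n ν * x) * (k ν + l ν * y) =
      ((∑ ν, m ν * k ν : ℤ) : ℝ) + y * ((∑ ν, m ν * l ν : ℤ) : ℝ) + x * ((∑ ν, n ν * k ν : ℤ) : ℝ)
        + x * y * ((∑ ν, n ν * l ν : ℤ) : ℝ) := by
  push_cast
  simp only [Finset.mul_sum, ← Finset.sum_add_distrib]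
  exact Finset.sum_congr rfl fun ν _ => by ring

/-- Expansion of a sum of squares of linear forms. -/
theorem sum_sq {K : ℕ} (m n : Fin K → ℤ) (x : ℝ) :
    ∑ ν, ((m ν : ℝ) + n ν * x) ^ 2 =
      ((∑ ν, m ν ^ 2 : ℤ) : ℝ) + 2 * x * ((∑ ν, m ν * n ν : ℤ) : ℝ) + x ^ 2 * ((∑ ν, n ν ^ 2 : ℤ) : ℝ) := by
  push_cast
  simp only [Finset.mul_sum, ← Finset.sum_add_distrib]
  exact Finset.sum_congr rfl fun ν _ => by ring

theorem sq_pos_of {a b : ℕ} (ha : 1 ≤ a) (hb : 1 ≤ b) : 0 < sq a b := by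
  unfold sq
  apply Real.sqrt_pos.mpr
  exact_mod_cast Nat.mul_pos (by omega) (by omega)

theorem sq_sq {a b : ℕ} : sq a b ^ 2 = a * b := by
  unfold sq
  rw [Real.sq_sqrt (by positivity)]
  push_cast
  ring

/-- Comparing coefficients at the two places. -/
theorem extract {K L : ℕ} (a b : ℕ) (ha : 1 ≤ a) (hb : 1 ≤ b) (m n k l : Fin K → ℤ) (m' n' k' l' : Fin L → ℤ)
    (h : ∀ e : ℝ, e = 1 ∨ e = -1 →
      ∑ ν, ((m ν : ℝ) + n ν * (e * sq a b)) ^ 2 = ∑ ν, ((m' ν : ℝ) + n' ν * (e * sq a b)) ^ 2 ∧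
      ∑ ν, ((m ν : ℝ) + n ν * (e * sq a b)) * (k ν + l ν * (e * sq a b / a)) =
        ∑ ν, ((m' ν : ℝ) + n' ν * (e * sq a b)) * (k' ν + l' ν * (e * sq a b / a)) ∧
      ∑ ν, ((k ν : ℝ) + l ν * (e * sq a b / a)) ^ 2 = ∑ ν, ((k' ν : ℝ) + l' ν * (e * sq a b / a)) ^ 2) :
    (∑ ν, m ν ^ 2 + (a : ℤ) * b * ∑ ν, n ν ^ 2 = ∑ ν, m' ν ^ 2 + (a : ℤ) * b * ∑ ν, n' ν ^ 2) ∧
    (∑ ν, m ν * n ν = ∑ ν, m' ν * n' ν) ∧
    (∑ ν, m ν * k ν + (b : ℤ) * ∑ ν, n ν * l ν = ∑ ν, m' ν * k' ν + (b : ℤ) * ∑ ν, n' ν * l' ν) ∧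
    (∑ ν, m ν * l ν + (a : ℤ) * ∑ ν, n ν * k ν = ∑ ν, m' ν * l' ν + (a : ℤ) * ∑ ν, n' ν * k' ν) ∧
    ((a : ℤ) * ∑ ν, k ν ^ 2 + (b : ℤ) * ∑ ν, l ν ^ 2 = (a : ℤ) * ∑ ν, k' ν ^ 2 + (b : ℤ) * ∑ ν, l' ν ^ 2) ∧
    (∑ ν, k ν * l ν = ∑ ν, k' ν * l' ν) := by
  have hs := sq_pos_of ha hb
  have hss := sq_sq (a := a) (b := b)
  set s := sq a b with hsdef
  have ha0 : (0 : ℝ) < a := by exact_mod_cast ha
  have hane : (a : ℝ) ≠ 0 := ha0.ne'
  obtain ⟨p1, p2, p3⟩ := h 1 (Or.inl rfl)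
  obtain ⟨q1, q2, q3⟩ := h (-1) (Or.inr rfl)
  simp only [sum_sq, sum_prod] at p1 p2 p3 q1 q2 q3
  generalize (∑ ν, m ν ^ 2) = mm at *
  generalize (∑ ν, n ν ^ 2) = nn at *
  generalize (∑ ν, k ν ^ 2) = kk at *
  generalize (∑ ν, l ν ^ 2) = ll at *
  generalize (∑ ν, m ν * n ν) = mn at *
  generalize (∑ ν, m ν * k ν) = mk at *
  generalize (∑ ν, m ν * l ν) = ml at *
  generalize (∑ ν, n ν * k ν) = nk at *
  generalize (∑ ν, n ν * l ν) = nl at *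
  generalize (∑ ν, k ν * l ν) = kl at *
  generalize (∑ ν, m' ν ^ 2) = mm' at *
  generalize (∑ ν, n' ν ^ 2) = nn' at *
  generalize (∑ ν, k' ν ^ 2) = kk' at *
  generalize (∑ ν, l' ν ^ 2) = ll' at *
  generalize (∑ ν, m' ν * n' ν) = mn' at *
  generalize (∑ ν, m' ν * k' ν) = mk' at *
  generalize (∑ ν, m' ν * l' ν) = ml' at *
  generalize (∑ ν, n' ν * k' ν) = nk' at *
  generalize (∑ ν, n' ν * l' ν) = nl' at *
  generalize (∑ ν, k' ν * l' ν) = kl' at *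
  have e1 : (1 * s) ^ 2 = (a : ℝ) * b := by rw [one_mul, hss]
  have e2 : (-1 * s) ^ 2 = (a : ℝ) * b := by rw [← hss]; ring
  have e3 : (1 * s / a) ^ 2 = (b : ℝ) / a := by
    rw [div_pow, e1]; field_simp
  have e4 : (-1 * s / a) ^ 2 = (b : ℝ) / a := by
    rw [div_pow, e2]; field_simp
  have e5 : (1 * s) * (1 * s / a) = (b : ℝ) := by
    rw [← mul_div_assoc, ← pow_two, e1]; field_simp
  have e6 : (-1 * s) * (-1 * s / a) = (b : ℝ) := by
    rw [← mul_div_assoc, ← pow_two, e2]; field_simp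
  rw [e1] at p1
  rw [e2] at q1
  rw [e3] at p3
  rw [e4] at q3
  rw [e5] at p2
  rw [e6] at q2
  refine ⟨?_, ?_, ?_, ?_, ?_, ?_⟩
  · have : (mm : ℝ) + a * b * nn = mm' + a * b * nn' := by linarith
    exact_mod_cast this
  · have : s * ((mn : ℝ) - mn') = 0 := by linarith
    rcases mul_eq_zero.mp this with h | h
    · exact absurd h hs.ne'
    · exact_mod_cast sub_eq_zero.mp h
  · have : (mk : ℝ) + b * nl = mk' + b * nl' := by
      have h1 : -1 * s / a = -(1 * s / a) := by ring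
      rw [h1] at q2
      linarith
    exact_mod_cast this
  · have h1 : -1 * s / a = -(s / a) := by ring
    have h2 : 1 * s / a = s / a := by ring
    rw [h1] at q2
    rw [h2] at p2
    have h3 : s / a * ((ml : ℝ) - ml') + s * ((nk : ℝ) - nk') = 0 := by linarith
    have h4 : s * (((ml : ℝ) + a * nk) - (ml' + a * nk')) = 0 := by
      have : s * (((ml : ℝ) + a * nk) - (ml' + a * nk')) = a * (s / a * ((ml : ℝ) - ml') + s * ((nk : ℝ) - nk')) := by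
        field_simp
        ring
      rw [this, h3, mul_zero]
    rcases mul_eq_zero.mp h4 with h | h
    · exact absurd h hs.ne'
    · exact_mod_cast sub_eq_zero.mp h
  · have h1 : -1 * s / a = -(1 * s / a) := by ring
    rw [h1] at q3
    have h3 : (kk : ℝ) + b / a * ll = kk' + b / a * ll' := by linarith
    have h4 : (a : ℝ) * kk + b * ll = a * kk' + b * ll' := by
      have h5 : (a : ℝ) * ((kk : ℝ) + b / a * ll) = a * (kk' + b / a * ll') := by rw [h3]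
      have h6 : (a : ℝ) * ((kk : ℝ) + b / a * ll) = a * kk + b * ll := by field_simp
      have h7 : (a : ℝ) * ((kk' : ℝ) + b / a * ll') = a * kk' + b * ll' := by field_simp
      linarith
    exact_mod_cast h4
  · have h1 : -1 * s / a = -(s / a) := by ring
    have h2 : 1 * s / a = s / a := by ring
    rw [h1] at q3
    rw [h2] at p3
    have h3 : s / a * ((kl : ℝ) - kl') = 0 := by linarith
    rcases mul_eq_zero.mp h3 with h | h
    · exact absurd h (div_pos hs ha0).ne'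
    · exact_mod_cast sub_eq_zero.mp h

end FORM2

theorem tFORM2 (hF3 : T_F3) : T_FORM2 := by
  intro a b ha hab hcop ha2 hb2 h7
  refine ⟨![![1, 0, 0, 0], ![1, 0, 0, 0], ![1, 0, 0, 0], ![0, 0, 0, 1], ![0, 0, 1, 0], ![1, 0, 1, 0],
    ![1, 1, 0, 0]], fun W hW => ?_⟩
  have ha0 : (a : ℝ) ≠ 0 := by
    have : (0 : ℝ) < a := by exact_mod_cast ha
    exact this.ne'
  set W' : Fin 7 → Fin 4 → ℤ := ![![1, 0, 0, 0], ![1, 0, 0, 0], ![1, 0, 0, 0], ![0, 0, 0, 1], ![0, 0, 1, 0],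
    ![1, 0, 1, 0], ![1, 1, 0, 0]] with hW'
  have key := FORM2.extract a b ha (by omega) (fun ν => W ν 0) (fun ν => W ν 1)
    (fun ν => 2 * W ν 2 + W ν 3) (fun ν => W ν 3) (fun ν => W' ν 0) (fun ν => W' ν 1)
    (fun ν => 2 * W' ν 2 + W' ν 3) (fun ν => W' ν 3) (by
      have gen : ∀ (e : ℝ) (φ : Fin 2), pm 0 (sq a b) φ = e * sq a b →
          pm (1 / 2) (sq a b / (2 * a)) φ = 1 / 2 + e * sq a b / (2 * a) →
          ∑ ν, ((W ν 0 : ℝ) + W ν 1 * (e * sq a b)) ^ 2 = ∑ ν, ((W' ν 0 : ℝ) + W' ν 1 * (e * sq a b)) ^ 2 ∧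
          ∑ ν, ((W ν 0 : ℝ) + W ν 1 * (e * sq a b)) * (((2 * W ν 2 + W ν 3 : ℤ) : ℝ) + W ν 3 * (e * sq a b / a)) =
            ∑ ν, ((W' ν 0 : ℝ) + W' ν 1 * (e * sq a b)) *
              (((2 * W' ν 2 + W' ν 3 : ℤ) : ℝ) + W' ν 3 * (e * sq a b / a)) ∧
          ∑ ν, (((2 * W ν 2 + W ν 3 : ℤ) : ℝ) + W ν 3 * (e * sq a b / a)) ^ 2 =
            ∑ ν, (((2 * W' ν 2 + W' ν 3 : ℤ) : ℝ) + W' ν 3 * (e * sq a b / a)) ^ 2 := by
        intro e φ h1 h2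
        obtain ⟨g1, g2, g3⟩ := hW φ
        rw [h1] at g1 g2
        rw [h2] at g2 g3
        have hv : ∀ w : Fin 4 → ℤ, ((2 * w 2 + w 3 : ℤ) : ℝ) + w 3 * (e * sq a b / a) =
            2 * ((w 2 : ℝ) + w 3 * (1 / 2 + e * sq a b / (2 * a))) := by
          intro w
          push_cast
          field_simp
          ring
        refine ⟨g1, ?_, ?_⟩
        · simp only [hv]
          have h3 : ∀ K : ℕ, ∀ V : Fin K → Fin 4 → ℤ,
              ∑ ν, ((V ν 0 : ℝ) + V ν 1 * (e * sq a b)) * (2 * ((V ν 2 : ℝ) + V ν 3 * (1 / 2 + e * sq a b / (2 * a)))) =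
              2 * ∑ ν, ((V ν 0 : ℝ) + V ν 1 * (e * sq a b)) * ((V ν 2 : ℝ) + V ν 3 * (1 / 2 + e * sq a b / (2 * a))) := by
            intro K V
            rw [Finset.mul_sum]
            exact Finset.sum_congr rfl fun ν _ => by ring
          rw [h3, h3, g2]
        · simp only [hv, mul_pow]
          rw [← Finset.mul_sum, ← Finset.mul_sum, g3]
      intro e he
      rcases he with rfl | rfl
      · exact gen 1 0 (by simp [pm]) (by simp [pm])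
      · exact gen (-1) 1 (by simp [pm]) (by simp [pm]; ring))
  obtain ⟨k1, k2, k3, k4, k5, k6⟩ := key
  have v1 : ∑ ν, W' ν 0 ^ 2 = 5 := by decide
  have v2 : ∑ ν, W' ν 1 ^ 2 = 1 := by decide
  have v3 : ∑ ν, W' ν 0 * W' ν 1 = 1 := by decide
  have v4 : ∑ ν, W' ν 0 * (2 * W' ν 2 + W' ν 3) = 2 := by decide
  have v5 : ∑ ν, W' ν 1 * W' ν 3 = 0 := by decide
  have v6 : ∑ ν, W' ν 0 * W' ν 3 = 0 := by decide
  have v7 : ∑ ν, W' ν 1 * (2 * W' ν 2 + W' ν 3) = 0 := by decide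
  have v8 : ∑ ν, (2 * W' ν 2 + W' ν 3) ^ 2 = 9 := by decide
  have v9 : ∑ ν, W' ν 3 ^ 2 = 1 := by decide
  have v10 : ∑ ν, (2 * W' ν 2 + W' ν 3) * W' ν 3 = 1 := by decide
  simp only [v1, v2, v3, v4, v5, v6, v7, v8, v9, v10] at k1 k2 k3 k4 k5 k6
  refine hF3 a b (by exact_mod_cast ha) (by exact_mod_cast hab) (Nat.isCoprime_iff_coprime.mpr hcop)
    (by omega) (by omega) (by exact_mod_cast (show 6 ≤ a * b by omega)) (fun ν => W ν 0) (fun ν => W ν 1)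
    (fun ν => 2 * W ν 2 + W ν 3) (fun ν => W ν 3) (fun ν => ⟨W ν 2, by ring⟩) ?_ ?_ ?_ ?_ ?_ ?_
  · linarith
  · linarith
  · linarith
  · linarith
  · linarith
  · linarith

end P7
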