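import Pool.Agent.P7.Targets
import Pool.Agent.P7.FORM2

/-!
# Binary forms of length seven, third family
-/

namespace P7

namespace FORM3

/-- The integer equations for `x = 1/2 ± s/2`, `θ = 1/2 ± s/(2a)`. -/
theorem extract {K L : ℕ} (a b : ℕ) (ha : 1 ≤ a) (hb : 1 ≤ b) (W : Fin K → Fin 4 → ℤ) (W' : Fin L → Fin 4 → ℤ)
    (hW : SameForm (pm (1 / 2) (sq a b / 2)) (pm (1 / 2) (sq a b / (2 * a))) W W') :
    (∑ ν, (2 * W ν 0 + W ν 1) ^ 2 + (a : ℤ) * b * ∑ ν, W ν 1 ^ 2 =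
      ∑ ν, (2 * W' ν 0 + W' ν 1) ^ 2 + (a : ℤ) * b * ∑ ν, W' ν 1 ^ 2) ∧
    (∑ ν, (2 * W ν 0 + W ν 1) * W ν 1 = ∑ ν, (2 * W' ν 0 + W' ν 1) * W' ν 1) ∧
    (∑ ν, (2 * W ν 0 + W ν 1) * (2 * W ν 2 + W ν 3) + (b : ℤ) * ∑ ν, W ν 1 * W ν 3 =
      ∑ ν, (2 * W' ν 0 + W' ν 1) * (2 * W' ν 2 + W' ν 3) + (b : ℤ) * ∑ ν, W' ν 1 * W' ν 3) ∧
    (∑ ν, (2 * W ν 0 + W ν 1) * W ν 3 + (a : ℤ) * ∑ ν, W ν 1 * (2 * W ν 2 + W ν 3) =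
      ∑ ν, (2 * W' ν 0 + W' ν 1) * W' ν 3 + (a : ℤ) * ∑ ν, W' ν 1 * (2 * W' ν 2 + W' ν 3)) ∧
    ((a : ℤ) * ∑ ν, (2 * W ν 2 + W ν 3) ^ 2 + (b : ℤ) * ∑ ν, W ν 3 ^ 2 =
      (a : ℤ) * ∑ ν, (2 * W' ν 2 + W' ν 3) ^ 2 + (b : ℤ) * ∑ ν, W' ν 3 ^ 2) ∧
    (∑ ν, (2 * W ν 2 + W ν 3) * W ν 3 = ∑ ν, (2 * W' ν 2 + W' ν 3) * W' ν 3) := by
  have ha0 : (a : ℝ) ≠ 0 := by
    have : (0 : ℝ) < a := by exact_mod_cast ha
    exact this.ne'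
  refine FORM2.extract a b ha hb (fun ν => 2 * W ν 0 + W ν 1) (fun ν => W ν 1)
    (fun ν => 2 * W ν 2 + W ν 3) (fun ν => W ν 3) (fun ν => 2 * W' ν 0 + W' ν 1) (fun ν => W' ν 1)
    (fun ν => 2 * W' ν 2 + W' ν 3) (fun ν => W' ν 3) ?_
  have gen : ∀ (e : ℝ) (φ : Fin 2), pm (1 / 2) (sq a b / 2) φ = 1 / 2 + e * sq a b / 2 →
      pm (1 / 2) (sq a b / (2 * a)) φ = 1 / 2 + e * sq a b / (2 * a) →
      ∑ ν, (((2 * W ν 0 + W ν 1 : ℤ) : ℝ) + W ν 1 * (e * sq a b)) ^ 2 =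
        ∑ ν, (((2 * W' ν 0 + W' ν 1 : ℤ) : ℝ) + W' ν 1 * (e * sq a b)) ^ 2 ∧
      ∑ ν, (((2 * W ν 0 + W ν 1 : ℤ) : ℝ) + W ν 1 * (e * sq a b)) *
          (((2 * W ν 2 + W ν 3 : ℤ) : ℝ) + W ν 3 * (e * sq a b / a)) =
        ∑ ν, (((2 * W' ν 0 + W' ν 1 : ℤ) : ℝ) + W' ν 1 * (e * sq a b)) *
          (((2 * W' ν 2 + W' ν 3 : ℤ) : ℝ) + W' ν 3 * (e * sq a b / a)) ∧
      ∑ ν, (((2 * W ν 2 + W ν 3 : ℤ) : ℝ) + W ν 3 * (e * sq a b / a)) ^ 2 =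
        ∑ ν, (((2 * W' ν 2 + W' ν 3 : ℤ) : ℝ) + W' ν 3 * (e * sq a b / a)) ^ 2 := by
    intro e φ h1 h2
    obtain ⟨g1, g2, g3⟩ := hW φ
    rw [h1] at g1 g2
    rw [h2] at g2 g3
    have hu : ∀ w : Fin 4 → ℤ, ((2 * w 0 + w 1 : ℤ) : ℝ) + w 1 * (e * sq a b) =
        2 * ((w 0 : ℝ) + w 1 * (1 / 2 + e * sq a b / 2)) := by
      intro w
      push_cast
      ring
    have hv : ∀ w : Fin 4 → ℤ, ((2 * w 2 + w 3 : ℤ) : ℝ) + w 3 * (e * sq a b / a) =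
        2 * ((w 2 : ℝ) + w 3 * (1 / 2 + e * sq a b / (2 * a))) := by
      intro w
      push_cast
      field_simp
      ring
    refine ⟨?_, ?_, ?_⟩
    · simp only [hu, mul_pow]
      rw [← Finset.mul_sum, ← Finset.mul_sum, g1]
    · simp only [hu, hv]
      have h3 : ∀ K : ℕ, ∀ V : Fin K → Fin 4 → ℤ,
          ∑ ν, (2 * ((V ν 0 : ℝ) + V ν 1 * (1 / 2 + e * sq a b / 2))) *
            (2 * ((V ν 2 : ℝ) + V ν 3 * (1 / 2 + e * sq a b / (2 * a)))) =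
          4 * ∑ ν, ((V ν 0 : ℝ) + V ν 1 * (1 / 2 + e * sq a b / 2)) *
            ((V ν 2 : ℝ) + V ν 3 * (1 / 2 + e * sq a b / (2 * a))) := by
        intro K V
        rw [Finset.mul_sum]
        exact Finset.sum_congr rfl fun ν _ => by ring
      rw [h3, h3, g2]
    · simp only [hv, mul_pow]
      rw [← Finset.mul_sum, ← Finset.mul_sum, g3]
  intro e he
  rcases he with rfl | rfl
  · exact gen 1 0 (by simp [pm]) (by simp [pm])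
  · exact gen (-1) 1 (by simp [pm]; ring) (by simp [pm]; ring)

end FORM3

theorem tFORM3 (hF4 : T_F4) (hF5 : T_F5) : T_FORM3 := by
  intro a b ha hab hcop ha2 hb2 h13
  rcases Nat.lt_or_ge 1 a with ha1 | ha1
  · have ha3 : 3 ≤ a := by omega
    refine ⟨![![1, 0, 0, 0], ![1, 0, 0, 0], ![1, 0, 0, 0], ![0, 1, 0, 0], ![1, 0, 1, 0], ![0, 0, 1, 0],
      ![0, 0, 0, 1]], fun W hW => ?_⟩
    obtain ⟨k1, k2, k3, k4, k5, k6⟩ := FORM3.extract a b ha (by omega) W _ hW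
    set W' : Fin 7 → Fin 4 → ℤ := ![![1, 0, 0, 0], ![1, 0, 0, 0], ![1, 0, 0, 0], ![0, 1, 0, 0], ![1, 0, 1, 0],
      ![0, 0, 1, 0], ![0, 0, 0, 1]] with hW'
    have v1 : ∑ ν, (2 * W' ν 0 + W' ν 1) ^ 2 = 17 := by decide
    have v2 : ∑ ν, W' ν 1 ^ 2 = 1 := by decide
    have v3 : ∑ ν, (2 * W' ν 0 + W' ν 1) * W' ν 1 = 1 := by decide
    have v4 : ∑ ν, (2 * W' ν 0 + W' ν 1) * (2 * W' ν 2 + W' ν 3) = 4 := by decide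
    have v5 : ∑ ν, W' ν 1 * W' ν 3 = 0 := by decide
    have v6 : ∑ ν, (2 * W' ν 0 + W' ν 1) * W' ν 3 = 0 := by decide
    have v7 : ∑ ν, W' ν 1 * (2 * W' ν 2 + W' ν 3) = 0 := by decide
    have v8 : ∑ ν, (2 * W' ν 2 + W' ν 3) ^ 2 = 9 := by decide
    have v9 : ∑ ν, W' ν 3 ^ 2 = 1 := by decide
    have v10 : ∑ ν, (2 * W' ν 2 + W' ν 3) * W' ν 3 = 1 := by decide
    rw [v1, v2] at k1
    rw [v3] at k2
    rw [v4, v5] at k3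
    rw [v6, v7] at k4
    rw [v8, v9] at k5
    rw [v10] at k6
    refine hF5 a b (by exact_mod_cast ha3) (by exact_mod_cast hab) (Nat.isCoprime_iff_coprime.mpr hcop)
      (by omega) (by omega) (fun ν => 2 * W ν 0 + W ν 1) (fun ν => W ν 1)
      (fun ν => 2 * W ν 2 + W ν 3) (fun ν => W ν 3) (fun ν => ⟨W ν 0, by ring⟩) (fun ν => ⟨W ν 2, by ring⟩)
      ?_ ?_ ?_ ?_ ?_ ?_
    · linarith
    · linarith
    · linarith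
    · linarith
    · linarith
    · linarith
  · obtain rfl : a = 1 := by omega
    refine ⟨![![1, 0, 0, 0], ![1, 0, 0, 0], ![1, 0, 0, 0], ![0, 0, 1, 0], ![0, 0, 0, 1], ![1, 0, 0, 1],
      ![1, -1, 0, 0]], fun W hW => ?_⟩
    obtain ⟨k1, k2, k3, k4, k5, k6⟩ := FORM3.extract 1 b ha (by omega) W _ hW
    set W' : Fin 7 → Fin 4 → ℤ := ![![1, 0, 0, 0], ![1, 0, 0, 0], ![1, 0, 0, 0], ![0, 0, 1, 0], ![0, 0, 0, 1],
      ![1, 0, 0, 1], ![1, -1, 0, 0]] with hW'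
    have v1 : ∑ ν, (2 * W' ν 0 + W' ν 1) ^ 2 = 17 := by decide
    have v2 : ∑ ν, W' ν 1 ^ 2 = 1 := by decide
    have v3 : ∑ ν, (2 * W' ν 0 + W' ν 1) * W' ν 1 = -1 := by decide
    have v4 : ∑ ν, (2 * W' ν 0 + W' ν 1) * (2 * W' ν 2 + W' ν 3) = 2 := by decide
    have v5 : ∑ ν, W' ν 1 * W' ν 3 = 0 := by decide
    have v6 : ∑ ν, (2 * W' ν 0 + W' ν 1) * W' ν 3 = 2 := by decide
    have v7 : ∑ ν, W' ν 1 * (2 * W' ν 2 + W' ν 3) = 0 := by decide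
    have v8 : ∑ ν, (2 * W' ν 2 + W' ν 3) ^ 2 = 6 := by decide
    have v9 : ∑ ν, W' ν 3 ^ 2 = 2 := by decide
    have v10 : ∑ ν, (2 * W' ν 2 + W' ν 3) * W' ν 3 = 2 := by decide
    rw [v1, v2] at k1
    rw [v3] at k2
    rw [v4, v5] at k3
    rw [v6, v7] at k4
    rw [v8, v9] at k5
    rw [v10] at k6
    push_cast at k1 k2 k3 k4 k5 k6
    refine hF4 b (by omega) (fun ν => 2 * W ν 0 + W ν 1) (fun ν => W ν 1)
      (fun ν => 2 * W ν 2 + W ν 3) (fun ν => W ν 3) (fun ν => ⟨W ν 0, by ring⟩) (fun ν => ⟨W ν 2, by ring⟩)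
      ?_ ?_ ?_ ?_ ?_ ?_
    · linarith
    · linarith
    · linarith
    · linarith
    · linarith
    · linarith

end P7
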