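import Pool.Agent.P7.Targets

/-!
# Four times the coordinates of an integral element are integers
-/

set_option autoImplicit false

namespace P7

namespace FOUR

lemma int_of_isIntegral (q : ℚ) (h : IsIntegral ℤ (q : ℝ)) : ∃ n : ℤ, q = n := by
  have h1 : IsIntegral ℤ (algebraMap ℚ ℝ q) := h
  rw [isIntegral_algebraMap_iff (algebraMap ℚ ℝ).injective] at h1
  obtain ⟨n, hn⟩ := IsIntegrallyClosed.isIntegral_iff.1 h1
  exact ⟨n, hn.symm⟩

lemma sqf (m : ℕ) (hm : Squarefree m) (r : ℚ) (n : ℤ) (h : (m : ℚ) * r ^ 2 = n) :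
    ∃ k : ℤ, r = k := by
  have hden : (r.den : ℚ) ≠ 0 := by exact_mod_cast r.den_nz
  have h1 : (m : ℤ) * r.num ^ 2 = n * (r.den : ℤ) ^ 2 := by
    have h2 : (m : ℚ) * (r.num : ℚ) ^ 2 = n * (r.den : ℚ) ^ 2 := by
      have h3 : (r.num : ℚ) = r * r.den := (Rat.mul_den_eq_num r).symm
      rw [h3, ← h]
      ring
    exact_mod_cast h2
  have h4 : (r.den : ℤ) ^ 2 ∣ (m : ℤ) * r.num ^ 2 := ⟨n, by rw [h1]; ring⟩
  have h5 : IsCoprime ((r.den : ℤ) ^ 2) (r.num ^ 2) := by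
    apply IsCoprime.pow
    rw [Int.isCoprime_iff_gcd_eq_one, Int.gcd_comm]
    have := r.reduced
    simpa [Int.gcd, Nat.Coprime] using this
  have h6 : (r.den : ℤ) ^ 2 ∣ (m : ℤ) := h5.dvd_of_dvd_mul_right h4
  have h7 : r.den * r.den ∣ m := by
    rw [← Int.natCast_dvd_natCast]
    rw [pow_two] at h6
    exact_mod_cast h6
  have h8 := Nat.isUnit_iff.1 (hm _ h7)
  refine ⟨r.num, ?_⟩
  have h9 := Rat.mul_den_eq_num r
  rw [h8, Nat.cast_one, mul_one] at h9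
  exact h9

lemma sq_sq (m n : ℕ) : sq m n ^ 2 = (m : ℝ) * n := by
  unfold sq
  rw [Real.sq_sqrt (Nat.cast_nonneg _)]
  push_cast
  ring

/-- The key step for one coordinate. -/
lemma coord (m : ℕ) (hm : Squarefree m) (s x y : ℚ) (P w1 w2 : ℝ) (hP : P ^ 2 = m)
    (hs : s = 4 * x) (hsi : ∃ n : ℤ, s = n)
    (h1 : IsIntegral ℤ w1) (h2 : IsIntegral ℤ w2)
    (e1 : w1 = 2 * x + 2 * y * P) (e2 : w2 = 2 * x - 2 * y * P) : ∃ k : ℤ, 4 * y = k := by
  have h3 : IsIntegral ℤ (((4 * x ^ 2 - 4 * m * y ^ 2 : ℚ)) : ℝ) := by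
    have h4 : (((4 * x ^ 2 - 4 * m * y ^ 2 : ℚ)) : ℝ) = w1 * w2 := by
      rw [e1, e2]
      push_cast
      rw [← hP]
      ring
    rw [h4]
    exact h1.mul h2
  obtain ⟨l, hl⟩ := int_of_isIntegral _ h3
  obtain ⟨n, hn⟩ := hsi
  refine sqf m hm (4 * y) (n ^ 2 - 4 * l) ?_
  push_cast
  rw [← hl, ← hn, hs]
  ring

end FOUR

open FOUR in
theorem tFOUR (hCONJ : T_CONJ) : T_FOUR := by
  intro a b c hadm x y z t hw
  obtain ⟨h1, h2, h3⟩ := hCONJ a b c hadm x y z t hw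
  have hsq : Squarefree (a * b * c) := hadm.1
  have hab : Squarefree (a * b) := hsq.of_mul_left
  have hac : Squarefree (a * c) := by
    have h : a * b * c = (a * c) * b := by ring
    rw [h] at hsq
    exact hsq.of_mul_left
  have hbc : Squarefree (b * c) := by
    have h : a * b * c = a * (b * c) := by ring
    rw [h] at hsq
    exact hsq.of_mul_right
  have hs : IsIntegral ℤ ((4 * x : ℚ) : ℝ) := by
    have h4 : ((4 * x : ℚ) : ℝ) = ((x : ℝ) + y * sq a b + z * sq a c + t * sq b c) +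
        ((x : ℝ) + y * sq a b - z * sq a c - t * sq b c) +
        (((x : ℝ) - y * sq a b + z * sq a c - t * sq b c) +
        ((x : ℝ) - y * sq a b - z * sq a c + t * sq b c)) := by
      push_cast
      ring
    rw [h4]
    exact (hw.add h1).add (h2.add h3)
  have hsi := int_of_isIntegral _ hs
  have hP : sq a b ^ 2 = ((a * b : ℕ) : ℝ) := by rw [sq_sq]; push_cast; ring
  have hQ : sq a c ^ 2 = ((a * c : ℕ) : ℝ) := by rw [sq_sq]; push_cast; ring
  have hR : sq b c ^ 2 = ((b * c : ℕ) : ℝ) := by rw [sq_sq]; push_cast; ring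
  obtain ⟨ky, hy⟩ := coord (a * b) hab (4 * x) x y (sq a b) _ _ hP rfl hsi (hw.add h1) (h2.add h3)
    (by ring) (by ring)
  obtain ⟨kz, hz⟩ := coord (a * c) hac (4 * x) x z (sq a c) _ _ hQ rfl hsi (hw.add h2) (h1.add h3)
    (by ring) (by ring)
  obtain ⟨kt, ht⟩ := coord (b * c) hbc (4 * x) x t (sq b c) _ _ hR rfl hsi (hw.add h3) (h1.add h2)
    (by ring) (by ring)
  obtain ⟨kx, hx⟩ := hsi
  exact ⟨vec kx ky kz kt, hx, hy, hz, ht⟩

end P7
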