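import Pool.Agent.P7.Targets

/-!
# A triangular basis of a lattice between `4ℤ⁴` and `ℤ⁴`
-/

namespace P7

namespace HNF

lemma least (S : Set ℤ) (hadd : ∀ u ∈ S, ∀ v ∈ S, u + v ∈ S) (hsmul : ∀ u ∈ S, ∀ t : ℤ, t * u ∈ S)
    (h4 : (4 : ℤ) ∈ S) : ∃ d ∈ S, 1 ≤ d ∧ d ≤ 4 ∧ ∀ s ∈ S, d ∣ s := by
  classical
  have hex : ∃ n : ℕ, 0 < n ∧ (n : ℤ) ∈ S := ⟨4, by norm_num, by exact_mod_cast h4⟩
  obtain ⟨hpos, hmem⟩ := Nat.find_spec hex
  refine ⟨(Nat.find hex : ℤ), hmem, by exact_mod_cast hpos, ?_, ?_⟩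
  · have : Nat.find hex ≤ 4 := Nat.find_min' hex ⟨by norm_num, by exact_mod_cast h4⟩
    exact_mod_cast this
  · intro s hs
    by_contra hnd
    have hd : (0 : ℤ) < (Nat.find hex : ℤ) := by exact_mod_cast hpos
    have h0 : 0 ≤ s % (Nat.find hex : ℤ) := Int.emod_nonneg _ hd.ne'
    have h1 : s % (Nat.find hex : ℤ) < (Nat.find hex : ℤ) := Int.emod_lt_of_pos _ hd
    have h2 : s % (Nat.find hex : ℤ) ≠ 0 := fun h => hnd (Int.dvd_of_emod_eq_zero h)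
    have h3 : s % (Nat.find hex : ℤ) ∈ S := by
      have := hadd s hs _ (hsmul _ hmem (-(s / (Nat.find hex : ℤ))))
      have he : s + -(s / (Nat.find hex : ℤ)) * (Nat.find hex : ℤ) = s % (Nat.find hex : ℤ) := by
        rw [Int.emod_def]; ring
      rwa [he] at this
    have h4' : ((s % (Nat.find hex : ℤ)).toNat : ℤ) = s % (Nat.find hex : ℤ) := Int.toNat_of_nonneg h0
    have h5 : (s % (Nat.find hex : ℤ)).toNat < Nat.find hex := by
      have : ((s % (Nat.find hex : ℤ)).toNat : ℤ) < (Nat.find hex : ℤ) := by rw [h4']; exact h1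
      exact_mod_cast this
    refine Nat.find_min hex h5 ⟨?_, by rw [h4']; exact h3⟩
    omega

lemma vec_add (x y z w x' y' z' w' : ℤ) :
    vec x y z w + vec x' y' z' w' = vec (x + x') (y + y') (z + z') (w + w') := by
  simp [vec]

lemma smul_vec (t x y z w : ℤ) : t • vec x y z w = vec (t * x) (t * y) (t * z) (t * w) := by
  simp [vec]

lemma eq_vec (v : Fin 4 → ℤ) : v = vec (v 0) (v 1) (v 2) (v 3) := by
  funext i
  fin_cases i <;> simp [vec]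

end HNF

open HNF

theorem tHNF : T_HNF := by
  intro L hadd hsmul h40 h41 h42 h43 hL
  obtain ⟨z3, ⟨z0, z1, z2, hz⟩, hz1, hz4, hzd⟩ := least {d : ℤ | ∃ x y z : ℤ, vec x y z d ∈ L}
    (by
      rintro u ⟨x, y, z, h⟩ v ⟨x', y', z', h'⟩
      refine ⟨x + x', y + y', z + z', ?_⟩
      have := hadd _ h _ h'
      rwa [vec_add] at this)
    (by
      rintro u ⟨x, y, z, h⟩ t
      refine ⟨t * x, t * y, t * z, ?_⟩
      have := hsmul _ h t
      rwa [smul_vec] at this)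
    ⟨0, 0, 0, h43⟩
  obtain ⟨y2, ⟨y0, y1, hy⟩, hy1, hy4, hyd⟩ := least {d : ℤ | ∃ x y : ℤ, vec x y d 0 ∈ L}
    (by
      rintro u ⟨x, y, h⟩ v ⟨x', y', h'⟩
      refine ⟨x + x', y + y', ?_⟩
      have := hadd _ h _ h'
      rwa [vec_add, add_zero] at this)
    (by
      rintro u ⟨x, y, h⟩ t
      refine ⟨t * x, t * y, ?_⟩
      have := hsmul _ h t
      rwa [smul_vec, mul_zero] at this)
    ⟨0, 0, h42⟩
  obtain ⟨x1, ⟨x0, hx⟩, hx1, hx4, hxd⟩ := least {d : ℤ | ∃ x : ℤ, vec x d 0 0 ∈ L}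
    (by
      rintro u ⟨x, h⟩ v ⟨x', h'⟩
      refine ⟨x + x', ?_⟩
      have := hadd _ h _ h'
      rwa [vec_add, add_zero] at this)
    (by
      rintro u ⟨x, h⟩ t
      refine ⟨t * x, ?_⟩
      have := hsmul _ h t
      rwa [smul_vec, mul_zero] at this)
    ⟨0, h41⟩
  refine ⟨x0, x1, y0, y1, y2, z0, z1, z2, z3, hx, hy, hz, hx1, hx4, hy1, hy4, hz1, hz4, ?_⟩
  intro v hv
  rw [eq_vec v] at hv
  obtain ⟨t3, ht3⟩ := hzd (v 3) ⟨_, _, _, hv⟩
  have h3 : vec (v 0 - t3 * z0) (v 1 - t3 * z1) (v 2 - t3 * z2) 0 ∈ L := by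
    have := hadd _ hv _ (hsmul _ hz (-t3))
    rw [smul_vec, vec_add] at this
    convert this using 2
    · ring
    · ring
    · ring
    · rw [ht3]; ring
  obtain ⟨t2, ht2⟩ := hyd _ ⟨_, _, h3⟩
  have h2 : vec (v 0 - t3 * z0 - t2 * y0) (v 1 - t3 * z1 - t2 * y1) 0 0 ∈ L := by
    have := hadd _ h3 _ (hsmul _ hy (-t2))
    rw [smul_vec, vec_add] at this
    convert this using 2
    · ring
    · ring
    · rw [ht2]; ring
    · ring
  obtain ⟨t1, ht1⟩ := hxd _ ⟨_, h2⟩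
  have h1 : vec (v 0 - t3 * z0 - t2 * y0 - t1 * x0) 0 0 0 ∈ L := by
    have := hadd _ h2 _ (hsmul _ hx (-t1))
    rw [smul_vec, vec_add] at this
    convert this using 2
    · ring
    · rw [ht1]; ring
    · ring
    · ring
  obtain ⟨t0, ht0⟩ := hL _ h1
  refine ⟨t0, t1, t2, t3, ?_⟩
  rw [eq_vec v]
  simp only [smul_vec, vec_add]
  have e0 : v 0 = t0 * 4 + t1 * x0 + t2 * y0 + t3 * z0 := by linarith
  have e1 : v 1 = t0 * 0 + t1 * x1 + t2 * y1 + t3 * z1 := by linarith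
  have e2 : v 2 = t0 * 0 + t1 * 0 + t2 * y2 + t3 * z2 := by linarith
  have e3 : v 3 = t0 * 0 + t1 * 0 + t2 * 0 + t3 * z3 := by linarith
  rw [← e0, ← e1, ← e2, ← e3]

end P7
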