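import Pool.Agent.P7.Targets

/-!
# The lattice of integral elements, `ab ≡ 3` and `c` even
-/

open scoped NumberField

namespace P7

namespace LA

lemma parts {a b c : ℕ} (h : Squarefree (a * b * c)) (hab : a * b % 4 = 3) (hc : c % 2 = 0) :
    c % 4 = 2 ∧ (a + b) % 4 = 0 ∧ a * c % 4 = 2 ∧ b * c % 4 = 2 := by
  have h1 : c % 4 = 2 := by
    by_contra hcon
    have h2 : 4 ∣ c := by omega
    have h3 : 2 * 2 ∣ a * b * c := Dvd.dvd.mul_left (by simpa using h2) _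
    have := h 2 h3
    simp at this
  have ha : a % 4 = 0 ∨ a % 4 = 1 ∨ a % 4 = 2 ∨ a % 4 = 3 := by omega
  have hb : b % 4 = 0 ∨ b % 4 = 1 ∨ b % 4 = 2 ∨ b % 4 = 3 := by omega
  rcases ha with ha | ha | ha | ha <;> rcases hb with hb | hb | hb | hb <;>
    simp [Nat.mul_mod, ha, hb] at hab <;>
    exact ⟨h1, by omega, by simp [Nat.mul_mod, ha, h1], by simp [Nat.mul_mod, hb, h1]⟩

lemma p3 {A x y : ℤ} (hA : A % 4 = 3) (h : 4 ∣ x ^ 2 - A * y ^ 2) : 2 ∣ x ∧ 2 ∣ y := by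
  obtain ⟨α, rfl⟩ : ∃ α, A = 4 * α + 3 := ⟨A / 4, by omega⟩
  obtain ⟨k, hk⟩ := h
  rcases Int.even_or_odd' x with ⟨p, rfl | rfl⟩ <;> rcases Int.even_or_odd' y with ⟨q, rfl | rfl⟩
  · exact ⟨⟨p, rfl⟩, ⟨q, rfl⟩⟩
  · exfalso; ring_nf at hk; omega
  · exfalso; ring_nf at hk; omega
  · exfalso; ring_nf at hk; omega

lemma p2x {B x y : ℤ} (hB : B % 4 = 2) (h : 4 ∣ x ^ 2 - B * y ^ 2) : 2 ∣ x ∧ 2 ∣ y := by
  obtain ⟨β, rfl⟩ : ∃ β, B = 4 * β + 2 := ⟨B / 4, by omega⟩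
  obtain ⟨k, hk⟩ := h
  rcases Int.even_or_odd' x with ⟨p, rfl | rfl⟩ <;> rcases Int.even_or_odd' y with ⟨q, rfl | rfl⟩
  · exact ⟨⟨p, rfl⟩, ⟨q, rfl⟩⟩
  · exfalso; ring_nf at hk; omega
  · exfalso; ring_nf at hk; omega
  · exfalso; ring_nf at hk; omega

/-- from the congruence modulo 256 -/
lemma q3 {A F S : ℤ} (hA : A % 4 = 3) (h : 256 ∣ (4 * F) ^ 2 - 4 * A * S ^ 2) : 4 ∣ F := by
  have h1 : 64 ∣ 4 * F ^ 2 - A * S ^ 2 := by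
    obtain ⟨k, hk⟩ := h
    exact ⟨k, by linarith⟩
  have h2 : 2 ∣ S := by
    by_contra hcon
    obtain ⟨s, rfl⟩ : ∃ s, S = 2 * s + 1 := ⟨S / 2, by omega⟩
    obtain ⟨α, rfl⟩ : ∃ α, A = 4 * α + 3 := ⟨A / 4, by omega⟩
    obtain ⟨k, hk⟩ := h1
    ring_nf at hk
    omega
  obtain ⟨s, rfl⟩ := h2
  have h3 : 16 ∣ F ^ 2 - A * s ^ 2 := by
    obtain ⟨k, hk⟩ := h1
    exact ⟨k, by linarith⟩
  obtain ⟨⟨f, rfl⟩, ⟨t, rfl⟩⟩ := p3 hA ((by norm_num : (4 : ℤ) ∣ 16).trans h3)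
  have h4 : 4 ∣ f ^ 2 - A * t ^ 2 := by
    obtain ⟨k, hk⟩ := h3
    exact ⟨k, by linarith⟩
  obtain ⟨⟨g, rfl⟩, -⟩ := p3 hA h4
  exact ⟨g, by ring⟩

lemma q2 {A F S : ℤ} (hA : A % 4 = 2) (h : 256 ∣ (4 * F) ^ 2 - 4 * A * S ^ 2) : 4 ∣ F := by
  have h1 : 64 ∣ 4 * F ^ 2 - A * S ^ 2 := by
    obtain ⟨k, hk⟩ := h
    exact ⟨k, by linarith⟩
  have h2 : 2 ∣ S := by
    by_contra hcon
    obtain ⟨s, rfl⟩ : ∃ s, S = 2 * s + 1 := ⟨S / 2, by omega⟩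
    obtain ⟨α, rfl⟩ : ∃ α, A = 4 * α + 2 := ⟨A / 4, by omega⟩
    obtain ⟨k, hk⟩ := h1
    ring_nf at hk
    omega
  obtain ⟨s, rfl⟩ := h2
  have h3 : 16 ∣ F ^ 2 - A * s ^ 2 := by
    obtain ⟨k, hk⟩ := h1
    exact ⟨k, by linarith⟩
  obtain ⟨⟨f, rfl⟩, ⟨t, rfl⟩⟩ := p2x hA ((by norm_num : (4 : ℤ) ∣ 16).trans h3)
  have h4 : 4 ∣ f ^ 2 - A * t ^ 2 := by
    obtain ⟨k, hk⟩ := h3
    exact ⟨k, by linarith⟩
  obtain ⟨⟨g, rfl⟩, -⟩ := p2x hA h4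
  exact ⟨g, by ring⟩

lemma key {A B C v0 v1 v2 v3 S1 S2 : ℤ} (hA : A % 4 = 3) (hB : B % 4 = 2) (hC : C % 4 = 2)
    (h1 : 4 ∣ v0 ^ 2 - A * v1 ^ 2) (h2 : 4 ∣ v0 ^ 2 - B * v2 ^ 2) (h3 : 4 ∣ v0 ^ 2 - C * v3 ^ 2)
    (h4 : 256 ∣ (v0 ^ 2 + A * v1 ^ 2 - B * v2 ^ 2 - C * v3 ^ 2) ^ 2 - 4 * A * S1 ^ 2)
    (h5 : 256 ∣ (v0 ^ 2 - A * v1 ^ 2 + B * v2 ^ 2 - C * v3 ^ 2) ^ 2 - 4 * B * S2 ^ 2) :
    4 ∣ v0 ∧ 4 ∣ v1 ∧ 2 ∣ v2 ∧ 4 ∣ v2 - v3 := by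
  obtain ⟨⟨w0, rfl⟩, ⟨w1, rfl⟩⟩ := p3 hA h1
  obtain ⟨-, ⟨w2, rfl⟩⟩ := p2x hB h2
  obtain ⟨-, ⟨w3, rfl⟩⟩ := p2x hC h3
  have h6 : 4 ∣ w0 ^ 2 + A * w1 ^ 2 - B * w2 ^ 2 - C * w3 ^ 2 := by
    refine q3 (S := S1) hA ?_
    convert h4 using 2
    ring
  have h7 : 4 ∣ w0 ^ 2 - A * w1 ^ 2 + B * w2 ^ 2 - C * w3 ^ 2 := by
    refine q2 (S := S2) hB ?_
    convert h5 using 2
    ring
  obtain ⟨α, rfl⟩ : ∃ α, A = 4 * α + 3 := ⟨A / 4, by omega⟩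
  obtain ⟨β, rfl⟩ : ∃ β, B = 4 * β + 2 := ⟨B / 4, by omega⟩
  obtain ⟨γ, rfl⟩ : ∃ γ, C = 4 * γ + 2 := ⟨C / 4, by omega⟩
  have h8 : 4 ∣ w0 ^ 2 - w1 ^ 2 - 2 * w2 ^ 2 - 2 * w3 ^ 2 := by
    obtain ⟨k, hk⟩ := h6
    exact ⟨k - α * w1 ^ 2 - w1 ^ 2 + β * w2 ^ 2 + γ * w3 ^ 2, by linear_combination hk⟩
  have h9 : 4 ∣ w0 ^ 2 + w1 ^ 2 + 2 * w2 ^ 2 - 2 * w3 ^ 2 := by
    obtain ⟨k, hk⟩ := h7
    exact ⟨k + α * w1 ^ 2 + w1 ^ 2 - β * w2 ^ 2 + γ * w3 ^ 2, by linear_combination hk⟩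
  obtain ⟨k8, h8⟩ := h8
  obtain ⟨k9, h9⟩ := h9
  have m : ∀ w : ℤ, (w ^ 2 % 4 = 0 ∧ w % 2 = 0) ∨ (w ^ 2 % 4 = 1 ∧ w % 2 = 1) := by
    intro w
    rcases Int.even_or_odd' w with ⟨p, rfl | rfl⟩
    · left; constructor
      · ring_nf; omega
      · omega
    · right; constructor
      · ring_nf; omega
      · omega
  have m0 := m w0
  have m1 := m w1
  have m2 := m w2
  have m3 := m w3
  generalize w0 ^ 2 = x0 at *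
  generalize w1 ^ 2 = x1 at *
  generalize w2 ^ 2 = x2 at *
  generalize w3 ^ 2 = x3 at *
  have e0 : w0 % 2 = 0 := by omega
  have e1 : w1 % 2 = 0 := by omega
  have e2 : (w2 - w3) % 2 = 0 := by omega
  refine ⟨by omega, by omega, by omega, by omega⟩

lemma sq_sq (m n : ℕ) : sq m n ^ 2 = m * n := by
  unfold sq
  rw [Real.sq_sqrt (by positivity)]
  push_cast
  ring

lemma sq_mul (a b c : ℕ) : sq a c * sq b c = c * sq a b := by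
  unfold sq
  rw [← Real.sqrt_mul (by positivity), show (((a * c : ℕ) : ℝ) * ((b * c : ℕ) : ℝ)) =
    (c : ℝ) ^ 2 * ((a * b : ℕ) : ℝ) by push_cast; ring, Real.sqrt_mul (by positivity),
    Real.sqrt_sq (by positivity)]

lemma sq_int (m n : ℕ) : IsIntegral ℤ (sq m n) := by
  refine IsIntegral.of_pow (n := 2) (by norm_num) ?_
  rw [sq_sq]
  exact (isIntegral_natCast m).mul (isIntegral_natCast n)

end LA

open LA in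
theorem tLA (hCONG : T_CONG) : T_LA := by
  intro a b c hadm hab hc
  obtain ⟨hc4, hs, hac, hbc⟩ := parts hadm.1 hab hc
  refine ⟨fun v hv => ?_, ?_⟩
  · obtain ⟨h1, h2, h3, -, -, -, h4⟩ := hCONG a b c hadm v hv
    refine key (A := a * b) (B := a * c) (C := b * c) (S1 := v 0 * v 1 - c * v 2 * v 3)
      (S2 := v 0 * v 2 - b * v 1 * v 3) (by exact_mod_cast hab) (by exact_mod_cast hac)
      (by exact_mod_cast hbc) h1 h2 h3 h4 ?_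
    convert h4 using 1
    ring
  · show IsIntegral ℤ (val a b c 0 (vec 0 0 2 2))
    refine IsIntegral.of_pow (n := 2) (by norm_num) ?_
    obtain ⟨m, hm⟩ : ∃ m, a + b = 4 * m := ⟨(a + b) / 4, by omega⟩
    obtain ⟨e, he⟩ : ∃ e, c = 2 * e := ⟨c / 2, by omega⟩
    have h1 : val a b c 0 (vec 0 0 2 2) ^ 2 = ((c * m : ℕ) : ℝ) + (e : ℝ) * sq a b := by
      have h2 := sq_sq a c
      have h3 := sq_sq b c
      have h4 := sq_mul a b c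
      have h5 : ((a : ℝ) + b) = 4 * m := by exact_mod_cast hm
      have h6 : (c : ℝ) = 2 * e := by exact_mod_cast he
      have h7 : val a b c 0 (vec 0 0 2 2) = (sq a c + sq b c) / 2 := by
        simp only [val, ev, vec, Matrix.cons_val_zero, Matrix.cons_val]
        push_cast
        ring
      rw [h7]
      push_cast
      linear_combination h2 / 4 + h3 / 4 + h4 / 2 + (c : ℝ) / 4 * h5 + sq a b / 2 * h6
    rw [h1]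
    exact (isIntegral_natCast _).add ((isIntegral_natCast _).mul (sq_int a b))

end P7

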