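import Pool.Agent.P7.LI

/-!
# P7-LAM: elementary closure properties of `Lam`
-/

namespace P7

namespace LAM

lemma int_cast (n : ℤ) : IsIntegral ℤ (n : ℝ) :=
  isIntegral_algebraMap (R := ℤ) (A := ℝ) (x := n)

lemma int_sq (m n : ℕ) : IsIntegral ℤ (sq m n) := by
  refine IsIntegral.of_pow (n := 2) (by norm_num) ?_
  rw [LI.sq_sq]
  have : (m : ℝ) * n = ((m * n : ℤ) : ℝ) := by push_cast; rfl
  rw [this]
  exact int_cast _

lemma mem_iff (a b c : ℕ) (v : Fin 4 → ℤ) :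
    v ∈ Lam a b c ↔ IsIntegral ℤ (ev (sq a b) (sq a c) (sq b c) v) := Iff.rfl

lemma ev_add (P Q R : ℝ) (u v : Fin 4 → ℤ) : ev P Q R (u + v) = ev P Q R u + ev P Q R v := by
  simp only [ev, Pi.add_apply]
  push_cast
  ring

lemma ev_smul (P Q R : ℝ) (t : ℤ) (v : Fin 4 → ℤ) : ev P Q R (t • v) = t * ev P Q R v := by
  simp only [ev, Pi.smul_apply, smul_eq_mul]
  push_cast
  ring

lemma ev_vec (P Q R : ℝ) (x y z w : ℤ) :
    ev P Q R (vec x y z w) = ((x : ℝ) + y * P + z * Q + w * R) / 4 := rfl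

/-- a rational integral number is an integer -/
lemma rat_int (q : ℚ) (h : IsIntegral ℤ (q : ℝ)) : ∃ n : ℤ, (n : ℚ) = q := by
  have h1 : IsIntegral ℤ (algebraMap ℚ ℝ q) := h
  rw [isIntegral_algebraMap_iff (algebraMap ℚ ℝ).injective] at h1
  obtain ⟨n, hn⟩ := IsIntegrallyClosed.isIntegral_iff.1 h1
  exact ⟨n, hn⟩

end LAM

open LAM in
/-- LAM -/
theorem tLAM : T_LAM := by
  intro a b c _
  refine ⟨?_, ?_, ?_, ?_, ?_, ?_, ?_⟩
  · intro u hu v hv
    rw [mem_iff, ev_add]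
    exact IsIntegral.add hu hv
  · intro u hu t
    rw [mem_iff, ev_smul]
    exact (int_cast t).mul hu
  · rw [mem_iff, ev_vec]
    have : (((4 : ℤ) : ℝ) + (0 : ℤ) * sq a b + (0 : ℤ) * sq a c + (0 : ℤ) * sq b c) / 4 =
        ((1 : ℤ) : ℝ) := by push_cast; ring
    rw [this]
    exact int_cast 1
  · rw [mem_iff, ev_vec]
    have : (((0 : ℤ) : ℝ) + (4 : ℤ) * sq a b + (0 : ℤ) * sq a c + (0 : ℤ) * sq b c) / 4 =
        sq a b := by push_cast; ring
    rw [this]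
    exact int_sq a b
  · rw [mem_iff, ev_vec]
    have : (((0 : ℤ) : ℝ) + (0 : ℤ) * sq a b + (4 : ℤ) * sq a c + (0 : ℤ) * sq b c) / 4 =
        sq a c := by push_cast; ring
    rw [this]
    exact int_sq a c
  · rw [mem_iff, ev_vec]
    have : (((0 : ℤ) : ℝ) + (0 : ℤ) * sq a b + (0 : ℤ) * sq a c + (4 : ℤ) * sq b c) / 4 =
        sq b c := by push_cast; ring
    rw [this]
    exact int_sq b c
  · intro t ht
    rw [mem_iff, ev_vec] at ht
    have e : ((t : ℝ) + (0 : ℤ) * sq a b + (0 : ℤ) * sq a c + (0 : ℤ) * sq b c) / 4 =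
        ((t / 4 : ℚ) : ℝ) := by push_cast; ring
    rw [e] at ht
    obtain ⟨n, hn⟩ := rat_int _ ht
    refine ⟨n, ?_⟩
    have : (t : ℚ) = 4 * n := by
      rw [hn]
      ring
    exact_mod_cast this

end P7
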