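import Pool.Agent.P7.Targets

/-!
# The lattice of integral elements for `a` odd, `b` even, `ac ≡ 3` modulo `4`
-/

set_option autoImplicit false

namespace P7

namespace LB

lemma sq_sq (m n : ℕ) : sq m n ^ 2 = (m : ℝ) * n := by
  unfold sq
  rw [Real.sq_sqrt (Nat.cast_nonneg _)]
  push_cast
  ring

lemma sq_mul_sq (a b c : ℕ) : sq a b * sq b c = b * sq a c := by
  unfold sq
  rw [← Real.sqrt_mul (Nat.cast_nonneg _)]
  have h : ((a * b : ℕ) : ℝ) * ((b * c : ℕ) : ℝ) = (b : ℝ) ^ 2 * ((a * c : ℕ) : ℝ) := by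
    push_cast
    ring
  rw [h, Real.sqrt_mul (sq_nonneg _), Real.sqrt_sq (Nat.cast_nonneg _)]

lemma isIntegral_sq (m n : ℕ) : IsIntegral ℤ (sq m n) := by
  refine IsIntegral.of_pow (n := 2) (by norm_num) ?_
  rw [sq_sq]
  have h : ((m : ℝ) * n) = ((m * n : ℤ) : ℝ) := by push_cast; ring
  rw [h]
  exact isIntegral_algebraMap (R := ℤ) (A := ℝ)

lemma even_of {v : ℤ} (h : (v : ZMod 4) = 0 ∨ (v : ZMod 4) = 2) : ∃ w : ℤ, v = 2 * w := by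
  rcases h with h | h
  · obtain ⟨w, hw⟩ := (ZMod.intCast_zmod_eq_zero_iff_dvd v 4).1 h
    exact ⟨2 * w, by rw [hw]; push_cast; ring⟩
  · have h1 : ((v - 2 : ℤ) : ZMod 4) = 0 := by
      push_cast
      rw [h]
      decide
    obtain ⟨w, hw⟩ := (ZMod.intCast_zmod_eq_zero_iff_dvd (v - 2) 4).1 h1
    refine ⟨2 * w + 1, ?_⟩
    push_cast at hw
    linarith

lemma dvd4 {v : ℤ} (h : (v : ZMod 4) = 0) : (4 : ℤ) ∣ v :=
  (ZMod.intCast_zmod_eq_zero_iff_dvd v 4).1 h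

lemma dec1 : ∀ x y : ZMod 4, x ^ 2 - 2 * y ^ 2 = 0 → (x = 0 ∨ x = 2) ∧ (y = 0 ∨ y = 2) := by
  decide

lemma dec2 : ∀ x y : ZMod 4, (x = 0 ∨ x = 2) → x ^ 2 - 3 * y ^ 2 = 0 → (y = 0 ∨ y = 2) := by
  decide

lemma dec3 : ∀ x y : ZMod 4, x ^ 2 - 3 * y ^ 2 = 0 → (x = 0 ∨ x = 2) := by
  decide

lemma dec4 : ∀ x y z w : ZMod 4, x ^ 2 + 2 * y ^ 2 - 3 * z ^ 2 - 2 * w ^ 2 = 0 →
    x ^ 2 - 2 * y ^ 2 + 3 * z ^ 2 - 2 * w ^ 2 = 0 →
      (x = 0 ∨ x = 2) ∧ (z = 0 ∨ z = 2) ∧ (y - w = 0 ∨ y - w = 2) := by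
  decide

/-- The arithmetic part. -/
lemma arith (a b c v0 v1 v2 v3 : ℤ) (hA : ((a * b : ℤ) : ZMod 4) = 2)
    (hB : ((a * c : ℤ) : ZMod 4) = 3) (hC : ((b * c : ℤ) : ZMod 4) = 2)
    (h1 : (4 : ℤ) ∣ v0 ^ 2 - a * b * v1 ^ 2) (h2 : (4 : ℤ) ∣ v0 ^ 2 - a * c * v2 ^ 2)
    (h3 : (4 : ℤ) ∣ v0 ^ 2 - b * c * v3 ^ 2)
    (h4 : (8 : ℤ) ∣ v0 ^ 2 + a * b * v1 ^ 2 - a * c * v2 ^ 2 - b * c * v3 ^ 2)
    (h5 : (8 : ℤ) ∣ v0 ^ 2 - a * b * v1 ^ 2 + a * c * v2 ^ 2 - b * c * v3 ^ 2)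
    (h7 : (256 : ℤ) ∣ (v0 ^ 2 + a * b * v1 ^ 2 - a * c * v2 ^ 2 - b * c * v3 ^ 2) ^ 2
      - 4 * (a * b) * (v0 * v1 - c * v2 * v3) ^ 2) :
    4 ∣ v0 ∧ 4 ∣ v2 ∧ 2 ∣ v1 ∧ 4 ∣ v1 - v3 := by
  have g1 := (ZMod.intCast_zmod_eq_zero_iff_dvd _ 4).2 h1
  have g2 := (ZMod.intCast_zmod_eq_zero_iff_dvd _ 4).2 h2
  have g3 := (ZMod.intCast_zmod_eq_zero_iff_dvd _ 4).2 h3
  rw [Int.cast_sub, Int.cast_mul, hA] at g1
  rw [Int.cast_sub, Int.cast_mul, hB] at g2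
  rw [Int.cast_sub, Int.cast_mul, hC] at g3
  rw [Int.cast_pow, Int.cast_pow] at g1 g2 g3
  obtain ⟨p0, p1⟩ := dec1 _ _ g1
  have p2 := dec2 _ _ p0 g2
  have p3 := (dec1 _ _ g3).2
  obtain ⟨w0, rfl⟩ := even_of p0
  obtain ⟨w1, rfl⟩ := even_of p1
  obtain ⟨w2, rfl⟩ := even_of p2
  obtain ⟨w3, rfl⟩ := even_of p3
  obtain ⟨T1, hT1⟩ : ∃ T1 : ℤ, w0 ^ 2 + a * b * w1 ^ 2 - a * c * w2 ^ 2 - b * c * w3 ^ 2 = 2 * T1 := by
    obtain ⟨t, ht⟩ := h4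
    exact ⟨t, by linarith⟩
  obtain ⟨T2, hT2⟩ : ∃ T2 : ℤ, w0 ^ 2 - a * b * w1 ^ 2 + a * c * w2 ^ 2 - b * c * w3 ^ 2 = 2 * T2 := by
    obtain ⟨t, ht⟩ := h5
    exact ⟨t, by linarith⟩
  obtain ⟨t, ht⟩ := h7
  have e1 : T1 ^ 2 - (a * b) * (w0 * w1 - c * w2 * w3) ^ 2 = 4 * t := by
    have e : (2 * T1) ^ 2 - 4 * (a * b) * (w0 * w1 - c * w2 * w3) ^ 2 = 16 * t := by
      rw [← hT1]
      linarith
    linarith
  have e2 : T2 ^ 2 - (a * c) * (w0 * w2 - b * w1 * w3) ^ 2 = 4 * t := by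
    have e : (2 * T2) ^ 2 - 4 * (a * c) * (w0 * w2 - b * w1 * w3) ^ 2 = 16 * t := by
      rw [← hT2]
      linarith
    linarith
  have k1 := (ZMod.intCast_zmod_eq_zero_iff_dvd (T1 ^ 2 - (a * b) * (w0 * w1 - c * w2 * w3) ^ 2) 4).2
    ⟨t, by exact_mod_cast e1⟩
  have k2 := (ZMod.intCast_zmod_eq_zero_iff_dvd (T2 ^ 2 - (a * c) * (w0 * w2 - b * w1 * w3) ^ 2) 4).2
    ⟨t, by exact_mod_cast e2⟩
  rw [Int.cast_sub, Int.cast_mul, hA, Int.cast_pow, Int.cast_pow] at k1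
  rw [Int.cast_sub, Int.cast_mul, hB, Int.cast_pow, Int.cast_pow] at k2
  obtain ⟨u1, hu1⟩ := even_of (dec1 _ _ k1).1
  obtain ⟨u2, hu2⟩ := even_of (dec3 _ _ k2)
  have m1 := (ZMod.intCast_zmod_eq_zero_iff_dvd
    (w0 ^ 2 + a * b * w1 ^ 2 - a * c * w2 ^ 2 - b * c * w3 ^ 2) 4).2
    ⟨u1, by rw [hT1, hu1]; push_cast; ring⟩
  have m2 := (ZMod.intCast_zmod_eq_zero_iff_dvd
    (w0 ^ 2 - a * b * w1 ^ 2 + a * c * w2 ^ 2 - b * c * w3 ^ 2) 4).2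
    ⟨u2, by rw [hT2, hu2]; push_cast; ring⟩
  rw [Int.cast_sub, Int.cast_sub, Int.cast_add, Int.cast_mul (a * b), Int.cast_mul (a * c),
    Int.cast_mul (b * c), hA, hB, hC, Int.cast_pow, Int.cast_pow, Int.cast_pow,
    Int.cast_pow] at m1
  rw [Int.cast_sub, Int.cast_add, Int.cast_sub, Int.cast_mul (a * b), Int.cast_mul (a * c),
    Int.cast_mul (b * c), hA, hB, hC, Int.cast_pow, Int.cast_pow, Int.cast_pow,
    Int.cast_pow] at m2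
  obtain ⟨q0, q2, q3⟩ := dec4 _ _ _ _ m1 m2
  obtain ⟨x0, rfl⟩ := even_of q0
  obtain ⟨x2, rfl⟩ := even_of q2
  obtain ⟨x3, hx3⟩ := even_of (v := w1 - w3) (by rw [Int.cast_sub]; exact q3)
  refine ⟨⟨x0, by ring⟩, ⟨x2, by ring⟩, ⟨w1, rfl⟩, ⟨x3, by linarith⟩⟩

end LB

open LB in
theorem tLB (hCONG : T_CONG) : T_LB := by
  intro a b c hadm ha hb hac
  have hsq : Squarefree (a * b * c) := hadm.1
  have hb4 : b % 4 = 2 := by
    have h1 : ¬ 4 ∣ b := by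
      intro h
      have h2 : 2 * 2 ∣ a * b * c := (h.mul_left a).mul_right c
      have := Nat.isUnit_iff.1 (hsq 2 h2)
      omega
    omega
  have hc : c % 2 = 1 := by
    rcases Nat.even_or_odd c with h | h
    · exfalso
      have h1 : Even (a * c) := h.mul_left a
      rw [Nat.even_iff] at h1
      omega
    · exact Nat.odd_iff.1 h
  have hA : (((a : ℤ) * (b : ℤ) : ℤ) : ZMod 4) = 2 := by
    have h1 : (a * b) % 4 = 2 := by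
      rw [Nat.mul_mod, hb4]
      have h2 : a % 4 = 1 ∨ a % 4 = 3 := by omega
      rcases h2 with h2 | h2 <;> rw [h2]
    have h2 : (((a * b : ℕ) : ℤ) : ZMod 4) = 2 := by
      rw [Int.cast_natCast, ← ZMod.natCast_mod, h1]
      rfl
    rw [← h2]
    push_cast
    ring
  have hC : (((b : ℤ) * (c : ℤ) : ℤ) : ZMod 4) = 2 := by
    have h1 : (b * c) % 4 = 2 := by
      rw [Nat.mul_mod, hb4]
      have h2 : c % 4 = 1 ∨ c % 4 = 3 := by omega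
      rcases h2 with h2 | h2 <;> rw [h2]
    have h2 : (((b * c : ℕ) : ℤ) : ZMod 4) = 2 := by
      rw [Int.cast_natCast, ← ZMod.natCast_mod, h1]
      rfl
    rw [← h2]
    push_cast
    ring
  have hB : (((a : ℤ) * (c : ℤ) : ℤ) : ZMod 4) = 3 := by
    have h2 : (((a * c : ℕ) : ℤ) : ZMod 4) = 3 := by
      rw [Int.cast_natCast, ← ZMod.natCast_mod, hac]
      rfl
    rw [← h2]
    push_cast
    ring
  refine ⟨fun v hv => ?_, ?_⟩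
  · obtain ⟨h1, h2, h3, h4, h5, _, h7⟩ := hCONG a b c hadm v hv
    exact arith a b c (v 0) (v 1) (v 2) (v 3) hA hB hC h1 h2 h3 h4 h5 h7
  · have h1 : val a b c 0 (vec 0 2 0 2) = (sq a b + sq b c) / 2 := by
      simp only [val, vec, ev, Matrix.cons_val_zero, Matrix.cons_val_one, Matrix.cons_val]
      push_cast
      ring
    change IsIntegral ℤ (val a b c 0 (vec 0 2 0 2))
    rw [h1]
    refine IsIntegral.of_pow (n := 2) (by norm_num) ?_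
    obtain ⟨k, hk⟩ : ∃ k : ℕ, b * (a + c) = 4 * k := by
      have hac2 : (a + c) % 2 = 0 := by omega
      obtain ⟨s, hs⟩ := Nat.dvd_of_mod_eq_zero hac2
      obtain ⟨r, hr⟩ := Nat.dvd_of_mod_eq_zero hb
      exact ⟨r * s, by rw [hs, hr]; ring⟩
    obtain ⟨r, hr⟩ := Nat.dvd_of_mod_eq_zero hb
    have h2 : ((sq a b + sq b c) / 2) ^ 2 = ((k : ℤ) : ℝ) + ((r : ℤ) : ℝ) * sq a c := by
      have h3 : (sq a b + sq b c) ^ 2 = (a : ℝ) * b + b * c + 2 * (b * sq a c) := by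
        have h4 : (sq a b + sq b c) ^ 2 = sq a b ^ 2 + sq b c ^ 2 + 2 * (sq a b * sq b c) := by
          ring
        rw [h4, sq_sq, sq_sq, sq_mul_sq]
      have h5 : (b : ℝ) * ((a : ℝ) + c) = 4 * k := by exact_mod_cast hk
      have h6 : (b : ℝ) = 2 * r := by exact_mod_cast hr
      have h7 : ((sq a b + sq b c) / 2) ^ 2 = (sq a b + sq b c) ^ 2 / 4 := by ring
      rw [h7, h3]
      have h8 : (a : ℝ) * b + b * c + 2 * (b * sq a c) = b * ((a : ℝ) + c) + 2 * b * sq a c := by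
        ring
      rw [h8, h5, h6]
      push_cast
      ring
    rw [h2]
    exact (isIntegral_algebraMap (R := ℤ) (A := ℝ)).add
      ((isIntegral_algebraMap (R := ℤ) (A := ℝ)).mul (isIntegral_sq a c))

end P7
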