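import Pool.Agent.P7.Targets

/-!
# P7-LC: the lattice in the case `ac ≡ 1`, `ab ≢ 1` mod 4
-/

namespace P7

namespace LC

lemma sq_sq (m n : ℕ) : sq m n ^ 2 = (m : ℝ) * n := by
  rw [sq, Real.sq_sqrt (Nat.cast_nonneg _)]
  push_cast
  rfl

lemma sq_mul (a b c : ℕ) : sq a b * sq b c = b * sq a c := by
  have h1 : (((a * b : ℕ) : ℝ)) * ((b * c : ℕ) : ℝ) = (b : ℝ) ^ 2 * ((a * c : ℕ) : ℝ) := by
    push_cast
    ring
  rw [sq, sq, sq, ← Real.sqrt_mul (Nat.cast_nonneg _), h1,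
    Real.sqrt_mul (by positivity), Real.sqrt_sq (Nat.cast_nonneg _)]

/-- residues of squares mod 4 -/
lemma sqm (x : ℤ) : (x % 2 = 0 ∧ x ^ 2 % 4 = 0) ∨ (x % 2 = 1 ∧ x ^ 2 % 4 = 1) := by
  rcases Int.even_or_odd' x with ⟨k, hk | hk⟩
  · left
    refine ⟨by omega, ?_⟩
    have : x ^ 2 = 4 * k ^ 2 := by rw [hk]; ring
    omega
  · right
    refine ⟨by omega, ?_⟩
    have : x ^ 2 = 4 * (k ^ 2 + k) + 1 := by rw [hk]; ring
    omega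

lemma even_of {A x y : ℤ} (hA : A % 4 = 2 ∨ A % 4 = 3) (h : (4 : ℤ) ∣ x ^ 2 - A * y ^ 2) :
    2 ∣ x ∧ 2 ∣ y := by
  obtain ⟨k, hk⟩ : ∃ k, A = 4 * k + 2 ∨ A = 4 * k + 3 := ⟨A / 4, by omega⟩
  have h0 : A * y ^ 2 = 4 * (k * y ^ 2) + 2 * y ^ 2 ∨ A * y ^ 2 = 4 * (k * y ^ 2) + 3 * y ^ 2 := by
    rcases hk with hk | hk
    · left; rw [hk]; ring
    · right; rw [hk]; ring
  have hx := sqm x
  have hy := sqm y
  generalize x ^ 2 = X at *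
  generalize y ^ 2 = Y at *
  generalize A * Y = Z at *
  generalize k * Y = K at *
  omega

lemma even_of' {A T S : ℤ} (hA : A % 4 = 2 ∨ A % 4 = 3) (h : (4 : ℤ) ∣ T ^ 2 - A * S ^ 2) :
    2 ∣ T := (even_of hA h).1

/-- the key step -/
lemma step {A T S : ℤ} (hA : A % 4 = 2 ∨ A % 4 = 3) (hT : (8 : ℤ) ∣ 4 * T)
    (h : (256 : ℤ) ∣ (4 * T) ^ 2 - 4 * A * (4 * S) ^ 2) : (4 : ℤ) ∣ T := by
  obtain ⟨t, ht⟩ : ∃ t, T = 2 * t := ⟨T / 2, by omega⟩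
  have h1 : (4 : ℤ) ∣ t ^ 2 - A * S ^ 2 := by
    have h2 : (4 * T) ^ 2 - 4 * A * (4 * S) ^ 2 = 64 * (t ^ 2 - A * S ^ 2) := by
      rw [ht]; ring
    rw [h2] at h
    omega
  have := even_of' hA h1
  omega

end LC

open LC in
/-- LC -/
theorem tLC (hCONG : T_CONG) : T_LC := by
  intro a b c hA hac hab
  obtain ⟨hs, h1, h2, h3⟩ := hA
  have sab : Squarefree (a * b) := hs.squarefree_of_dvd ⟨c, rfl⟩
  have hab0 : a * b % 4 ≠ 0 := by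
    intro h
    have : 2 * 2 ∣ a * b := by omega
    have := sab 2 this
    rw [Nat.isUnit_iff] at this
    omega
  -- residues
  have ha4 : a % 4 = 0 ∨ a % 4 = 1 ∨ a % 4 = 2 ∨ a % 4 = 3 := by omega
  have hb4 : b % 4 = 0 ∨ b % 4 = 1 ∨ b % 4 = 2 ∨ b % 4 = 3 := by omega
  have hc4 : c % 4 = 0 ∨ c % 4 = 1 ∨ c % 4 = 2 ∨ c % 4 = 3 := by omega
  have key : (a * b % 4 = 2 ∧ b * c % 4 = 2 ∨ a * b % 4 = 3 ∧ b * c % 4 = 3) ∧
      (a % 4 = 1 ∧ c % 4 = 1 ∨ a % 4 = 3 ∧ c % 4 = 3) := by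
    rw [Nat.mul_mod] at hac hab hab0
    rw [Nat.mul_mod a b, Nat.mul_mod b c]
    rcases ha4 with h | h | h | h <;> rcases hb4 with h' | h' | h' | h' <;>
      rcases hc4 with h'' | h'' | h'' | h'' <;> rw [h, h'] at hab hab0 <;> rw [h, h''] at hac <;>
      rw [h, h', h''] <;> omega
  obtain ⟨hk1, hk2⟩ := key
  refine ⟨?_, ?_, ?_⟩
  · intro v hv
    obtain ⟨c1, c2, c3, c4, c5, c6, c7⟩ := hCONG a b c ⟨hs, h1, h2, h3⟩ v hv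
    have eA : ((a : ℤ) * b) % 4 = 2 ∧ ((b : ℤ) * c) % 4 = 2 ∨
        ((a : ℤ) * b) % 4 = 3 ∧ ((b : ℤ) * c) % 4 = 3 := by
      rcases hk1 with ⟨h, h'⟩ | ⟨h, h'⟩
      · left; exact ⟨by exact_mod_cast h, by exact_mod_cast h'⟩
      · right; exact ⟨by exact_mod_cast h, by exact_mod_cast h'⟩
    have eB : ((a : ℤ) * c) % 4 = 1 := by exact_mod_cast hac
    have eA1 : ((a : ℤ) * b) % 4 = 2 ∨ ((a : ℤ) * b) % 4 = 3 := by omega
    have eC1 : ((b : ℤ) * c) % 4 = 2 ∨ ((b : ℤ) * c) % 4 = 3 := by omega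
    obtain ⟨e0, e1⟩ := even_of eA1 c1
    obtain ⟨-, e3⟩ := even_of eC1 c3
    have e2 : 2 ∣ v 2 := by
      obtain ⟨k, hk⟩ : ∃ k, (a : ℤ) * c = 4 * k + 1 := ⟨(a : ℤ) * c / 4, by omega⟩
      have h0 : (a : ℤ) * c * v 2 ^ 2 = 4 * (k * v 2 ^ 2) + v 2 ^ 2 := by rw [hk]; ring
      rw [h0] at c2
      have hx := sqm (v 0)
      have hy := sqm (v 2)
      generalize v 0 ^ 2 = X at *
      generalize v 2 ^ 2 = Y at *
      generalize k * Y = K at *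
      omega
    obtain ⟨w0, hw0⟩ := e0
    obtain ⟨w1, hw1⟩ := e1
    obtain ⟨w2, hw2⟩ := e2
    obtain ⟨w3, hw3⟩ := e3
    rw [hw0, hw1, hw2, hw3] at c4 c6 c7
    rw [hw0, hw1, hw2, hw3]
    have i1 : (2 * w0) ^ 2 + (a : ℤ) * b * (2 * w1) ^ 2 - a * c * (2 * w2) ^ 2 -
        b * c * (2 * w3) ^ 2 = 4 * (w0 ^ 2 + a * b * w1 ^ 2 - a * c * w2 ^ 2 - b * c * w3 ^ 2) := by
      ring
    have i2 : (2 * w0) ^ 2 - (a : ℤ) * b * (2 * w1) ^ 2 - a * c * (2 * w2) ^ 2 +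
        b * c * (2 * w3) ^ 2 = 4 * (w0 ^ 2 - a * b * w1 ^ 2 - a * c * w2 ^ 2 + b * c * w3 ^ 2) := by
      ring
    have c7' : (256 : ℤ) ∣ (4 * (w0 ^ 2 - a * b * w1 ^ 2 - a * c * w2 ^ 2 + b * c * w3 ^ 2)) ^ 2 -
        4 * (b * c) * (4 * (w0 * w3 - a * w1 * w2)) ^ 2 := by
      have i3 : (4 * (w0 ^ 2 - a * b * w1 ^ 2 - a * c * w2 ^ 2 + b * c * w3 ^ 2)) ^ 2 -
        4 * (b * c) * (4 * (w0 * w3 - a * w1 * w2)) ^ 2 =
        ((2 * w0) ^ 2 + (a : ℤ) * b * (2 * w1) ^ 2 - a * c * (2 * w2) ^ 2 -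
        b * c * (2 * w3) ^ 2) ^ 2 - 4 * (a * b) * (2 * w0 * (2 * w1) - c * (2 * w2) * (2 * w3)) ^ 2 := by
        ring
      rw [i3]
      exact c7
    rw [i1] at c4 c7
    rw [i2] at c6
    have c7'' : (256 : ℤ) ∣ (4 * (w0 ^ 2 + a * b * w1 ^ 2 - a * c * w2 ^ 2 - b * c * w3 ^ 2)) ^ 2 -
        4 * (a * b) * (4 * (w0 * w1 - c * w2 * w3)) ^ 2 := by
      have i4 : 2 * w0 * (2 * w1) - c * (2 * w2) * (2 * w3) = 4 * (w0 * w1 - c * w2 * w3) := by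
        ring
      rw [i4] at c7
      exact c7
    have d1 := step eA1 c4 c7''
    have d2 := step eC1 c6 c7'
    obtain ⟨k, hk⟩ : ∃ k, (a : ℤ) * c = 4 * k + 1 := ⟨(a : ℤ) * c / 4, by omega⟩
    have s0 := sqm w0
    have s1 := sqm w1
    have s2 := sqm w2
    have s3 := sqm w3
    refine ⟨⟨w0, rfl⟩, ⟨w1, rfl⟩, ?_, ?_⟩
    · rcases eA with ⟨hA2, hC2⟩ | ⟨hA3, hC3⟩
      · obtain ⟨l, hl⟩ : ∃ l, (a : ℤ) * b = 4 * l + 2 := ⟨(a : ℤ) * b / 4, by omega⟩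
        obtain ⟨m, hm⟩ : ∃ m, (b : ℤ) * c = 4 * m + 2 := ⟨(b : ℤ) * c / 4, by omega⟩
        rw [hk, hl, hm] at d1
        have j : w0 ^ 2 + (4 * l + 2) * w1 ^ 2 - (4 * k + 1) * w2 ^ 2 - (4 * m + 2) * w3 ^ 2 =
          4 * (l * w1 ^ 2 - k * w2 ^ 2 - m * w3 ^ 2) + (w0 ^ 2 + 2 * w1 ^ 2 - w2 ^ 2 - 2 * w3 ^ 2) := by
          ring
        rw [j] at d1
        omega
      · obtain ⟨l, hl⟩ : ∃ l, (a : ℤ) * b = 4 * l + 3 := ⟨(a : ℤ) * b / 4, by omega⟩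
        obtain ⟨m, hm⟩ : ∃ m, (b : ℤ) * c = 4 * m + 3 := ⟨(b : ℤ) * c / 4, by omega⟩
        rw [hk, hl, hm] at d1 d2
        have j : w0 ^ 2 + (4 * l + 3) * w1 ^ 2 - (4 * k + 1) * w2 ^ 2 - (4 * m + 3) * w3 ^ 2 =
          4 * (l * w1 ^ 2 - k * w2 ^ 2 - m * w3 ^ 2) + (w0 ^ 2 + 3 * w1 ^ 2 - w2 ^ 2 - 3 * w3 ^ 2) := by
          ring
        have j' : w0 ^ 2 - (4 * l + 3) * w1 ^ 2 - (4 * k + 1) * w2 ^ 2 + (4 * m + 3) * w3 ^ 2 =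
          4 * (-l * w1 ^ 2 - k * w2 ^ 2 + m * w3 ^ 2) + (w0 ^ 2 - 3 * w1 ^ 2 - w2 ^ 2 + 3 * w3 ^ 2) := by
          ring
        rw [j] at d1
        rw [j'] at d2
        omega
    · rcases eA with ⟨hA2, hC2⟩ | ⟨hA3, hC3⟩
      · obtain ⟨l, hl⟩ : ∃ l, (a : ℤ) * b = 4 * l + 2 := ⟨(a : ℤ) * b / 4, by omega⟩
        obtain ⟨m, hm⟩ : ∃ m, (b : ℤ) * c = 4 * m + 2 := ⟨(b : ℤ) * c / 4, by omega⟩
        rw [hk, hl, hm] at d1
        have j : w0 ^ 2 + (4 * l + 2) * w1 ^ 2 - (4 * k + 1) * w2 ^ 2 - (4 * m + 2) * w3 ^ 2 =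
          4 * (l * w1 ^ 2 - k * w2 ^ 2 - m * w3 ^ 2) + (w0 ^ 2 + 2 * w1 ^ 2 - w2 ^ 2 - 2 * w3 ^ 2) := by
          ring
        rw [j] at d1
        omega
      · obtain ⟨l, hl⟩ : ∃ l, (a : ℤ) * b = 4 * l + 3 := ⟨(a : ℤ) * b / 4, by omega⟩
        obtain ⟨m, hm⟩ : ∃ m, (b : ℤ) * c = 4 * m + 3 := ⟨(b : ℤ) * c / 4, by omega⟩
        rw [hk, hl, hm] at d1 d2
        have j : w0 ^ 2 + (4 * l + 3) * w1 ^ 2 - (4 * k + 1) * w2 ^ 2 - (4 * m + 3) * w3 ^ 2 =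
          4 * (l * w1 ^ 2 - k * w2 ^ 2 - m * w3 ^ 2) + (w0 ^ 2 + 3 * w1 ^ 2 - w2 ^ 2 - 3 * w3 ^ 2) := by
          ring
        have j' : w0 ^ 2 - (4 * l + 3) * w1 ^ 2 - (4 * k + 1) * w2 ^ 2 + (4 * m + 3) * w3 ^ 2 =
          4 * (-l * w1 ^ 2 - k * w2 ^ 2 + m * w3 ^ 2) + (w0 ^ 2 - 3 * w1 ^ 2 - w2 ^ 2 + 3 * w3 ^ 2) := by
          ring
        rw [j] at d1
        rw [j'] at d2
        omega
  · have hw : IsIntegral ℤ ((1 + sq a c) / 2) := by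
      obtain ⟨k, hk⟩ : ∃ k, a * c = 4 * k + 1 := ⟨a * c / 4, by omega⟩
      have hk' : sq a c ^ 2 = 4 * k + 1 := by
        rw [sq_sq]
        exact_mod_cast hk
      refine ⟨Polynomial.X ^ 2 - Polynomial.X - Polynomial.C (k : ℤ), ?_, ?_⟩
      · monicity!
      · rw [Polynomial.eval₂_sub, Polynomial.eval₂_sub, Polynomial.eval₂_X_pow,
          Polynomial.eval₂_X, Polynomial.eval₂_C]
        simp only [eq_intCast, Int.cast_natCast]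
        linear_combination hk' / 4
    have he : val a b c 0 (vec 2 0 2 0) = (1 + sq a c) / 2 := by
      simp [val, ev, vec]
      ring
    show IsIntegral ℤ (val a b c 0 (vec 2 0 2 0))
    rw [he]
    exact hw
  · have hw : IsIntegral ℤ ((1 + sq a c) / 2) := by
      obtain ⟨k, hk⟩ : ∃ k, a * c = 4 * k + 1 := ⟨a * c / 4, by omega⟩
      have hk' : sq a c ^ 2 = 4 * k + 1 := by
        rw [sq_sq]
        exact_mod_cast hk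
      refine ⟨Polynomial.X ^ 2 - Polynomial.X - Polynomial.C (k : ℤ), ?_, ?_⟩
      · monicity!
      · rw [Polynomial.eval₂_sub, Polynomial.eval₂_sub, Polynomial.eval₂_X_pow,
          Polynomial.eval₂_X, Polynomial.eval₂_C]
        simp only [eq_intCast, Int.cast_natCast]
        linear_combination hk' / 4
    have he : val a b c 0 (vec 0 2 0 2) = (sq a b + sq b c) / 2 := by
      simp [val, ev, vec]
      ring
    show IsIntegral ℤ (val a b c 0 (vec 0 2 0 2))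
    rw [he]
    obtain ⟨l, hl⟩ : ∃ l, a + c = 4 * l + 2 := ⟨(a + c) / 4, by omega⟩
    have hl' : (a : ℝ) + c = 4 * l + 2 := by exact_mod_cast hl
    refine IsIntegral.of_pow (n := 2) (by norm_num) ?_
    have e2 : ((sq a b + sq b c) / 2) ^ 2 =
        algebraMap ℤ ℝ b * (algebraMap ℤ ℝ l + (1 + sq a c) / 2) := by
      have f1 := sq_sq a b
      have f2 := sq_sq b c
      have f3 := sq_mul a b c
      simp only [algebraMap_int_eq, eq_intCast, Int.cast_natCast]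
      linear_combination f1 / 4 + f2 / 4 + f3 / 2 + (b : ℝ) / 4 * hl'
    rw [e2]
    exact isIntegral_algebraMap.mul (isIntegral_algebraMap.add hw)

end P7
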