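import Pool.Agent.P7.Targets

/-!
# Integral elements, case `ab ≡ 1`, `ac ≢ 1` (target `T_LD`)
-/

open Filter Topology
open scoped NumberField

namespace P7

namespace LD

/-! ### Arithmetic modulo four -/

theorem z1 : ∀ a b c : ZMod 4, a * b = 1 → b * c = a * c := by decide

theorem z4 : ∀ a b : ZMod 4, a * b = 1 → a + b = 2 := by decide

theorem z2 : ∀ v0 v1 v2 v3 : ZMod 4, v0 ^ 2 - 1 * v1 ^ 2 = 0 → v0 ^ 2 - 2 * v2 ^ 2 = 0 →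
    v0 ^ 2 - 2 * v3 ^ 2 = 0 → 2 * v0 = 0 ∧ 2 * v1 = 0 ∧ 2 * v2 = 0 ∧ 2 * v3 = 0 := by decide

theorem z3 : ∀ v0 v1 v2 v3 : ZMod 4, v0 ^ 2 - 1 * v1 ^ 2 = 0 → v0 ^ 2 - 3 * v2 ^ 2 = 0 →
    v0 ^ 2 - 3 * v3 ^ 2 = 0 → 2 * v0 = 0 ∧ 2 * v1 = 0 ∧ 2 * v2 = 0 ∧ 2 * v3 = 0 := by decide

theorem p2 : ∀ t s : ZMod 4, t ^ 2 - 2 * s ^ 2 = 0 → 2 * t = 0 := by decide

theorem p3 : ∀ t s : ZMod 4, t ^ 2 - 3 * s ^ 2 = 0 → 2 * t = 0 := by decide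

theorem r2 : ∀ t w0 w1 w2 w3 : ZMod 4, w0 ^ 2 + 1 * w1 ^ 2 - 2 * w2 ^ 2 - 2 * w3 ^ 2 = 2 * t →
    w0 ^ 2 - 1 * w1 ^ 2 + 2 * w2 ^ 2 - 2 * w3 ^ 2 = 0 →
    2 * w0 = 2 * w1 ∧ 2 * w2 = 2 * w3 := by decide

theorem r3 : ∀ w0 w1 w2 w3 : ZMod 4, w0 ^ 2 - 1 * w1 ^ 2 + 3 * w2 ^ 2 - 3 * w3 ^ 2 = 0 →
    w0 ^ 2 - 1 * w1 ^ 2 - 3 * w2 ^ 2 + 3 * w3 ^ 2 = 0 →
    2 * w0 = 2 * w1 ∧ 2 * w2 = 2 * w3 := by decide

theorem cast4 {n : ℤ} : (4 : ℤ) ∣ n ↔ (n : ZMod 4) = 0 := by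
  rw [ZMod.intCast_zmod_eq_zero_iff_dvd]
  norm_num

theorem even_of {n : ℤ} (h : 2 * (n : ZMod 4) = 0) : (2 : ℤ) ∣ n := by
  have h2 : (4 : ℤ) ∣ 2 * n := by
    rw [cast4]
    push_cast
    exact h
  omega

/-- The congruences for the integral elements. -/
theorem cong (A B C b a v0 v1 v2 v3 : ℤ) (hA : (A : ZMod 4) = 1) (hBC : (B : ZMod 4) = (C : ZMod 4))
    (hB : (B : ZMod 4) = 2 ∨ (B : ZMod 4) = 3)
    (h1 : (4 : ℤ) ∣ v0 ^ 2 - A * v1 ^ 2) (h2 : (4 : ℤ) ∣ v0 ^ 2 - B * v2 ^ 2)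
    (h3 : (4 : ℤ) ∣ v0 ^ 2 - C * v3 ^ 2)
    (h4 : (8 : ℤ) ∣ v0 ^ 2 + A * v1 ^ 2 - B * v2 ^ 2 - C * v3 ^ 2)
    (h5 : (8 : ℤ) ∣ v0 ^ 2 - A * v1 ^ 2 + B * v2 ^ 2 - C * v3 ^ 2)
    (h6 : (8 : ℤ) ∣ v0 ^ 2 - A * v1 ^ 2 - B * v2 ^ 2 + C * v3 ^ 2)
    (h7 : (256 : ℤ) ∣ (v0 ^ 2 - A * v1 ^ 2 + B * v2 ^ 2 - C * v3 ^ 2) ^ 2 -
      4 * B * (v0 * v2 - b * v1 * v3) ^ 2)
    (h8 : (256 : ℤ) ∣ (v0 ^ 2 - A * v1 ^ 2 - B * v2 ^ 2 + C * v3 ^ 2) ^ 2 -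
      4 * C * (v0 * v3 - a * v1 * v2) ^ 2) :
    2 ∣ v0 ∧ 2 ∣ v2 ∧ 4 ∣ v0 - v1 ∧ 4 ∣ v2 - v3 := by
  have hall : 2 * (v0 : ZMod 4) = 0 ∧ 2 * (v1 : ZMod 4) = 0 ∧ 2 * (v2 : ZMod 4) = 0 ∧
      2 * (v3 : ZMod 4) = 0 := by
    rw [cast4] at h1 h2 h3
    push_cast at h1 h2 h3
    rw [hA] at h1
    rw [← hBC] at h3
    rcases hB with hB | hB
    · rw [hB] at h2 h3
      exact z2 _ _ _ _ h1 h2 h3
    · rw [hB] at h2 h3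
      exact z3 _ _ _ _ h1 h2 h3
  obtain ⟨w0, rfl⟩ := even_of hall.1
  obtain ⟨w1, rfl⟩ := even_of hall.2.1
  obtain ⟨w2, rfl⟩ := even_of hall.2.2.1
  obtain ⟨w3, rfl⟩ := even_of hall.2.2.2
  have f1 : ∃ T, w0 ^ 2 + A * w1 ^ 2 - B * w2 ^ 2 - C * w3 ^ 2 = 2 * T := by
    obtain ⟨k, hk⟩ := h4
    exact ⟨k, by linarith⟩
  have f2 : ∃ T, w0 ^ 2 - A * w1 ^ 2 + B * w2 ^ 2 - C * w3 ^ 2 = 2 * T := by
    obtain ⟨k, hk⟩ := h5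
    exact ⟨k, by linarith⟩
  have f3 : ∃ T, w0 ^ 2 - A * w1 ^ 2 - B * w2 ^ 2 + C * w3 ^ 2 = 2 * T := by
    obtain ⟨k, hk⟩ := h6
    exact ⟨k, by linarith⟩
  obtain ⟨T1, hT1⟩ := f1
  obtain ⟨T2, hT2⟩ := f2
  obtain ⟨T3, hT3⟩ := f3
  have g2 : (4 : ℤ) ∣ T2 ^ 2 - B * (w0 * w2 - b * w1 * w3) ^ 2 := by
    obtain ⟨k, hk⟩ := h7
    refine ⟨k, ?_⟩
    have e : (2 * w0) ^ 2 - A * (2 * w1) ^ 2 + B * (2 * w2) ^ 2 - C * (2 * w3) ^ 2 = 8 * T2 := by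
      linear_combination 4 * hT2
    rw [e] at hk
    linarith
  have g3 : (4 : ℤ) ∣ T3 ^ 2 - C * (w0 * w3 - a * w1 * w2) ^ 2 := by
    obtain ⟨k, hk⟩ := h8
    refine ⟨k, ?_⟩
    have e : (2 * w0) ^ 2 - A * (2 * w1) ^ 2 - B * (2 * w2) ^ 2 + C * (2 * w3) ^ 2 = 8 * T3 := by
      linear_combination 4 * hT3
    rw [e] at hk
    linarith
  have c1 : (w0 : ZMod 4) ^ 2 + 1 * (w1 : ZMod 4) ^ 2 - B * (w2 : ZMod 4) ^ 2 -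
      B * (w3 : ZMod 4) ^ 2 = 2 * (T1 : ZMod 4) := by
    have := congrArg (Int.cast : ℤ → ZMod 4) hT1
    push_cast at this
    rw [hA, ← hBC] at this
    exact this
  have c2 : (w0 : ZMod 4) ^ 2 - 1 * (w1 : ZMod 4) ^ 2 + B * (w2 : ZMod 4) ^ 2 -
      B * (w3 : ZMod 4) ^ 2 = 2 * (T2 : ZMod 4) := by
    have := congrArg (Int.cast : ℤ → ZMod 4) hT2
    push_cast at this
    rw [hA, ← hBC] at this
    exact this
  have c3 : (w0 : ZMod 4) ^ 2 - 1 * (w1 : ZMod 4) ^ 2 - B * (w2 : ZMod 4) ^ 2 +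
      B * (w3 : ZMod 4) ^ 2 = 2 * (T3 : ZMod 4) := by
    have := congrArg (Int.cast : ℤ → ZMod 4) hT3
    push_cast at this
    rw [hA, ← hBC] at this
    exact this
  rw [cast4] at g2 g3
  have g2' : (T2 : ZMod 4) ^ 2 - B * ((w0 * w2 - b * w1 * w3 : ℤ) : ZMod 4) ^ 2 = 0 := by
    push_cast at g2 ⊢
    exact g2
  have g3' : (T3 : ZMod 4) ^ 2 - B * ((w0 * w3 - a * w1 * w2 : ℤ) : ZMod 4) ^ 2 = 0 := by
    push_cast at g3 ⊢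
    rw [hBC]
    exact g3
  have hfin : 2 * (w0 : ZMod 4) = 2 * (w1 : ZMod 4) ∧ 2 * (w2 : ZMod 4) = 2 * (w3 : ZMod 4) := by
    rcases hB with hB | hB
    · rw [hB] at c1 c2 g2'
      rw [p2 _ _ g2'] at c2
      exact r2 _ _ _ _ _ c1 c2
    · rw [hB] at c2 c3 g2' g3'
      rw [p3 _ _ g2'] at c2
      rw [p3 _ _ g3'] at c3
      exact r3 _ _ _ _ c2 c3
  refine ⟨Dvd.intro _ rfl, Dvd.intro _ rfl, ?_, ?_⟩
  · rw [cast4]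
    push_cast
    rw [hfin.1, sub_self]
  · rw [cast4]
    push_cast
    rw [hfin.2, sub_self]

/-! ### Integrality of the generators -/

theorem integral_phi (n : ℕ) (hn : n % 4 = 1) : IsIntegral ℤ ((1 + √(n : ℝ)) / 2) := by
  obtain ⟨m, hm⟩ : ∃ m : ℤ, (n : ℤ) = 4 * m + 1 := ⟨n / 4, by omega⟩
  refine ⟨Polynomial.X ^ 2 - (Polynomial.X + Polynomial.C m),
    Polynomial.monic_X_pow_sub (by rw [Polynomial.degree_X_add_C]; norm_num), ?_⟩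
  have hs : √(n : ℝ) ^ 2 = 4 * m + 1 := by
    rw [Real.sq_sqrt (Nat.cast_nonneg n)]
    exact_mod_cast hm
  rw [Polynomial.eval₂_sub, Polynomial.eval₂_add, Polynomial.eval₂_pow, Polynomial.eval₂_X,
    Polynomial.eval₂_C, algebraMap_int_eq, eq_intCast]
  linear_combination hs / 4

theorem val0 (a b c : ℕ) (v : Fin 4 → ℤ) :
    val a b c 0 v = ((v 0 : ℝ) + v 1 * sq a b + v 2 * sq a c + v 3 * sq b c) / 4 := rfl

theorem mem1 (a b c : ℕ) (h : a * b % 4 = 1) : vec 2 2 0 0 ∈ Lam a b c := by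
  change IsIntegral ℤ (val a b c 0 (vec 2 2 0 0))
  have e : val a b c 0 (vec 2 2 0 0) = (1 + √((a * b : ℕ) : ℝ)) / 2 := by
    rw [val0]
    simp only [vec, sq, Matrix.cons_val]
    push_cast
    ring
  rw [e]
  exact integral_phi _ h

theorem mem2 (a b c : ℕ) (h : a * b % 4 = 1) : vec 0 0 2 2 ∈ Lam a b c := by
  change IsIntegral ℤ (val a b c 0 (vec 0 0 2 2))
  obtain ⟨k, hk⟩ : ∃ k : ℤ, (a : ℤ) + b = 4 * k + 2 := by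
    have h1 : ((a : ℤ) : ZMod 4) * ((b : ℤ) : ZMod 4) = 1 := by
      have : (((a * b : ℕ) : ZMod 4)) = ((1 : ℕ) : ZMod 4) := by
        rw [ZMod.natCast_eq_natCast_iff']
        simpa using h
      push_cast at this ⊢
      exact this
    have h2 := z4 _ _ h1
    have h3 : (4 : ℤ) ∣ (a : ℤ) + b - 2 := by
      rw [cast4]
      push_cast at h2 ⊢
      rw [h2, sub_self]
    exact ⟨((a : ℤ) + b - 2) / 4, by omega⟩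
  apply IsIntegral.of_pow (n := 2) (by norm_num)
  have hac : 0 ≤ ((a * c : ℕ) : ℝ) := Nat.cast_nonneg _
  have hbc : 0 ≤ ((b * c : ℕ) : ℝ) := Nat.cast_nonneg _
  have e : val a b c 0 (vec 0 0 2 2) ^ 2 = (c : ℝ) * ((k : ℝ) + (1 + √((a * b : ℕ) : ℝ)) / 2) := by
    rw [val0]
    simp only [vec, sq, Matrix.cons_val]
    have e1 : √((a * c : ℕ) : ℝ) ^ 2 = a * c := by rw [Real.sq_sqrt hac]; push_cast; ring
    have e2 : √((b * c : ℕ) : ℝ) ^ 2 = b * c := by rw [Real.sq_sqrt hbc]; push_cast; ring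
    have e3 : √((a * c : ℕ) : ℝ) * √((b * c : ℕ) : ℝ) = c * √((a * b : ℕ) : ℝ) := by
      rw [← Real.sqrt_mul hac]
      have : ((a * c : ℕ) : ℝ) * ((b * c : ℕ) : ℝ) = (c : ℝ) ^ 2 * ((a * b : ℕ) : ℝ) := by
        push_cast; ring
      rw [this, Real.sqrt_mul (by positivity), Real.sqrt_sq (Nat.cast_nonneg c)]
    have e4 : (a : ℝ) + b = 4 * k + 2 := by exact_mod_cast hk
    push_cast at e1 e2 e3 ⊢
    linear_combination (1 / 4) * e1 + (1 / 4) * e2 + (1 / 2) * e3 + (c / 4 : ℝ) * e4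
  rw [e]
  exact (isIntegral_algebraMap (R := ℤ) (A := ℝ) (x := (c : ℤ))).mul
    ((isIntegral_algebraMap (R := ℤ) (A := ℝ) (x := k)).add (integral_phi _ h))

end LD

open LD in
/-- Target LD. -/
theorem tLD (hCONG : T_CONG) : T_LD := by
  intro a b c hadm hab hac
  refine ⟨?_, mem1 a b c hab, mem2 a b c hab⟩
  intro v hv
  obtain ⟨h1, h2, h3, h4, h5, h6, h7⟩ := hCONG a b c hadm v hv
  have hA : (((a : ℤ) * b : ℤ) : ZMod 4) = 1 := by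
    have : (((a * b : ℕ) : ZMod 4)) = ((1 : ℕ) : ZMod 4) := by
      rw [ZMod.natCast_eq_natCast_iff']
      simpa using hab
    push_cast at this ⊢
    exact this
  have hBC : (((a : ℤ) * c : ℤ) : ZMod 4) = (((b : ℤ) * c : ℤ) : ZMod 4) := by
    push_cast at hA ⊢
    exact (z1 _ _ _ hA).symm
  have hB : (((a : ℤ) * c : ℤ) : ZMod 4) = 2 ∨ (((a : ℤ) * c : ℤ) : ZMod 4) = 3 := by
    have hlt : a * c % 4 < 4 := Nat.mod_lt _ (by norm_num)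
    have h0 : a * c % 4 ≠ 0 := by
      intro h0
      have hd : 2 * 2 ∣ a * b * c := by
        have h1 : 4 ∣ a * c := Nat.dvd_of_mod_eq_zero h0
        have h2 : a * b * c = a * c * b := by ring
        rw [h2]
        exact Dvd.dvd.mul_right h1 b
      have := hadm.1 2 hd
      rw [Nat.isUnit_iff] at this
      omega
    have hc : a * c % 4 = 2 ∨ a * c % 4 = 3 := by omega
    have hcast : (((a : ℤ) * c : ℤ) : ZMod 4) = ((a * c % 4 : ℕ) : ZMod 4) := by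
      rw [ZMod.natCast_mod]
      push_cast
      rfl
    rcases hc with hc | hc
    · left; rw [hcast, hc]; rfl
    · right; rw [hcast, hc]; rfl
  have e2 : (v 0 ^ 2 + (a : ℤ) * b * v 1 ^ 2 - a * c * v 2 ^ 2 - b * c * v 3 ^ 2) ^ 2
      - 4 * (a * b) * (v 0 * v 1 - c * v 2 * v 3) ^ 2 =
      (v 0 ^ 2 - (a : ℤ) * b * v 1 ^ 2 + a * c * v 2 ^ 2 - b * c * v 3 ^ 2) ^ 2 -
        4 * (a * c) * (v 0 * v 2 - b * v 1 * v 3) ^ 2 := by ring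
  have e3 : (v 0 ^ 2 + (a : ℤ) * b * v 1 ^ 2 - a * c * v 2 ^ 2 - b * c * v 3 ^ 2) ^ 2
      - 4 * (a * b) * (v 0 * v 1 - c * v 2 * v 3) ^ 2 =
      (v 0 ^ 2 - (a : ℤ) * b * v 1 ^ 2 - a * c * v 2 ^ 2 + b * c * v 3 ^ 2) ^ 2 -
        4 * (b * c) * (v 0 * v 3 - a * v 1 * v 2) ^ 2 := by ring
  exact cong (a * b) (a * c) (b * c) b a (v 0) (v 1) (v 2) (v 3) hA hBC hB h1 h2 h3 h4 h5 h6
    (by rw [← e2]; exact h7) (by rw [← e3]; exact h7)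

end P7
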