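import Pool.Agent.P7.Targets

/-!
# Target LE: the lattice of integral elements when `ab ≡ ac ≡ 1` modulo `4`
-/

open Polynomial

namespace P7

namespace LE

theorem int_root (x : ℝ) (k : ℤ) (h : x ^ 2 = x + k) : IsIntegral ℤ x := by
  refine ⟨X ^ 2 + (-X - C k), ?_, ?_⟩
  · apply monic_X_pow_add
    refine lt_of_le_of_lt (degree_sub_le _ _) ?_
    rw [degree_neg, degree_X]
    refine max_lt (by norm_num) (lt_of_le_of_lt degree_C_le (by norm_num))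
  · simp only [eval₂_add, eval₂_sub, eval₂_neg, eval₂_X_pow, eval₂_X, eval₂_C]
    rw [h]
    simp

theorem int_half (n : ℕ) (hn : n % 4 = 1) : IsIntegral ℤ ((1 + √(n : ℝ)) / 2) := by
  obtain ⟨k, hk⟩ : ∃ k : ℕ, n = 4 * k + 1 := ⟨n / 4, by omega⟩
  apply int_root _ (k : ℤ)
  have h1 : √(n : ℝ) ^ 2 = n := Real.sq_sqrt (Nat.cast_nonneg _)
  have h2 : (n : ℝ) = 4 * k + 1 := by exact_mod_cast hk
  have h3 : ((1 + √(n : ℝ)) / 2) ^ 2 = (1 + 2 * √(n : ℝ) + √(n : ℝ) ^ 2) / 4 := by ring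
  rw [h3, h1, h2]
  push_cast
  ring

theorem int_gen (n : ℕ) (hn : n % 4 = 1) (m k : ℤ) (hmk : 2 ∣ m - k) :
    IsIntegral ℤ (((m : ℝ) + k * √(n : ℝ)) / 2) := by
  obtain ⟨t, ht⟩ := hmk
  have h1 : ((m : ℝ) + k * √(n : ℝ)) / 2 = (t : ℝ) + (k : ℝ) * ((1 + √(n : ℝ)) / 2) := by
    have : (m : ℝ) - k = 2 * t := by exact_mod_cast ht
    linear_combination this / 2
  rw [h1]
  have hz : ∀ z : ℤ, IsIntegral ℤ (z : ℝ) := fun z => by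
    simpa using (isIntegral_algebraMap (R := ℤ) (A := ℝ) (x := z))
  exact (hz t).add ((hz k).mul (int_half n hn))

theorem sq_sq (a b : ℕ) : sq a b ^ 2 = a * b := by
  unfold sq
  rw [Real.sq_sqrt (Nat.cast_nonneg _)]
  push_cast; ring

theorem sq_mul (a b c : ℕ) : sq a b * sq a c = a * sq b c := by
  unfold sq
  rw [← Real.sqrt_mul (Nat.cast_nonneg _)]
  have h1 : (((a * b : ℕ) : ℝ) * ((a * c : ℕ) : ℝ)) = (a : ℝ) ^ 2 * ((b * c : ℕ) : ℝ) := by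
    push_cast; ring
  rw [h1, Real.sqrt_mul (by positivity), Real.sqrt_sq (Nat.cast_nonneg _)]

theorem sq_comm (a b : ℕ) : sq a b = sq b a := by
  unfold sq; rw [mul_comm]

theorem val0 (a b c : ℕ) (v : Fin 4 → ℤ) :
    val a b c 0 v = ((v 0 : ℝ) + v 1 * sq a b + v 2 * sq a c + v 3 * sq b c) / 4 := by
  simp [val, ev]

theorem val0' (a b c : ℕ) (x y z w : ℤ) :
    val a b c 0 (vec x y z w) = ((x : ℝ) + y * sq a b + z * sq a c + w * sq b c) / 4 := by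
  rw [val0]; simp [vec]

theorem cong_part (A B C c v0 v1 v2 v3 : ℤ) (hA : A % 4 = 1) (hB : B % 4 = 1) (hC : C % 4 = 1)
    (hc : c % 2 = 1)
    (h1 : (4 : ℤ) ∣ v0 ^ 2 - A * v1 ^ 2) (h2 : (4 : ℤ) ∣ v0 ^ 2 - B * v2 ^ 2)
    (h3 : (4 : ℤ) ∣ v0 ^ 2 - C * v3 ^ 2)
    (h4 : (8 : ℤ) ∣ v0 ^ 2 + A * v1 ^ 2 - B * v2 ^ 2 - C * v3 ^ 2)
    (h5 : (256 : ℤ) ∣ (v0 ^ 2 + A * v1 ^ 2 - B * v2 ^ 2 - C * v3 ^ 2) ^ 2
      - 4 * A * (v0 * v1 - c * v2 * v3) ^ 2) :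
    (2 ∣ v0 ∧ 2 ∣ v1 ∧ 2 ∣ v2 ∧ 2 ∣ v3 ∧ 4 ∣ v0 + v1 + v2 + v3) ∨
    (¬ 2 ∣ v0 ∧ ¬ 2 ∣ v1 ∧ ¬ 2 ∣ v2 ∧ ¬ 2 ∣ v3 ∧ 4 ∣ v2 * v3 - c * v0 * v1) := by
  have hpar : ∀ D v : ℤ, D % 4 = 1 → (4 : ℤ) ∣ v0 ^ 2 - D * v ^ 2 → v % 2 = v0 % 2 := by
    intro D v hD h
    obtain ⟨d, hd⟩ : ∃ d, D = 4 * d + 1 := ⟨D / 4, by omega⟩
    obtain ⟨k, hk⟩ := h
    rcases Int.even_or_odd' v0 with ⟨x, hx | hx⟩ <;> rcases Int.even_or_odd' v with ⟨y, hy | hy⟩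
    · omega
    · exfalso
      have : 4 * x ^ 2 - (4 * d + 1) * (4 * (y ^ 2 + y) + 1) = 4 * k := by
        rw [← hk, hd, hx, hy]; ring
      have h2 : 4 * (x ^ 2 - 4 * d * (y ^ 2 + y) - (y ^ 2 + y) - d - k) = 1 := by linarith
      omega
    · exfalso
      have : 4 * (x ^ 2 + x) + 1 - (4 * d + 1) * (4 * y ^ 2) = 4 * k := by
        rw [← hk, hd, hx, hy]; ring
      have h2 : 4 * (x ^ 2 + x - (4 * d + 1) * y ^ 2 - k) = -1 := by linarith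
      omega
    · omega
  have p1 := hpar A v1 hA h1
  have p2 := hpar B v2 hB h2
  have p3 := hpar C v3 hC h3
  obtain ⟨A', hA'⟩ : ∃ d, A = 4 * d + 1 := ⟨A / 4, by omega⟩
  obtain ⟨B', hB'⟩ : ∃ d, B = 4 * d + 1 := ⟨B / 4, by omega⟩
  obtain ⟨C', hC'⟩ : ∃ d, C = 4 * d + 1 := ⟨C / 4, by omega⟩
  rcases Int.even_or_odd' v0 with ⟨w0, hw0 | hw0⟩
  · left
    obtain ⟨w1, hw1⟩ : ∃ w, v1 = 2 * w := ⟨v1 / 2, by omega⟩
    obtain ⟨w2, hw2⟩ : ∃ w, v2 = 2 * w := ⟨v2 / 2, by omega⟩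
    obtain ⟨w3, hw3⟩ : ∃ w, v3 = 2 * w := ⟨v3 / 2, by omega⟩
    refine ⟨⟨w0, hw0⟩, ⟨w1, hw1⟩, ⟨w2, hw2⟩, ⟨w3, hw3⟩, ?_⟩
    obtain ⟨k, hk⟩ := h4
    have e : 4 * (w0 ^ 2 + (4 * A' + 1) * w1 ^ 2 - (4 * B' + 1) * w2 ^ 2 - (4 * C' + 1) * w3 ^ 2)
        = 8 * k := by
      rw [← hk, hA', hB', hC', hw0, hw1, hw2, hw3]; ring
    have sqp : ∀ w : ℤ, ∃ t, w ^ 2 = w + 2 * t := by
      intro w
      obtain ⟨t, ht⟩ := Int.even_mul_pred_self w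
      exact ⟨t, by linear_combination ht⟩
    obtain ⟨t0, ht0⟩ := sqp w0
    obtain ⟨t1, ht1⟩ := sqp w1
    obtain ⟨t2, ht2⟩ := sqp w2
    obtain ⟨t3, ht3⟩ := sqp w3
    have e' : w0 + w1 + w2 + w3 = 2 * (k - t0 - t1 + t2 + t3 - 2 * A' * w1 ^ 2 + 2 * B' * w2 ^ 2
        + 2 * C' * w3 ^ 2 + w2 + w3) := by
      linarith
    refine ⟨k - t0 - t1 + t2 + t3 - 2 * A' * w1 ^ 2 + 2 * B' * w2 ^ 2
        + 2 * C' * w3 ^ 2 + w2 + w3, ?_⟩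
    rw [hw0, hw1, hw2, hw3]
    linarith
  · right
    refine ⟨by omega, by omega, by omega, by omega, ?_⟩
    obtain ⟨k, hk⟩ := h4
    rw [hk] at h5
    have h6 : (16 : ℤ) ∣ A * (v0 * v1 - c * v2 * v3) ^ 2 := by
      obtain ⟨m, hm⟩ := h5
      exact ⟨k ^ 2 - 4 * m, by linarith⟩
    have hcop : IsCoprime (16 : ℤ) A := by
      have : IsCoprime (2 : ℤ) A := ⟨-(2 * A'), 1, by rw [hA']; ring⟩
      have h16 : (16 : ℤ) = 2 ^ 4 := by norm_num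
      rw [h16]
      exact this.pow_left
    have h7 : (16 : ℤ) ∣ (v0 * v1 - c * v2 * v3) ^ 2 := hcop.dvd_of_dvd_mul_left h6
    have h8 : (4 : ℤ) ∣ v0 * v1 - c * v2 * v3 := by
      have : (4 : ℤ) ^ 2 ∣ (v0 * v1 - c * v2 * v3) ^ 2 := by norm_num; exact h7
      exact (Int.pow_dvd_pow_iff (by norm_num)).1 this
    obtain ⟨s, hs⟩ := h8
    obtain ⟨d, hd⟩ : ∃ d, c = 2 * d + 1 := ⟨c / 2, by omega⟩
    refine ⟨-c * s - (d ^ 2 + d) * v2 * v3, ?_⟩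
    have : v2 * v3 - c * v0 * v1 = -c * (v0 * v1 - c * v2 * v3) + (1 - c ^ 2) * v2 * v3 := by ring
    rw [this, hs, hd]; ring

end LE

open P7.LE in
theorem tLE (hCONG : T_CONG) : T_LE := by
  intro a b c hadm hab hac
  have ha : a % 2 = 1 := by
    rcases Nat.even_or_odd' a with ⟨x, hx | hx⟩
    · rw [hx, mul_assoc] at hab; omega
    · omega
  have hb : b % 2 = 1 := by
    rcases Nat.even_or_odd' b with ⟨x, hx | hx⟩
    · rw [hx, mul_left_comm] at hab; omega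
    · omega
  have hc : c % 2 = 1 := by
    rcases Nat.even_or_odd' c with ⟨x, hx | hx⟩
    · rw [hx, mul_left_comm] at hac; omega
    · omega
  have hmod : (a % 4 = b % 4 ∧ a % 4 = c % 4) ∧ b * c % 4 = 1 := by
    rw [Nat.mul_mod] at hab hac ⊢
    have ha4 : a % 4 = 1 ∨ a % 4 = 3 := by omega
    have hb4 : b % 4 = 1 ∨ b % 4 = 3 := by omega
    have hc4 : c % 4 = 1 ∨ c % 4 = 3 := by omega
    rcases ha4 with h1 | h1 <;> rcases hb4 with h2 | h2 <;> rcases hc4 with h3 | h3 <;>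
      simp [h1, h2, h3] at hab hac ⊢
  obtain ⟨⟨hab4, hac4⟩, hbc⟩ := hmod
  refine ⟨?_, ?_, ?_, ?_⟩
  · intro v hv
    obtain ⟨h1, h2, h3, h4, -, -, h5⟩ := hCONG a b c hadm v hv
    apply cong_part (a * b) (a * c) (b * c) c (v 0) (v 1) (v 2) (v 3) (by exact_mod_cast hab)
      (by exact_mod_cast hac) (by exact_mod_cast hbc) (by omega) h1 h2 h3 h4
    have : (4 : ℤ) * (↑a * ↑b) * (v 0 * v 1 - ↑c * v 2 * v 3) ^ 2 =
      4 * (↑a * ↑b) * (v 0 * v 1 - ↑c * v 2 * v 3) ^ 2 := rfl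
    exact h5
  · show IsIntegral ℤ (val a b c 0 (vec 2 2 0 0))
    rw [val0']
    have h := int_half (a * b) hab
    have e : (((2 : ℤ) : ℝ) + (2 : ℤ) * sq a b + (0 : ℤ) * sq a c + (0 : ℤ) * sq b c) / 4 =
        (1 + √((a * b : ℕ) : ℝ)) / 2 := by
      unfold sq; push_cast; ring
    rw [e]; exact h
  · show IsIntegral ℤ (val a b c 0 (vec 2 0 2 0))
    rw [val0']
    have h := int_half (a * c) hac
    have e : (((2 : ℤ) : ℝ) + (0 : ℤ) * sq a b + (2 : ℤ) * sq a c + (0 : ℤ) * sq b c) / 4 =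
        (1 + √((a * c : ℕ) : ℝ)) / 2 := by
      unfold sq; push_cast; ring
    rw [e]; exact h
  · intro u hu
    show IsIntegral ℤ (val a b c 0 (vec (a * u) u 1 1))
    rw [val0']
    apply IsIntegral.of_pow (n := 2) (by norm_num)
    obtain ⟨m, hm⟩ : ∃ m : ℤ, (a : ℤ) + b = 2 * m ∧ m % 2 = 1 :=
      ⟨((a : ℤ) + b) / 2, by omega, by omega⟩
    obtain ⟨w, hw⟩ : ∃ w : ℤ, u = 2 * w + 1 := ⟨u / 2, by omega⟩
    obtain ⟨n, hn⟩ : ∃ n : ℤ, (c : ℤ) + u ^ 2 * a = 2 * n ∧ n % 2 = 1 := by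
      obtain ⟨m', hm', hm''⟩ : ∃ m : ℤ, (a : ℤ) + c = 2 * m ∧ m % 2 = 1 :=
        ⟨((a : ℤ) + c) / 2, by omega, by omega⟩
      refine ⟨m' + 2 * ((w ^ 2 + w) * a), ?_, ?_⟩
      · rw [hw]; linear_combination hm'
      · omega
    have h1 := int_gen (a * b) hab m 1 (by omega)
    have h2 := int_gen (a * c) hac n u (by omega)
    have h12 := h1.mul h2
    have hP : sq a b * sq a c = a * sq b c := sq_mul a b c
    have hQ : sq a b * sq b c = b * sq a c := by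
      rw [sq_comm a b, sq_mul]
    have hR : sq a c * sq b c = c * sq a b := by
      rw [sq_comm a c, sq_comm b c, sq_mul]
    have hP2 := sq_sq a b
    have hQ2 := sq_sq a c
    have hR2 := sq_sq b c
    have hmr : (a : ℝ) + b = 2 * m := by exact_mod_cast hm.1
    have hnr : (c : ℝ) + u ^ 2 * a = 2 * n := by exact_mod_cast hn.1
    have e : ((((a : ℤ) * u : ℤ) : ℝ) + u * sq a b + (1 : ℤ) * sq a c + (1 : ℤ) * sq b c) / 4 =
        ((a : ℝ) * u + u * sq a b + sq a c + sq b c) / 4 := by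
      push_cast; ring
    rw [e]
    have e2 : (((a : ℝ) * u + u * sq a b + sq a c + sq b c) / 4) ^ 2 =
        (((m : ℝ) + (1 : ℤ) * √((a * b : ℕ) : ℝ)) / 2) * (((n : ℝ) + u * √((a * c : ℕ) : ℝ)) / 2) := by
      have s1 : √((a * b : ℕ) : ℝ) = sq a b := rfl
      have s2 : √((a * c : ℕ) : ℝ) = sq a c := rfl
      rw [s1, s2]
      have hm1 : (m : ℝ) = (a + b) / 2 := by linarith
      have hn1 : (n : ℝ) = (c + u ^ 2 * a) / 2 := by linarith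
      rw [hm1, hn1]
      push_cast
      linear_combination (1 / 16 : ℝ) * ((u : ℝ) ^ 2 * hP2 + hQ2 + hR2 + (2 * u - 4 * u) * hP
        + 2 * u * hQ + 2 * hR)
    rw [e2]
    exact h12

end P7
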