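import Pool.Agent.P7.Targets

/-!
# P7-LI: linear independence of `1, √(ab), √(ac), √(bc)` over the rationals
-/

namespace P7

namespace LI

lemma irr {m n : ℕ} (hs : Squarefree (m * n)) (h1 : m * n ≠ 1) : Irrational (sq m n) := by
  rw [sq, irrational_sqrt_natCast_iff]
  rintro ⟨r, hr⟩
  have h2 : IsUnit r := hs r ⟨1, by rw [hr, mul_one]⟩
  rw [Nat.isUnit_iff] at h2
  rw [h2] at hr
  exact h1 hr

lemma sq_sq (m n : ℕ) : sq m n ^ 2 = (m : ℝ) * n := by
  rw [sq, Real.sq_sqrt (Nat.cast_nonneg _)]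
  push_cast
  rfl

lemma sq_mul (a b c : ℕ) : sq a b * sq a c = a * sq b c := by
  have h1 : (((a * b : ℕ) : ℝ)) * ((a * c : ℕ) : ℝ) = (a : ℝ) ^ 2 * ((b * c : ℕ) : ℝ) := by
    push_cast
    ring
  rw [sq, sq, sq, ← Real.sqrt_mul (Nat.cast_nonneg _), h1,
    Real.sqrt_mul (by positivity), Real.sqrt_sq (Nat.cast_nonneg _)]

lemma lin {P : ℝ} (hP : Irrational P) (u v : ℚ) (h : (u : ℝ) + v * P = 0) : u = 0 ∧ v = 0 := by
  by_cases hv : v = 0
  · subst hv
    rw [Rat.cast_zero, zero_mul, add_zero] at h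
    exact ⟨by exact_mod_cast h, rfl⟩
  · exfalso
    apply hP
    have hv' : (v : ℝ) ≠ 0 := by exact_mod_cast hv
    refine ⟨-u / v, ?_⟩
    push_cast
    rw [div_eq_iff hv']
    linarith

end LI

open LI in
/-- LI -/
theorem tLI : T_LI := by
  intro a b c hA x y z w h
  obtain ⟨hs, h1, h2, h3⟩ := hA
  have sab : Squarefree (a * b) := hs.squarefree_of_dvd ⟨c, rfl⟩
  have sac : Squarefree (a * c) := hs.squarefree_of_dvd ⟨b, by ring⟩
  have sbc : Squarefree (b * c) := hs.squarefree_of_dvd ⟨a, by ring⟩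
  have iP := irr sab h1
  have iQ := irr sac h2
  have iR := irr sbc h3
  have ha0 : a ≠ 0 := by
    rintro rfl
    rw [zero_mul, zero_mul] at hs
    exact not_squarefree_zero hs
  have ha : (a : ℝ) ≠ 0 := by exact_mod_cast ha0
  have eP := sq_sq a b
  have eQ := sq_sq a c
  have eR := sq_mul a b c
  set P : ℝ := sq a b with hP
  set Q : ℝ := sq a c with hQ
  set R : ℝ := sq b c with hR
  -- multiply by a
  have k1 : Q * (a * z + w * P) = -a * (x + y * P) := by
    linear_combination (w : ℝ) * eR + (a : ℝ) * h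
  by_cases hz : ((a * z : ℚ) : ℝ) + w * P = 0
  · obtain ⟨e1, e2⟩ := lin iP (a * z) w hz
    have hz0 : z = 0 := by
      rcases mul_eq_zero.1 e1 with h4 | h4
      · exact absurd (by exact_mod_cast h4) ha0
      · exact h4
    subst e2
    rw [hz0] at h ⊢
    have h5 : (x : ℝ) + y * P = 0 := by
      rw [Rat.cast_zero] at h
      linarith
    obtain ⟨e3, e4⟩ := lin iP x y h5
    exact ⟨e3, e4, rfl, rfl⟩
  · exfalso
    -- the norm is not zero
    have hz' : ((a * z : ℚ) : ℝ) - w * P ≠ 0 := by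
      intro h4
      have h5 : ((a * z : ℚ) : ℝ) + (-w : ℚ) * P = 0 := by
        push_cast at h4 ⊢
        linarith
      obtain ⟨e1, e2⟩ := lin iP (a * z) (-w) h5
      apply hz
      rw [e1, neg_eq_zero.1 e2]
      simp
    set n : ℚ := (a * z) ^ 2 - w ^ 2 * (a * b) with hn
    have hn1 : (n : ℝ) = (((a * z : ℚ) : ℝ) + w * P) * (((a * z : ℚ) : ℝ) - w * P) := by
      rw [hn]
      push_cast
      linear_combination (w : ℝ) ^ 2 * eP
    have hn0 : (n : ℝ) ≠ 0 := by
      rw [hn1]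
      exact mul_ne_zero hz hz'
    obtain ⟨s, t, hst⟩ : ∃ s t : ℚ, Q = s + t * P := by
      refine ⟨-a * (x * (a * z) - y * w * (a * b)) / n, -a * (y * (a * z) - x * w) / n, ?_⟩
      push_cast
      field_simp
      have k2 : Q * n = -a * (x + y * P) * (((a * z : ℚ) : ℝ) - w * P) := by
        rw [hn1, ← k1]
        push_cast
        ring
      rw [k2]
      push_cast
      linear_combination (a * y * w : ℝ) * eP
    have k3 : ((s ^ 2 + t ^ 2 * (a * b) - a * c : ℚ) : ℝ) + ((2 * s * t : ℚ) : ℝ) * P = 0 := by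
      rw [hst] at eQ
      push_cast
      linear_combination eQ - (t : ℝ) ^ 2 * eP
    obtain ⟨-, e2⟩ := lin iP _ _ k3
    have e3 : s * t = 0 := by linarith
    rcases mul_eq_zero.1 e3 with h4 | h4
    · -- s = 0
      apply iR
      refine ⟨t * b, ?_⟩
      rw [h4, Rat.cast_zero, zero_add] at hst
      have h5 : (a : ℝ) * (t * b) = a * R := by
        rw [← eR, hst]
        linear_combination -(t : ℝ) * eP
      push_cast
      exact mul_left_cancel₀ ha h5
    · apply iQ
      refine ⟨s, ?_⟩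
      rw [hst, h4]
      simp

end P7
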