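import Pool.Agent.P7.Targets

/-!
# P7-MBND: preimages of bounded vectors under matrices converging to an invertible one
-/

open Filter Topology

namespace P7

theorem tMBND : T_MBND := by
  intro k F A A0 hA hdet C
  have h1 : Tendsto (fun n => (A n).det) F (𝓝 A0.det) :=
    ((continuous_id.matrix_det (A := fun M : Matrix (Fin k) (Fin k) ℝ => M)).tendsto A0).comp hA
  have h2 : Tendsto (fun n => (A n).adjugate) F (𝓝 A0.adjugate) :=
    ((continuous_id.matrix_adjugate (A := fun M : Matrix (Fin k) (Fin k) ℝ => M)).tendsto A0).comp hA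
  have hd0 : 0 < |A0.det| / 2 := by
    have := abs_pos.mpr hdet
    linarith
  have e1 : ∀ᶠ n in F, |A0.det| / 2 < |(A n).det| := by
    have h3 : Tendsto (fun n => |(A n).det|) F (𝓝 |A0.det|) := h1.abs
    exact h3.eventually (lt_mem_nhds (by linarith))
  set E : ℝ := ∑ i, ∑ j, |A0.adjugate i j| + 1 with hE
  have hsum : ∀ i j, |A0.adjugate i j| ≤ ∑ i, ∑ j, |A0.adjugate i j| := by
    intro i j
    refine le_trans ?_ (Finset.single_le_sum (f := fun i => ∑ j, |A0.adjugate i j|)
      (fun i _ => Finset.sum_nonneg fun j _ => abs_nonneg _) (Finset.mem_univ i))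
    exact Finset.single_le_sum (f := fun j => |A0.adjugate i j|) (fun j _ => abs_nonneg _)
      (Finset.mem_univ j)
  have hE0 : 0 < E := by
    have : 0 ≤ ∑ i, ∑ j, |A0.adjugate i j| :=
      Finset.sum_nonneg fun i _ => Finset.sum_nonneg fun j _ => abs_nonneg _
    rw [hE]; linarith
  have e2 : ∀ᶠ n in F, ∀ i j, |(A n).adjugate i j| ≤ E := by
    rw [eventually_all]
    intro i
    rw [eventually_all]
    intro j
    have h3 : Tendsto (fun n => |(A n).adjugate i j|) F (𝓝 |A0.adjugate i j|) := by
      have h4 : Tendsto (fun n => (A n).adjugate i j) F (𝓝 (A0.adjugate i j)) := by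
        have hc : Continuous fun M : Matrix (Fin k) (Fin k) ℝ => M i j := by
          exact (continuous_apply j).comp (continuous_apply i)
        exact (hc.tendsto _).comp h2
      exact h4.abs
    have h6 : |A0.adjugate i j| < |A0.adjugate i j| + 1 := by linarith
    filter_upwards [h3.eventually (gt_mem_nhds h6)] with n hn
    have := hsum i j
    rw [hE]; linarith
  refine ⟨k * (E * |C|) / (|A0.det| / 2), ?_⟩
  filter_upwards [e1, e2] with n hn1 hn2 w hw μ
  have h3 : (A n).adjugate.mulVec ((A n).mulVec w) = (A n).det • w := by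
    rw [Matrix.mulVec_mulVec, Matrix.adjugate_mul, Matrix.smul_mulVec, Matrix.one_mulVec]
  have h4 : (A n).det * w μ = ∑ j, (A n).adjugate μ j * (A n).mulVec w j := by
    have := congrFun h3 μ
    rw [Pi.smul_apply, smul_eq_mul] at this
    rw [← this]
    rfl
  have h5 : |(A n).det * w μ| ≤ k * (E * |C|) := by
    rw [h4]
    calc |∑ j, (A n).adjugate μ j * (A n).mulVec w j|
        ≤ ∑ j, |(A n).adjugate μ j * (A n).mulVec w j| := Finset.abs_sum_le_sum_abs _ _
      _ ≤ ∑ _j : Fin k, E * |C| := by
          apply Finset.sum_le_sum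
          intro j _
          rw [abs_mul]
          apply mul_le_mul (hn2 μ j) ((hw j).trans (le_abs_self C)) (abs_nonneg _) hE0.le
      _ = k * (E * |C|) := by simp
  rw [le_div_iff₀ hd0]
  rw [abs_mul] at h5
  calc |w μ| * (|A0.det| / 2) ≤ |w μ| * |(A n).det| := by gcongr
    _ = |(A n).det| * |w μ| := mul_comm _ _
    _ ≤ _ := h5

end P7
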