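import Pool.Agent.P7.Targets

open Filter Topology

namespace P7

namespace ML

lemma ultra_const {α : Type*} (U : Ultrafilter ℕ) (f : ℕ → α) (S : Set α) (hS : S.Finite)
    (h : ∀ᶠ n in (U : Filter ℕ), f n ∈ S) : ∃ x, ∀ᶠ n in (U : Filter ℕ), f n = x := by
  have h2 : ∀ᶠ n in (U : Filter ℕ), ∃ a ∈ S, f n = a := by
    filter_upwards [h] with n hn
    exact ⟨f n, hn, rfl⟩
  obtain ⟨a, _, ha⟩ := (Ultrafilter.eventually_exists_mem_iff hS).1 h2
  exact ⟨a, ha⟩

lemma ultra_lim (U : Ultrafilter ℕ) (f : ℕ → ℝ) (C : ℝ) (h : ∀ n, |f n| ≤ C) :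
    ∃ x, Tendsto f U (𝓝 x) := by
  have hc : IsCompact (Set.Icc (-C) C) := isCompact_Icc
  have hle : ((U.map f : Ultrafilter ℝ) : Filter ℝ) ≤ 𝓟 (Set.Icc (-C) C) := by
    rw [le_principal_iff]
    refine Filter.mem_of_superset (Filter.univ_mem' (f := (U : Filter ℕ)) (s := f ⁻¹' Set.Icc (-C) C) ?_) ?_
    · intro n
      exact abs_le.1 (h n)
    · exact fun x hx => hx
  obtain ⟨x, _, hx⟩ := hc.ultrafilter_le_nhds (U.map f) hle
  exact ⟨x, hx⟩

/-- scale factors, extended by `1` -/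
noncomputable def sig (s : Fin 3 → ℝ) : Fin 4 → ℝ := Fin.snoc s 1

lemma finite_mats (N : ℤ) : {W : Fin 6 → Fin 4 → ℤ | ∀ ν μ, |W ν μ| ≤ N}.Finite := by
  refine (Set.finite_Icc (fun _ _ => -N : Fin 6 → Fin 4 → ℤ) (fun _ _ => N)).subset ?_
  intro W hW
  refine ⟨fun ν μ => ?_, fun ν μ => ?_⟩
  · exact (abs_le.1 (hW ν μ)).1
  · exact (abs_le.1 (hW ν μ)).2

lemma finite_mats3 (N : ℤ) : {W : Fin 6 → Fin 3 → ℤ | ∀ ν μ, |W ν μ| ≤ N}.Finite := by
  refine (Set.finite_Icc (fun _ _ => -N : Fin 6 → Fin 3 → ℤ) (fun _ _ => N)).subset ?_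
  intro W hW
  refine ⟨fun ν μ => ?_, fun ν μ => ?_⟩
  · exact (abs_le.1 (hW ν μ)).1
  · exact (abs_le.1 (hW ν μ)).2

end ML

theorem tML (hF0 : T_F0) (hMB : T_MBND) (hML : T_MLIM) : T_ML := by
  intro R s C c0 hc0 hspos hs hb hb3 hdet
  by_contra hcon
  push Not at hcon
  choose W hW using hcon
  set U : Ultrafilter ℕ := hyperfilter ℕ with hU
  have hUat : (U : Filter ℕ) ≤ atTop := Nat.hyperfilter_le_atTop
  -- scale factors
  have hsig_cast : ∀ n (j : Fin 3), ML.sig (s n) j.castSucc = s n j := by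
    intro n j; simp [ML.sig]
  have hsig3 : ∀ n, ML.sig (s n) 3 = 1 := by
    intro n
    exact Fin.snoc_last (α := fun _ => ℝ) 1 (s n)
  have hsigpos : ∀ n j, 0 < ML.sig (s n) j := by
    intro n j
    refine Fin.lastCases ?_ (fun j => ?_) j
    · have := hsig3 n
      have h3 : (3 : Fin 4) = Fin.last 3 := rfl
      rw [h3] at this; rw [this]; norm_num
    · rw [hsig_cast]; exact hspos n j
  have hbb : ∀ n j μ, |R n j μ| ≤ C * ML.sig (s n) j := by
    intro n j μ
    refine Fin.lastCases ?_ (fun j => ?_) j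
    · have := hsig3 n
      have h3 : (3 : Fin 4) = Fin.last 3 := rfl
      rw [h3] at this; rw [this, mul_one]
      exact hb3 n μ
    · rw [hsig_cast]; exact hb n j μ
  have hVb : ∀ n j μ, |R n j μ / ML.sig (s n) j| ≤ C := by
    intro n j μ
    rw [abs_div, abs_of_pos (hsigpos n j), div_le_iff₀ (hsigpos n j)]
    exact hbb n j μ
  have hC0 : 0 ≤ C := le_trans (abs_nonneg _) (hb3 0 0)
  -- limits of the normalised entries
  have hlim : ∀ j μ, ∃ x, Tendsto (fun n => R n j μ / ML.sig (s n) j) U (𝓝 x) := by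
    intro j μ
    exact ML.ultra_lim U _ C (fun n => hVb n j μ)
  choose L hL using hlim
  -- inverse scale factors tend to 0 for j < 3
  have hinv : ∀ j : Fin 3, Tendsto (fun n => (1 : ℝ) / s n j) U (𝓝 0) := by
    intro j
    have := (hs j).mono_left hUat
    exact (tendsto_const_nhds (x := (1 : ℝ))).div_atTop this
  -- the normalised matrices
  set A : ℕ → Matrix (Fin 4) (Fin 4) ℝ := fun n => Matrix.of fun j μ => (ML.sig (s n) j)⁻¹ * mat4 (R n) j μ with hA
  set A0 : Matrix (Fin 4) (Fin 4) ℝ := Matrix.of fun j => Fin.cons (if j = 3 then 1 else 0) (L j) with hA0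
  have hAt : Tendsto A U (𝓝 A0) := by
    have hkey : Tendsto (fun n => (fun j μ => A n j μ : Fin 4 → Fin 4 → ℝ)) U
        (𝓝 (fun j μ => A0 j μ : Fin 4 → Fin 4 → ℝ)) := by
      refine tendsto_pi_nhds.2 (fun j => tendsto_pi_nhds.2 (fun μ => ?_))
      refine Fin.cases ?_ (fun μ => ?_) μ
      · -- column 0
        simp only [hA, hA0, Matrix.of_apply, mat4, Fin.cons_zero, mul_one]
        refine Fin.lastCases ?_ (fun j => ?_) j
        · have h3 : (Fin.last 3 : Fin 4) = 3 := rfl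
          rw [h3]
          simp only [hsig3, if_true, inv_one]
          exact tendsto_const_nhds
        · have hj : (j.castSucc : Fin 4) ≠ 3 := by
            intro h
            have := congrArg Fin.val h
            have h2 := j.2
            simp at this
            omega
          simp only [hsig_cast, hj, if_false]
          simpa using hinv j
      · simp only [hA, hA0, Matrix.of_apply, mat4, Fin.cons_succ]
        have := hL j μ
        refine this.congr (fun n => ?_)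
        rw [div_eq_inv_mul]
    exact hkey
  have hdetA : ∀ n, c0 ≤ |(A n).det| := by
    intro n
    have h1 : (A n).det = (∏ j, (ML.sig (s n) j)⁻¹) * (mat4 (R n)).det := by
      rw [hA]
      exact Matrix.det_mul_column _ _
    have h2 : ∏ j, (ML.sig (s n) j)⁻¹ = (s n 0 * s n 1 * s n 2)⁻¹ := by
      rw [Fin.prod_univ_four]
      have e0 : ML.sig (s n) 0 = s n 0 := hsig_cast n 0
      have e1 : ML.sig (s n) 1 = s n 1 := hsig_cast n 1
      have e2 : ML.sig (s n) 2 = s n 2 := hsig_cast n 2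
      rw [e0, e1, e2, hsig3]
      field_simp
    rw [h1, h2, abs_mul, abs_inv]
    have hp : 0 < s n 0 * s n 1 * s n 2 := mul_pos (mul_pos (hspos n 0) (hspos n 1)) (hspos n 2)
    rw [abs_of_pos hp, inv_mul_eq_div, le_div_iff₀ hp]
    exact hdet n
  have hdetR : ∀ n, (mat4 (R n)).det ≠ 0 := by
    intro n h0
    have h1 := hdet n
    rw [h0, abs_zero] at h1
    have hp : 0 < s n 0 * s n 1 * s n 2 := mul_pos (mul_pos (hspos n 0) (hspos n 1)) (hspos n 2)
    nlinarith [mul_pos hc0 hp]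
  have hdetA0 : A0.det ≠ 0 := by
    have hdt : Tendsto (fun n => |(A n).det|) U (𝓝 |A0.det|) := by
      have hcd : Continuous (fun M : Matrix (Fin 4) (Fin 4) ℝ => |M.det|) := by fun_prop
      exact (hcd.tendsto A0).comp hAt
    have : c0 ≤ |A0.det| := ge_of_tendsto' hdt hdetA
    intro h0
    rw [h0, abs_zero] at this
    linarith
  -- boundedness of W
  have hWconst : ∀ i : Fin 3 → ℤ, ∃ X, ∀ᶠ n in (U : Filter ℕ), W n i = X := by
    intro i
    set K : ℝ := 7 + ∑ μ, (C + |(i μ : ℝ)|) ^ 2 with hK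
    have hKpos : 0 ≤ K := by positivity
    obtain ⟨D, hD⟩ := hMB 4 U A A0 hAt hdetA0 (√K)
    have hs1 : ∀ᶠ n in (U : Filter ℕ), ∀ j, 1 ≤ ML.sig (s n) j := by
      have h3 : ∀ j : Fin 3, ∀ᶠ n in (U : Filter ℕ), 1 ≤ s n j := fun j =>
        ((hs j).mono_left hUat).eventually (eventually_ge_atTop 1)
      filter_upwards [h3 0, h3 1, h3 2] with n h0 h1 h2
      intro j
      refine Fin.lastCases ?_ (fun j => ?_) j
      · have h3 : (Fin.last 3 : Fin 4) = 3 := rfl
        rw [h3, hsig3]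
      · rw [hsig_cast]
        fin_cases j
        · exact h0
        · exact h1
        · exact h2
    obtain ⟨N, hN⟩ := exists_int_gt D
    refine ML.ultra_const U (fun n => W n i) _ (ML.finite_mats N) ?_
    filter_upwards [hD, hs1] with n hDn hsn
    intro ν μ
    have key : ∀ μ, |((W n i ν μ : ℤ) : ℝ)| ≤ D := by
      apply hDn (fun μ => ((W n i ν μ : ℤ) : ℝ))
      intro j
      have e1 : (A n).mulVec (fun μ => ((W n i ν μ : ℤ) : ℝ)) j =
          ((W n i ν 0 : ℝ) + ∑ μ : Fin 3, W n i ν μ.succ * R n j μ) / ML.sig (s n) j := by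
        rw [Matrix.mulVec, dotProduct, Fin.sum_univ_succ]
        simp only [hA, Matrix.of_apply, mat4, Fin.cons_zero, Fin.cons_succ]
        rw [add_div, Finset.sum_div]
        congr 1
        · ring
        · refine Finset.sum_congr rfl (fun μ _ => ?_)
          ring
      have e2 := hW n i j
      have e3 : ((W n i ν 0 : ℝ) + ∑ μ : Fin 3, W n i ν μ.succ * R n j μ) ^ 2 ≤
          7 + ∑ μ, (R n j μ + i μ) ^ 2 := by
        rw [← e2]
        exact Finset.single_le_sum
          (f := fun ν => ((W n i ν 0 : ℝ) + ∑ μ : Fin 3, W n i ν μ.succ * R n j μ) ^ 2)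
          (fun ν _ => sq_nonneg _) (Finset.mem_univ ν)
      have hsg := hsigpos n j
      have hsg1 := hsn j
      have e4 : 7 + ∑ μ, (R n j μ + i μ) ^ 2 ≤ K * ML.sig (s n) j ^ 2 := by
        rw [hK, add_mul, Finset.sum_mul]
        refine add_le_add ?_ (Finset.sum_le_sum (fun μ _ => ?_))
        · nlinarith
        · rw [← mul_pow]
          refine sq_le_sq' ?_ ?_
          · have h1 := hbb n j μ
            have h2 := neg_abs_le (R n j μ)
            have h3 := neg_abs_le (i μ : ℝ)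
            have h4 := abs_nonneg (i μ : ℝ)
            nlinarith
          · have h1 := hbb n j μ
            have h2 := le_abs_self (R n j μ)
            have h3 := le_abs_self (i μ : ℝ)
            have h4 := abs_nonneg (i μ : ℝ)
            nlinarith
      rw [e1]
      apply Real.abs_le_sqrt
      rw [div_pow, div_le_iff₀ (by positivity)]
      exact le_trans e3 e4
    have h5 : |((W n i ν μ : ℤ) : ℝ)| < N := lt_of_le_of_lt (key μ) hN
    have h6 : (|W n i ν μ| : ℝ) < N := h5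
    exact_mod_cast h6.le
  choose X hX using hWconst
  have hXeq : ∀ i, ∀ᶠ n in (U : Filter ℕ), ∀ j,
      ∑ ν, ((X i ν 0 : ℝ) + ∑ μ : Fin 3, X i ν μ.succ * R n j μ) ^ 2 = 7 + ∑ μ, (R n j μ + i μ) ^ 2 := by
    intro i
    filter_upwards [hX i] with n hn
    intro j
    have := hW n i j
    rw [hn] at this
    exact this
  -- integer data
  set d0 : (Fin 3 → ℤ) → ℤ := fun i => ∑ ν, X i ν 0 ^ 2 - 7 - ∑ μ, i μ ^ 2 with hd0
  set d1 : (Fin 3 → ℤ) → Fin 3 → ℤ := fun i μ => ∑ ν, X i ν 0 * X i ν μ.succ - i μ with hd1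
  set d2 : (Fin 3 → ℤ) → Fin 3 → Fin 3 → ℤ := fun i μ lam =>
    ∑ ν, X i ν μ.succ * X i ν lam.succ - (if μ = lam then 1 else 0) with hd2
  -- quadratic identity
  have hquad : ∀ (i : Fin 3 → ℤ) (t : ℝ) (c : Fin 3 → ℝ),
      ∑ ν, ((X i ν 0 : ℝ) * t + ∑ μ : Fin 3, X i ν μ.succ * c μ) ^ 2 =
        (7 + ∑ μ, (i μ : ℝ) ^ 2 + d0 i) * t ^ 2 + 2 * t * ∑ μ, (i μ + d1 i μ) * c μ + ∑ μ, c μ ^ 2 +
          ∑ μ, ∑ lam, (d2 i μ lam : ℝ) * c μ * c lam := by
    intro i t c
    simp only [hd0, hd1, hd2, Fin.sum_univ_three, Fin.sum_univ_six]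
    push_cast
    simp
    ring
  have hE : ∀ i, ∀ᶠ n in (U : Filter ℕ), ∀ j,
      (d0 i : ℝ) + 2 * ∑ μ, (d1 i μ : ℝ) * R n j μ + ∑ μ, ∑ lam, (d2 i μ lam : ℝ) * R n j μ * R n j lam = 0 := by
    intro i
    filter_upwards [hXeq i] with n hn
    intro j
    have h1 := hn j
    have h2 := hquad i 1 (R n j)
    simp only [mul_one] at h2
    rw [h2] at h1
    simp only [Fin.sum_univ_three] at h1 ⊢
    linarith
  -- limit equations
  have hlimeq : ∀ i (j : Fin 3), ∑ μ, ∑ lam, (d2 i μ lam : ℝ) * L j.castSucc μ * L j.castSucc lam = 0 := by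
    intro i j
    have ht : Tendsto (fun n => (d0 i : ℝ) * (1 / s n j) ^ 2 +
        2 * (∑ μ, (d1 i μ : ℝ) * (R n j.castSucc μ / ML.sig (s n) j.castSucc)) * (1 / s n j) +
        ∑ μ, ∑ lam, (d2 i μ lam : ℝ) * (R n j.castSucc μ / ML.sig (s n) j.castSucc) *
          (R n j.castSucc lam / ML.sig (s n) j.castSucc)) U
        (𝓝 ((d0 i : ℝ) * 0 ^ 2 + 2 * (∑ μ, (d1 i μ : ℝ) * L j.castSucc μ) * 0 +
          ∑ μ, ∑ lam, (d2 i μ lam : ℝ) * L j.castSucc μ * L j.castSucc lam)) := by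
      refine Tendsto.add (Tendsto.add ?_ ?_) ?_
      · exact ((hinv j).pow 2).const_mul _
      · refine Tendsto.mul (Tendsto.const_mul _ ?_) (hinv j)
        exact tendsto_finsetSum _ (fun μ _ => (hL j.castSucc μ).const_mul _)
      · refine tendsto_finsetSum _ (fun μ _ => tendsto_finsetSum _ (fun lam _ => ?_))
        exact ((hL j.castSucc μ).const_mul _).mul (hL j.castSucc lam)
    have hz : ∀ᶠ n in (U : Filter ℕ), (d0 i : ℝ) * (1 / s n j) ^ 2 +
        2 * (∑ μ, (d1 i μ : ℝ) * (R n j.castSucc μ / ML.sig (s n) j.castSucc)) * (1 / s n j) +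
        ∑ μ, ∑ lam, (d2 i μ lam : ℝ) * (R n j.castSucc μ / ML.sig (s n) j.castSucc) *
          (R n j.castSucc lam / ML.sig (s n) j.castSucc) = 0 := by
      filter_upwards [hE i] with n hn
      have h1 := hn j.castSucc
      have h2 := hspos n j
      simp only [hsig_cast, Fin.sum_univ_three] at h1 ⊢
      have h3 : s n j ≠ 0 := h2.ne'
      field_simp
      linear_combination h1
    have hz2 : Tendsto (fun _ : ℕ => (0 : ℝ)) U (𝓝 ((d0 i : ℝ) * 0 ^ 2 + 2 * (∑ μ, (d1 i μ : ℝ) * L j.castSucc μ) * 0 +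
          ∑ μ, ∑ lam, (d2 i μ lam : ℝ) * L j.castSucc μ * L j.castSucc lam)) :=
      ht.congr' hz
    have := tendsto_nhds_unique hz2 tendsto_const_nhds
    linarith
  -- A0 is injective
  have hinj : ∀ c : Fin 3 → ℝ, (∀ j : Fin 3, ∑ μ, L j.castSucc μ * c μ = 0) → c = 0 := by
    intro c hc
    have h1 : A0.mulVec (Fin.cons (-∑ μ, L 3 μ * c μ) c) = 0 := by
      funext j
      rw [Matrix.mulVec, dotProduct, Fin.sum_univ_succ]
      simp only [hA0, Matrix.of_apply, Fin.cons_zero, Fin.cons_succ, Pi.zero_apply]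
      refine Fin.lastCases ?_ (fun j => ?_) j
      · have h3 : (Fin.last 3 : Fin 4) = 3 := rfl
        rw [h3]; simp
      · have hj : (j.castSucc : Fin 4) ≠ 3 := by
          intro h
          have := congrArg Fin.val h
          have h2 := j.2
          simp at this
          omega
        simp only [hj, if_false, zero_mul, zero_add]
        exact hc j
    have h2 := Matrix.eq_zero_of_mulVec_eq_zero hdetA0 h1
    funext μ
    have := congrFun h2 μ.succ
    simpa using this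
  -- uniform bound for the columns 1,2,3
  have hD2 : ∃ N : ℤ, ∀ i ν (μ : Fin 3), |X i ν μ.succ| ≤ N := by
    set K : ℝ := ∑ j : Fin 3, ∑ μ, L j.castSucc μ ^ 2 with hK
    obtain ⟨D, hD⟩ := hMB 4 U (fun _ => A0) A0 tendsto_const_nhds hdetA0 (√K)
    obtain ⟨n, hn⟩ := hD.exists
    obtain ⟨N, hN⟩ := exists_int_gt D
    refine ⟨N, fun i ν μ => ?_⟩
    have h1 := hn (Fin.cons (-∑ μ, L 3 μ * (X i ν μ.succ : ℝ)) (fun μ => (X i ν μ.succ : ℝ))) ?_ μ.succ
    · simp only [Fin.cons_succ] at h1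
      have h5 : |((X i ν μ.succ : ℤ) : ℝ)| < N := lt_of_le_of_lt h1 hN
      have h6 : (|X i ν μ.succ| : ℝ) < N := h5
      exact_mod_cast h6.le
    · intro j
      rw [Matrix.mulVec, dotProduct, Fin.sum_univ_succ]
      simp only [hA0, Matrix.of_apply, Fin.cons_zero, Fin.cons_succ]
      refine Fin.lastCases ?_ (fun j => ?_) j
      · have h3 : (Fin.last 3 : Fin 4) = 3 := rfl
        rw [h3]; simp
      · have hj : (j.castSucc : Fin 4) ≠ 3 := by
          intro h
          have := congrArg Fin.val h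
          have h2 := j.2
          simp at this
          omega
        simp only [hj, if_false, zero_mul, zero_add]
        apply Real.abs_le_sqrt
        have h4 := hquad i 0 (L j.castSucc)
        have h5 := hlimeq i j
        simp only [mul_zero, zero_add, ne_eq, OfNat.ofNat_ne_zero, not_false_eq_true, zero_pow, zero_mul] at h4
        rw [h5, add_zero] at h4
        have h6 : (∑ μ : Fin 3, (X i ν μ.succ : ℝ) * L j.castSucc μ) ^ 2 ≤ ∑ μ, L j.castSucc μ ^ 2 := by
          rw [← h4]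
          exact Finset.single_le_sum
            (f := fun ν => (∑ μ : Fin 3, (X i ν μ.succ : ℝ) * L j.castSucc μ) ^ 2)
            (fun ν _ => sq_nonneg _) (Finset.mem_univ ν)
        have h7 : ∑ μ, L j.castSucc μ ^ 2 ≤ K :=
          Finset.single_le_sum (f := fun j : Fin 3 => ∑ μ, L j.castSucc μ ^ 2)
            (fun j _ => Finset.sum_nonneg (fun μ _ => sq_nonneg _)) (Finset.mem_univ j)
        have h8 : ∑ μ : Fin 3, L j.castSucc μ * (X i ν μ.succ : ℝ) = ∑ μ : Fin 3, (X i ν μ.succ : ℝ) * L j.castSucc μ :=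
          Finset.sum_congr rfl (fun μ _ => mul_comm _ _)
        rw [h8]
        linarith
  obtain ⟨N2, hN2⟩ := hD2
  -- the shifts
  set iN : ℕ → Fin 3 → ℤ := fun N μ =>
    ⌊(N : ℝ) ^ 5 * L 0 μ + (N : ℝ) ^ 4 * L 1 μ + (N : ℝ) ^ 3 * L 2 μ⌋ with hiN
  obtain ⟨w0, hw0⟩ := ML.ultra_const U (fun N => (fun ν (μ : Fin 3) => X (iN N) ν μ.succ : Fin 6 → Fin 3 → ℤ)) _
    (ML.finite_mats3 N2) (Filter.Eventually.of_forall (fun N ν μ => hN2 (iN N) ν μ))
  obtain ⟨N0, hN0⟩ := hw0.exists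
  have hd2const : ∀ᶠ N in (U : Filter ℕ), d2 (iN N) = d2 (iN N0) := by
    filter_upwards [hw0] with N hN
    have h1 : (fun ν (μ : Fin 3) => X (iN N) ν μ.succ : Fin 6 → Fin 3 → ℤ) = fun ν μ => X (iN N0) ν μ.succ := by
      rw [hN, hN0]
    have h2 : ∀ ν (μ : Fin 3), X (iN N) ν μ.succ = X (iN N0) ν μ.succ := fun ν μ => congrFun (congrFun h1 ν) μ
    funext μ lam
    simp only [hd2, h2]
  have hdet_inj : ∀ i i', d2 i = d2 i' → d0 i = d0 i' ∧ d1 i = d1 i' := by
    intro i i' h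
    obtain ⟨n, hn, hn'⟩ := ((hE i).and (hE i')).exists
    have h1 : (mat4 (R n)).mulVec (Fin.cons ((d0 i : ℝ) - d0 i') (fun μ => 2 * ((d1 i μ : ℝ) - d1 i' μ))) = 0 := by
      funext j
      rw [Matrix.mulVec, dotProduct, Fin.sum_univ_succ]
      simp only [mat4, Matrix.of_apply, Fin.cons_zero, Fin.cons_succ, Pi.zero_apply]
      have e1 := hn j
      have e2 := hn' j
      rw [h] at e1
      simp only [Fin.sum_univ_three] at e1 e2 ⊢
      linarith
    have h2 := Matrix.eq_zero_of_mulVec_eq_zero (hdetR n) h1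
    constructor
    · have := congrFun h2 0
      simp only [Fin.cons_zero, Pi.zero_apply] at this
      have h3 : (d0 i : ℝ) = d0 i' := by linarith
      exact_mod_cast h3
    · funext μ
      have := congrFun h2 μ.succ
      simp only [Fin.cons_succ, Pi.zero_apply] at this
      have h3 : (d1 i μ : ℝ) = d1 i' μ := by linarith
      exact_mod_cast h3
  have hstar : ∀ᶠ N : ℕ in (U : Filter ℕ), ∀ c : Fin 3 → ℝ,
      -(∑ μ, ∑ lam, (d2 (iN N0) μ lam : ℝ) * c μ * c lam) + 2 * ∑ μ, (d1 (iN N0) μ : ℝ) * c μ ≤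
      ∑ μ, ((⌊(N : ℝ) ^ 5 * L (Fin.castSucc 0) μ + (N : ℝ) ^ 4 * L (Fin.castSucc 1) μ +
        (N : ℝ) ^ 3 * L (Fin.castSucc 2) μ⌋ : ℝ) - c μ) ^ 2 + (7 + d0 (iN N0)) := by
    filter_upwards [hd2const] with N hN
    intro c
    obtain ⟨e0, e1⟩ := hdet_inj _ _ hN
    have h1 := hquad (iN N) (-1) c
    have h2 : 0 ≤ ∑ ν, ((X (iN N) ν 0 : ℝ) * (-1) + ∑ μ : Fin 3, X (iN N) ν μ.succ * c μ) ^ 2 :=
      Finset.sum_nonneg (fun ν _ => sq_nonneg _)
    rw [h1, e0, e1, hN] at h2
    have h3 : ∀ μ, (⌊(N : ℝ) ^ 5 * L (Fin.castSucc 0) μ + (N : ℝ) ^ 4 * L (Fin.castSucc 1) μ +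
        (N : ℝ) ^ 3 * L (Fin.castSucc 2) μ⌋ : ℝ) = (iN N μ : ℝ) := fun μ => rfl
    simp only [h3]
    simp only [Fin.sum_univ_three] at h2 ⊢
    linarith
  have hzero := hML (fun μ lam => (d2 (iN N0) μ lam : ℝ)) (fun μ => (d1 (iN N0) μ : ℝ)) (7 + d0 (iN N0))
    (fun j μ => L j.castSucc μ) (by
      intro μ lam
      simp only [hd2]
      congr 1
      congr 1
      · exact Finset.sum_congr rfl (fun ν _ => mul_comm _ _)
      · simp only [eq_comm]) (hlimeq (iN N0)) U inferInstance hUat hstar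
  have hd2zero : d2 (iN N0) = 0 := by
    funext μ
    have h1 := hinj (fun lam => (d2 (iN N0) μ lam : ℝ)) (by
      intro j
      rw [← hzero j μ]
      exact Finset.sum_congr rfl (fun lam _ => mul_comm _ _))
    funext lam
    have h2 := congrFun h1 lam
    simp only [Pi.zero_apply] at h2
    have h3 : (d2 (iN N0) μ lam : ℝ) = ((0 : ℤ) : ℝ) := by rw [h2]; simp
    exact_mod_cast h3
  have hd01 : d0 (iN N0) = 0 ∧ d1 (iN N0) = 0 := by
    obtain ⟨n, hn⟩ := (hE (iN N0)).exists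
    have h1 : (mat4 (R n)).mulVec (Fin.cons (d0 (iN N0) : ℝ) (fun μ => 2 * (d1 (iN N0) μ : ℝ))) = 0 := by
      funext j
      rw [Matrix.mulVec, dotProduct, Fin.sum_univ_succ]
      simp only [mat4, Matrix.of_apply, Fin.cons_zero, Fin.cons_succ, Pi.zero_apply]
      have e1 := hn j
      rw [hd2zero] at e1
      simp only [Fin.sum_univ_three, Pi.zero_apply, Int.cast_zero, zero_mul, add_zero] at e1 ⊢
      linarith
    have h2 := Matrix.eq_zero_of_mulVec_eq_zero (hdetR n) h1
    constructor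
    · have := congrFun h2 0
      simp only [Fin.cons_zero, Pi.zero_apply] at this
      exact_mod_cast this
    · funext μ
      have := congrFun h2 μ.succ
      simp only [Fin.cons_succ, Pi.zero_apply] at this
      have h3 : (d1 (iN N0) μ : ℝ) = ((0 : ℤ) : ℝ) := by push_cast; linarith
      exact_mod_cast h3
  refine hF0 (iN N0) (X (iN N0)) ?_ ?_ ?_
  · have := hd01.1
    simp only [hd0] at this
    linarith
  · intro μ
    have := congrFun hd01.2 μ
    simp only [hd1, Pi.zero_apply] at this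
    linarith
  · intro μ lam
    have := congrFun (congrFun hd2zero μ) lam
    simp only [hd2, Pi.zero_apply] at this
    linarith

end P7
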