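import Pool.Agent.P7.Targets

/-!
# P7-MLIM: the limit argument
-/

set_option autoImplicit false

open Filter Topology

namespace P7

namespace MLIM

/-- the bilinear form -/
def B (D : Fin 3 → Fin 3 → ℝ) (u v : Fin 3 → ℝ) : ℝ := ∑ μ, ∑ lam, D μ lam * u μ * v lam

theorem quad {D : Fin 3 → Fin 3 → ℝ} (hD : ∀ μ lam, D μ lam = D lam μ) {X : Fin 3 → ℝ}
    (hX : B D X X = 0) (h : ∀ g : Fin 3 → ℝ, -(B D (X + g) (X + g)) ≤ ∑ μ, g μ ^ 2)
    (g : Fin 3 → ℝ) : B D g X = 0 := by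
  have key : ∀ t : ℝ, 0 ≤ (∑ μ, g μ ^ 2 + B D g g) * (t * t) + (2 * B D g X) * t + 0 := by
    intro t
    have h1 := h (t • g)
    have h2 : B D (X + t • g) (X + t • g) = B D X X + 2 * t * B D g X + t ^ 2 * B D g g := by
      simp only [B, Fin.sum_univ_three, Pi.add_apply, Pi.smul_apply, smul_eq_mul]
      rw [hD 1 0, hD 2 0, hD 2 1]
      ring
    have h3 : ∑ μ, (t • g) μ ^ 2 = t ^ 2 * ∑ μ, g μ ^ 2 := by
      simp only [Fin.sum_univ_three, Pi.smul_apply, smul_eq_mul]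
      ring
    rw [h2, h3, hX] at h1
    nlinarith
  have h4 := discrim_le_zero key
  unfold discrim at h4
  nlinarith [sq_nonneg (B D g X)]

theorem step {D : Fin 3 → Fin 3 → ℝ} {δ : Fin 3 → ℝ} {κ : ℝ} {F : Filter ℕ} [F.NeBot]
    (hF : F ≤ atTop) {k : ℕ} (hk : 3 ≤ k) {p q e : ℕ → Fin 3 → ℝ} {P Q h : Fin 3 → ℝ}
    (hp : ∀ μ, Tendsto (fun N => p N μ) F (𝓝 (P μ)))
    (hq : ∀ μ, Tendsto (fun N => q N μ) F (𝓝 (Q μ))) (he : ∀ N μ, |e N μ| ≤ 1)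
    (hin : ∀ᶠ N : ℕ in F, -((N : ℝ) ^ (2 * k) * B D (p N) (p N)) +
      2 * (N : ℝ) ^ 5 * ∑ μ, δ μ * q N μ ≤ ∑ μ, (e N μ - (N : ℝ) ^ k * h μ) ^ 2 + κ) :
    -(B D P P) ≤ ∑ μ, h μ ^ 2 := by
  have hx : Tendsto (fun N : ℕ => 1 / (N : ℝ)) F (𝓝 0) :=
    (tendsto_one_div_atTop_nhds_zero_nat (𝕜 := ℝ)).mono_left hF
  have hxk : ∀ m : ℕ, 1 ≤ m → Tendsto (fun N : ℕ => (1 / (N : ℝ)) ^ m) F (𝓝 0) := by
    intro m hm
    have := hx.pow m
    rwa [zero_pow (by omega)] at this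
  have hBt : Tendsto (fun N => B D (p N) (p N)) F (𝓝 (B D P P)) := by
    unfold B
    refine tendsto_finsetSum _ fun μ _ => tendsto_finsetSum _ fun lam _ => ?_
    exact (((hp μ).const_mul _).mul (hp lam))
  have hqt : Tendsto (fun N => ∑ μ, δ μ * q N μ) F (𝓝 (∑ μ, δ μ * Q μ)) :=
    tendsto_finsetSum _ fun μ _ => (hq μ).const_mul _
  have hL : Tendsto (fun N : ℕ => -(B D (p N) (p N)) +
      2 * ((1 / (N : ℝ)) ^ (2 * k - 5) * ∑ μ, δ μ * q N μ)) F (𝓝 (-(B D P P) + 2 * (0 * ∑ μ, δ μ * Q μ))) :=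
    hBt.neg.add (((hxk (2 * k - 5) (by omega)).mul hqt).const_mul 2)
  have het : ∀ μ, Tendsto (fun N : ℕ => (1 / (N : ℝ)) ^ k * e N μ) F (𝓝 0) := by
    intro μ
    refine squeeze_zero_norm (fun N => ?_) (hxk k (by omega))
    rw [norm_mul, Real.norm_eq_abs, Real.norm_eq_abs, abs_of_nonneg (by positivity)]
    calc (1 / (N : ℝ)) ^ k * |e N μ| ≤ (1 / (N : ℝ)) ^ k * 1 := by gcongr; exact he N μ
      _ = _ := mul_one _
  have hR : Tendsto (fun N : ℕ => ∑ μ, ((1 / (N : ℝ)) ^ k * e N μ - h μ) ^ 2 +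
      κ * (1 / (N : ℝ)) ^ (2 * k)) F (𝓝 (∑ μ, (0 - h μ) ^ 2 + κ * 0)) := by
    refine (tendsto_finsetSum _ fun μ _ => ((het μ).sub_const _).pow 2).add
      ((hxk (2 * k) (by omega)).const_mul κ)
  have hfin := le_of_tendsto_of_tendsto hL hR ?_
  · simpa using hfin
  · filter_upwards [hin, hF (eventually_ge_atTop 1)] with N hN hN1
    have hN0 : (0 : ℝ) < N := by exact_mod_cast hN1
    have h1 : 0 < (N : ℝ) ^ (2 * k) := by positivity
    have h2 : (N : ℝ) ^ (2 * k) * (-(B D (p N) (p N)) +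
        2 * ((1 / (N : ℝ)) ^ (2 * k - 5) * ∑ μ, δ μ * q N μ)) =
        -((N : ℝ) ^ (2 * k) * B D (p N) (p N)) + 2 * (N : ℝ) ^ 5 * ∑ μ, δ μ * q N μ := by
      have h3 : (N : ℝ) ^ (2 * k) = (N : ℝ) ^ (2 * k - 5) * (N : ℝ) ^ 5 := by
        rw [← pow_add]; congr 1; omega
      have h4 : (N : ℝ) ^ (2 * k - 5) * (1 / (N : ℝ)) ^ (2 * k - 5) = 1 := by
        rw [← mul_pow, mul_one_div_cancel hN0.ne', one_pow]
      calc _ = -((N : ℝ) ^ (2 * k) * B D (p N) (p N)) + 2 * ((N : ℝ) ^ (2 * k) *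
            (1 / (N : ℝ)) ^ (2 * k - 5)) * ∑ μ, δ μ * q N μ := by ring
        _ = _ := by
          rw [h3, show (N : ℝ) ^ (2 * k - 5) * (N : ℝ) ^ 5 * (1 / (N : ℝ)) ^ (2 * k - 5) =
            ((N : ℝ) ^ (2 * k - 5) * (1 / (N : ℝ)) ^ (2 * k - 5)) * (N : ℝ) ^ 5 by ring, h4]
          ring
    have h5 : (N : ℝ) ^ (2 * k) * (∑ μ, ((1 / (N : ℝ)) ^ k * e N μ - h μ) ^ 2 +
        κ * (1 / (N : ℝ)) ^ (2 * k)) = ∑ μ, (e N μ - (N : ℝ) ^ k * h μ) ^ 2 + κ := by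
      have h6 : (N : ℝ) ^ k * (1 / (N : ℝ)) ^ k = 1 := by
        rw [← mul_pow, mul_one_div_cancel hN0.ne', one_pow]
      have h7 : (N : ℝ) ^ (2 * k) * (1 / (N : ℝ)) ^ (2 * k) = 1 := by
        rw [← mul_pow, mul_one_div_cancel hN0.ne', one_pow]
      rw [mul_add, Finset.mul_sum]
      congr 1
      · refine Finset.sum_congr rfl fun μ _ => ?_
        calc (N : ℝ) ^ (2 * k) * ((1 / (N : ℝ)) ^ k * e N μ - h μ) ^ 2
            = ((N : ℝ) ^ k * (1 / (N : ℝ)) ^ k * e N μ - (N : ℝ) ^ k * h μ) ^ 2 := by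
              rw [show 2 * k = k + k by ring, pow_add]; ring
          _ = _ := by rw [h6, one_mul]
      · calc _ = κ * ((N : ℝ) ^ (2 * k) * (1 / (N : ℝ)) ^ (2 * k)) := by ring
          _ = κ := by rw [h7, mul_one]
    rw [← h2, ← h5] at hN
    exact le_of_mul_le_mul_left hN h1

end MLIM

open MLIM

theorem tMLIM : T_MLIM := by
  intro D δ κ L hD hL F hne hF hin
  have hL' : ∀ j, B D (L j) (L j) = 0 := hL
  set G : ℕ → Fin 3 → ℝ := fun N μ =>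
    (N : ℝ) ^ 5 * L 0 μ + (N : ℝ) ^ 4 * L 1 μ + (N : ℝ) ^ 3 * L 2 μ with hG
  set e : ℕ → Fin 3 → ℝ := fun N μ => (⌊G N μ⌋ : ℝ) - G N μ with he
  have heb : ∀ N μ, |e N μ| ≤ 1 := by
    intro N μ
    have h1 := Int.floor_le (G N μ)
    have h2 := Int.lt_floor_add_one (G N μ)
    rw [abs_le]
    constructor <;> simp only [he] <;> linarith
  have hx : Tendsto (fun N : ℕ => 1 / (N : ℝ)) F (𝓝 0) :=
    (tendsto_one_div_atTop_nhds_zero_nat (𝕜 := ℝ)).mono_left hF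
  have hlin : ∀ a b c : ℝ, Tendsto (fun N : ℕ => a + (1 / (N : ℝ)) * b + (1 / (N : ℝ)) ^ 2 * c) F
      (𝓝 a) := by
    intro a b c
    have := ((tendsto_const_nhds (x := a)).add (hx.mul_const b)).add ((hx.pow 2).mul_const c)
    simpa using this
  have hBadd : ∀ x y z : Fin 3 → ℝ, B D (x + y) z = B D x z + B D y z := by
    intro x y z
    simp only [B, Fin.sum_univ_three, Pi.add_apply]; ring
  have hBadd' : ∀ x y z : Fin 3 → ℝ, B D x (y + z) = B D x y + B D x z := by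
    intro x y z
    simp only [B, Fin.sum_univ_three, Pi.add_apply]; ring
  have hBsm : ∀ (t : ℝ) (x y : Fin 3 → ℝ), B D (t • x) y = t * B D x y := by
    intro t x y
    simp only [B, Fin.sum_univ_three, Pi.smul_apply, smul_eq_mul]; ring
  have hBsm' : ∀ (t : ℝ) (x y : Fin 3 → ℝ), B D x (t • y) = t * B D x y := by
    intro t x y
    simp only [B, Fin.sum_univ_three, Pi.smul_apply, smul_eq_mul]; ring
  have hsym : ∀ x y, B D x y = B D y x := by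
    intro x y
    simp only [B, Fin.sum_univ_three]
    rw [hD 1 0, hD 2 0, hD 2 1]; ring
  -- the inequality
  have hin' : ∀ᶠ N : ℕ in F, ∀ c : Fin 3 → ℝ, -(B D c c) + 2 * ∑ μ, δ μ * c μ ≤
      ∑ μ, (e N μ - (c μ - G N μ)) ^ 2 + κ := by
    filter_upwards [hin] with N hN c
    refine (hN c).trans (le_of_eq ?_)
    congr 1
    refine Finset.sum_congr rfl fun μ _ => ?_
    simp only [he, hG]; ring
  -- step 1
  have s0 : ∀ g, B D g (L 0) = 0 := by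
    refine quad hD (hL' 0) fun h => ?_
    refine step (δ := δ) (κ := κ) (k := 5) hF (by norm_num)
      (p := fun N μ => (L 0 μ + h μ) + (1 / (N : ℝ)) * L 1 μ + (1 / (N : ℝ)) ^ 2 * L 2 μ)
      (q := fun N μ => (L 0 μ + h μ) + (1 / (N : ℝ)) * L 1 μ + (1 / (N : ℝ)) ^ 2 * L 2 μ)
      (fun μ => hlin _ _ _) (Q := L 0 + h) (fun μ => hlin _ _ _) heb ?_
    filter_upwards [hin', hF (eventually_ge_atTop 1)] with N hN hN1
    have hN0 : (N : ℝ) ≠ 0 := by exact_mod_cast (by omega : N ≠ 0)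
    have h1 := hN ((N : ℝ) ^ 5 • fun μ => (L 0 μ + h μ) + (1 / (N : ℝ)) * L 1 μ +
      (1 / (N : ℝ)) ^ 2 * L 2 μ)
    rw [hBsm, hBsm'] at h1
    have h2 : ∀ μ, ((N : ℝ) ^ 5 • fun μ => (L 0 μ + h μ) + (1 / (N : ℝ)) * L 1 μ +
        (1 / (N : ℝ)) ^ 2 * L 2 μ) μ - G N μ = (N : ℝ) ^ 5 * h μ := by
      intro μ
      simp only [Pi.smul_apply, smul_eq_mul, hG]
      field_simp
      ring
    simp only [h2] at h1
    refine le_trans (le_of_eq ?_) h1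
    simp only [Pi.smul_apply, smul_eq_mul, Fin.sum_univ_three]
    ring
  have s1 : ∀ g, B D g (L 1) = 0 := by
    refine quad hD (hL' 1) fun h => ?_
    refine step (δ := δ) (κ := κ) (k := 4) hF (by norm_num)
      (p := fun N μ => (L 1 μ + h μ) + (1 / (N : ℝ)) * L 2 μ + (1 / (N : ℝ)) ^ 2 * 0)
      (q := fun N μ => L 0 μ + (1 / (N : ℝ)) * (L 1 μ + h μ) + (1 / (N : ℝ)) ^ 2 * L 2 μ)
      (fun μ => hlin _ _ _) (Q := L 0) (fun μ => hlin _ _ _) heb ?_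
    filter_upwards [hin', hF (eventually_ge_atTop 1)] with N hN hN1
    have hN0 : (N : ℝ) ≠ 0 := by exact_mod_cast (by omega : N ≠ 0)
    set p : Fin 3 → ℝ := fun μ => (L 1 μ + h μ) + (1 / (N : ℝ)) * L 2 μ +
      (1 / (N : ℝ)) ^ 2 * 0 with hp
    have h1 := hN ((N : ℝ) ^ 5 • L 0 + (N : ℝ) ^ 4 • p)
    have h3 : B D ((N : ℝ) ^ 5 • L 0 + (N : ℝ) ^ 4 • p) ((N : ℝ) ^ 5 • L 0 + (N : ℝ) ^ 4 • p) =
        (N : ℝ) ^ (2 * 4) * B D p p := by
      simp only [hBadd, hBadd', hBsm, hBsm', s0, hsym (L 0)]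
      ring
    rw [h3] at h1
    have h2 : ∀ μ, ((N : ℝ) ^ 5 • L 0 + (N : ℝ) ^ 4 • p) μ - G N μ = (N : ℝ) ^ 4 * h μ := by
      intro μ
      simp only [Pi.add_apply, Pi.smul_apply, smul_eq_mul, hG, hp]
      field_simp
      ring
    simp only [h2] at h1
    refine le_trans (le_of_eq ?_) h1
    congr 1
    simp only [Pi.add_apply, Pi.smul_apply, smul_eq_mul, Fin.sum_univ_three, hp]
    field_simp
    ring
  have s2 : ∀ g, B D g (L 2) = 0 := by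
    refine quad hD (hL' 2) fun h => ?_
    refine step (δ := δ) (κ := κ) (k := 3) hF (by norm_num)
      (p := fun N μ => (L 2 μ + h μ) + (1 / (N : ℝ)) * 0 + (1 / (N : ℝ)) ^ 2 * 0)
      (q := fun N μ => L 0 μ + (1 / (N : ℝ)) * L 1 μ + (1 / (N : ℝ)) ^ 2 * (L 2 μ + h μ))
      (fun μ => hlin _ _ _) (Q := L 0) (fun μ => hlin _ _ _) heb ?_
    filter_upwards [hin', hF (eventually_ge_atTop 1)] with N hN hN1
    have hN0 : (N : ℝ) ≠ 0 := by exact_mod_cast (by omega : N ≠ 0)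
    set p : Fin 3 → ℝ := fun μ => (L 2 μ + h μ) + (1 / (N : ℝ)) * 0 +
      (1 / (N : ℝ)) ^ 2 * 0 with hp
    have h1 := hN ((N : ℝ) ^ 5 • L 0 + (N : ℝ) ^ 4 • L 1 + (N : ℝ) ^ 3 • p)
    have h3 : B D ((N : ℝ) ^ 5 • L 0 + (N : ℝ) ^ 4 • L 1 + (N : ℝ) ^ 3 • p)
        ((N : ℝ) ^ 5 • L 0 + (N : ℝ) ^ 4 • L 1 + (N : ℝ) ^ 3 • p) =
        (N : ℝ) ^ (2 * 3) * B D p p := by
      simp only [hBadd, hBadd', hBsm, hBsm', s0, s1, hsym (L 0), hsym (L 1)]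
      ring
    rw [h3] at h1
    have h2 : ∀ μ, ((N : ℝ) ^ 5 • L 0 + (N : ℝ) ^ 4 • L 1 + (N : ℝ) ^ 3 • p) μ - G N μ =
        (N : ℝ) ^ 3 * h μ := by
      intro μ
      simp only [Pi.add_apply, Pi.smul_apply, smul_eq_mul, hG, hp]
      ring
    simp only [h2] at h1
    refine le_trans (le_of_eq ?_) h1
    congr 1
    simp only [Pi.add_apply, Pi.smul_apply, smul_eq_mul, Fin.sum_univ_three, hp]
    field_simp
    ring
  intro j μ
  have hs : ∀ g, B D g (L j) = 0 := by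
    fin_cases j
    · exact s0
    · exact s1
    · exact s2
  have := hs (Pi.single μ 1)
  unfold B at this
  rw [Finset.sum_eq_single μ] at this
  · simpa using this
  · intro ν _ hν
    simp [Pi.single_eq_of_ne hν]
  · intro h; exact absurd (Finset.mem_univ μ) h

end P7
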