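import Pool.Agent.P7.Targets

/-!
# PLACES: equality at one place implies equality at all places
-/

set_option autoImplicit false

namespace P7

namespace PLACES

/-- Integer coordinates of `16 (val)^2`. -/
def cA (a b c : ℕ) (v : Fin 4 → ℤ) : ℤ :=
  v 0 ^ 2 + a * b * v 1 ^ 2 + a * c * v 2 ^ 2 + b * c * v 3 ^ 2
/-- second -/
def cB (c : ℕ) (v : Fin 4 → ℤ) : ℤ := 2 * (v 0 * v 1 + c * v 2 * v 3)
/-- third -/
def cC (b : ℕ) (v : Fin 4 → ℤ) : ℤ := 2 * (v 0 * v 2 + b * v 1 * v 3)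
/-- fourth -/
def cD (a : ℕ) (v : Fin 4 → ℤ) : ℤ := 2 * (v 0 * v 3 + a * v 1 * v 2)

lemma sq_sq (m n : ℕ) : sq m n ^ 2 = m * n := by
  unfold sq
  rw [Real.sq_sqrt (by positivity)]
  push_cast; ring

lemma sq_nonneg' (m n : ℕ) : 0 ≤ sq m n := Real.sqrt_nonneg _

lemma sq_mul (a b c : ℕ) : sq a b * sq a c = a * sq b c := by
  unfold sq
  rw [← Real.sqrt_mul (by positivity)]
  have h : (((a * b : ℕ) : ℝ) * ((a * c : ℕ) : ℝ)) = (a : ℝ) ^ 2 * ((b * c : ℕ) : ℝ) := by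
    push_cast; ring
  rw [h, Real.sqrt_mul (by positivity), Real.sqrt_sq (by positivity)]

lemma sq_mul' (a b c : ℕ) : sq a b * sq b c = b * sq a c := by
  have h := sq_mul b a c
  have h1 : sq b a = sq a b := by unfold sq; rw [mul_comm]
  rw [h1] at h
  exact h

lemma sq_mul'' (a b c : ℕ) : sq a c * sq b c = c * sq a b := by
  have h := sq_mul c a b
  have h1 : sq c a = sq a c := by unfold sq; rw [mul_comm]
  have h2 : sq c b = sq b c := by unfold sq; rw [mul_comm]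
  rw [h1, h2] at h
  exact h

lemma ev_sq {P Q R : ℝ} {a b c : ℕ} (hP : P ^ 2 = a * b) (hQ : Q ^ 2 = a * c) (hR : R ^ 2 = b * c)
    (h1 : P * Q = a * R) (h2 : P * R = b * Q) (h3 : Q * R = c * P) (v : Fin 4 → ℤ) :
    ev P Q R v ^ 2 = ((cA a b c v : ℝ) + cB c v * P + cC b v * Q + cD a v * R) / 16 := by
  unfold ev cA cB cC cD
  push_cast
  linear_combination ((v 1 : ℝ) ^ 2 / 16) * hP + ((v 2 : ℝ) ^ 2 / 16) * hQ +
    ((v 3 : ℝ) ^ 2 / 16) * hR + ((v 1 : ℝ) * v 2 / 8) * h1 + ((v 1 : ℝ) * v 3 / 8) * h2 +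
    ((v 2 : ℝ) * v 3 / 8) * h3

/-- The signs. -/
def e1 : Fin 4 → ℝ := ![1, 1, -1, -1]
/-- The signs. -/
def e2 : Fin 4 → ℝ := ![1, -1, 1, -1]
/-- The signs. -/
def e3 : Fin 4 → ℝ := ![1, -1, -1, 1]

lemma val_sq (a b c : ℕ) (j : Fin 4) (v : Fin 4 → ℤ) :
    val a b c j v ^ 2 = ((cA a b c v : ℝ) + cB c v * (e1 j * sq a b) + cC b v * (e2 j * sq a c) +
      cD a v * (e3 j * sq b c)) / 16 := by
  have hP := sq_sq a b
  have hQ := sq_sq a c
  have hR := sq_sq b c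
  have h1 := sq_mul a b c
  have h2 := sq_mul' a b c
  have h3 := sq_mul'' a b c
  fin_cases j
  · show ev (sq a b) (sq a c) (sq b c) v ^ 2 = _
    rw [ev_sq hP hQ hR h1 h2 h3]
    simp [e1, e2, e3]
  · show ev (sq a b) (-sq a c) (-sq b c) v ^ 2 = _
    rw [ev_sq hP (by rw [neg_sq]; exact hQ) (by rw [neg_sq]; exact hR)
      (by linear_combination -h1) (by linear_combination -h2) (by linear_combination h3)]
    simp [e1, e2, e3]
  · show ev (-sq a b) (sq a c) (-sq b c) v ^ 2 = _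
    rw [ev_sq (by rw [neg_sq]; exact hP) hQ (by rw [neg_sq]; exact hR)
      (by linear_combination -h1) (by linear_combination h2) (by linear_combination -h3)]
    simp [e1, e2, e3]
  · show ev (-sq a b) (-sq a c) (sq b c) v ^ 2 = _
    rw [ev_sq (by rw [neg_sq]; exact hP) (by rw [neg_sq]; exact hQ) hR
      (by linear_combination h1) (by linear_combination -h2) (by linear_combination -h3)]
    simp [e1, e2, e3]

lemma sum_sq (a b c : ℕ) (j : Fin 4) {k : ℕ} (f : Fin k → Fin 4 → ℤ) :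
    ∑ ν, val a b c j (f ν) ^ 2 = ((∑ ν, cA a b c (f ν) : ℤ) + (∑ ν, cB c (f ν) : ℤ) * (e1 j * sq a b) +
      (∑ ν, cC b (f ν) : ℤ) * (e2 j * sq a c) + (∑ ν, cD a (f ν) : ℤ) * (e3 j * sq b c)) / 16 := by
  push_cast
  rw [Finset.sum_mul, Finset.sum_mul, Finset.sum_mul, ← Finset.sum_add_distrib,
    ← Finset.sum_add_distrib, ← Finset.sum_add_distrib, Finset.sum_div]
  exact Finset.sum_congr rfl fun ν _ => val_sq a b c j (f ν)

end PLACES

open PLACES in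
theorem tPLACES (hLI : T_LI) : T_PLACES := by
  intro a b c hadm k l f g h j
  rw [sum_sq, sum_sq] at h
  have he : e1 0 = 1 ∧ e2 0 = 1 ∧ e3 0 = 1 := by simp [e1, e2, e3]
  rw [he.1, he.2.1, he.2.2, one_mul, one_mul, one_mul] at h
  obtain ⟨hA, hB, hC, hD⟩ := hLI a b c hadm
    (((∑ ν, cA a b c (f ν) : ℤ) - (∑ ν, cA a b c (g ν) : ℤ) : ℤ) : ℚ)
    (((∑ ν, cB c (f ν) : ℤ) - (∑ ν, cB c (g ν) : ℤ) : ℤ) : ℚ)
    (((∑ ν, cC b (f ν) : ℤ) - (∑ ν, cC b (g ν) : ℤ) : ℤ) : ℚ)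
    (((∑ ν, cD a (f ν) : ℤ) - (∑ ν, cD a (g ν) : ℤ) : ℤ) : ℚ) (by
      push_cast at h ⊢
      linarith)
  have hA' : (∑ ν, cA a b c (f ν) : ℤ) = ∑ ν, cA a b c (g ν) := by
    have := Int.cast_eq_zero.1 hA; omega
  have hB' : (∑ ν, cB c (f ν) : ℤ) = ∑ ν, cB c (g ν) := by
    have := Int.cast_eq_zero.1 hB; omega
  have hC' : (∑ ν, cC b (f ν) : ℤ) = ∑ ν, cC b (g ν) := by
    have := Int.cast_eq_zero.1 hC; omega
  have hD' : (∑ ν, cD a (f ν) : ℤ) = ∑ ν, cD a (g ν) := by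
    have := Int.cast_eq_zero.1 hD; omega
  rw [sum_sq, sum_sq, hA', hB', hC', hD']

end P7
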