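import Pool.Agent.P7.Targets

/-!
# Reduction of a triangular basis
-/

namespace P7

namespace RED

/-- Rounding: a real number can be moved into `[-d/2, d/2]` by a multiple of `d`. -/
theorem exists_round (a d : ℝ) (hd : 0 < d) : ∃ t : ℤ, |a + t * d| ≤ d / 2 := by
  refine ⟨-round (a / d), ?_⟩
  have h := abs_sub_round (a / d)
  have h2 : a + ((-round (a / d) : ℤ) : ℝ) * d = (a / d - round (a / d)) * d := by
    push_cast
    field_simp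
    ring
  rw [h2, abs_mul, abs_of_pos hd]
  nlinarith

end RED

theorem tRED : T_RED := by
  intro P Q R hP hPQ hQR x0 x1 y0 y1 y2 z0 z1 z2 z3 hx1 hx1' hy2 hy2' hz3 hz3'
  have hx1r : (1 : ℝ) ≤ x1 := by exact_mod_cast hx1
  have hx1r' : (x1 : ℝ) ≤ 4 := by exact_mod_cast hx1'
  have hy2r : (1 : ℝ) ≤ y2 := by exact_mod_cast hy2
  have hy2r' : (y2 : ℝ) ≤ 4 := by exact_mod_cast hy2'
  have hz3r : (1 : ℝ) ≤ z3 := by exact_mod_cast hz3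
  have hz3r' : (z3 : ℝ) ≤ 4 := by exact_mod_cast hz3'
  obtain ⟨tx, htx⟩ := RED.exists_round ((x0 : ℝ) - x1 * P) 4 (by norm_num)
  obtain ⟨uy, huy⟩ := RED.exists_round (y1 : ℝ) x1 (by linarith)
  obtain ⟨ty, hty⟩ := RED.exists_round (((y0 : ℝ) + uy * x0) - (y1 + uy * x1) * P - y2 * Q) 4 (by norm_num)
  obtain ⟨wz, hwz⟩ := RED.exists_round ((z2 : ℝ) * Q - z3 * R) (y2 * Q) (by nlinarith)
  obtain ⟨uz, huz⟩ := RED.exists_round (((z1 : ℝ) + wz * y1) * P - z3 * R) (x1 * P) (by nlinarith)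
  obtain ⟨tz, htz⟩ := RED.exists_round (((z0 : ℝ) + wz * y0 + uz * x0) - (z1 + wz * y1 + uz * x1) * P
    - (z2 + wz * y2) * Q + z3 * R) 4 (by norm_num)
  refine ⟨x0 + tx * 4, y0 + uy * x0 + ty * 4, y1 + uy * x1, z0 + wz * y0 + uz * x0 + tz * 4,
    z1 + wz * y1 + uz * x1, z2 + wz * y2, ⟨tx, ?_⟩, ⟨ty, uy, ?_⟩, ⟨tz, uz, wz, ?_⟩, ?_⟩
  · ext i; fin_cases i <;> simp [vec]
  · ext i; fin_cases i <;> simp [vec]
  · ext i; fin_cases i <;> simp [vec]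
  · have hQ2 : (y2 : ℝ) * Q ≤ 4 * Q := by nlinarith
    have hP2 : (x1 : ℝ) * P ≤ 4 * P := by nlinarith
    have hP0 : 0 ≤ (x1 : ℝ) * P := by nlinarith
    have hQ0 : 0 ≤ (y2 : ℝ) * Q := by nlinarith
    have hR2 : (z3 : ℝ) * R ≤ 4 * R := by nlinarith
    have hR0 : 0 ≤ (z3 : ℝ) * R := by nlinarith
    rw [abs_le] at htx huy hty hwz huz htz
    have hyP : |((y1 : ℝ) + uy * x1) * P| ≤ 2 * P := by
      rw [abs_mul, abs_of_pos (show (0 : ℝ) < P by linarith)]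
      have : |(y1 : ℝ) + uy * x1| ≤ 2 := by
        rw [abs_le]; constructor <;> linarith [huy.1, huy.2]
      nlinarith
    rw [abs_le] at hyP
    obtain ⟨htx1, htx2⟩ := htx
    obtain ⟨hty1, hty2⟩ := hty
    obtain ⟨hwz1, hwz2⟩ := hwz
    obtain ⟨huz1, huz2⟩ := huz
    obtain ⟨htz1, htz2⟩ := htz
    obtain ⟨hyP1, hyP2⟩ := hyP
    intro e he
    simp only [Set.mem_insert_iff, Set.mem_singleton_iff] at he
    rcases he with rfl | rfl | rfl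
    · simp only [ev, vec, abs_le]
      simp
      refine ⟨⟨?_, ?_⟩, ⟨?_, ?_⟩, ⟨?_, ?_⟩, ⟨?_, ?_⟩⟩ <;> linarith
    · simp only [ev, vec, abs_le]
      simp
      refine ⟨⟨?_, ?_⟩, ⟨?_, ?_⟩, ⟨?_, ?_⟩, ⟨?_, ?_⟩⟩ <;> linarith
    · have e0 : ((z0 + wz * y0 + uz * x0 + tz * 4 : ℤ) : ℝ) = z0 + wz * y0 + uz * x0 + tz * 4 := by
        push_cast; ring
      have e1 : ((z1 + wz * y1 + uz * x1 : ℤ) : ℝ) = z1 + wz * y1 + uz * x1 := by push_cast; ring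
      have e2 : ((z2 + wz * y2 : ℤ) : ℝ) = z2 + wz * y2 := by push_cast; ring
      have g0 : ((z0 + wz * y0 + uz * x0 + tz * 4 : ℤ) : ℝ) - ((z1 + wz * y1 + uz * x1 : ℤ) : ℝ) * P
          - ((z2 + wz * y2 : ℤ) : ℝ) * Q + z3 * R ≤ 2 := by rw [e0, e1, e2]; linarith
      have g0' : -2 ≤ ((z0 + wz * y0 + uz * x0 + tz * 4 : ℤ) : ℝ) - ((z1 + wz * y1 + uz * x1 : ℤ) : ℝ) * P
          - ((z2 + wz * y2 : ℤ) : ℝ) * Q + z3 * R := by rw [e0, e1, e2]; linarith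
      have g1 : ((z1 + wz * y1 + uz * x1 : ℤ) : ℝ) * P - z3 * R ≤ 2 * P := by rw [e1]; linarith
      have g1' : -(2 * P) ≤ ((z1 + wz * y1 + uz * x1 : ℤ) : ℝ) * P - z3 * R := by rw [e1]; linarith
      have g2 : ((z2 + wz * y2 : ℤ) : ℝ) * Q - z3 * R ≤ 2 * Q := by rw [e2]; linarith
      have g2' : -(2 * Q) ≤ ((z2 + wz * y2 : ℤ) : ℝ) * Q - z3 * R := by rw [e2]; linarith
      clear e0 e1 e2 htx1 htx2 hty1 hty2 hwz1 hwz2 huz1 huz2 htz1 htz2 hyP1 hyP2 huy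
      generalize z0 + wz * y0 + uz * x0 + tz * 4 = Z0 at *
      generalize z1 + wz * y1 + uz * x1 = Z1 at *
      generalize z2 + wz * y2 = Z2 at *
      simp only [ev, vec, abs_le, Matrix.cons_val_zero, Matrix.cons_val_one, Matrix.cons_val]
      refine ⟨⟨?_, ?_⟩, ⟨?_, ?_⟩, ⟨?_, ?_⟩, ⟨?_, ?_⟩⟩ <;> linarith

end P7
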