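import Pool.Agent.P7.Targets

/-!
# Relative rigidity (job P7-RR)
-/

open Filter Topology

namespace P7

namespace RR_

/-- Integers with two bounded values of a linear form are bounded. -/
lemma bound_aux (x : Fin 2 → ℝ) (hx : x 0 ≠ x 1) (C : ℝ) :
    ∃ B : ℝ, ∀ p q : ℤ, (∀ φ, |(p : ℝ) + q * x φ| ≤ C) → |(p : ℝ)| ≤ B ∧ |(q : ℝ)| ≤ B := by
  have hd : 0 < |x 0 - x 1| := abs_pos.mpr (sub_ne_zero.mpr hx)
  refine ⟨max (2 * C / |x 0 - x 1|) (C + 2 * C / |x 0 - x 1| * |x 0|), fun p q h => ?_⟩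
  have h0 := h 0
  have h1 := h 1
  have hq : |(q : ℝ)| ≤ 2 * C / |x 0 - x 1| := by
    rw [le_div_iff₀ hd, ← abs_mul]
    have : (q : ℝ) * (x 0 - x 1) = ((p : ℝ) + q * x 0) - (p + q * x 1) := by ring
    rw [this]
    calc _ ≤ |(p : ℝ) + q * x 0| + |(p : ℝ) + q * x 1| := abs_sub _ _
      _ ≤ 2 * C := by linarith
  refine ⟨le_trans ?_ (le_max_right _ _), le_trans hq (le_max_left _ _)⟩
  have : (p : ℝ) = ((p : ℝ) + q * x 0) - q * x 0 := by ring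
  rw [this]
  calc _ ≤ |(p : ℝ) + q * x 0| + |(q : ℝ) * x 0| := abs_sub _ _
    _ ≤ C + 2 * C / |x 0 - x 1| * |x 0| := by
      rw [abs_mul]
      gcongr

/-- A quadratic polynomial with arbitrarily large roots vanishes. -/
lemma poly_aux (Y : ℕ → ℝ) (hY : Tendsto Y atTop atTop) (a0 a1 a2 : ℝ)
    (h : ∃ᶠ n in atTop, a0 + a1 * Y n + a2 * Y n ^ 2 = 0) : a0 = 0 ∧ a1 = 0 ∧ a2 = 0 := by
  have hinv : Tendsto (fun n => (Y n)⁻¹) atTop (𝓝 0) := tendsto_inv_atTop_zero.comp hY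
  have hpos : ∀ᶠ n in atTop, 0 < Y n := hY.eventually_gt_atTop 0
  have key : ∀ b0 b1 : ℝ, (∃ᶠ n in atTop, b0 + b1 * Y n = 0) → b0 = 0 ∧ b1 = 0 := by
    intro b0 b1 hb
    have ht : Tendsto (fun n => b0 * (Y n)⁻¹ + b1) atTop (𝓝 (b0 * 0 + b1)) :=
      (hinv.const_mul b0).add_const b1
    have hf : ∃ᶠ n in atTop, b0 * (Y n)⁻¹ + b1 ∈ ({0} : Set ℝ) := by
      refine (hb.and_eventually hpos).mono ?_
      rintro n ⟨h1, h2⟩
      have : b0 * (Y n)⁻¹ + b1 = (b0 + b1 * Y n) * (Y n)⁻¹ := by field_simp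
      simp [this, h1]
    have hm := isClosed_singleton.mem_of_frequently_of_tendsto hf ht
    have hb1 : b1 = 0 := by simpa using hm
    refine ⟨?_, hb1⟩
    obtain ⟨n, hn⟩ := hb.exists
    simpa [hb1] using hn
  have ht : Tendsto (fun n => a0 * (Y n)⁻¹ * (Y n)⁻¹ + a1 * (Y n)⁻¹ + a2) atTop
      (𝓝 (a0 * 0 * 0 + a1 * 0 + a2)) :=
    (((hinv.const_mul a0).mul hinv).add (hinv.const_mul a1)).add_const a2
  have hf : ∃ᶠ n in atTop, a0 * (Y n)⁻¹ * (Y n)⁻¹ + a1 * (Y n)⁻¹ + a2 ∈ ({0} : Set ℝ) := by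
    refine (h.and_eventually hpos).mono ?_
    rintro n ⟨h1, h2⟩
    have : a0 * (Y n)⁻¹ * (Y n)⁻¹ + a1 * (Y n)⁻¹ + a2 =
        (a0 + a1 * Y n + a2 * Y n ^ 2) * (Y n)⁻¹ * (Y n)⁻¹ := by field_simp
    simp [this, h1]
  have hm := isClosed_singleton.mem_of_frequently_of_tendsto hf ht
  have ha2 : a2 = 0 := by simpa using hm
  have h' : ∃ᶠ n in atTop, a0 + a1 * Y n = 0 := by
    refine h.mono fun n hn => ?_
    simpa [ha2] using hn
  obtain ⟨r0, r1⟩ := key a0 a1 h'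
  exact ⟨r0, r1, ha2⟩

/-- Equality of the two quadratic forms along a sequence gives equality of coefficients. -/
lemma coef_aux {k l : ℕ} (u v : Fin k → ℝ) (u' v' : Fin l → ℝ) (Y : ℕ → ℝ)
    (hY : Tendsto Y atTop atTop)
    (h : ∃ᶠ n in atTop, ∑ ν, (u ν + v ν * Y n) ^ 2 = ∑ ν, (u' ν + v' ν * Y n) ^ 2) :
    ∑ ν, u ν ^ 2 = ∑ ν, u' ν ^ 2 ∧ ∑ ν, u ν * v ν = ∑ ν, u' ν * v' ν ∧
      ∑ ν, v ν ^ 2 = ∑ ν, v' ν ^ 2 := by
  have hexp : ∀ (m : ℕ) (p q : Fin m → ℝ) (y : ℝ),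
      ∑ ν, (p ν + q ν * y) ^ 2 = ∑ ν, p ν ^ 2 + 2 * (∑ ν, p ν * q ν) * y + (∑ ν, q ν ^ 2) * y ^ 2 := by
    intro m p q y
    rw [Finset.mul_sum, Finset.sum_mul, Finset.sum_mul, ← Finset.sum_add_distrib,
      ← Finset.sum_add_distrib]
    exact Finset.sum_congr rfl fun ν _ => by ring
  have h' : ∃ᶠ n in atTop, (∑ ν, u ν ^ 2 - ∑ ν, u' ν ^ 2) +
      (2 * (∑ ν, u ν * v ν) - 2 * (∑ ν, u' ν * v' ν)) * Y n +
      (∑ ν, v ν ^ 2 - ∑ ν, v' ν ^ 2) * Y n ^ 2 = 0 := by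
    refine h.mono fun n hn => ?_
    rw [hexp, hexp] at hn
    linarith
  obtain ⟨h0, h1, h2⟩ := poly_aux Y hY _ _ _ h'
  exact ⟨by linarith, by linarith, by linarith⟩

/-- A term of a sum of squares is bounded. -/
lemma term_aux {k l : ℕ} (p : Fin k → ℝ) (q : Fin l → ℝ) (M : ℝ) (hM : 0 ≤ M)
    (h : ∑ ν, p ν ^ 2 = ∑ ν, q ν ^ 2) (hq : ∀ ν, |q ν| ≤ M) (ν : Fin k) : |p ν| ≤ l * M := by
  have h1 : p ν ^ 2 ≤ ∑ ν, p ν ^ 2 :=
    Finset.single_le_sum (f := fun ν => p ν ^ 2) (fun i _ => sq_nonneg _) (Finset.mem_univ ν)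
  have h2 : ∑ ν, q ν ^ 2 ≤ ∑ _ν : Fin l, M ^ 2 := by
    refine Finset.sum_le_sum fun i _ => ?_
    rw [← sq_abs]
    exact pow_le_pow_left₀ (abs_nonneg _) (hq i) 2
  have h3 : ∑ _ν : Fin l, M ^ 2 = l * M ^ 2 := by simp
  have h4 : (l : ℝ) * M ^ 2 ≤ (l * M) ^ 2 := by
    rw [mul_pow]
    have : (l : ℝ) ≤ (l : ℝ) ^ 2 := by
      rcases Nat.eq_zero_or_pos l with h | h
      · simp [h]
      · have : (1 : ℝ) ≤ l := by exact_mod_cast h
        nlinarith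
    exact mul_le_mul_of_nonneg_right this (sq_nonneg _)
  have h5 : |p ν| ^ 2 ≤ (l * M) ^ 2 := by
    rw [sq_abs]
    linarith
  exact (pow_le_pow_iff_left₀ (abs_nonneg _) (by positivity) two_ne_zero).mp h5

end RR_

open RR_ in
theorem pRR : T_RR := by
  intro x θ hx hθ Y η hY D hη W' hW
  choose W hW using hW
  have hD : 0 ≤ D := le_trans (abs_nonneg _) (hη 0)
  -- a common bound for the values of the given forms
  obtain ⟨M, hM0, hM⟩ : ∃ M : ℝ, 0 ≤ M ∧ ∀ (φ : Fin 2) (ν : Fin 7),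
      |(W' ν 0 : ℝ) + W' ν 1 * x φ| ≤ M ∧ |(W' ν 2 : ℝ) + W' ν 3 * θ φ| ≤ M := by
    refine ⟨∑ φ : Fin 2, ∑ ν : Fin 7, (|(W' ν 0 : ℝ) + W' ν 1 * x φ| +
      |(W' ν 2 : ℝ) + W' ν 3 * θ φ|), by positivity, fun φ ν => ?_⟩
    have h1 : |(W' ν 0 : ℝ) + W' ν 1 * x φ| + |(W' ν 2 : ℝ) + W' ν 3 * θ φ| ≤
        ∑ ν : Fin 7, (|(W' ν 0 : ℝ) + W' ν 1 * x φ| + |(W' ν 2 : ℝ) + W' ν 3 * θ φ|) :=
      Finset.single_le_sum (f := fun ν => (|(W' ν 0 : ℝ) + W' ν 1 * x φ| +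
        |(W' ν 2 : ℝ) + W' ν 3 * θ φ|)) (fun i _ => by positivity) (Finset.mem_univ ν)
    have h2 : ∑ ν : Fin 7, (|(W' ν 0 : ℝ) + W' ν 1 * x φ| + |(W' ν 2 : ℝ) + W' ν 3 * θ φ|) ≤
        ∑ φ : Fin 2, ∑ ν : Fin 7, (|(W' ν 0 : ℝ) + W' ν 1 * x φ| +
          |(W' ν 2 : ℝ) + W' ν 3 * θ φ|) :=
      Finset.single_le_sum (f := fun φ => ∑ ν : Fin 7, (|(W' ν 0 : ℝ) + W' ν 1 * x φ| +
        |(W' ν 2 : ℝ) + W' ν 3 * θ φ|)) (fun i _ => by positivity) (Finset.mem_univ φ)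
    constructor
    · linarith [abs_nonneg ((W' ν 2 : ℝ) + W' ν 3 * θ φ)]
    · linarith [abs_nonneg ((W' ν 0 : ℝ) + W' ν 1 * x φ)]
  -- the four equations, grouped by `φ`
  have hY' : ∀ n (φ : Fin 2), ∑ ν, (((W n ν 0 : ℝ) + W n ν 1 * x φ) +
      ((W n ν 2 : ℝ) + W n ν 3 * θ φ) * Y n) ^ 2 =
      ∑ ν, (((W' ν 0 : ℝ) + W' ν 1 * x φ) + ((W' ν 2 : ℝ) + W' ν 3 * θ φ) * Y n) ^ 2 := by
    intro n φ
    fin_cases φ
    · simpa [bv] using hW n 0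
    · simpa [bv] using hW n 2
  have hη' : ∀ n (φ : Fin 2), ∑ ν, (((W n ν 0 : ℝ) + W n ν 1 * x φ) +
      ((W n ν 2 : ℝ) + W n ν 3 * θ φ) * η n) ^ 2 =
      ∑ ν, (((W' ν 0 : ℝ) + W' ν 1 * x φ) + ((W' ν 2 : ℝ) + W' ν 3 * θ φ) * η n) ^ 2 := by
    intro n φ
    fin_cases φ
    · simpa [bv] using hW n 1
    · simpa [bv] using hW n 3
  -- bounds for `u`, `v`
  have hbd : ∀ᶠ n in atTop, ∀ (φ : Fin 2) (ν : Fin 6),
      |(W n ν 0 : ℝ) + W n ν 1 * x φ| ≤ 7 * (M + M * D) + 28 * M * D ∧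
      |(W n ν 2 : ℝ) + W n ν 3 * θ φ| ≤ 28 * M := by
    filter_upwards [hY.eventually_ge_atTop (2 * D + 2)] with n hn φ ν
    have hηn := hη n
    have e1 := term_aux (fun ν => ((W n ν 0 : ℝ) + W n ν 1 * x φ) +
      ((W n ν 2 : ℝ) + W n ν 3 * θ φ) * η n)
      (fun ν => ((W' ν 0 : ℝ) + W' ν 1 * x φ) + ((W' ν 2 : ℝ) + W' ν 3 * θ φ) * η n)
      (M + M * D) (by positivity) (hη' n φ) (fun μ => by
        refine (abs_add_le _ _).trans ?_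
        rw [abs_mul]
        have := hM φ μ
        exact add_le_add this.1 (mul_le_mul this.2 hηn (abs_nonneg _) hM0)) ν
    have e2 := term_aux (fun ν => ((W n ν 0 : ℝ) + W n ν 1 * x φ) +
      ((W n ν 2 : ℝ) + W n ν 3 * θ φ) * Y n)
      (fun ν => ((W' ν 0 : ℝ) + W' ν 1 * x φ) + ((W' ν 2 : ℝ) + W' ν 3 * θ φ) * Y n)
      (M + M * Y n) (by have : 0 ≤ Y n := by linarith
                        positivity) (hY' n φ) (fun μ => by
        refine (abs_add_le _ _).trans ?_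
        rw [abs_mul]
        have := hM φ μ
        refine add_le_add this.1 (mul_le_mul this.2 ?_ (abs_nonneg _) hM0)
        rw [abs_of_nonneg (by linarith)]) ν
    push_cast at e1 e2
    set u : ℝ := (W n ν 0 : ℝ) + W n ν 1 * x φ with hu
    set v : ℝ := (W n ν 2 : ℝ) + W n ν 3 * θ φ with hv
    have hη2 : η n ≤ D := (abs_le.mp hηn).2
    have hv1 : |v| * (Y n / 2) ≤ 28 * M * (Y n / 2) := by
      have h1 : |v| * (Y n / 2) ≤ |v| * (Y n - η n) :=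
        mul_le_mul_of_nonneg_left (by linarith) (abs_nonneg _)
      have h2 : |v| * (Y n - η n) = |(u + v * Y n) - (u + v * η n)| := by
        have : (u + v * Y n) - (u + v * η n) = v * (Y n - η n) := by ring
        rw [this, abs_mul, abs_of_nonneg (a := Y n - η n) (by linarith)]
      have h3 : |(u + v * Y n) - (u + v * η n)| ≤ |u + v * Y n| + |u + v * η n| := abs_sub _ _
      have h4 : M * D ≤ M * (Y n) := mul_le_mul_of_nonneg_left (by linarith) hM0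
      have h5 : M * (2 + D + D) ≤ M * Y n := mul_le_mul_of_nonneg_left (by linarith) hM0
      have h6 : 0 ≤ M * D := by positivity
      linarith
    have hv2 : |v| ≤ 28 * M := le_of_mul_le_mul_right hv1 (by linarith)
    refine ⟨?_, hv2⟩
    have : u = (u + v * η n) - v * η n := by ring
    rw [this]
    refine (abs_sub _ _).trans ?_
    rw [abs_mul]
    have : |v| * |η n| ≤ 28 * M * D := mul_le_mul hv2 hηn (abs_nonneg _) (by positivity)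
    linarith
  obtain ⟨B1, hB1⟩ := bound_aux x hx (7 * (M + M * D) + 28 * M * D)
  obtain ⟨B2, hB2⟩ := bound_aux θ hθ (28 * M)
  obtain ⟨B, hB⟩ := exists_nat_ge (max B1 B2)
  have hfin : ({w : Fin 6 → Fin 4 → ℤ | ∀ ν i, |w ν i| ≤ (B : ℤ)}).Finite := by
    refine (Set.finite_Icc (fun _ _ => -(B : ℤ)) (fun _ _ => (B : ℤ))).subset ?_
    intro w hw
    constructor
    · intro ν i
      exact (abs_le.mp (hw ν i)).1
    · intro ν i
      exact (abs_le.mp (hw ν i)).2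
  have hev : ∀ᶠ n in atTop, W n ∈ {w : Fin 6 → Fin 4 → ℤ | ∀ ν i, |w ν i| ≤ (B : ℤ)} := by
    filter_upwards [hbd] with n hn ν i
    have h1 := hB1 (W n ν 0) (W n ν 1) (fun φ => (hn φ ν).1)
    have h2 := hB2 (W n ν 2) (W n ν 3) (fun φ => (hn φ ν).2)
    have c1 : B1 ≤ B := (le_max_left _ _).trans hB
    have c2 : B2 ≤ B := (le_max_right _ _).trans hB
    have : |(W n ν i : ℝ)| ≤ B := by
      fin_cases i
      · exact h1.1.trans c1
      · exact h1.2.trans c1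
      · exact h2.1.trans c2
      · exact h2.2.trans c2
    exact_mod_cast this
  obtain ⟨w, hw⟩ : ∃ w, ∃ᶠ n in atTop, W n = w := by
    by_contra hcon
    push Not at hcon
    have h1 : ∀ᶠ n in atTop, ∀ w ∈ {w : Fin 6 → Fin 4 → ℤ | ∀ ν i, |w ν i| ≤ (B : ℤ)}, W n ≠ w := by
      rw [Filter.eventually_all_finite hfin]
      intro w _
      have := hcon w
      simpa [Filter.not_frequently] using this
    obtain ⟨n, hn1, hn2⟩ := (h1.and hev).exists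
    exact hn1 _ hn2 rfl
  refine ⟨w, fun φ => ?_⟩
  refine coef_aux (fun ν => (w ν 0 : ℝ) + w ν 1 * x φ) (fun ν => (w ν 2 : ℝ) + w ν 3 * θ φ)
    (fun ν => (W' ν 0 : ℝ) + W' ν 1 * x φ) (fun ν => (W' ν 2 : ℝ) + W' ν 3 * θ φ) Y hY ?_
  refine hw.mono fun n hn => ?_
  have := hY' n φ
  rw [hn] at this
  exact this

end P7
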