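import Pool.Agent.P7.Targets

/-!
# Symmetry of the property `Bad` in its first two arguments
-/

namespace P7

namespace SWAP

/-- Exchange of the last two coordinates. -/
def sw (v : Fin 4 → ℤ) : Fin 4 → ℤ := vec (v 0) (v 1) (v 3) (v 2)

theorem sq_comm' (m n : ℕ) : sq m n = sq n m := by
  unfold sq
  rw [Nat.mul_comm]

theorem val0 (a b c : ℕ) (v : Fin 4 → ℤ) : val b a c 0 (sw v) = val a b c 0 v := by
  simp [val, ev, sw, vec, sq_comm' b a]
  ring

theorem val1 (a b c : ℕ) (v : Fin 4 → ℤ) : val b a c 1 (sw v) = val a b c 1 v := by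
  simp [val, ev, sw, vec, sq_comm' b a]
  ring

theorem val2 (a b c : ℕ) (v : Fin 4 → ℤ) : val b a c 2 (sw v) = val a b c 3 v := by
  simp [val, ev, sw, vec, sq_comm' b a]
  ring

theorem val3 (a b c : ℕ) (v : Fin 4 → ℤ) : val b a c 3 (sw v) = val a b c 2 v := by
  simp [val, ev, sw, vec, sq_comm' b a]
  ring

theorem sw_mem (a b c : ℕ) (v : Fin 4 → ℤ) (h : v ∈ Lam a b c) : sw v ∈ Lam b a c := by
  show IsIntegral ℤ (val b a c 0 (sw v))
  rw [val0]
  exact h

end SWAP

open SWAP in
theorem tSWAP : T_SWAP := by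
  intro a b c hbad f hf
  obtain ⟨g, hg, hgv⟩ := hbad (fun ν => sw (f ν)) (fun ν => sw_mem b a c _ (hf ν))
  refine ⟨fun ν => sw (g ν), fun ν => sw_mem a b c _ (hg ν), ?_⟩
  intro j
  fin_cases j
  · have h := hgv 0
    simpa only [val0, Fin.zero_eta] using h
  · have h := hgv 1
    simpa only [val1, Fin.mk_one] using h
  · have h := hgv 3
    simpa only [val2, val3, Fin.reduceFinMk] using h
  · have h := hgv 2
    simpa only [val2, val3, Fin.reduceFinMk] using h

end P7
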