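import Mathlib
import Pool.Agent.P7.Targets

/-!
# Every biquadratic field comes from an admissible triple
-/

open scoped NumberField

namespace P7

namespace TRIPLE

theorem comm23 (x y z : ℕ) : biquad (x * y) (x * z) = biquad (x * z) (x * y) := by
  unfold biquad
  rw [Set.pair_comm]

theorem le12 {x y z : ℕ} (hx : 0 < x) : biquad (y * x) (y * z) ≤ biquad (x * y) (x * z) := by
  unfold biquad
  rw [IntermediateField.adjoin_le_iff]
  have h1 : √((x * y : ℕ) : ℝ) ∈ IntermediateField.adjoin ℚ {√((x * y : ℕ) : ℝ), √((x * z : ℕ) : ℝ)} :=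
    IntermediateField.subset_adjoin _ _ (by simp)
  have h2 : √((x * z : ℕ) : ℝ) ∈ IntermediateField.adjoin ℚ {√((x * y : ℕ) : ℝ), √((x * z : ℕ) : ℝ)} :=
    IntermediateField.subset_adjoin _ _ (by simp)
  intro w hw
  rcases hw with rfl | hw
  · rw [mul_comm y x]
    exact h1
  · rw [Set.mem_singleton_iff] at hw
    subst hw
    have hx' : (0 : ℝ) < x := by exact_mod_cast hx
    have h3 : √((y * z : ℕ) : ℝ) = √((x * y : ℕ) : ℝ) * √((x * z : ℕ) : ℝ) * ((x : ℚ)⁻¹ : ℚ) := by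
      rw [← Real.sqrt_mul (by positivity)]
      have h4 : (((x * y : ℕ) : ℝ) * ((x * z : ℕ) : ℝ)) = ((y * z : ℕ) : ℝ) * (x : ℝ) ^ 2 := by
        push_cast; ring
      rw [h4, Real.sqrt_mul (by positivity), Real.sqrt_sq hx'.le]
      push_cast
      field_simp
    rw [h3]
    refine mul_mem (mul_mem h1 h2) ?_
    have := IntermediateField.algebraMap_mem
      (IntermediateField.adjoin ℚ {√((x * y : ℕ) : ℝ), √((x * z : ℕ) : ℝ)}) ((x : ℚ)⁻¹)
    simpa using this

theorem swap12 {x y z : ℕ} (hx : 0 < x) (hy : 0 < y) :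
    biquad (x * y) (x * z) = biquad (y * x) (y * z) :=
  le_antisymm (le12 hy) (le12 hx)

theorem sorted {x y z : ℕ} (hx : 1 ≤ x) (hy : 1 ≤ y) (hz : 1 ≤ z) (hxy : x ≠ y) (hxz : x ≠ z)
    (hyz : y ≠ z) (hsq : Squarefree (x * y * z)) :
    ∃ a b c : ℕ, 1 ≤ a ∧ a < b ∧ b < c ∧ Squarefree (a * b * c) ∧
      biquad (x * y) (x * z) = biquad (a * b) (a * c) := by
  rcases lt_or_gt_of_ne hxy with h1 | h1 <;> rcases lt_or_gt_of_ne hxz with h2 | h2 <;>
    rcases lt_or_gt_of_ne hyz with h3 | h3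
  · exact ⟨x, y, z, hx, h1, h3, hsq, rfl⟩
  · exact ⟨x, z, y, hx, h2, h3, by rwa [show x * z * y = x * y * z by ring], comm23 _ _ _⟩
  · omega
  · -- z < x < y
    refine ⟨z, x, y, hz, h2, h1, by rwa [show z * x * y = x * y * z by ring], ?_⟩
    rw [comm23 x y z, swap12 hx hz]
  · -- y < x < z
    refine ⟨y, x, z, hy, h1, h2, by rwa [show y * x * z = x * y * z by ring], ?_⟩
    rw [swap12 hx hy]
  · omega
  · -- y < z < x
    refine ⟨y, z, x, hy, h3, h2, by rwa [show y * z * x = x * y * z by ring], ?_⟩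
    rw [swap12 hx hy, comm23]
  · -- z < y < x
    refine ⟨z, y, x, hz, h3, h1, by rwa [show z * y * x = x * y * z by ring], ?_⟩
    rw [comm23 x y z, swap12 hx hz, comm23]

end TRIPLE

open TRIPLE in
theorem tTRIPLE : T_TRIPLE := by
  rintro K ⟨p, q, hp, hq, hpq, hsp, hsq, rfl⟩
  obtain ⟨g, p', q', hg, hcop, rfl, rfl⟩ : ∃ g p' q', 0 < g ∧ Nat.Coprime p' q' ∧ p = g * p' ∧
      q = g * q' := by
    refine ⟨Nat.gcd p q, p / Nat.gcd p q, q / Nat.gcd p q, Nat.gcd_pos_of_pos_left _ (by omega),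
      Nat.coprime_div_gcd_div_gcd (Nat.gcd_pos_of_pos_left _ (by omega)), ?_, ?_⟩
    · rw [Nat.mul_div_cancel' (Nat.gcd_dvd_left p q)]
    · rw [Nat.mul_div_cancel' (Nat.gcd_dvd_right p q)]
  obtain ⟨c1, s1, s2⟩ := Nat.squarefree_mul_iff.mp hsp
  obtain ⟨c2, -, s3⟩ := Nat.squarefree_mul_iff.mp hsq
  have hp' : 1 ≤ p' := by
    rcases Nat.eq_zero_or_pos p' with h | h
    · subst h; omega
    · exact h
  have hq' : 1 ≤ q' := by
    rcases Nat.eq_zero_or_pos q' with h | h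
    · subst h; omega
    · exact h
  have n1 : g ≠ p' := by
    rintro rfl
    rw [Nat.coprime_self] at c1
    subst c1
    omega
  have n2 : g ≠ q' := by
    rintro rfl
    rw [Nat.coprime_self] at c2
    subst c2
    omega
  have n3 : p' ≠ q' := by
    rintro rfl
    exact hpq rfl
  have hs : Squarefree (g * p' * q') := by
    rw [Nat.squarefree_mul_iff]
    exact ⟨Nat.Coprime.mul_left c2 hcop, hsp, s3⟩
  obtain ⟨a, b, c, ha, hab, hbc, habc, hK⟩ := sorted hg hp' hq' n1 n2 n3 hs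
  refine ⟨a, b, c, ha, hab, hbc, ⟨habc, ?_, ?_, ?_⟩, hK⟩
  · nlinarith
  · nlinarith
  · nlinarith

end P7
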